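import Pool.Agent.H56Q.Stm

/-!
# Piece ADJ of project RQ (helper56), written by helper78
-/

set_option autoImplicit false

namespace Pool.Agent.H56Q

open Pool.Agent.Helper2GI Pool.Agent.Helper2GI.RA

private theorem ADJ_ev {E : Type} {G : RA E} {x : G.W} (h : Ev x) (k : G.W) :
    Ev (k⁻¹ * x * k) := by
  intro a
  rw [map_mul, map_mul, h a, mul_one, map_inv, inv_mul_cancel]

private theorem ADJ_ne {Q : Type} [Group Q] {x : Q} (h : x ≠ 1) (k : Q) : k⁻¹ * x * k ≠ 1 := by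
  intro h1
  apply h
  have h2 : x = k * (k⁻¹ * x * k) * k⁻¹ := by group
  rw [h2, h1]; group

theorem t_ADJ (hI : S_INT) (hC : S_CJ) : S_ADJ := by
  intro V D tw v w g g' x y hEx hEy hx hy hDx hDy hxy
  have h1 : InS v (g⁻¹ * y * g) := by
    refine hC V D tw v (g⁻¹ * x * g) (g⁻¹ * y * g) (ADJ_ev hEx g) (ADJ_ne hx g) hDx ?_
    have e : y * x * y⁻¹ = x := by rw [← hxy]; group
    have e2 : (g⁻¹ * y * g) * (g⁻¹ * x * g) * (g⁻¹ * y * g)⁻¹ = g⁻¹ * (y * x * y⁻¹) * g := by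
      group
    rw [e2, e]; exact hDx
  obtain ⟨q, hq1, hq2⟩ := hI (Lt tw) (TG D tw) (fun a => a.1.1 = v ∨ D.Adj v a.1.1)
    (fun a => a.1.1 = w) g g'
  have h2 := hq2 y h1 hDy
  have h3 : InS w (g'⁻¹ * q) := by
    refine hC V D tw w (q⁻¹ * y * q) (g'⁻¹ * q) (ADJ_ev hEy q) (ADJ_ne hy q)
      (Par.mono (fun a h => h.2) h2) ?_
    have e : (g'⁻¹ * q) * (q⁻¹ * y * q) * (g'⁻¹ * q)⁻¹ = g'⁻¹ * y * g' := by group
    rw [e]; exact hDy
  by_cases hvw : w = v
  · subst hvw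
    left
    refine ⟨rfl, ?_⟩
    have e : g⁻¹ * g' = (g⁻¹ * q) * (g'⁻¹ * q)⁻¹ := by group
    rw [e]
    exact Par.mul hq1 (Par.inv h3)
  · by_cases had : D.Adj v w
    · right
      exact ⟨had, q, hq1, h3⟩
    · exfalso
      apply ADJ_ne hy q
      obtain ⟨m, hm1, hm2⟩ := h2
      cases m with
      | nil => rw [← hm2]; rfl
      | cons a m =>
        exfalso
        have h4 := hm1 a List.mem_cons_self
        obtain ⟨h5, h6⟩ := h4
        have h6' : a.1.1 = w := h6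
        rcases h5 with h5 | h5
        · exact hvw (h6'.symm.trans h5)
        · exact had (h6' ▸ h5)

end Pool.Agent.H56Q
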