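import Pool.Agent.H56Q.Stm

/-!
# Project RQ, piece BET (helper74)
-/

set_option autoImplicit false

namespace Pool.Agent.H56Q

open Pool.Agent.Helper2GI Pool.Agent.Helper2GI.RA

/-- words without two equal consecutive letters -/
abbrev BWd : Type := {l : List (Fin 3) // l.IsChain (· ≠ ·)}

/-- multiplication by a letter at the head -/
def btog (i : Fin 3) : BWd → BWd
  | ⟨[], _⟩ => ⟨[i], by simp⟩
  | ⟨a :: t, h⟩ => if hia : i = a then ⟨t, by
      cases t with
      | nil => simp
      | cons b t => exact (List.isChain_cons_cons.1 h).2⟩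
    else ⟨i :: a :: t, List.isChain_cons_cons.2 ⟨hia, h⟩⟩

theorem btog_btog (i : Fin 3) (w : BWd) : btog i (btog i w) = w := by
  obtain ⟨l, h⟩ := w
  cases l with
  | nil => simp [btog]
  | cons a t =>
    by_cases hia : i = a
    · subst hia
      cases t with
      | nil => simp [btog]
      | cons b t =>
        have hb := (List.isChain_cons_cons.1 h).1
        simp [btog, hb]
    · simp [btog, hia]

theorem btog_of_ne (i : Fin 3) (w : BWd) (h : w.1.head? ≠ some i) :
    (btog i w).1 = i :: w.1 := by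
  obtain ⟨l, hl⟩ := w
  cases l with
  | nil => simp [btog]
  | cons a t =>
    have hia : i ≠ a := by
      rintro rfl
      exact h rfl
    simp [btog, hia]

/-- the permutation of a letter -/
def bperm (i : Fin 3) : Equiv.Perm BWd := Function.Involutive.toPerm (btog i) (btog_btog i)

theorem bperm_apply (i : Fin 3) (w : BWd) : bperm i w = btog i w := rfl

theorem bperm_sq (i : Fin 3) : bperm i * bperm i = 1 := by
  ext1 w
  rw [Equiv.Perm.mul_apply, bperm_apply, bperm_apply, btog_btog, Equiv.Perm.one_apply]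

/-- three letters of the link -/
def blt (j : ZMod 5) : Fin 3 → ZMod 5 × Bool
  | 0 => (j + 1, false)
  | 1 => (j + 1, true)
  | 2 => (j - 1, false)

theorem blt_adj (j : ZMod 5) (i : Fin 3) : (blt j i).1 = j + 1 ∨ j = (blt j i).1 + 1 := by
  fin_cases i <;> simp [blt]

theorem blt_nadj (j : ZMod 5) (i i' : Fin 3) : ¬ KR.adj (blt j i) (blt j i') := by
  have key : ∀ (j : ZMod 5) (i i' : Fin 3),
      ¬ ((blt j i').1 = (blt j i).1 + 1 ∨ (blt j i).1 = (blt j i').1 + 1) := by decide
  exact key j i i'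

theorem blt_inj (j : ZMod 5) : Function.Injective (blt j) := by
  have key : ∀ (j : ZMod 5) (i i' : Fin 3), blt j i = blt j i' → i = i' := by decide
  exact fun i i' => key j i i'

theorem blt_ne (j : ZMod 5) (b : Bool) (i : Fin 3) : (j, b) ≠ blt j i := by
  have key : ∀ (j : ZMod 5) (b : Bool) (i : Fin 3), (j, b) ≠ blt j i := by decide
  exact key j b i

open Classical in
/-- the image of a letter -/
noncomputable def bf (j : ZMod 5) (a : ZMod 5 × Bool) : Equiv.Perm BWd :=
  if h : ∃ i, a = blt j i then bperm h.choose else 1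

theorem bf_blt (j : ZMod 5) (i : Fin 3) : bf j (blt j i) = bperm i := by
  have h : ∃ i', blt j i = blt j i' := ⟨i, rfl⟩
  unfold bf
  rw [dif_pos h]
  congr 1
  exact (blt_inj j h.choose_spec).symm

theorem bf_sq (j : ZMod 5) (a : ZMod 5 × Bool) : bf j a * bf j a = 1 := by
  by_cases h : ∃ i, a = blt j i
  · obtain ⟨i, rfl⟩ := h
    rw [bf_blt, bperm_sq]
  · unfold bf
    rw [dif_neg h, one_mul]

theorem bf_comm (j : ZMod 5) (a b : ZMod 5 × Bool) (hab : KR.adj a b) :
    bf j a * bf j b = bf j b * bf j a := by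
  by_cases ha : ∃ i, a = blt j i
  · by_cases hb : ∃ i, b = blt j i
    · obtain ⟨i, rfl⟩ := ha
      obtain ⟨i', rfl⟩ := hb
      exact absurd hab (blt_nadj j i i')
    · have : bf j b = 1 := by unfold bf; rw [dif_neg hb]
      rw [this, one_mul, mul_one]
  · have : bf j a = 1 := by unfold bf; rw [dif_neg ha]
    rw [this, one_mul, mul_one]

/-- the homomorphism to the permutations of the words -/
noncomputable def bphi (j : ZMod 5) : KR.W →* Equiv.Perm BWd := hom (bf j) (bf_sq j) (bf_comm j)

/-- the word of the projection to the group of the three letters -/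
noncomputable def bwd (j : ZMod 5) (k : KR.W) : BWd := bphi j k⁻¹ ⟨[], by simp⟩

theorem bwd_mul (j : ZMod 5) (k : KR.W) (i : Fin 3) :
    bwd j (k * KR.g (blt j i)) = btog i (bwd j k) := by
  unfold bwd
  rw [mul_inv_rev, g_inv, map_mul, Equiv.Perm.mul_apply]
  have : bphi j (KR.g (blt j i)) = bperm i := by
    unfold bphi
    rw [hom_g, bf_blt]
  rw [this, bperm_apply]

theorem bphi_D (j : ZMod 5) (d : KR.W) (hd : d ∈ DK j) : bphi j d = 1 := by
  have h : DK j ≤ (bphi j).ker := by
    unfold DK
    rw [Subgroup.closure_le]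
    have key : ∀ b : Bool, bphi j (KR.g (j, b)) = 1 := by
      intro b
      have hb : ¬ ∃ i, (j, b) = blt j i := fun ⟨i, hi⟩ => blt_ne j b i hi
      unfold bphi
      rw [hom_g]
      unfold bf
      rw [dif_neg hb]
    intro x hx
    rcases hx with rfl | hx
    · exact key false
    · rw [Set.mem_singleton_iff] at hx
      subst hx
      exact key true
  exact h hd

theorem bwd_D (j : ZMod 5) (k d : KR.W) (hd : d ∈ DK j) : bwd j (k * d) = bwd j k := by
  unfold bwd
  rw [mul_inv_rev, map_mul, bphi_D j d⁻¹ ((DK j).inv_mem hd), one_mul]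

/-- letters of the link commute with `D` -/
theorem bcomm (j : ZMod 5) (i : Fin 3) (d : KR.W) (hd : d ∈ DK j) :
    KR.g (blt j i) * d = d * KR.g (blt j i) := by
  have h : DK j ≤ Subgroup.centralizer {KR.g (blt j i)} := by
    unfold DK
    rw [Subgroup.closure_le]
    have key : ∀ b : Bool, KR.g (j, b) ∈ Subgroup.centralizer {KR.g (blt j i)} := by
      intro b
      rw [Subgroup.mem_centralizer_singleton_iff]
      refine gcomm ?_
      exact blt_adj j i
    intro x hx
    rcases hx with rfl | hx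
    · exact key false
    · rw [Set.mem_singleton_iff] at hx
      subst hx
      exact key true
  have h1 := h hd
  rw [Subgroup.mem_centralizer_singleton_iff] at h1
  exact h1.symm

/-- the step on cosets -/
noncomputable def bstep (j : ZMod 5) (i : Fin 3) (c : KR.W ⧸ DK j) : KR.W ⧸ DK j :=
  ((Quotient.out c * KR.g (blt j i) : KR.W) : KR.W ⧸ DK j)

theorem bstep_mk (j : ZMod 5) (i : Fin 3) (k : KR.W) :
    bstep j i (k : KR.W ⧸ DK j) = ((k * KR.g (blt j i) : KR.W) : KR.W ⧸ DK j) := by
  obtain ⟨d, hd⟩ := QuotientGroup.mk_out_eq_mul (DK j) k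
  unfold bstep
  have h1 : (Quotient.out (k : KR.W ⧸ DK j)) = k * (d : KR.W) := hd
  rw [h1, QuotientGroup.eq]
  have h2 : (k * (d : KR.W) * KR.g (blt j i))⁻¹ * (k * KR.g (blt j i)) =
      (KR.g (blt j i))⁻¹ * (((d : KR.W)⁻¹) * KR.g (blt j i)) := by group
  rw [h2, ← bcomm j i _ ((DK j).inv_mem d.2), inv_mul_cancel_left]
  exact (DK j).inv_mem d.2

theorem bstep_bstep (j : ZMod 5) (i : Fin 3) (c : KR.W ⧸ DK j) : bstep j i (bstep j i c) = c := by
  induction c using QuotientGroup.induction_on with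
  | H k => rw [bstep_mk, bstep_mk, mul_assoc, gg, mul_one]

/-- the word of a coset -/
noncomputable def bcw (j : ZMod 5) (c : KR.W ⧸ DK j) : BWd := bwd j (Quotient.out c)

theorem bcw_mk (j : ZMod 5) (k : KR.W) : bcw j (k : KR.W ⧸ DK j) = bwd j k := by
  obtain ⟨d, hd⟩ := QuotientGroup.mk_out_eq_mul (DK j) k
  unfold bcw
  have h1 : (Quotient.out (k : KR.W ⧸ DK j)) = k * (d : KR.W) := hd
  rw [h1, bwd_D j k d d.2]

theorem bcw_step (j : ZMod 5) (i : Fin 3) (c : KR.W ⧸ DK j) :
    bcw j (bstep j i c) = btog i (bcw j c) := by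
  induction c using QuotientGroup.induction_on with
  | H k => rw [bstep_mk, bcw_mk, bcw_mk, bwd_mul]

/-- two letters different from the head -/
def bch (h : Option (Fin 3)) : Bool → Fin 3
  | false => if h = some 0 then 1 else 0
  | true => if h = some 0 ∨ h = some 1 then 2 else 1

theorem bch_ne (h : Option (Fin 3)) (b : Bool) : h ≠ some (bch h b) := by
  revert h b
  decide

theorem bch_inj (h : Option (Fin 3)) (b b' : Bool) (e : bch h b = bch h b') : b = b' := by
  revert h b b'
  decide

/-- the second injection -/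
noncomputable def bG (j : ZMod 5) (p : (KR.W ⧸ DK j) × Bool) : KR.W ⧸ DK j :=
  bstep j (bch (bcw j p.1).1.head? p.2) p.1

theorem bG_inj (j : ZMod 5) : Function.Injective (bG j) := by
  rintro ⟨c, b⟩ ⟨c', b'⟩ h
  have h1 := congrArg (fun x => (bcw j x).1) h
  unfold bG at h h1
  simp only [bcw_step] at h1
  rw [btog_of_ne _ _ (bch_ne _ _), btog_of_ne _ _ (bch_ne _ _)] at h1
  injection h1 with h2 h3
  simp only at h h2 h3
  rw [h2] at h
  have h4 : c = c' := by
    have := congrArg (bstep j (bch (bcw j c').1.head? b')) h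
    rwa [bstep_bstep, bstep_bstep] at this
  subst h4
  have h5 := bch_inj _ _ _ h2
  subst h5
  rfl

theorem t_BET : S_BET := by
  intro j
  obtain ⟨h, hb, hr⟩ := Function.Embedding.schroeder_bernstein_of_rel
    (f := fun c : KR.W ⧸ DK j => (c, false)) (g := bG j)
    (fun c c' e => (Prod.mk.inj e).1) (bG_inj j)
    (fun c p => p.1 = c ∨ ∃ i, p.1 = bstep j i c)
    (fun c => Or.inl rfl)
    (fun p => Or.inr ⟨bch (bcw j p.1).1.head? p.2, by unfold bG; rw [bstep_bstep]⟩)
  refine ⟨Equiv.ofBijective h hb, ?_⟩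
  intro k
  rcases hr (k : KR.W ⧸ DK j) with h1 | ⟨i, h1⟩
  · refine ⟨1, Or.inl rfl, ?_⟩
    rw [mul_one]
    exact h1
  · refine ⟨KR.g (blt j i), Or.inr ⟨blt j i, blt_adj j i, rfl⟩, ?_⟩
    rw [← bstep_mk]
    exact h1

end Pool.Agent.H56Q
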