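import Pool.Agent.H56Q.Stm

/-!
Project RQ (helper56), piece BIJ (helper4): the correspondence of the pentagons.
-/

set_option autoImplicit false

namespace Pool.Agent.H56Q

open Pool.Agent.Helper2GI Pool.Agent.Helper2GI.RA

namespace BIJ4

section
variable {V₁ V₂ : Type} {D₁ : SimpleGraph V₁} {D₂ : SimpleGraph V₂}
  {tw₁ : V₁ → Prop} {tw₂ : V₂ → Prop}

/-- related pairs -/
def Rel (H₁ : Subgroup (TG D₁ tw₁).W) (H₂ : Subgroup (TG D₂ tw₂).W) (φ : H₁ ≃* H₂)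
    (a : (TG D₁ tw₁).W × Wk D₁) (b : (TG D₂ tw₂).W × Wk D₂) : Prop :=
  ∃ x : ZMod 5 → H₁, ∀ i, x i ≠ 1 ∧ InD (a.2.1 i) (a.1⁻¹ * (x i).1 * a.1) ∧
    InD (b.2.1 i) (b.1⁻¹ * (φ (x i)).1 * b.1)

theorem Rel.symm {H₁ : Subgroup (TG D₁ tw₁).W} {H₂ : Subgroup (TG D₂ tw₂).W} {φ : H₁ ≃* H₂}
    {a : (TG D₁ tw₁).W × Wk D₁} {b : (TG D₂ tw₂).W × Wk D₂} (h : Rel H₁ H₂ φ a b) :
    Rel H₂ H₁ φ.symm b a := by
  obtain ⟨x, hx⟩ := h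
  refine ⟨fun i => φ (x i), fun i => ⟨?_, (hx i).2.2, ?_⟩⟩
  · intro h1
    exact (hx i).1 (by simpa using h1)
  · rw [MulEquiv.symm_apply_apply]
    exact (hx i).2.1

theorem exRel (hP : S_PEN) (hO : S_GON) (hNT₁ : NT D₁) (hNT₂ : NT D₂) (hNS₂ : NS D₂)
    (ht₁ : ∀ (σ : Wk D₁) i, tw₁ (σ.1 i))
    (H₁ : Subgroup (TG D₁ tw₁).W) (H₂ : Subgroup (TG D₂ tw₂).W) (φ : H₁ ≃* H₂)
    (hi : H₁.index ≠ 0) (hE₂ : ∀ x ∈ H₂, Ev x) (a : (TG D₁ tw₁).W × Wk D₁) :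
    ∃ b : (TG D₂ tw₂).W × Wk D₂, Rel H₁ H₂ φ a b := by
  obtain ⟨x, hx, hc, hn⟩ := hO V₁ D₁ tw₁ hNT₁ H₁ hi a.1 a.2 (ht₁ a.2)
  have hcc : ∀ i, (⟨x i, (hx i).1⟩ : H₁) * ⟨x (i + 1), (hx (i + 1)).1⟩ =
      ⟨x (i + 1), (hx (i + 1)).1⟩ * ⟨x i, (hx i).1⟩ := fun i => Subtype.ext (hc i)
  obtain ⟨w, u, hu⟩ := hP V₂ D₂ tw₂ hNT₂ hNS₂ (fun i => (φ ⟨x i, (hx i).1⟩).1)
    (fun i => hE₂ _ (φ ⟨x i, (hx i).1⟩).2)
    (fun i => by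
      have h := congrArg (fun z => (φ z).1) (hcc i)
      simp only [map_mul, Subgroup.coe_mul] at h
      exact h)
    (fun i => by
      intro p q hp hq h
      apply hn i p q hp hq
      have h1 : φ (⟨x i, (hx i).1⟩ ^ p * ⟨x (i + 2), (hx (i + 2)).1⟩ ^ q) =
          φ (⟨x (i + 2), (hx (i + 2)).1⟩ ^ q * ⟨x i, (hx i).1⟩ ^ p) := by
        apply Subtype.ext
        simp only [map_mul, map_pow, Subgroup.coe_mul, Subgroup.coe_pow]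
        exact h
      have h2 := congrArg Subtype.val (φ.injective h1)
      simp only [Subgroup.coe_mul, Subgroup.coe_pow] at h2
      exact h2)
  refine ⟨(w, u), fun i => ⟨x i, (hx i).1⟩, fun i => ⟨?_, (hx i).2.2.2, hu i⟩⟩
  intro h
  exact (hx i).2.2.1 (congrArg Subtype.val h)

theorem lineRel (hT : S_GTH) (hNT₁ : NT D₁) (hNT₂ : NT D₂)
    (H₁ : Subgroup (TG D₁ tw₁).W) (H₂ : Subgroup (TG D₂ tw₂).W) (φ : H₁ ≃* H₂)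
    (hE₁ : ∀ x ∈ H₁, Ev x) (hE₂ : ∀ x ∈ H₂, Ev x)
    {a a' : (TG D₁ tw₁).W × Wk D₁} {b b' : (TG D₂ tw₂).W × Wk D₂}
    (h : Rel H₁ H₂ φ a b) (h' : Rel H₁ H₂ φ a' b') (i j : ZMod 5) :
    (a.2.1 i = a'.2.1 j ∧ InS (a.2.1 i) (a.1⁻¹ * a'.1)) ↔
    (b.2.1 i = b'.2.1 j ∧ InS (b.2.1 i) (b.1⁻¹ * b'.1)) := by
  obtain ⟨x, hx⟩ := h
  obtain ⟨x', hx'⟩ := h'
  have g1 := (hT V₁ D₁ tw₁ hNT₁).1 (a.2.1 i) (a'.2.1 j) a.1 a'.1 (x i).1 (x' j).1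
    (hE₁ _ (x i).2) (hE₁ _ (x' j).2) (fun hh => (hx i).1 (Subtype.ext hh))
    (fun hh => (hx' j).1 (Subtype.ext hh)) (hx i).2.1 (hx' j).2.1
  have g2 := (hT V₂ D₂ tw₂ hNT₂).1 (b.2.1 i) (b'.2.1 j) b.1 b'.1 (φ (x i)).1 (φ (x' j)).1
    (hE₂ _ (φ (x i)).2) (hE₂ _ (φ (x' j)).2)
    (fun hh => (hx i).1 (by simpa using (Subtype.ext hh : φ (x i) = 1)))
    (fun hh => (hx' j).1 (by simpa using (Subtype.ext hh : φ (x' j) = 1)))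
    (hx i).2.2 (hx' j).2.2
  rw [← g1, ← g2]
  constructor
  · rintro ⟨p, q, hp, hq, he⟩
    refine ⟨p, q, hp, hq, ?_⟩
    have h1 : (x i) ^ p = (x' j) ^ q := Subtype.ext (by simpa using he)
    have h2 := congrArg (fun z => (φ z).1) h1
    simpa using h2
  · rintro ⟨p, q, hp, hq, he⟩
    refine ⟨p, q, hp, hq, ?_⟩
    have h1 : φ ((x i) ^ p) = φ ((x' j) ^ q) := Subtype.ext (by simpa using he)
    have h2 := congrArg Subtype.val (φ.injective h1)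
    simpa using h2

theorem uniqRel (hT : S_GTH) (hNT₁ : NT D₁) (hNT₂ : NT D₂)
    (H₁ : Subgroup (TG D₁ tw₁).W) (H₂ : Subgroup (TG D₂ tw₂).W) (φ : H₁ ≃* H₂)
    (hE₁ : ∀ x ∈ H₁, Ev x) (hE₂ : ∀ x ∈ H₂, Ev x)
    {a : (TG D₁ tw₁).W × Wk D₁} {b b' : (TG D₂ tw₂).W × Wk D₂}
    (h : Rel H₁ H₂ φ a b) (h' : Rel H₁ H₂ φ a b') : b = b' := by
  have key : ∀ i, b.2.1 i = b'.2.1 i ∧ InS (b.2.1 i) (b.1⁻¹ * b'.1) := by
    intro i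
    refine (lineRel hT hNT₁ hNT₂ H₁ H₂ φ hE₁ hE₂ h h' i i).1 ⟨rfl, ?_⟩
    rw [inv_mul_cancel]
    exact Par.one _
  have h1 := (hT V₂ D₂ tw₂ hNT₂).2 b.2 (b.1⁻¹ * b'.1) (fun i => (key i).2)
  have h2 : b.1 = b'.1 := by
    rw [inv_mul_eq_one] at h1
    exact h1
  refine Prod.ext h2 (Subtype.ext (funext fun i => (key i).1))

end

end BIJ4

open BIJ4 in
theorem t_BIJ (hP : S_PEN) (hT : S_GTH) (hO : S_GON) : S_BIJ := by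
  intro V₁ V₂ D₁ D₂ tw₁ tw₂ hNT₁ hNS₁ hNT₂ hNS₂ ht₁ ht₂ H₁ H₂ φ hi₁ hi₂ hE₁ hE₂
  have ex1 : ∀ a, ∃ b, Rel H₁ H₂ φ a b :=
    exRel hP hO hNT₁ hNT₂ hNS₂ ht₁ H₁ H₂ φ hi₁ hE₂
  have ex2 : ∀ b, ∃ a, Rel H₂ H₁ φ.symm b a :=
    exRel hP hO hNT₂ hNT₁ hNS₁ ht₂ H₂ H₁ φ.symm hi₂ hE₁
  choose F hF using ex1
  choose F' hF' using ex2
  have un : ∀ {a b}, Rel H₁ H₂ φ a b → F a = b := fun h =>
    uniqRel hT hNT₁ hNT₂ H₁ H₂ φ hE₁ hE₂ (hF _) h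
  have un' : ∀ {a b}, Rel H₂ H₁ φ.symm b a → F' b = a := fun h =>
    uniqRel hT hNT₂ hNT₁ H₂ H₁ φ.symm hE₂ hE₁ (hF' _) h
  refine ⟨⟨⟨F, F', ?_, ?_⟩, ?_, ?_, ?_, ?_⟩⟩
  · intro a
    exact un' (hF a).symm
  · intro b
    exact un (hF' b).symm
  · rintro h a
    show F (h.1 * a.1, a.2) = ((φ h).1 * (F a).1, (F a).2)
    apply un
    obtain ⟨x, hx⟩ := hF a
    refine ⟨fun i => h * x i * h⁻¹, fun i => ⟨?_, ?_, ?_⟩⟩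
    · intro h1
      apply (hx i).1
      have h2 : h * x i * h⁻¹ = 1 := h1
      have : x i = h⁻¹ * (h * x i * h⁻¹) * h := by group
      rw [this, h2]
      group
    · have : (h.1 * a.1)⁻¹ * (h * x i * h⁻¹ : H₁).1 * (h.1 * a.1) = a.1⁻¹ * (x i).1 * a.1 := by
        simp only [Subgroup.coe_mul, Subgroup.coe_inv]
        group
      simp only
      rw [this]
      exact (hx i).2.1
    · have : ((φ h).1 * (F a).1)⁻¹ * (φ (h * x i * h⁻¹)).1 * ((φ h).1 * (F a).1) =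
          (F a).1⁻¹ * (φ (x i)).1 * (F a).1 := by
        simp only [map_mul, map_inv, Subgroup.coe_mul, Subgroup.coe_inv]
        group
      simp only
      rw [this]
      exact (hx i).2.2
  · rintro a
    show F (a.1, a.2.neg) = ((F a).1, (F a).2.neg)
    apply un
    obtain ⟨x, hx⟩ := hF a
    exact ⟨fun i => x (-i), fun i => hx (-i)⟩
  · rintro a
    show F (a.1, a.2.shift) = ((F a).1, (F a).2.shift)
    apply un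
    obtain ⟨x, hx⟩ := hF a
    exact ⟨fun i => x (i + 1), fun i => hx (i + 1)⟩
  · intro a b i j
    exact lineRel hT hNT₁ hNT₂ H₁ H₂ φ hE₁ hE₂ (hF a) (hF b) i j

end Pool.Agent.H56Q
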