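import Pool.Agent.H56Q.Stm

/-!
# Project RQ, piece CEN: even elements commuting with a reflection
-/

set_option autoImplicit false

namespace Pool.Agent.H56Q

open Pool.Agent.Helper2GI Pool.Agent.Helper2GI.RA

namespace CENP

variable {E : Type} {G : RA E}

theorem par_par {s : E} {y : G.W} (h : Par (fun a => G.adj a s) y) : par s y = 1 := by
  obtain ⟨m, hm, rfl⟩ := h
  induction m with
  | nil => simp
  | cons a m ih =>
    have ha : a ≠ s := fun e => G.irr s (e ▸ hm a List.mem_cons_self)
    rw [ev_cons, map_mul, par_ne ha, one_mul]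
    exact ih fun b hb => hm b (List.mem_cons_of_mem a hb)

theorem side_par {s : E} {y : G.W} (h : Par (fun a => G.adj a s) y) : side y (G.g s) = 0 := by
  obtain ⟨m, hm, rfl⟩ := h
  induction m with
  | nil => rw [ev_nil, side_one]
  | cons a m ih =>
    have hadj := hm a List.mem_cons_self
    have ha : G.g s ≠ G.g a := fun e => by
      have := g_inj e
      rw [this] at hadj
      exact G.irr a hadj
    have h1 : (G.g a)⁻¹ * G.g s * G.g a = G.g s := by
      rw [mul_assoc, gcomm (G.symm hadj), inv_mul_cancel_left]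
    rw [ev_cons, side_mul, side_g, if_neg ha, zero_add, h1]
    exact ih fun b hb => hm b (List.mem_cons_of_mem a hb)

end CENP

open CENP in
theorem t_CEN : S_CEN := by
  intro E G g x s hx hcomm
  set y : G.W := g⁻¹ * x * g with hy
  have hyc : y * G.g s = G.g s * y := by
    have h1 : y * G.g s = g⁻¹ * (x * (g * G.g s * g⁻¹)) * g := by rw [hy]; group
    have h2 : G.g s * y = g⁻¹ * ((g * G.g s * g⁻¹) * x) * g := by rw [hy]; group
    rw [h1, h2, hcomm]
  obtain ⟨y', hy', hsp⟩ := centralizer_split s (centralizer s y hyc)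
  have hpar : par s y = 1 := by
    rw [hy, map_mul, map_mul, map_inv, hx s, mul_one, inv_mul_cancel]
  have hPar : Par (fun a => G.adj a s) y := by
    rcases hsp with h | h
    · rw [h]; exact hy'
    · exfalso
      rw [h, map_mul, par_par hy', one_mul] at hpar
      exact par_self s hpar
  refine ⟨hPar, fun p => ?_⟩
  set t : G.W := g * G.g s * g⁻¹ with ht
  have hxt : x⁻¹ * t * x = t := by
    rw [mul_assoc, ← hcomm, inv_mul_cancel_left]
  rw [side_mul, hxt]
  have h0 : side x t = 0 := by
    have e1 : g⁻¹ * t * g = G.g s := by rw [ht]; group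
    have e2 : x = g * (y * g⁻¹) := by rw [hy]; group
    have e3 : y⁻¹ * G.g s * y = G.g s := by rw [mul_assoc, ← hyc, inv_mul_cancel_left]
    have e4 : side g t + side g⁻¹ (G.g s) = 0 := by
      have h1 := side_mul g g⁻¹ t
      rw [mul_inv_cancel, side_one, e1] at h1
      exact h1.symm
    rw [e2, side_mul, e1, side_mul, e3, side_par hPar, zero_add, e4]
  rw [h0, zero_add]

end Pool.Agent.H56Q
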