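import Pool.Agent.H56Q.Stm

/-!
# Piece CJ of project RQ: the conjugator of a nontrivial element of a vertex group into the
same vertex group lies in the star group.
-/

set_option autoImplicit false

namespace Pool.Agent.H56Q

open Pool.Agent.Helper2GI Pool.Agent.Helper2GI.RA

namespace CJ

variable {E : Type} {G : RA E}

open Classical in
theorem ret_ev (Z : E → Prop) (m : List E) : ret (G := G) Z (G.ev m) = G.ev (m.filter Z) := by
  induction m with
  | nil => simp
  | cons a m ih =>
    rw [ev_cons, map_mul, ih]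
    by_cases h : Z a
    · rw [ret_g_pos h, List.filter_cons_of_pos (by simpa using h), ev_cons]
    · rw [ret_g_neg h, List.filter_cons_of_neg (by simpa using h), one_mul]

/-- the letters of a reduced word of an element of a parabolic subgroup -/
theorem letters {Z : E → Prop} {m : List E} (hm : G.Red m) (h : Par Z (G.ev m)) :
    ∀ a ∈ m, Z a := by
  classical
  have h1 : G.ev (m.filter Z) = G.ev m := by rw [← ret_ev, ret_par h]
  have h2 : m.length ≤ (m.filter Z).length := by
    rw [← len_ev m hm, ← h1]; exact len_ev_le _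
  intro a ha
  have h3 : (m.filter Z).length = m.length := le_antisymm (List.length_filter_le _ _) h2
  have h4 := List.length_filter_eq_length_iff.1 h3 a ha
  simpa using h4

/-- walls crossed by words -/
theorem wall {Z : E → Prop} {x t : G.W} (hx : Par Z x) (ht : side x t ≠ 0) :
    ∃ d s, Par Z d ∧ Z s ∧ t = d * G.g s * d⁻¹ := by
  classical
  obtain ⟨m, hm, rfl⟩ := hx
  induction m using List.reverseRecOn with
  | nil => exact absurd (side_one t) ht
  | append_singleton m a ih =>
    rw [ev_append, ev_single, side_mul_g] at ht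
    by_cases h : (G.ev m)⁻¹ * t * G.ev m = G.g a
    · refine ⟨G.ev m, a, ⟨m, fun c hc => hm c (by simp [hc]), rfl⟩, hm a (by simp), ?_⟩
      rw [← h]; group
    · rw [if_neg h, add_zero] at ht
      exact ih (fun c hc => hm c (by simp [hc])) ht

/-- left descents cross the wall of the letter -/
theorem left_desc {x : G.W} {s : E} (h : G.len (G.g s * x) < G.len x) : side x (G.g s) ≠ 0 := by
  classical
  intro h0
  have h1 : side (G.g s * x) (G.g s) ≠ 0 := by
    rw [side_mul, side_g, if_pos rfl]
    have h2 : (G.g s)⁻¹ * G.g s * G.g s = G.g s := by group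
    rw [h2, h0]
    decide
  have h2 := len_refl_mul h1
  rw [← mul_assoc, gg, one_mul] at h2
  omega

/-- a nontrivial element of a parabolic subgroup has a left descent in it -/
theorem exists_desc {Z : E → Prop} {x : G.W} (hx : Par Z x) (h1 : x ≠ 1) :
    ∃ s, Z s ∧ G.len (G.g s * x) < G.len x := by
  obtain ⟨m, hm, rfl⟩ := exists_red x
  have hl := letters hm hx
  cases m with
  | nil => exact absurd ev_nil h1
  | cons s m =>
    refine ⟨s, hl s List.mem_cons_self, ?_⟩
    have h2 : G.g s * G.ev (s :: m) = G.ev m := by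
      rw [ev_cons, ← mul_assoc, gg, one_mul]
    rw [h2, len_ev _ hm, len_ev _ hm.tail, List.length_cons]
    omega

section
variable {V : Type} {D : SimpleGraph V} {tw : V → Prop}

theorem InD_conj_g {w : V} {y : (TG D tw).W} (hy : InD w y) (c : Lt tw)
    (hc : c.1.1 = w ∨ D.Adj w c.1.1) : InD w ((TG D tw).g c * y * (TG D tw).g c) := by
  rcases hc with h | h
  · exact ((Par.gen (Z := fun a : Lt tw => a.1.1 = w) h).mul hy).mul (Par.gen h)
  · have hcomm : ∀ m : List (Lt tw), (∀ a ∈ m, a.1.1 = w) →
        (TG D tw).g c * (TG D tw).ev m = (TG D tw).ev m * (TG D tw).g c := by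
      intro m
      induction m with
      | nil => intro _; simp
      | cons a m ih =>
        intro hm
        have h2 : (TG D tw).adj c a := by
          show D.Adj c.1.1 a.1.1
          rw [hm a List.mem_cons_self]
          exact h.symm
        rw [ev_cons, ← mul_assoc, gcomm h2, mul_assoc,
          ih (fun b hb => hm b (List.mem_cons_of_mem a hb)), mul_assoc]
    obtain ⟨m, hm, rfl⟩ := hy
    rw [hcomm m hm, mul_assoc, gg, mul_one]
    exact ⟨m, hm, rfl⟩

/-- the star group normalizes the vertex group -/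
theorem InD_conj {w : V} {a y : (TG D tw).W} (ha : InS w a) (hy : InD w y) :
    InD w (a⁻¹ * y * a) := by
  obtain ⟨m, hm, rfl⟩ := ha
  induction m generalizing y with
  | nil => simpa using hy
  | cons c m ih =>
    have h1 := ih (InD_conj_g hy c (hm c List.mem_cons_self))
      (fun b hb => hm b (List.mem_cons_of_mem c hb))
    have h2 : ((TG D tw).ev (c :: m))⁻¹ * y * (TG D tw).ev (c :: m) =
        ((TG D tw).ev m)⁻¹ * ((TG D tw).g c * y * (TG D tw).g c) * (TG D tw).ev m := by
      rw [ev_cons, mul_inv_rev, g_inv]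
      group
    rw [h2]
    exact h1

end

end CJ

open CJ in
theorem t_CJ (_hH : S_HEAD) (hG : S_GATE) : S_CJ := by
  intro V D tw w x k _ hx1 hx hk
  obtain ⟨P, hP1, _, _, _, hP5⟩ := hG (Lt tw) (TG D tw) (fun a => a.1.1 = w ∨ D.Adj w a.1.1)
  have ha : InS w (P k) := hP1 k
  obtain ⟨b, hb⟩ : ∃ b, b = (P k)⁻¹ * k := ⟨_, rfl⟩
  have hlen : ∀ z, InS w z → (TG D tw).len (z * b) = (TG D tw).len z + (TG D tw).len b := by
    intro z hz
    rw [hb]
    exact hP5 k z hz
  have hkb : k = P k * b := by rw [hb]; group
  obtain ⟨y, hy⟩ : ∃ y, y = (P k)⁻¹ * (k * x * k⁻¹) * P k := ⟨_, rfl⟩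
  have hyD : InD w y := by rw [hy]; exact InD_conj ha hk
  have hyb : y * b = b * x := by rw [hy, hb]; group
  have hy1 : y ≠ 1 := by
    intro h
    rw [h, one_mul] at hyb
    exact hx1 (mul_eq_left.1 hyb.symm)
  have hDS : ∀ z : (TG D tw).W, InD w z → InS w z := fun z hz => hz.mono fun a h => Or.inl h
  obtain ⟨s, hsw, hs⟩ := exists_desc hyD hy1
  have hsS : InS w ((TG D tw).g s) := Par.gen (Or.inl hsw)
  have h1 : (TG D tw).len ((TG D tw).g s * (y * b)) < (TG D tw).len (y * b) := by
    rw [← mul_assoc, hlen _ (hsS.mul (hDS y hyD)), hlen _ (hDS y hyD)]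
    omega
  have h2 := left_desc h1
  rw [hyb, side_mul] at h2
  have h3 : side b ((TG D tw).g s) = 0 := by
    by_contra hn
    have h4 := len_refl_mul hn
    rw [hlen _ hsS] at h4
    omega
  rw [h3, zero_add] at h2
  obtain ⟨d, s', hd, _, hds⟩ := wall hx h2
  have h5 : s' = s := by
    have h6 : (b * d) * (TG D tw).g s' * (b * d)⁻¹ = (TG D tw).g s := by
      have h7 : (b * d) * (TG D tw).g s' * (b * d)⁻¹ = b * (d * (TG D tw).g s' * d⁻¹) * b⁻¹ := by
        group
      rw [h7, ← hds]
      group
    exact conj_eq' h6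
  subst h5
  have h8 : (b * d) * (TG D tw).g s' = (TG D tw).g s' * (b * d) := by
    have h7 : (b * d) * (TG D tw).g s' = b * (d * (TG D tw).g s' * d⁻¹) * d := by group
    rw [h7, ← hds]
    group
  have h9 : InS w (b * d) := by
    refine (centralizer s' _ h8).mono ?_
    rintro a (rfl | h)
    · exact Or.inl hsw
    · right
      rw [← hsw]
      exact h.symm
  have h10 : InS w b := by
    have h11 := h9.mul (hDS d hd).inv
    rwa [mul_inv_cancel_right] at h11
  rw [hkb]
  exact ha.mul h10

end Pool.Agent.H56Q
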