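import Pool.Agent.H56Q.Stm

/-!
Piece COM of project RQ: the Artin group `RAF Λ` and the Coxeter group `(TT Λ).W` are commensurable.
-/

set_option autoImplicit false

namespace Pool.Agent.H56Q

open Pool.Agent.Helper2GI Pool.Agent.Helper2GI.RA

namespace COM

variable {m : ℕ} (Λ : SimpleGraph (Fin m))

/-- signs -/
abbrev P (m : ℕ) : Type := Fin m → ℤˣ

/-- the generator of the Artin group -/
abbrev t (v : Fin m) : RAF Λ := PresentedGroup.of v

variable {Λ} in
theorem tcomm {a b : Fin m} (h : Λ.Adj a b) : Commute (t Λ a) (t Λ b) := by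
  have h1 : (PresentedGroup.mk {r : FreeGroup (Fin m) |
      ∃ a b, Λ.Adj a b ∧
        r = FreeGroup.of a * FreeGroup.of b * (FreeGroup.of a)⁻¹ * (FreeGroup.of b)⁻¹})
      (FreeGroup.of a * FreeGroup.of b * (FreeGroup.of a)⁻¹ * (FreeGroup.of b)⁻¹) = 1 :=
    PresentedGroup.one_of_mem ⟨a, b, h, rfl⟩
  rw [map_mul, map_mul, map_mul, map_inv, map_inv] at h1
  have h2 : t Λ a * t Λ b * (t Λ a)⁻¹ * (t Λ b)⁻¹ = 1 := h1
  show t Λ a * t Λ b = t Λ b * t Λ a
  exact (mul_inv_eq_iff_eq_mul.1 (mul_inv_eq_one.1 h2)).trans rfl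

/-- homomorphisms out of the Artin group -/
noncomputable def fromA {G : Type} [Group G] (f : Fin m → G)
    (h : ∀ a b, Λ.Adj a b → f a * f b = f b * f a) : RAF Λ →* G :=
  PresentedGroup.toGroup (f := f) (by
    rintro r ⟨a, b, hab, rfl⟩
    simp only [map_mul, map_inv, FreeGroup.lift_apply_of]
    rw [h a b hab]
    group)

theorem fromA_t {G : Type} [Group G] (f : Fin m → G)
    (h : ∀ a b, Λ.Adj a b → f a * f b = f b * f a) (v : Fin m) : fromA Λ f h (t Λ v) = f v :=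
  PresentedGroup.toGroup.of _

/-- action of the signs on the Artin group -/
noncomputable def actA (ε : P m) : RAF Λ →* RAF Λ :=
  fromA Λ (fun v => t Λ v ^ ((ε v : ℤˣ) : ℤ)) (fun _ _ h => ((tcomm h).zpow_zpow _ _).eq)

theorem actA_t (ε : P m) (v : Fin m) : actA Λ ε (t Λ v) = t Λ v ^ ((ε v : ℤˣ) : ℤ) :=
  fromA_t _ _ _ _

theorem actA_mul (ε δ : P m) : actA Λ (ε * δ) = (actA Λ ε).comp (actA Λ δ) := by
  apply PresentedGroup.ext
  intro v
  show actA Λ (ε * δ) (t Λ v) = actA Λ ε (actA Λ δ (t Λ v))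
  rw [actA_t, actA_t, map_zpow, actA_t, ← zpow_mul]
  simp

theorem actA_one : actA Λ 1 = MonoidHom.id _ := by
  apply PresentedGroup.ext
  intro v
  show actA Λ 1 (t Λ v) = t Λ v
  rw [actA_t]
  simp

/-- action of the signs on the Artin group -/
noncomputable def φA : P m →* MulAut (RAF Λ) where
  toFun ε :=
    { toFun := actA Λ ε
      invFun := actA Λ ε⁻¹
      left_inv := fun x => by
        rw [← MonoidHom.comp_apply, ← actA_mul, inv_mul_cancel, actA_one]; rfl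
      right_inv := fun x => by
        rw [← MonoidHom.comp_apply, ← actA_mul, mul_inv_cancel, actA_one]; rfl
      map_mul' := map_mul _ }
  map_one' := by
    ext x
    show actA Λ 1 x = x
    rw [actA_one]; rfl
  map_mul' ε δ := by
    ext x
    show actA Λ (ε * δ) x = actA Λ ε (actA Λ δ x)
    rw [actA_mul]; rfl

theorem φA_apply (ε : P m) (x : RAF Λ) : φA Λ ε x = actA Λ ε x := rfl

/-- letters -/
abbrev L (v : Fin m) (b : Bool) : Lt (fun _ : Fin m => True) := ⟨(v, b), fun _ => trivial⟩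

/-- sign action on booleans -/
def sg (e : ℤˣ) (b : Bool) : Bool := if e = 1 then b else !b

theorem sg_mul : ∀ (e d : ℤˣ) (b : Bool), sg (e * d) b = sg e (sg d b) := by decide

theorem sg_one (b : Bool) : sg 1 b = b := rfl

/-- action of the signs on the Coxeter group -/
noncomputable def actK (ε : P m) : (TT Λ).W →* (TT Λ).W :=
  RA.hom (fun s => (TT Λ).g (L s.1.1 (sg (ε s.1.1) s.1.2))) (fun s => gg _)
    (fun a b h => by
      apply gcomm
      exact h)

theorem actK_g (ε : P m) (v : Fin m) (b : Bool) :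
    actK Λ ε ((TT Λ).g (L v b)) = (TT Λ).g (L v (sg (ε v) b)) := by
  unfold actK
  rw [RA.hom_g]

theorem homK_ext {G : Type} [Group G] {f f' : (TT Λ).W →* G}
    (h : ∀ v b, f ((TT Λ).g (L v b)) = f' ((TT Λ).g (L v b))) : f = f' := by
  refine MonoidHom.ext fun x => ?_
  refine RA.ind (P := fun x => f x = f' x) ?_ ?_ x
  · simp
  · intro a x hx
    show f _ = f' _
    rw [map_mul, map_mul, hx]
    congr 1
    exact h a.1.1 a.1.2

theorem actK_mul (ε δ : P m) : actK Λ (ε * δ) = (actK Λ ε).comp (actK Λ δ) := by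
  apply homK_ext
  intro v b
  rw [MonoidHom.comp_apply, actK_g, actK_g, actK_g, Pi.mul_apply, sg_mul]

theorem actK_one : actK Λ 1 = MonoidHom.id _ := by
  apply homK_ext
  intro v b
  rw [actK_g]
  rfl

/-- action of the signs on the Coxeter group -/
noncomputable def φK : P m →* MulAut (TT Λ).W where
  toFun ε :=
    { toFun := actK Λ ε
      invFun := actK Λ ε⁻¹
      left_inv := fun x => by
        rw [← MonoidHom.comp_apply, ← actK_mul, inv_mul_cancel, actK_one]; rfl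
      right_inv := fun x => by
        rw [← MonoidHom.comp_apply, ← actK_mul, mul_inv_cancel, actK_one]; rfl
      map_mul' := map_mul _ }
  map_one' := by
    ext x
    show actK Λ 1 x = x
    rw [actK_one]; rfl
  map_mul' ε δ := by
    ext x
    show actK Λ (ε * δ) x = actK Λ ε (actK Λ δ x)
    rw [actK_mul]; rfl

theorem φK_apply (ε : P m) (x : (TT Λ).W) : φK Λ ε x = actK Λ ε x := rfl

/-- the sign change at `v` -/
def ρ (v : Fin m) : P m := Pi.mulSingle v (-1)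

theorem ρ_self (v : Fin m) : ρ v v = -1 := by
  unfold ρ; rw [Pi.mulSingle_eq_same]

theorem ρ_ne {v w : Fin m} (h : w ≠ v) : ρ v w = 1 := by
  unfold ρ; rw [Pi.mulSingle_eq_of_ne h]

theorem ρ_sq (v : Fin m) : ρ v * ρ v = 1 := by
  funext w
  rw [Pi.mul_apply]
  exact Int.units_mul_self _

theorem ρ_inv (v : Fin m) : (ρ v)⁻¹ = ρ v := inv_eq_of_mul_eq_one_right (ρ_sq v)

/-- image of the generators of the Artin group -/
noncomputable def F (v : Fin m) : (TT Λ).W ⋊[φK Λ] P m := ⟨(TT Λ).g (L v false), ρ v⟩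

theorem F_comm (a b : Fin m) (h : Λ.Adj a b) : F Λ a * F Λ b = F Λ b * F Λ a := by
  have hab : a ≠ b := h.ne
  refine SemidirectProduct.ext ?_ ?_
  · show (TT Λ).g (L a false) * actK Λ (ρ a) ((TT Λ).g (L b false)) =
      (TT Λ).g (L b false) * actK Λ (ρ b) ((TT Λ).g (L a false))
    rw [actK_g, actK_g, ρ_ne hab.symm, ρ_ne hab]
    exact gcomm h
  · show ρ a * ρ b = ρ b * ρ a
    rw [mul_comm]

theorem F_inv (v : Fin m) : (F Λ v)⁻¹ = ⟨(TT Λ).g (L v true), ρ v⟩ := by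
  refine SemidirectProduct.ext ?_ ?_
  · show actK Λ (ρ v)⁻¹ ((TT Λ).g (L v false))⁻¹ = _
    rw [ρ_inv, g_inv, actK_g, ρ_self]
    rfl
  · show (ρ v)⁻¹ = _
    rw [ρ_inv]

/-- `A → K ⋊ P` -/
noncomputable def f₁ : RAF Λ →* (TT Λ).W ⋊[φK Λ] P m := fromA Λ (F Λ) (F_comm Λ)

theorem f₁_t (v : Fin m) : f₁ Λ (t Λ v) = F Λ v := fromA_t _ _ _ _

theorem compat₁ (ε : P m) : (f₁ Λ).comp (φA Λ ε).toMonoidHom =
    (MulAut.conj ((SemidirectProduct.inr ε : (TT Λ).W ⋊[φK Λ] P m))).toMonoidHom.comp (f₁ Λ) := by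
  apply PresentedGroup.ext
  intro v
  show f₁ Λ (actA Λ ε (t Λ v)) = SemidirectProduct.inr ε * f₁ Λ (t Λ v) *
    (SemidirectProduct.inr ε)⁻¹
  rw [actA_t, map_zpow, f₁_t]
  have key : SemidirectProduct.inr ε * F Λ v * (SemidirectProduct.inr ε)⁻¹ =
      (⟨(TT Λ).g (L v (sg (ε v) false)), ρ v⟩ : (TT Λ).W ⋊[φK Λ] P m) := by
    refine SemidirectProduct.ext ?_ ?_
    · show (1 * actK Λ ε ((TT Λ).g (L v false))) * (φK Λ (ε * ρ v)) (φK Λ ε⁻¹ (1 : (TT Λ).W)⁻¹) = _
      rw [inv_one, map_one, map_one, mul_one, one_mul, actK_g]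
    · show ε * ρ v * ε⁻¹ = ρ v
      rw [mul_comm ε, mul_inv_cancel_right]
  rw [key]
  rcases Int.units_eq_one_or (ε v) with h | h
  · rw [h]
    show F Λ v ^ (1 : ℤ) = _
    rw [zpow_one]
    rfl
  · rw [h]
    show F Λ v ^ (-1 : ℤ) = _
    rw [zpow_neg_one, F_inv]
    rfl

/-- `A ⋊ P → K ⋊ P` -/
noncomputable def Φ : RAF Λ ⋊[φA Λ] P m →* (TT Λ).W ⋊[φK Λ] P m :=
  SemidirectProduct.lift (f₁ Λ) SemidirectProduct.inr (compat₁ Λ)

/-- image of the letters -/
noncomputable def J (v : Fin m) (b : Bool) : RAF Λ ⋊[φA Λ] P m :=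
  ⟨if b then (t Λ v)⁻¹ else t Λ v, ρ v⟩

theorem J_sq (v : Fin m) (b : Bool) : J Λ v b * J Λ v b = 1 := by
  refine SemidirectProduct.ext ?_ ?_
  · cases b
    · show t Λ v * actA Λ (ρ v) (t Λ v) = 1
      rw [actA_t, ρ_self]
      simp
    · show (t Λ v)⁻¹ * actA Λ (ρ v) (t Λ v)⁻¹ = 1
      rw [map_inv, actA_t, ρ_self]
      simp
  · show ρ v * ρ v = _
    rw [ρ_sq]; rfl

theorem actA_J {v w : Fin m} (h : w ≠ v) (b : Bool) :
    actA Λ (ρ v) (if b then (t Λ w)⁻¹ else t Λ w) = if b then (t Λ w)⁻¹ else t Λ w := by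
  cases b
  · show actA Λ (ρ v) (t Λ w) = t Λ w
    rw [actA_t, ρ_ne h]; simp
  · show actA Λ (ρ v) (t Λ w)⁻¹ = (t Λ w)⁻¹
    rw [map_inv, actA_t, ρ_ne h]; simp

theorem J_comm (v w : Fin m) (b c : Bool) (h : Λ.Adj v w) :
    J Λ v b * J Λ w c = J Λ w c * J Λ v b := by
  refine SemidirectProduct.ext ?_ ?_
  · show (if b then (t Λ v)⁻¹ else t Λ v) * actA Λ (ρ v) (if c then (t Λ w)⁻¹ else t Λ w) =
      (if c then (t Λ w)⁻¹ else t Λ w) * actA Λ (ρ w) (if b then (t Λ v)⁻¹ else t Λ v)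
    rw [actA_J Λ h.ne.symm, actA_J Λ h.ne]
    have h0 := tcomm h
    cases b <;> cases c
    · exact h0.eq
    · exact h0.inv_right.eq
    · exact h0.inv_left.eq
    · exact h0.inv_inv.eq
  · show ρ v * ρ w = ρ w * ρ v
    rw [mul_comm]

/-- `K → A ⋊ P` -/
noncomputable def i : (TT Λ).W →* RAF Λ ⋊[φA Λ] P m :=
  RA.hom (fun s => J Λ s.1.1 s.1.2) (fun _ => J_sq Λ _ _) (fun _ _ h => J_comm Λ _ _ _ _ h)

theorem i_g (v : Fin m) (b : Bool) : i Λ ((TT Λ).g (L v b)) = J Λ v b := by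
  unfold i
  rw [RA.hom_g]

theorem F_mul (v : Fin m) : F Λ v * SemidirectProduct.inr (ρ v) =
    SemidirectProduct.inl ((TT Λ).g (L v false)) := by
  refine SemidirectProduct.ext ?_ ?_
  · show (TT Λ).g (L v false) * φK Λ (ρ v) 1 = _
    rw [map_one, mul_one]; rfl
  · show ρ v * ρ v = _
    rw [ρ_sq]; rfl

theorem F_inv_mul (v : Fin m) : (F Λ v)⁻¹ * SemidirectProduct.inr (ρ v) =
    SemidirectProduct.inl ((TT Λ).g (L v true)) := by
  rw [F_inv]
  refine SemidirectProduct.ext ?_ ?_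
  · show (TT Λ).g (L v true) * φK Λ (ρ v) 1 = _
    rw [map_one, mul_one]; rfl
  · show ρ v * ρ v = _
    rw [ρ_sq]; rfl

theorem Φ_i : (Φ Λ).comp (i Λ) = SemidirectProduct.inl := by
  apply homK_ext
  intro v b
  rw [MonoidHom.comp_apply, i_g]
  cases b
  · show f₁ Λ (t Λ v) * SemidirectProduct.inr (ρ v) = _
    rw [f₁_t, F_mul]
  · show f₁ Λ (t Λ v)⁻¹ * SemidirectProduct.inr (ρ v) = _
    rw [map_inv, f₁_t, F_inv_mul]

theorem compat₂ (ε : P m) : (i Λ).comp (φK Λ ε).toMonoidHom =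
    (MulAut.conj ((SemidirectProduct.inr ε : RAF Λ ⋊[φA Λ] P m))).toMonoidHom.comp (i Λ) := by
  apply homK_ext
  intro v b
  show i Λ (actK Λ ε ((TT Λ).g (L v b))) = SemidirectProduct.inr ε * i Λ ((TT Λ).g (L v b)) *
    (SemidirectProduct.inr ε)⁻¹
  rw [actK_g, i_g, i_g]
  refine SemidirectProduct.ext ?_ ?_
  · show (if sg (ε v) b then (t Λ v)⁻¹ else t Λ v) =
      (1 * actA Λ ε (if b then (t Λ v)⁻¹ else t Λ v)) * (φA Λ (ε * ρ v)) (φA Λ ε⁻¹ (1 : RAF Λ)⁻¹)
    rw [inv_one, map_one, map_one, mul_one, one_mul]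
    rcases Int.units_eq_one_or (ε v) with h | h <;> rw [h] <;> cases b
    · show t Λ v = actA Λ ε (t Λ v)
      rw [actA_t, h]; simp
    · show (t Λ v)⁻¹ = actA Λ ε (t Λ v)⁻¹
      rw [map_inv, actA_t, h]; simp
    · show (t Λ v)⁻¹ = actA Λ ε (t Λ v)
      rw [actA_t, h]; simp
    · show t Λ v = actA Λ ε (t Λ v)⁻¹
      rw [map_inv, actA_t, h]; simp
  · show ρ v = ε * ρ v * ε⁻¹
    rw [mul_comm ε, mul_inv_cancel_right]

/-- `K ⋊ P → A ⋊ P` -/
noncomputable def Θ : (TT Λ).W ⋊[φK Λ] P m →* RAF Λ ⋊[φA Λ] P m :=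
  SemidirectProduct.lift (i Λ) SemidirectProduct.inr (compat₂ Λ)

theorem ΘΦ : (Θ Λ).comp (Φ Λ) = MonoidHom.id _ := by
  apply SemidirectProduct.hom_ext
  · apply PresentedGroup.ext
    intro v
    show Θ Λ (Φ Λ (SemidirectProduct.inl (t Λ v))) = SemidirectProduct.inl (t Λ v)
    unfold Φ
    rw [SemidirectProduct.lift_inl, f₁_t]
    show i Λ ((TT Λ).g (L v false)) * SemidirectProduct.inr (ρ v) = _
    rw [i_g]
    refine SemidirectProduct.ext ?_ ?_
    · show t Λ v * φA Λ (ρ v) 1 = _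
      rw [map_one, mul_one]; rfl
    · show ρ v * ρ v = _
      rw [ρ_sq]; rfl
  · refine MonoidHom.ext fun ε => ?_
    show Θ Λ (Φ Λ (SemidirectProduct.inr ε)) = SemidirectProduct.inr ε
    unfold Φ Θ
    rw [SemidirectProduct.lift_inr, SemidirectProduct.lift_inr]

theorem Φ_inj : Function.Injective (Φ Λ) := by
  intro x y h
  have h1 := congrArg (Θ Λ) h
  rwa [← MonoidHom.comp_apply, ← MonoidHom.comp_apply, ΘΦ] at h1

theorem i_inj : Function.Injective (i Λ) := by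
  intro x y h
  have h1 := congrArg (Φ Λ) h
  rw [← MonoidHom.comp_apply, ← MonoidHom.comp_apply, Φ_i] at h1
  exact SemidirectProduct.inl_injective h1

theorem range_fi : (i Λ).range.FiniteIndex := by
  have h1 : (SemidirectProduct.rightHom.comp (Φ Λ)).ker.FiniteIndex := inferInstance
  refine Subgroup.finiteIndex_of_le (H := (SemidirectProduct.rightHom.comp (Φ Λ)).ker) ?_
  intro x hx
  have hx' : (Φ Λ x).right = 1 := hx
  refine ⟨(Φ Λ x).left, ?_⟩
  apply Φ_inj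
  rw [← MonoidHom.comp_apply, Φ_i]
  refine SemidirectProduct.ext ?_ ?_
  · rfl
  · show _ = (Φ Λ x).right
    rw [hx']; rfl

end COM

open COM in
theorem t_COM : S_COM := by
  intro m Λ H hH
  have : H.FiniteIndex := ⟨hH⟩
  have hr := range_fi Λ
  -- `H` in `A ⋊ P`
  set HE : Subgroup (RAF Λ ⋊[φA Λ] P m) := H.map SemidirectProduct.inl with hHE
  have hHEi : HE.index ≠ 0 := by
    rw [hHE, Subgroup.index_map]
    refine mul_ne_zero ?_ ?_
    · have : H ≤ H ⊔ (SemidirectProduct.inl : RAF Λ →* RAF Λ ⋊[φA Λ] P m).ker := le_sup_left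
      exact (Subgroup.finiteIndex_of_le this).index_ne_zero
    · rw [SemidirectProduct.range_inl_eq_ker_rightHom]
      have h1 : (SemidirectProduct.rightHom : RAF Λ ⋊[φA Λ] P m →* P m).ker.FiniteIndex :=
        inferInstance
      exact h1.index_ne_zero
  have : HE.FiniteIndex := ⟨hHEi⟩
  refine ⟨HE.comap (i Λ), ?_, ?_⟩
  · rw [Subgroup.index_comap]
    exact (Subgroup.instFiniteIndex_subgroupOf HE (i Λ).range).index_ne_zero
  have hinl : Function.Injective (SemidirectProduct.inl : RAF Λ →* RAF Λ ⋊[φA Λ] P m) :=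
    SemidirectProduct.inl_injective
  let e : H ≃* HE := H.equivMapOfInjective _ hinl
  let f₀ : HE.comap (i Λ) →* HE := (i Λ).subgroupComap HE
  refine ⟨e.symm.toMonoidHom.comp f₀, ?_, ?_⟩
  · intro x y h
    have h1 : e.symm (f₀ x) = e.symm (f₀ y) := h
    have h2 := e.symm.injective h1
    have h3 : i Λ x.1 = i Λ y.1 := congrArg Subtype.val h2
    exact Subtype.ext (i_inj Λ h3)
  · have h1 : ((i Λ).range.comap ((SemidirectProduct.inl : RAF Λ →* RAF Λ ⋊[φA Λ] P m).comp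
        H.subtype)).FiniteIndex := by
      constructor
      rw [Subgroup.index_comap]
      exact (Subgroup.instFiniteIndex_subgroupOf (i Λ).range _).index_ne_zero
    refine (Subgroup.finiteIndex_of_le (H := (i Λ).range.comap
      ((SemidirectProduct.inl : RAF Λ →* RAF Λ ⋊[φA Λ] P m).comp H.subtype)) ?_).index_ne_zero
    intro a ha
    obtain ⟨k, hk⟩ := ha
    have hk' : i Λ k = SemidirectProduct.inl a.1 := hk
    refine ⟨⟨k, ?_⟩, ?_⟩
    · show i Λ k ∈ HE
      rw [hk']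
      exact ⟨a.1, a.2, rfl⟩
    · show e.symm (f₀ _) = a
      rw [MulEquiv.symm_apply_eq]
      apply Subtype.ext
      show i Λ k = SemidirectProduct.inl a.1
      exact hk'

end Pool.Agent.H56Q
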