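import Pool.Agent.H56Q.Stm

/-!
# Project RQ, piece DC (helper15): the even elements of a vertex group
-/

set_option autoImplicit false

namespace Pool.Agent.H56Q

open Pool.Agent.Helper2GI Pool.Agent.Helper2GI.RA

theorem DC_dih {W : Type} [Group W] {A B : W} (hA : A * A = 1) (hB : B * B = 1) (k : ℤ) :
    A * (A * B) ^ k = (A * B) ^ (-k) * A := by
  have h1 : A * (A * B) * A⁻¹ = (A * B)⁻¹ := by
    have hA' : A⁻¹ = A := inv_eq_of_mul_eq_one_right hA
    have hB' : B⁻¹ = B := inv_eq_of_mul_eq_one_right hB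
    rw [mul_inv_rev, hA', hB', ← mul_assoc, hA, one_mul]
  have h2 : A * (A * B) ^ k * A⁻¹ = (A * B) ^ (-k) := by
    rw [← conj_zpow, h1, inv_zpow, zpow_neg]
  rw [← h2]
  group

theorem DC_sq (e : Multiplicative (ZMod 2)) : e ^ (2 : ℤ) = 1 := by
  revert e
  decide

section
variable {V : Type} {D : SimpleGraph V} {tw : V → Prop}

open Classical in
/-- the second involution -/
noncomputable def DC_B (v : V) : (TG D tw).W :=
  if h : tw v then (TG D tw).g ⟨(v, true), fun _ => h⟩ else 1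

theorem DC_BB (v : V) : DC_B (D := D) (tw := tw) v * DC_B v = 1 := by
  unfold DC_B
  split_ifs
  · exact gg _
  · exact one_mul 1

/-- the first involution -/
noncomputable def DC_A (v : V) : (TG D tw).W :=
  (TG D tw).g ⟨(v, false), fun h => absurd h (by simp)⟩

theorem DC_AA (v : V) : DC_A (D := D) (tw := tw) v * DC_A v = 1 := gg _

theorem DC_gen {v : V} {a : Lt tw} (ha : a.1.1 = v) :
    (TG D tw).g a = DC_A v ∨ (TG D tw).g a = DC_B v := by
  obtain ⟨⟨w, b⟩, h⟩ := a
  simp only at ha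
  subst ha
  cases b with
  | false => exact Or.inl rfl
  | true =>
    right
    unfold DC_B
    rw [dif_pos (h rfl)]

theorem DC_form {v : V} {x : (TG D tw).W} (hx : InD v x) :
    ∃ k : ℤ, x = (DC_A v * DC_B v) ^ k ∨ x = (DC_A v * DC_B v) ^ k * DC_A v := by
  obtain ⟨m, hm, rfl⟩ := hx
  induction m with
  | nil => exact ⟨0, Or.inl (by simp)⟩
  | cons a m ih =>
    obtain ⟨k, hk⟩ := ih (fun b hb => hm b (List.mem_cons_of_mem a hb))
    have hA := DC_AA (D := D) (tw := tw) v
    have hB := DC_BB (D := D) (tw := tw) v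
    have hd := DC_dih hA hB k
    have hBc : DC_B (D := D) (tw := tw) v = (DC_A v * DC_B v) ^ (-1 : ℤ) * DC_A v := by
      have hA' : (DC_A (D := D) (tw := tw) v)⁻¹ = DC_A v := inv_eq_of_mul_eq_one_right hA
      have hB' : (DC_B (D := D) (tw := tw) v)⁻¹ = DC_B v := inv_eq_of_mul_eq_one_right hB
      rw [zpow_neg_one, mul_inv_rev, hA', hB', mul_assoc, hA, mul_one]
    rw [ev_cons]
    rcases DC_gen (D := D) (hm a List.mem_cons_self) with h | h
    · rcases hk with hk | hk
      · exact ⟨-k, Or.inr (by rw [h, hk, hd])⟩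
      · exact ⟨-k, Or.inl (by rw [h, hk, ← mul_assoc, hd, mul_assoc, hA, mul_one])⟩
    · rcases hk with hk | hk
      · refine ⟨-1 - k, Or.inr ?_⟩
        rw [h, hk]
        nth_rw 1 [hBc]
        rw [mul_assoc, hd, ← mul_assoc, ← zpow_add]
        rfl
      · refine ⟨-1 - k, Or.inl ?_⟩
        rw [h, hk]
        nth_rw 1 [hBc]
        rw [mul_assoc, ← mul_assoc (DC_A v), hd, mul_assoc, hA, mul_one, ← zpow_add]
        rfl

theorem DC_pow {v : V} {x : (TG D tw).W} (he : Ev x) (hx : InD v x) :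
    ∃ k : ℤ, x = (DC_A v * DC_B v) ^ k := by
  obtain ⟨k, hk | hk⟩ := DC_form hx
  · exact ⟨k, hk⟩
  by_cases htw : tw v
  · exfalso
    obtain ⟨a, ha⟩ : ∃ a : Lt tw, a = ⟨(v, false), fun h => absurd h (by simp)⟩ := ⟨_, rfl⟩
    obtain ⟨b, hb⟩ : ∃ b : Lt tw, b = ⟨(v, true), fun _ => htw⟩ := ⟨_, rfl⟩
    have hAa : DC_A (D := D) (tw := tw) v = (TG D tw).g a := by rw [ha]; rfl
    have hBb : DC_B (D := D) (tw := tw) v = (TG D tw).g b := by
      unfold DC_B
      rw [dif_pos htw, hb]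
    have hab : a ≠ b := by
      intro h
      rw [ha, hb] at h
      have := congrArg (fun p : Lt tw => p.1.2) h
      simp at this
    have h1 := he a
    have h2 := he b
    have e1 : par a (DC_A (D := D) (tw := tw) v) ≠ 1 := by rw [hAa]; exact par_self a
    have e2 : par a (DC_B (D := D) (tw := tw) v) = 1 := by rw [hBb]; exact par_ne hab.symm
    have e3 : par b (DC_A (D := D) (tw := tw) v) = 1 := by rw [hAa]; exact par_ne hab
    have e4 : par b (DC_B (D := D) (tw := tw) v) ≠ 1 := by rw [hBb]; exact par_self b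
    rw [hk, map_mul, map_zpow, map_mul, e2, mul_one] at h1
    rw [hk, map_mul, map_zpow, map_mul, e3, one_mul, mul_one] at h2
    rcases Int.even_or_odd' k with ⟨m, hm | hm⟩
    · rw [hm, zpow_mul, DC_sq, one_zpow, one_mul] at h1
      exact e1 h1
    · rw [hm, zpow_add, zpow_mul, DC_sq, one_zpow, one_mul, zpow_one] at h2
      exact e4 h2
  · refine ⟨k + 1, ?_⟩
    have hB : DC_B (D := D) (tw := tw) v = 1 := by
      unfold DC_B
      rw [dif_neg htw]
    rw [hk, hB, mul_one, zpow_add, zpow_one]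

end

/-- **DC** (the hypothesis is not needed) -/
theorem t_DC (_hTF : S_TF) : S_DC := by
  intro V D tw v x y hx hy hvx hvy
  obtain ⟨p, rfl⟩ := DC_pow hx hvx
  obtain ⟨q, rfl⟩ := DC_pow hy hvy
  refine ⟨by rw [← zpow_add, ← zpow_add, add_comm], fun h1 h2 => ?_⟩
  refine ⟨q, p, ?_, ?_, ?_⟩
  · rintro rfl
    exact h2 (zpow_zero _)
  · rintro rfl
    exact h1 (zpow_zero _)
  · rw [← zpow_mul, ← zpow_mul, mul_comm]

end Pool.Agent.H56Q
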