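import Pool.Agent.H56Q.Stm

/-!
# RQ piece EXT: the extremal vertex
-/

set_option autoImplicit false

namespace Pool.Agent.H56Q

open Pool.Agent.Helper2GI Pool.Agent.Helper2GI.RA

namespace EXT

theorem eq_one_of_len {E : Type} {G : RA E} {x : G.W} (h : G.len x = 0) : x = 1 := by
  obtain ⟨m, hm, rfl⟩ := exists_red x
  rw [len_ev m hm, List.length_eq_zero_iff] at h
  rw [h, ev_nil]

end EXT

open EXT

theorem t_EXT (hPGR : S_PGR) (hHDS : S_HDS) : S_EXT := by
  intro V₂ hV D₂ H₁ H₂ φ B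
  obtain ⟨-, -, -, hcov, huni, ⟨σ₀⟩⟩ := hPGR
  have : Finite (ZMod 5 → V₂) := Pi.finite
  have : Finite (Wk D₂) := Subtype.finite
  let S : Set (GW.W × Wk Pen) := {a | (B.F a).1 = 1}
  have hfin : S.Finite := by
    refine Set.Finite.of_injOn (f := fun a => (B.F a).2) (t := Set.univ) (fun _ _ => Set.mem_univ _)
      ?_ Set.finite_univ
    intro a ha b hb hab
    have ha' : (B.F a).1 = 1 := ha
    have hb' : (B.F b).1 = 1 := hb
    exact B.F.injective (Prod.ext (ha'.trans hb'.symm) hab)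
  have hne : S.Nonempty := by
    refine ⟨B.F.symm (1, (B.F (1, σ₀)).2), ?_⟩
    show (B.F (B.F.symm _)).1 = 1
    rw [Equiv.apply_symm_apply]
  obtain ⟨⟨g, σ⟩, hgS, hmax⟩ := Set.exists_max_image S (fun a => GW.len a.1) hfin hne
  obtain ⟨c, hc⟩ := hHDS g
  obtain ⟨i, hi⟩ := hcov σ c
  have hsh : ∀ n : ℕ, ∃ σ' : Wk Pen, (∀ j, σ'.1 j = σ.1 (j + n)) ∧
      (B.F (g, σ')).1 = (B.F (g, σ)).1 := by
    intro n
    induction n with
    | zero => exact ⟨σ, fun j => by simp, rfl⟩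
    | succ n ih =>
      obtain ⟨σ', h1, h2⟩ := ih
      refine ⟨σ'.shift, fun j => ?_, ?_⟩
      · show σ'.1 (j + 1) = _
        rw [h1, show j + 1 + (n : ZMod 5) = j + ((n + 1 : ℕ) : ZMod 5) by push_cast; ring]
      · have h3 := B.shift (g, σ')
        have h4 : (B.F (g, σ'.shift)).1 = (B.F (g, σ')).1 := by
          rw [show B.F (g, σ'.shift) = ((B.F (g, σ')).1, (B.F (g, σ')).2.shift) from h3]
        rw [h4, h2]
  obtain ⟨σ', h1, h2⟩ := hsh i.val
  have h0 : σ'.1 0 = (c, false) := by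
    rw [h1, zero_add, ZMod.natCast_zmod_val, hi]
  have hFa : (B.F (g, σ')).1 = 1 := h2.trans hgS
  refine ⟨(g, σ'), fun u' hu' => ?_⟩
  set b := B.F.symm (1, u') with hb
  have hFb : B.F b = (1, u') := by rw [hb, Equiv.apply_symm_apply]
  have hline := (B.line (g, σ') b 0 0).2 (by
    rw [hFb, hFa]
    refine ⟨hu'.symm, ?_⟩
    show InS _ ((1 : (TT D₂).W)⁻¹ * 1)
    rw [inv_one, one_mul]
    exact Par.one _)
  obtain ⟨h3, h4⟩ := hline
  have h3' : σ'.1 0 = b.2.1 0 := h3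
  have h4' : InS (D := Pen) (tw := cyc) (σ'.1 0) (g⁻¹ * b.1) := h4
  rw [h0] at h4'
  have h5 := hc _ h4'
  have h6 : g * (g⁻¹ * b.1) = b.1 := by group
  rw [h6] at h5
  have h7 : GW.len b.1 ≤ GW.len g := hmax b (by
    show (B.F b).1 = 1
    rw [hFb])
  have h8 : g⁻¹ * b.1 = 1 := eq_one_of_len (by omega)
  have h9 : b.1 = g := by
    rw [← h6, h8, mul_one]
  rcases huni σ' b.2 h3' with h10 | h10
  · left
    have h11 : b = (g, σ') := Prod.ext h9 h10
    rw [← h11, hFb]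
  · right
    have h11 : b = (g, σ'.neg) := Prod.ext h9 h10
    have h12 := B.neg (g, σ')
    have h13 : B.F b = ((B.F (g, σ')).1, (B.F (g, σ')).2.neg) := by rw [h11]; exact h12
    rw [hFb] at h13
    exact (Prod.ext_iff.1 h13).2

end Pool.Agent.H56Q
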