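import Pool.Agent.H56Q.Stm

/-!
Project RQ (helper56), piece FB (helper4): comparison of the links.
-/

set_option autoImplicit false

namespace Pool.Agent.H56Q

open Pool.Agent.Helper2GI Pool.Agent.Helper2GI.RA

namespace FB4

/-- an equivariant bijection of groups identifies subgroups and their indices -/
theorem idx {L₁ L₂ : Type} [Group L₁] [Group L₂] (f : L₁ ≃ L₂) (M₁ : Subgroup L₁)
    (M₂ : Subgroup L₂) (hM : ∀ y, f y ∈ M₂ ↔ y ∈ M₁)
    (hf : ∀ m ∈ M₁, ∀ y, f (m * y) = f m * f y) :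
    Nonempty (M₁ ≃* M₂) ∧ M₁.index = M₂.index := by
  constructor
  · exact ⟨{ f.subtypeEquiv (fun a => (hM a).symm) with
      map_mul' := fun x y => Subtype.ext (hf x.1 x.2 y.1) }⟩
  · have key : ∀ x y : L₁, (QuotientGroup.rightRel M₁) x y ↔ (QuotientGroup.rightRel M₂) (f x) (f y) := by
      intro x y
      rw [QuotientGroup.rightRel_apply, QuotientGroup.rightRel_apply]
      constructor
      · intro h
        have h1 := hf _ h x
        rw [inv_mul_cancel_right] at h1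
        rw [h1, mul_inv_cancel_right]
        exact (hM _).2 h
      · intro h
        obtain ⟨m, hm⟩ := f.surjective (f y * (f x)⁻¹)
        have hmM : m ∈ M₁ := by
          rw [← hM, hm]
          exact h
        have h1 := hf _ hmM x
        rw [hm, inv_mul_cancel_right] at h1
        have h2 := f.injective h1
        rw [← h2, mul_inv_cancel_right]
        exact hmM
    have e1 : Quotient (QuotientGroup.rightRel M₁) ≃ Quotient (QuotientGroup.rightRel M₂) :=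
      Quotient.congr f key
    have c := Nat.card_congr ((QuotientGroup.quotientRightRelEquivQuotientLeftRel M₁).symm.trans
      (e1.trans (QuotientGroup.quotientRightRelEquivQuotientLeftRel M₂)))
    exact c

section
variable {V : Type} {D : SimpleGraph V} {tw : V → Prop}

theorem negneg (σ : Wk D) : σ.neg.neg = σ := by
  apply Subtype.ext
  funext i
  show σ.1 (- -i) = σ.1 i
  rw [neg_neg]

theorem one_ne (hN : NT D) (σ : Wk D) : σ.1 1 ≠ σ.1 (-1) := by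
  intro h
  have h1 := σ.2 1
  have h2 := σ.2 2
  have h3 := σ.2 3
  have e2 : (1 : ZMod 5) + 1 = 2 := by decide
  have e3 : (2 : ZMod 5) + 1 = 3 := by decide
  have e4 : (3 : ZMod 5) + 1 = -1 := by decide
  rw [e2] at h1
  rw [e3] at h2
  rw [e4, ← h] at h3
  exact hN _ _ _ h1 h2 h3.symm

theorem InD_of (hN : NT D) (σ : Wk D) {x : (TG D tw).W} (h0 : InS (σ.1 0) x)
    (h1 : InS (σ.1 1) x) (h2 : InS (σ.1 (-1)) x) : InD (σ.1 0) x := by
  have h := (Par.inter h0 h1).inter h2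
  refine h.mono ?_
  rintro a ⟨⟨a0, a1⟩, a2⟩
  have e1 : (0 : ZMod 5) + 1 = 1 := by decide
  have e2 : (-1 : ZMod 5) + 1 = 0 := by decide
  have s1 := σ.2 0
  have s2 := σ.2 (-1)
  rw [e1] at s1
  rw [e2] at s2
  rcases a0 with a0 | a0
  · exact a0
  · exfalso
    rcases a1 with a1 | a1
    · rcases a2 with a2 | a2
      · exact one_ne hN σ (a1.symm.trans a2)
      · rw [a1] at a2
        exact hN _ _ _ s2 s1 a2
    · exact hN _ _ _ s1 a1 a0

theorem InS_of_InD {v w : V} (h : D.Adj v w) {x : (TG D tw).W} (hx : InD v x) : InS w x :=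
  hx.mono fun a ha => Or.inr (by rw [ha]; exact h.symm)

theorem InS_self {v : V} {x : (TG D tw).W} (hx : InD v x) : InS v x :=
  hx.mono fun _ ha => Or.inl ha

/-- the star group as a subgroup -/
def SS (D : SimpleGraph V) (tw : V → Prop) (v : V) : Subgroup (TG D tw).W where
  carrier := {x | InS v x}
  one_mem' := Par.one _
  mul_mem' := fun h h' => Par.mul h h'
  inv_mem' := fun h => Par.inv h

theorem Ev_conj {E : Type} {G : RA E} {x : G.W} (h : Ev x) (g : G.W) : Ev (g⁻¹ * x * g) := by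
  intro a
  rw [map_mul, map_mul, h a, mul_one, ← map_mul, inv_mul_cancel, map_one]

/-- the subgroup of the link group -/
def MM (v : V) {L : Type} [Group L] (π : (TG D tw).W →* L) (H : Subgroup (TG D tw).W)
    (g : (TG D tw).W) : Subgroup L :=
  ((H.comap (MulAut.conj g).toMonoidHom).subgroupOf (SS D tw v)).map
    (π.comp (SS D tw v).subtype)

theorem mem_MM (v : V) {L : Type} [Group L] (π : (TG D tw).W →* L) (H : Subgroup (TG D tw).W)
    (g : (TG D tw).W) (y : L) :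
    y ∈ MM v π H g ↔ ∃ m, InS v m ∧ g * m * g⁻¹ ∈ H ∧ π m = y := by
  unfold MM
  rw [Subgroup.mem_map]
  constructor
  · rintro ⟨m, hm, rfl⟩
    exact ⟨m.1, m.2, hm, rfl⟩
  · rintro ⟨m, h1, h2, rfl⟩
    exact ⟨⟨m, h1⟩, h2, rfl⟩

theorem MM_index (v : V) {L : Type} [Group L] (π : (TG D tw).W →* L) (H : Subgroup (TG D tw).W)
    (g : (TG D tw).W) (hs : ∀ y, ∃ m, InS v m ∧ π m = y) (hi : H.index ≠ 0) :
    (MM v π H g).index ≠ 0 := by
  have h1 : (H.comap (MulAut.conj g).toMonoidHom).index ≠ 0 := by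
    rw [Subgroup.index_comap_of_surjective _ (MulAut.conj g).surjective]
    exact hi
  have : (H.comap (MulAut.conj g).toMonoidHom).FiniteIndex := ⟨h1⟩
  have h2 : ((H.comap (MulAut.conj g).toMonoidHom).subgroupOf (SS D tw v)).index ≠ 0 :=
    Subgroup.FiniteIndex.index_ne_zero
  have h3 : Function.Surjective (π.comp (SS D tw v).subtype) := by
    intro y
    obtain ⟨m, hm, rfl⟩ := hs y
    exact ⟨⟨m, hm⟩, rfl⟩
  have h4 := Subgroup.index_map_dvd ((H.comap (MulAut.conj g).toMonoidHom).subgroupOf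
    (SS D tw v)) h3
  exact fun h5 => h2 (by
    unfold MM at h5
    rw [h5] at h4
    exact Nat.eq_zero_of_zero_dvd h4)

end

end FB4

open FB4 in
theorem t_FB (hG : S_PGR) (hL : S_LKP) : S_FB := by
  intro V₂ D₂ hNT₂ hNS₂ H₁ H₂ φ hi₁ hi₂ hE₁ hE₂ B a hu
  obtain ⟨hNT₁, hNS₁, _, _, hσ, _⟩ := hG
  obtain ⟨g, σ⟩ := a
  generalize hF : B.F (g, σ) = b at hu ⊢
  obtain ⟨w, u⟩ := b
  simp only at hu ⊢
  obtain ⟨π₁, ι₁, pi1, iS1, ker1, DS1, ev1⟩ := hL _ Pen cyc (σ.1 0) hNT₁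
  obtain ⟨π₂, ι₂, pi2, iS2, ker2, DS2, ev2⟩ := hL _ D₂ (fun _ => True) (u.1 0) hNT₂
  -- the comparison map
  obtain ⟨f, hf⟩ : ∃ f : GW.W → (TT D₂).W, ∀ k, f k = w⁻¹ * (B.F (g * k, σ)).1 := ⟨_, fun _ => rfl⟩
  have LL : ∀ k k' (i j : ZMod 5), (σ.1 i = σ.1 j ∧ InS (σ.1 i) (k⁻¹ * k')) ↔
      ((B.F (g * k, σ)).2.1 i = (B.F (g * k', σ)).2.1 j ∧
        InS ((B.F (g * k, σ)).2.1 i) ((f k)⁻¹ * f k')) := by
    intro k k' i j
    have h := B.line (g * k, σ) (g * k', σ) i j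
    simp only at h
    rw [show (g * k)⁻¹ * (g * k') = k⁻¹ * k' by group] at h
    rw [h, hf, hf, show (w⁻¹ * (B.F (g * k, σ)).1)⁻¹ * (w⁻¹ * (B.F (g * k', σ)).1) =
      (B.F (g * k, σ)).1⁻¹ * (B.F (g * k', σ)).1 by group]
  have f1 : f 1 = 1 := by
    rw [hf, mul_one, hF, inv_mul_cancel]
  have F1 : B.F (g * 1, σ) = (w, u) := by rw [mul_one, hF]
  have L0 : ∀ k, InS (σ.1 0) k ↔ ((B.F (g * k, σ)).2.1 0 = u.1 0 ∧ InS (u.1 0) (f k)) := by
    intro k
    have h := LL 1 k 0 0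
    rw [F1, f1] at h
    simp only [true_and, inv_one, one_mul] at h
    rw [h]
    exact ⟨fun h => ⟨h.1.symm, h.2⟩, fun h => ⟨h.1.symm, h.2⟩⟩
  have U0 : ∀ k, InS (σ.1 0) k → (B.F (g * k, σ)).2 = u ∨ (B.F (g * k, σ)).2 = u.neg :=
    fun k hk => hu (B.F (g * k, σ)).2 ((L0 k).1 hk).1
  have a01 : (0 : ZMod 5) + 1 = 1 := by decide
  have a10 : (-1 : ZMod 5) + 1 = 0 := by decide
  have K3 : ∀ k k', InS (σ.1 0) k → InS (σ.1 0) k' →
      (InD (σ.1 0) (k⁻¹ * k') ↔ InD (u.1 0) ((f k)⁻¹ * f k')) := by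
    intro k k' hk hk'
    have z1 := ((L0 k).1 hk).1
    constructor
    · intro h
      have s1 := σ.2 0
      have s2 := σ.2 (-1)
      rw [a01] at s1
      rw [a10] at s2
      have q0 := (LL k k' 0 0).1 ⟨rfl, InS_self h⟩
      have q1 := (LL k k' 1 1).1 ⟨rfl, InS_of_InD s1 h⟩
      have q2 := (LL k k' (-1) (-1)).1 ⟨rfl, InS_of_InD s2.symm h⟩
      have := InD_of hNT₂ _ q0.2 q1.2 q2.2
      rw [z1] at this
      exact this
    · intro h
      have s1 := (B.F (g * k, σ)).2.2 0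
      have s2 := (B.F (g * k, σ)).2.2 (-1)
      rw [a01] at s1
      rw [a10] at s2
      rw [← z1] at h
      have hcase : (B.F (g * k', σ)).2 = (B.F (g * k, σ)).2 ∨
          (B.F (g * k', σ)).2 = (B.F (g * k, σ)).2.neg := by
        rcases U0 k hk with h1 | h1 <;> rcases U0 k' hk' with h2 | h2 <;> rw [h1, h2]
        · exact Or.inl rfl
        · exact Or.inr rfl
        · exact Or.inr (negneg u).symm
        · exact Or.inl rfl
      rcases hcase with hc | hc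
      · have q0 := (LL k k' 0 0).2 ⟨by rw [hc], InS_self h⟩
        have q1 := (LL k k' 1 1).2 ⟨by rw [hc], InS_of_InD s1 h⟩
        have q2 := (LL k k' (-1) (-1)).2 ⟨by rw [hc], InS_of_InD s2.symm h⟩
        exact InD_of hNT₁ σ q0.2 q1.2 q2.2
      · exfalso
        have q1 := (LL k k' 1 (-1)).2 ⟨by
          rw [hc]
          show _ = (B.F (g * k, σ)).2.1 (- -1)
          rw [neg_neg], InS_of_InD s1 h⟩
        exact one_ne hNT₁ σ q1.1
  -- kernels
  have kr1 : ∀ x y, InS (σ.1 0) x → InS (σ.1 0) y → (π₁ x = π₁ y ↔ InD (σ.1 0) (x⁻¹ * y)) := by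
    intro x y hx hy
    rw [← ker1 _ (Par.mul (Par.inv hx) hy), map_mul, map_inv, inv_mul_eq_one]
  have kr2 : ∀ x y, InS (u.1 0) x → InS (u.1 0) y → (π₂ x = π₂ y ↔ InD (u.1 0) (x⁻¹ * y)) := by
    intro x y hx hy
    rw [← ker2 _ (Par.mul (Par.inv hx) hy), map_mul, map_inv, inv_mul_eq_one]
  have star : ∀ x y, InS (σ.1 0) x → InS (σ.1 0) y → (π₁ x = π₁ y ↔ π₂ (f x) = π₂ (f y)) := by
    intro x y hx hy
    rw [kr1 x y hx hy, K3 x y hx hy, kr2 _ _ ((L0 x).1 hx).2 ((L0 y).1 hy).2]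
  -- surjectivity of `f`
  have sur : ∀ c, InS (u.1 0) c → ∃ k, InS (σ.1 0) k ∧ f k = c := by
    intro c hc
    obtain ⟨⟨g', σ'⟩, hp⟩ := B.F.surjective (w * c, u)
    have h := B.line (g, σ) (g', σ') 0 0
    rw [hF, hp] at h
    simp only [inv_mul_cancel_left, true_and] at h
    obtain ⟨h1, h2⟩ := h.2 hc
    rcases hσ σ σ' h1 with h3 | h3
    · subst h3
      refine ⟨g⁻¹ * g', h2, ?_⟩
      rw [hf, mul_inv_cancel_left, hp]
      group
    · subst h3
      refine ⟨g⁻¹ * g', h2, ?_⟩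
      have h4 := B.neg (g', σ.neg)
      simp only at h4
      rw [hp, negneg] at h4
      rw [hf, mul_inv_cancel_left, h4]
      group
  -- the equivalence of the link groups
  have bij : Function.Bijective (fun y => π₂ (f (ι₁ y))) := by
    constructor
    · intro y y' h
      have h1 := (star _ _ (iS1 y) (iS1 y')).2 h
      rwa [pi1, pi1] at h1
    · intro z
      obtain ⟨k, hk, h1⟩ := sur (ι₂ z) (iS2 z)
      refine ⟨π₁ k, ?_⟩
      have h2 : π₁ (ι₁ (π₁ k)) = π₁ k := pi1 _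
      have h3 := (star _ _ (iS1 (π₁ k)) hk).1 h2
      show π₂ (f (ι₁ (π₁ k))) = z
      rw [h3, h1, pi2]
  have fb : ∀ k, InS (σ.1 0) k → π₂ (f (ι₁ (π₁ k))) = π₂ (f k) := fun k hk =>
    (star _ _ (iS1 (π₁ k)) hk).1 (pi1 _)
  -- the action
  have act : ∀ (m k : GW.W) (hm : g * m * g⁻¹ ∈ H₁), f (m * k) = w⁻¹ * (φ ⟨_, hm⟩).1 * w * f k := by
    intro m k hm
    have h := B.equi ⟨_, hm⟩ (g * k, σ)
    simp only at h
    rw [show g * m * g⁻¹ * (g * k) = g * (m * k) by group] at h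
    rw [hf, hf, h]
    group
  have act1 : ∀ (m : GW.W) (hm : g * m * g⁻¹ ∈ H₁), f m = w⁻¹ * (φ ⟨_, hm⟩).1 * w := by
    intro m hm
    have := act m 1 hm
    rwa [mul_one, f1, mul_one] at this
  have fm : ∀ y₁ ∈ MM (σ.1 0) π₁ H₁ g, ∀ y, π₂ (f (ι₁ (y₁ * y))) =
      π₂ (f (ι₁ y₁)) * π₂ (f (ι₁ y)) := by
    intro y₁ h₁ y
    rw [mem_MM] at h₁
    obtain ⟨m, hmS, hm, rfl⟩ := h₁
    have h1 : π₁ m * y = π₁ (m * ι₁ y) := by rw [map_mul, pi1]
    rw [h1, fb _ (Par.mul hmS (iS1 y)), fb _ hmS, act m _ hm, ← act1 m hm, map_mul]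
  have mm : ∀ y, π₂ (f (ι₁ y)) ∈ MM (u.1 0) π₂ H₂ w ↔ y ∈ MM (σ.1 0) π₁ H₁ g := by
    have fwd : ∀ y, y ∈ MM (σ.1 0) π₁ H₁ g → π₂ (f (ι₁ y)) ∈ MM (u.1 0) π₂ H₂ w := by
      intro y hy
      rw [mem_MM] at hy ⊢
      obtain ⟨m, hmS, hm, rfl⟩ := hy
      refine ⟨f m, ((L0 m).1 hmS).2, ?_, (fb m hmS).symm⟩
      rw [act1 m hm]
      have : w * (w⁻¹ * (φ ⟨_, hm⟩).1 * w) * w⁻¹ = (φ ⟨_, hm⟩).1 := by group
      rw [this]
      exact (φ ⟨_, hm⟩).2
    intro y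
    refine ⟨fun hy => ?_, fwd y⟩
    rw [mem_MM] at hy
    obtain ⟨n, hnS, hn, hny⟩ := hy
    obtain ⟨h, hh⟩ := φ.surjective ⟨_, hn⟩
    have e : g * (g⁻¹ * h.1 * g) * g⁻¹ = h.1 := by group
    have hm : g * (g⁻¹ * h.1 * g) * g⁻¹ ∈ H₁ := by
      rw [e]
      exact h.2
    have e2 : (⟨_, hm⟩ : H₁) = h := Subtype.ext e
    have h1 : f (g⁻¹ * h.1 * g) = n := by
      rw [act1 _ hm, e2, hh]
      show w⁻¹ * (w * n * w⁻¹) * w = n
      group
    have hF2 : B.F (g * (g⁻¹ * h.1 * g), σ) = ((φ h).1 * w, u) := by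
      have := B.equi h (g, σ)
      rw [hF] at this
      rw [show g * (g⁻¹ * h.1 * g) = h.1 * g by group]
      exact this
    have hmS : InS (σ.1 0) (g⁻¹ * h.1 * g) := by
      rw [L0, hF2, h1]
      exact ⟨rfl, hnS⟩
    have h2 : y = π₁ (g⁻¹ * h.1 * g) := by
      apply bij.1
      show π₂ (f (ι₁ y)) = π₂ (f (ι₁ (π₁ (g⁻¹ * h.1 * g))))
      rw [fb _ hmS, h1, hny]
    rw [mem_MM]
    exact ⟨_, hmS, hm, h2.symm⟩
  obtain ⟨r1, r2⟩ := idx (Equiv.ofBijective _ bij) (MM (σ.1 0) π₁ H₁ g) (MM (u.1 0) π₂ H₂ w) mm fm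
  refine ⟨MM (σ.1 0) π₁ H₁ g, MM (u.1 0) π₂ H₂ w, r1, r2,
    MM_index _ _ _ _ (fun y => ⟨ι₁ y, iS1 y, pi1 y⟩) hi₁, ?_, ?_⟩
  · intro x hx
    rw [mem_MM] at hx
    obtain ⟨m, _, hm, rfl⟩ := hx
    refine ev1 m ?_
    have := Ev_conj (hE₁ _ hm) g
    rwa [show g⁻¹ * (g * m * g⁻¹) * g = m by group] at this
  · intro x hx
    rw [mem_MM] at hx
    obtain ⟨m, _, hm, rfl⟩ := hx
    refine ev2 m ?_
    have := Ev_conj (hE₂ _ hm) w
    rwa [show w⁻¹ * (w * m * w⁻¹) * w = m by group] at this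

end Pool.Agent.H56Q
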