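import Pool.Agent.H56Q.Stm

/-!
Piece FIN of project RQ: `GW.W` is not commensurable to `(TT D₂).W`.
-/

set_option autoImplicit false

namespace Pool.Agent.H56Q

open Pool.Agent.Helper2GI Pool.Agent.Helper2GI.RA

namespace FIN

/-- the subgroup of even elements -/
noncomputable def evSub {E : Type} (G : RA E) : Subgroup G.W := ⨅ a : E, (par a).ker

theorem mem_evSub {E : Type} {G : RA E} (x : G.W) : x ∈ evSub G ↔ Ev x := by
  unfold evSub Ev
  rw [Subgroup.mem_iInf]
  rfl

theorem evSub_fi {E : Type} [Finite E] (G : RA E) : (evSub G).FiniteIndex := by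
  have h : ∀ a : E, (par (G := G) a).ker.FiniteIndex := fun a => inferInstance
  exact Subgroup.finiteIndex_iInf h

theorem card_five (c : ZMod 5) :
    Nat.card {a : Lt cyc // Pen.Adj (c, false) a.1.1} = 5 := by
  let f : Fin 5 → {a : Lt cyc // Pen.Adj (c, false) a.1.1} := fun i =>
    match i with
    | 0 => ⟨⟨((c + 1, false), false), fun h => by cases h⟩, Or.inl ⟨rfl, rfl, Or.inl rfl⟩⟩
    | 1 => ⟨⟨((c + 1, false), true), fun _ => rfl⟩, Or.inl ⟨rfl, rfl, Or.inl rfl⟩⟩
    | 2 => ⟨⟨((c - 1, false), false), fun h => by cases h⟩,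
        Or.inl ⟨rfl, rfl, Or.inr (by ring)⟩⟩
    | 3 => ⟨⟨((c - 1, false), true), fun _ => rfl⟩, Or.inl ⟨rfl, rfl, Or.inr (by ring)⟩⟩
    | 4 => ⟨⟨((c, true), false), fun h => by cases h⟩, Or.inr ⟨rfl, by simp⟩⟩
  have hf : Function.Bijective f := by
    constructor
    · have h2 : ∀ c : ZMod 5, c + 1 ≠ c - 1 := by decide
      intro i j h
      have h1 : (f i).1.1 = (f j).1.1 := by rw [h]
      fin_cases i <;> fin_cases j <;>
        first
          | rfl
          | (exfalso; simp [f] at h1; done)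
          | (exfalso; simp [f] at h1; exact h2 c h1)
          | (exfalso; simp [f] at h1; exact h2 c h1.symm)
    · rintro ⟨⟨⟨⟨d, b⟩, e⟩, he⟩, had⟩
      rcases had with ⟨_, h2, h3⟩ | ⟨h1, h2⟩
      · have h2' : b = false := h2
        subst h2'
        rcases h3 with h3 | h3
        · have h3' : d = c + 1 := h3
          subst h3'
          cases e
          · exact ⟨0, rfl⟩
          · exact ⟨1, rfl⟩
        · have h3' : c = d + 1 := h3
          have h4 : d = c - 1 := by rw [h3']; ring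
          subst h4
          cases e
          · exact ⟨2, rfl⟩
          · exact ⟨3, rfl⟩
      · have h1' : c = d := h1
        subst h1'
        have h2' : false ≠ b := h2
        cases b
        · exact absurd rfl h2'
        · cases e
          · exact ⟨4, rfl⟩
          · have h5 : (true = false) := he rfl
            cases h5
  rw [← Nat.card_congr (Equiv.ofBijective f hf), Nat.card_eq_fintype_card, Fintype.card_fin]

theorem card_even {V : Type} (D : SimpleGraph V) (v : V) :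
    Nat.card {a : Lt (fun _ : V => True) // D.Adj v a.1.1} = Nat.card {w : V // D.Adj v w} * 2 := by
  have e : {a : Lt (fun _ : V => True) // D.Adj v a.1.1} ≃ {w : V // D.Adj v w} × Bool :=
    { toFun := fun a => (⟨a.1.1.1, a.2⟩, a.1.1.2)
      invFun := fun p => ⟨⟨(p.1.1, p.2), fun _ => trivial⟩, p.1.2⟩
      left_inv := fun a => rfl
      right_inv := fun p => rfl }
  rw [Nat.card_congr e, Nat.card_prod]
  congr 1
  simp

end FIN

open FIN in
theorem t_FIN (hGRA : S_GRA) (hBIJ : S_BIJ) (hPGR : S_PGR) (hEXT : S_EXT) (hFB : S_FB)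
    (hHOM3 : S_HOM3) : S_FIN := by
  intro V₂ hV₂ D₂ H₁ H₂ h₁ h₂ hφ
  obtain ⟨φ⟩ := hφ
  have i₁ : H₁.FiniteIndex := ⟨h₁⟩
  have i₂ : H₂.FiniteIndex := ⟨h₂⟩
  have e₁ : (evSub GW).FiniteIndex := evSub_fi GW
  have e₂ : (evSub (TT D₂)).FiniteIndex := evSub_fi (TT D₂)
  let K : Subgroup H₁ := (evSub GW).comap H₁.subtype ⊓
    (evSub (TT D₂)).comap (H₂.subtype.comp φ.toMonoidHom)
  have hK : K.FiniteIndex := by
    have k1 : ((evSub GW).comap H₁.subtype).FiniteIndex := by
      constructor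
      rw [Subgroup.index_comap]
      exact (Subgroup.instFiniteIndex_subgroupOf (evSub GW) _).index_ne_zero
    have k2 : ((evSub (TT D₂)).comap (H₂.subtype.comp φ.toMonoidHom)).FiniteIndex := by
      constructor
      rw [Subgroup.index_comap]
      exact (Subgroup.instFiniteIndex_subgroupOf (evSub (TT D₂)) _).index_ne_zero
    infer_instance
  let K₂ : Subgroup H₂ := K.map φ.toMonoidHom
  have hK₂ : K₂.index ≠ 0 := by
    show (K.map φ.toMonoidHom).index ≠ 0
    rw [Subgroup.index_map]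
    refine mul_ne_zero ?_ ?_
    · exact (Subgroup.finiteIndex_of_le (le_sup_left : K ≤ K ⊔ φ.toMonoidHom.ker)).index_ne_zero
    · rw [MonoidHom.range_eq_top.2 φ.surjective, Subgroup.index_top]
      exact one_ne_zero
  let L₁ : Subgroup GW.W := K.map H₁.subtype
  let L₂ : Subgroup (TT D₂).W := K₂.map H₂.subtype
  have hL₁ : L₁.index ≠ 0 := by
    show (K.map H₁.subtype).index ≠ 0
    rw [Subgroup.index_map_subtype]
    exact mul_ne_zero hK.index_ne_zero h₁
  have hL₂ : L₂.index ≠ 0 := by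
    show (K₂.map H₂.subtype).index ≠ 0
    rw [Subgroup.index_map_subtype]
    exact mul_ne_zero hK₂ h₂
  have evL₁ : ∀ x ∈ L₁, Ev x := by
    rintro x ⟨y, hy, rfl⟩
    exact (mem_evSub _).1 hy.1
  have evL₂ : ∀ x ∈ L₂, Ev x := by
    rintro x ⟨y, ⟨z, hz, rfl⟩, rfl⟩
    exact (mem_evSub _).1 hz.2
  let ψ : L₁ ≃* L₂ :=
    ((K.equivMapOfInjective H₁.subtype H₁.subtype_injective).symm.trans
      (K.equivMapOfInjective φ.toMonoidHom φ.injective)).trans
      (K₂.equivMapOfInjective H₂.subtype H₂.subtype_injective)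
  obtain ⟨p1, p2, p3, p4, p5, p6⟩ := hPGR
  obtain ⟨hNT, hNS⟩ := hGRA (ZMod 5 × Bool) V₂ Pen D₂ cyc p1 p2 L₁ L₂ hL₂ evL₁ evL₂ ⟨ψ⟩
  obtain ⟨B⟩ := hBIJ (ZMod 5 × Bool) V₂ Pen D₂ cyc (fun _ => True) p1 p2 hNT hNS p3
    (fun _ _ => trivial) L₁ L₂ ψ hL₁ hL₂ evL₁ evL₂
  obtain ⟨a, ha⟩ := hEXT V₂ hV₂ D₂ L₁ L₂ ψ B
  obtain ⟨M₁, M₂, ⟨θ⟩, hidx, hne, evM₁, evM₂⟩ := hFB V₂ D₂ hNT hNS L₁ L₂ ψ hL₁ hL₂ evL₁ evL₂ B a ha
  have q1 := hHOM3 _ inferInstance (LK Pen cyc (a.2.1 0)) (fun _ _ h => h) M₁ hne evM₁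
  have q2 := hHOM3 _ inferInstance (LK D₂ (fun _ : V₂ => True) ((B.F a).2.1 0)) (fun _ _ h => h) M₂
    (hidx ▸ hne) evM₂
  have q3 : Nat.card (M₁ →* Multiplicative (ZMod 3)) = Nat.card (M₂ →* Multiplicative (ZMod 3)) :=
    Nat.card_congr
      { toFun := fun f => f.comp θ.symm.toMonoidHom
        invFun := fun f => f.comp θ.toMonoidHom
        left_inv := fun f => by ext x; simp
        right_inv := fun f => by ext x; simp }
  rw [q3, hidx, q2] at q1
  have q4 := Nat.pow_right_injective (by norm_num : 2 ≤ 3) q1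
  have hne₂ : M₂.index ≠ 0 := hidx ▸ hne
  have q5 : M₂.index * Nat.card {b : Lt (fun _ : V₂ => True) // D₂.Adj ((B.F a).2.1 0) b.1.1} =
      M₂.index * Nat.card {b : Lt cyc // Pen.Adj (a.2.1 0) b.1.1} := by
    have := q4
    simp only at this
    omega
  have q6 := Nat.eq_of_mul_eq_mul_left (Nat.pos_of_ne_zero hne₂) q5
  have q7 : a.2.1 0 = ((a.2.1 0).1, false) := Prod.ext rfl (p3 a.2 0)
  rw [q7, card_five, card_even] at q6
  omega

end Pool.Agent.H56Q
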