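import Pool.Agent.H56Q.Stm

/-! Project RQ, piece GAP. -/

set_option autoImplicit false

namespace Pool.Agent.H56Q

open Pool.Agent.Helper2GI Pool.Agent.Helper2GI.RA

namespace GAP

variable {E : Type} {G : RA E}

/-- walls crossed by elements of a parabolic subgroup -/
theorem wall {Z : E → Prop} {x t : G.W} (hx : Par Z x) (h : side x t ≠ 0) :
    ∃ (d : G.W) (s : E), Par Z d ∧ Z s ∧ t = d * G.g s * d⁻¹ := by
  classical
  obtain ⟨m, hm, rfl⟩ := hx
  induction m using List.reverseRecOn with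
  | nil => rw [ev_nil, side_one] at h; exact absurd rfl h
  | append_singleton m a ih =>
    have hm1 : ∀ c ∈ m, Z c := fun c hc => hm c (by simp [hc])
    by_cases h1 : side (G.ev m) t = 0
    · rw [ev_append, ev_single, side_mul_g, h1, zero_add] at h
      by_cases h2 : (G.ev m)⁻¹ * t * G.ev m = G.g a
      · exact ⟨G.ev m, a, ⟨m, hm1, rfl⟩, hm a (by simp), by rw [← h2]; group⟩
      · rw [if_neg h2] at h; exact absurd rfl h
    · exact ih hm1 h1

theorem exists_left {x : G.W} (hx : x ≠ 1) : ∃ (s : E) (y : G.W), x = G.g s * y ∧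
    G.len x = G.len y + 1 := by
  obtain ⟨m, hm, rfl⟩ := exists_red x
  cases m with
  | nil => exact absurd ev_nil hx
  | cons a m =>
    refine ⟨a, G.ev m, ev_cons a m, ?_⟩
    rw [len_ev _ hm, len_ev _ hm.tail, List.length_cons]

theorem len_g (s : E) : G.len (G.g s) = 1 := by
  have h := len_mul_g (G := G) 1 s
  rw [one_mul, len_one] at h
  rcases h with h | h
  · exact h
  · omega

theorem side_left {s : E} {y : G.W} (h : G.len (G.g s * y) = G.len y + 1) :
    side (G.g s * y) (G.g s) ≠ 0 := by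
  classical
  apply cross_once
  · rw [len_g, h, add_comm]
  · rw [side_g, if_pos rfl]; decide

theorem eq_one_of_len {x : G.W} (h : G.len x = 0) : x = 1 := by
  by_contra hx
  obtain ⟨s, y, -, h2⟩ := exists_left hx
  omega

end GAP

open GAP in
theorem t_GAP (hH : S_HEAD) (_hG : S_GATE) : S_GAP := by
  intro V D tw hNS v g g' hgg
  classical
  let Z : Lt tw → Prop := fun a => a.1.1 = v ∨ D.Adj v a.1.1
  have hex : ∃ n, ∃ a c : (TG D tw).W, Par Z a ∧ Par Z c ∧ n = (TG D tw).len (a * (g⁻¹ * g') * c) :=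
    ⟨_, 1, 1, Par.one _, Par.one _, rfl⟩
  obtain ⟨a₀, c₀, ha₀, hc₀, hn⟩ := Nat.find_spec hex
  have hmin : ∀ a c : (TG D tw).W, Par Z a → Par Z c →
      (TG D tw).len (a₀ * (g⁻¹ * g') * c₀) ≤ (TG D tw).len (a * (g⁻¹ * g') * c) := by
    intro a c ha hc
    rw [← hn]
    exact Nat.find_min' hex ⟨a, c, ha, hc, rfl⟩
  set b : (TG D tw).W := a₀ * (g⁻¹ * g') * c₀ with hb
  have hb1 : b ≠ 1 := by
    intro h1
    apply hgg
    have : g⁻¹ * g' = a₀⁻¹ * b * c₀⁻¹ := by rw [hb]; group
    rw [this, h1, mul_one]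
    exact ha₀.inv.mul hc₀.inv
  have hr : ∀ s, Z s → (TG D tw).len (b * (TG D tw).g s) = (TG D tw).len b + 1 := by
    intro s hs
    have h1 := hmin a₀ (c₀ * (TG D tw).g s) ha₀ (hc₀.mul (Par.gen hs))
    have h2 : a₀ * (g⁻¹ * g') * (c₀ * (TG D tw).g s) = b * (TG D tw).g s := by rw [hb]; group
    rw [h2] at h1
    rcases len_mul_g b s with h3 | h3
    · exact h3
    · omega
  have hl : ∀ s, Z s → (TG D tw).len ((TG D tw).g s * b) = (TG D tw).len b + 1 := by
    intro s hs
    have h1 := hmin ((TG D tw).g s * a₀) c₀ ((Par.gen hs).mul ha₀) hc₀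
    have h2 : (TG D tw).g s * a₀ * (g⁻¹ * g') * c₀ = (TG D tw).g s * b := by rw [hb]; group
    rw [h2] at h1
    rcases len_g_mul s b with h3 | h3
    · exact h3
    · omega
  have hbr : ∀ c, Par Z c → (TG D tw).len (b * c) = (TG D tw).len b + (TG D tw).len c :=
    (hH _ (TG D tw) b).2 Z (fun s hs => by rw [hr s hs]; omega)
  have hbl : ∀ c, Par Z c → (TG D tw).len (c * b) = (TG D tw).len c + (TG D tw).len b := by
    intro c hc
    have h1 := (hH _ (TG D tw) b⁻¹).2 Z (fun s hs => by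
      have h2 : (TG D tw).len (b⁻¹ * (TG D tw).g s) = (TG D tw).len ((TG D tw).g s * b) := by
        rw [← len_inv, mul_inv_rev, inv_inv, g_inv]
      rw [h2, hl s hs, len_inv]; omega) c⁻¹ hc.inv
    have h3 : (TG D tw).len (b⁻¹ * c⁻¹) = (TG D tw).len (c * b) := by
      rw [← mul_inv_rev, len_inv]
    rw [h3, len_inv, len_inv] at h1
    omega
  have hsb : ∀ s, Z s → side b ((TG D tw).g s) = 0 := by
    intro s hs
    by_contra h
    have := len_refl_mul h
    rw [hl s hs] at this
    omega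
  let C : Lt tw → Prop := fun s => Z s ∧ (TG D tw).g s * b = b * (TG D tw).g s
  have claim : ∀ (n : ℕ) (y z : (TG D tw).W), (TG D tw).len y = n → Par Z y → Par Z z → y * b = b * z → Par C y := by
    intro n
    induction n with
    | zero =>
      intro y z hy _ _ _
      rw [eq_one_of_len hy]
      exact Par.one _
    | succ n ih =>
      intro y z hy hyZ hzZ hyz
      have hy1 : y ≠ 1 := by
        rintro rfl
        rw [len_one] at hy
        omega
      obtain ⟨s, y', hyy', hlen⟩ := exists_left hy1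
      have hsy : side y ((TG D tw).g s) ≠ 0 := by
        rw [hyy']
        apply side_left
        rw [← hyy', hlen]
      have hsZ : Z s := by
        obtain ⟨d, s', -, hs', he⟩ := wall hyZ hsy
        have : s' = s := conj_eq' he.symm
        rw [← this]; exact hs'
      have h1 : side (y * b) ((TG D tw).g s) ≠ 0 := cross_once (hbl y hyZ) hsy
      rw [hyz, side_mul, hsb s hsZ, zero_add] at h1
      obtain ⟨d, s', hd, hs', he⟩ := wall hzZ h1
      have hss : s = s' := by
        refine conj_eq (x := b⁻¹) (y := d) ?_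
        rw [inv_inv]; exact he
      rw [← hss] at he
      have hrZ : Par Z (d * (TG D tw).g s * d⁻¹) := (hd.mul (Par.gen hsZ)).mul hd.inv
      have hbr2 : b * (d * (TG D tw).g s * d⁻¹) = (TG D tw).g s * b := by
        rw [← he]; group
      have hlr : (TG D tw).len (d * (TG D tw).g s * d⁻¹) = 1 := by
        have h2 := hbr _ hrZ
        rw [hbr2, hl s hsZ] at h2
        omega
      have hr1 : d * (TG D tw).g s * d⁻¹ ≠ 1 := by
        intro h
        rw [h, len_one] at hlr
        omega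
      obtain ⟨s'', r', hr', hlr'⟩ := exists_left hr1
      have hr'1 : r' = 1 := eq_one_of_len (by omega)
      rw [hr'1, mul_one] at hr'
      have hss2 : s = s'' := conj_eq' hr'
      rw [← hss2] at hr'
      have hsC : C s := ⟨hsZ, by rw [← hbr2, hr']⟩
      have hy' : y' = (TG D tw).g s * y := by rw [hyy', ← mul_assoc, gg, one_mul]
      have h3 : Par C y' := by
        refine ih y' ((TG D tw).g s * z) (by omega) ?_ ((Par.gen hsZ).mul hzZ) ?_
        · rw [hy']; exact (Par.gen hsZ).mul hyZ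
        · rw [hy', mul_assoc, hyz, ← mul_assoc, hsC.2, mul_assoc]
      rw [hyy']
      exact (Par.gen hsC).mul h3
  -- the common neighbour
  obtain ⟨u, b', hbb', hblen⟩ := exists_left hb1
  have hub : side b ((TG D tw).g u) ≠ 0 := by
    rw [hbb']
    apply side_left
    rw [← hbb', hblen]
  have huZ : ¬ Z u := fun h => hub (hsb u h)
  have huv : v ≠ u.1.1 := fun h => huZ (Or.inl h.symm)
  have hC : ∀ s, C s → D.Adj v s.1.1 ∧ D.Adj u.1.1 s.1.1 := by
    intro s hs
    have h1 := centralizer s b hs.2.symm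
    obtain ⟨d, s', -, hs', he⟩ := wall h1 hub
    have h2 : s' = u := conj_eq' he.symm
    rw [h2] at hs'
    rcases hs' with h3 | h3
    · rw [h3] at huZ; exact absurd hs.1 huZ
    · have h3' : D.Adj u.1.1 s.1.1 := h3
      refine ⟨?_, h3'⟩
      rcases hs.1 with h4 | h4
      · rw [h4] at h3'
        exact absurd (Or.inr h3'.symm) huZ
      · exact h4
  have hw : ∃ w : V, ∀ s, C s → s.1.1 = w := by
    by_cases hne : ∃ s, C s
    · obtain ⟨s₀, hs₀⟩ := hne
      refine ⟨s₀.1.1, fun s hs => ?_⟩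
      by_contra hne
      have h1 := hC s hs
      have h2 := hC s₀ hs₀
      exact hNS v s.1.1 u.1.1 s₀.1.1 huv hne h1.1 h1.2.symm h2.2 h2.1.symm
    · exact ⟨v, fun s hs => absurd ⟨s, hs⟩ hne⟩
  obtain ⟨w, hw⟩ := hw
  refine ⟨g * a₀⁻¹, w, fun x hx hx' => ?_⟩
  have hy : Par Z ((g * a₀⁻¹)⁻¹ * x * (g * a₀⁻¹)) := by
    have : (g * a₀⁻¹)⁻¹ * x * (g * a₀⁻¹) = a₀ * (g⁻¹ * x * g) * a₀⁻¹ := by group
    rw [this]
    exact (ha₀.mul hx).mul ha₀.inv
  have hz : Par Z (c₀⁻¹ * (g'⁻¹ * x * g') * c₀) := (hc₀.inv.mul hx').mul hc₀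
  have hyz : (g * a₀⁻¹)⁻¹ * x * (g * a₀⁻¹) * b = b * (c₀⁻¹ * (g'⁻¹ * x * g') * c₀) := by
    rw [hb]; group
  exact (claim _ _ _ rfl hy hz hyz).mono hw

end Pool.Agent.H56Q
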