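import Pool.Agent.H56Q.Stm

/-!
# Project RQ (helper56), piece GATE (helper72): the gate projection onto a parabolic subgroup
-/

set_option autoImplicit false

namespace Pool.Agent.H56Q

open Pool.Agent.Helper2GI Pool.Agent.Helper2GI.RA

namespace GATE

variable {E : Type} {G : RA E}

/-- no left descents in `Z` -/
def Mn (Z : E → Prop) (b : G.W) : Prop := ∀ s, Z s → G.len b < G.len (G.g s * b)

theorem side_left (x : G.W) (t : E) :
    (side x (G.g t) ≠ 0 → G.len (G.g t * x) < G.len x) ∧
    (side x (G.g t) = 0 → G.len x < G.len (G.g t * x)) := by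
  refine ⟨fun h => len_refl_mul h, fun h => ?_⟩
  have h1 : side (G.g t * x) (G.g t) ≠ 0 := by
    rw [side_mul, side_g, if_pos rfl]
    have h2 : (G.g t)⁻¹ * G.g t * G.g t = G.g t := by group
    rw [h2, h]
    decide
  have h2 := len_refl_mul h1
  rwa [← mul_assoc, gg, one_mul] at h2

theorem add_len (hH : S_HEAD) {Z : E → Prop} {a b : G.W} (hb : Mn Z b) (ha : Par Z a) :
    G.len (a * b) = G.len a + G.len b := by
  have h := (hH E G b⁻¹).2 Z (fun s hs => ?_) a⁻¹ ha.inv
  · rw [← mul_inv_rev, len_inv, len_inv, len_inv] at h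
    omega
  · have h1 := hb s hs
    have h2 : b⁻¹ * G.g s = (G.g s * b)⁻¹ := by rw [mul_inv_rev, g_inv]
    rw [h2, len_inv, len_inv]
    exact h1

theorem ex_min (Z : E → Prop) (x : G.W) : ∃ a : G.W, Par Z a ∧ Mn Z (a⁻¹ * x) := by
  classical
  have hex : ∃ n, ∃ a : G.W, Par Z a ∧ G.len (a⁻¹ * x) = n := ⟨_, 1, Par.one Z, rfl⟩
  obtain ⟨a, ha, hl⟩ := Nat.find_spec hex
  refine ⟨a, ha, fun s hs => ?_⟩
  have h1 : Nat.find hex ≤ G.len (G.g s * (a⁻¹ * x)) := by
    apply Nat.find_min' hex
    refine ⟨a * G.g s, ha.mul (Par.gen hs), ?_⟩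
    rw [mul_inv_rev, g_inv, mul_assoc]
  rw [← hl] at h1
  rcases len_g_mul s (a⁻¹ * x) with h2 | h2 <;> omega

theorem uniq (hH : S_HEAD) {Z : E → Prop} {a a' x : G.W} (ha : Par Z a) (ha' : Par Z a')
    (hb : Mn Z (a⁻¹ * x)) (hb' : Mn Z (a'⁻¹ * x)) : a = a' := by
  have h1 := add_len hH hb' (ha.inv.mul ha')
  have h2 := add_len hH hb (ha'.inv.mul ha)
  have e1 : a⁻¹ * a' * (a'⁻¹ * x) = a⁻¹ * x := by group
  have e2 : a'⁻¹ * a * (a⁻¹ * x) = a'⁻¹ * x := by group
  rw [e1] at h1
  rw [e2] at h2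
  have h3 : G.len (a⁻¹ * a') = 0 := by omega
  have h4 : a⁻¹ * a' = 1 := Pool.Agent.W387.SqSys.len_eq_zero h3
  exact (inv_mul_eq_one.1 h4)

end GATE

theorem t_GATE (hH : S_HEAD) : S_GATE := by
  classical
  intro E G Z
  choose P hP hM using GATE.ex_min (G := G) Z
  have hu : ∀ x a, Par Z a → GATE.Mn Z (a⁻¹ * x) → P x = a := fun x a ha hb =>
    GATE.uniq hH (hP x) ha (hM x) hb
  refine ⟨P, hP, fun a x ha => ?_, ?_, fun x s => ?_, fun x a ha => GATE.add_len hH (hM x) ha⟩
  · apply hu _ _ (ha.mul (hP x))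
    have e1 : (a * P x)⁻¹ * (a * x) = (P x)⁻¹ * x := by group
    rw [e1]
    exact hM x
  · apply hu _ _ (Par.one Z)
    intro s hs
    rw [inv_one, one_mul, mul_one, len_one]
    have h := len_g_mul (G := G) s 1
    rw [mul_one, len_one] at h
    rcases h with h | h <;> omega
  · set b := (P x)⁻¹ * x with hb
    have hbM : GATE.Mn Z b := hM x
    by_cases hmn : GATE.Mn Z (b * G.g s)
    · left
      apply hu _ _ (hP x)
      have e1 : (P x)⁻¹ * (x * G.g s) = b * G.g s := by rw [hb, mul_assoc]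
      rw [e1]
      exact hmn
    · right
      unfold GATE.Mn at hmn
      push Not at hmn
      obtain ⟨t, ht, hlt⟩ := hmn
      have h1 : side (b * G.g s) (G.g t) ≠ 0 := by
        intro h0
        have := (GATE.side_left (b * G.g s) t).2 h0
        omega
      have h2 : side b (G.g t) = 0 := by
        by_contra h0
        have h3 := (GATE.side_left b t).1 h0
        have h4 := hbM t ht
        omega
      rw [side_mul_g, h2, zero_add] at h1
      have h3 : b⁻¹ * G.g t * b = G.g s := by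
        by_contra h4
        rw [if_neg h4] at h1
        exact h1 rfl
      have h5 : t = s := by
        apply conj_eq' (G := G) (x := b⁻¹)
        rw [inv_inv]
        exact h3
      subst h5
      have h6 : G.g t * b = b * G.g t := by
        have : b * (b⁻¹ * G.g t * b) = b * G.g t := by rw [h3]
        rw [← this]
        group
      refine ⟨ht, ?_, h6⟩
      apply hu _ _ ((hP x).mul (Par.gen ht))
      have e1 : (P x * G.g t)⁻¹ * (x * G.g t) = b := by
        have e2 : (P x * G.g t)⁻¹ * (x * G.g t) = (G.g t)⁻¹ * (b * G.g t) := by rw [hb]; group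
        rw [e2, ← h6]
        group
      rw [e1]
      exact hbM

end Pool.Agent.H56Q
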