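import Pool.Agent.H56Q.Stm

/-!
# RQ piece GON: algebraic pentagons in subgroups of finite index
-/

set_option autoImplicit false

namespace Pool.Agent.H56Q

open Pool.Agent.Helper2GI Pool.Agent.Helper2GI.RA

namespace GON

/-- the reflection `z ↦ c - z` -/
def rfl' (c : ℤ) : Equiv.Perm ℤ where
  toFun z := c - z
  invFun z := c - z
  left_inv z := by ring
  right_inv z := by ring

variable {V : Type} {D : SimpleGraph V} {tw : V → Prop}

open Classical in
/-- the homomorphism to the infinite dihedral group -/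
noncomputable def dih (D : SimpleGraph V) (tw : V → Prop) (v : V) : (TG D tw).W →* Equiv.Perm ℤ :=
  hom (G := TG D tw) (fun a => if a.1.1 = v then (if a.1.2 = true then rfl' 1 else rfl' 0) else 1)
    (fun a => by
      split_ifs
      · ext z
        show (1 : ℤ) - (1 - z) = z
        ring
      · ext z
        show (0 : ℤ) - (0 - z) = z
        ring
      · exact one_mul 1)
    (fun a b hab => by
      by_cases ha : a.1.1 = v
      · by_cases hb : b.1.1 = v
        · exact absurd (show D.Adj a.1.1 b.1.1 from hab) (by rw [ha, hb]; exact D.irrefl)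
        · rw [if_neg hb]
          exact (Commute.one_right _).eq
      · rw [if_neg ha]
        exact (Commute.one_left _).eq)

/-- the translation -/
noncomputable def tau (D : SimpleGraph V) {tw : V → Prop} (v : V) (h : tw v) : (TG D tw).W :=
  (TG D tw).g ⟨(v, false), fun h => by simp at h⟩ * (TG D tw).g ⟨(v, true), fun _ => h⟩

theorem dih_tau (v : V) (h : tw v) (z : ℤ) : dih D tw v (tau D v h) z = z - 1 := by
  unfold tau dih
  rw [map_mul, hom_g, hom_g]
  simp only [if_true, Bool.false_eq_true, if_false]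
  show (0 : ℤ) - (1 - z) = z - 1
  ring

theorem dih_pow (v : V) (h : tw v) (n : ℕ) (z : ℤ) : dih D tw v (tau D v h ^ n) z = z - n := by
  induction n with
  | zero => simp
  | succ n ih =>
    rw [pow_succ', map_mul, Equiv.Perm.mul_apply, ih, dih_tau]
    push_cast
    ring

theorem tau_pow_ne (v : V) (h : tw v) {n : ℕ} (hn : 0 < n) : tau D v h ^ n ≠ 1 := by
  intro h1
  have h2 := dih_pow (D := D) v h n 0
  rw [h1, map_one, Equiv.Perm.one_apply] at h2
  omega

theorem tau_comm {v w : V} (hv : tw v) (hw : tw w) (h : D.Adj v w) :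
    Commute (tau D v hv) (tau D w hw) := by
  have key : ∀ (a b : Lt tw), a.1.1 = v → b.1.1 = w → Commute ((TG D tw).g a) ((TG D tw).g b) := by
    intro a b ha hb
    refine gcomm ?_
    show D.Adj a.1.1 b.1.1
    rw [ha, hb]
    exact h
  unfold tau
  refine Commute.mul_left (Commute.mul_right ?_ ?_) (Commute.mul_right ?_ ?_) <;>
    exact key _ _ rfl rfl

theorem InD.pow {v : V} {x : (TG D tw).W} (h : InD v x) (n : ℕ) : InD v (x ^ n) := by
  induction n with
  | zero => rw [pow_zero]; exact Par.one _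
  | succ n ih => rw [pow_succ]; exact Par.mul ih h

theorem tau_InD (v : V) (h : tw v) : InD v (tau D v h) := by
  unfold tau
  exact Par.mul (Par.gen rfl) (Par.gen rfl)

theorem conj_pow' {Q : Type} [Group Q] (g t : Q) (n : ℕ) : (g * t * g⁻¹) ^ n = g * t ^ n * g⁻¹ :=
  conj_pow

theorem ev_sq {E : Type} {G : RA E} (g x : G.W) (m : ℕ) : Ev (g * x ^ (2 * m) * g⁻¹) := by
  intro a
  have h1 : ∀ z : Multiplicative (ZMod 2), z ^ 2 = 1 := by decide
  rw [map_mul, map_mul, map_inv, mul_comm (par a g), mul_assoc, mul_inv_cancel, mul_one,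
    map_pow, pow_mul, h1, one_pow]

end GON

open GON

theorem t_GON (hADJ : S_ADJ) (hTF : S_TF) : S_GON := by
  intro V D tw hNT H hH g σ htw
  obtain ⟨n, hn, hpow⟩ : ∃ n : ℕ, 0 < n ∧ ∀ k : (TG D tw).W, k ^ n ∈ H :=
    ⟨(H.index).factorial, Nat.factorial_pos _, fun k =>
      Subgroup.pow_mem_of_index_ne_zero_of_dvd hH k fun m h1 h2 => Nat.dvd_factorial h1 h2⟩
  have hadj2 : ∀ i, ¬ D.Adj (σ.1 i) (σ.1 (i + 2)) := by
    intro i h
    have h1 := σ.2 i
    have h2 := σ.2 (i + 1)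
    have e : i + 1 + 1 = i + 2 := by ring
    rw [e] at h2
    exact hNT _ _ _ h1 h2 h
  have hne2 : ∀ i, σ.1 i ≠ σ.1 (i + 2) := by
    intro i h
    have h1 := σ.2 (i + 2)
    have h2 := σ.2 (i + 2 + 1)
    have h3 := σ.2 (i + 2 + 1 + 1)
    have e : i + 2 + 1 + 1 + 1 = i := by
      have h5 : (5 : ZMod 5) = 0 := by decide
      linear_combination h5
    rw [e, h] at h3
    exact hNT _ _ _ h1 h2 h3.symm
  have hform : ∀ (i : ZMod 5) (m : ℕ), (g * tau D (σ.1 i) (htw i) ^ (2 * n) * g⁻¹) ^ m =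
      g * tau D (σ.1 i) (htw i) ^ (2 * (n * m)) * g⁻¹ := by
    intro i m
    rw [conj_pow', ← pow_mul, mul_assoc 2 n m]
  have hInD : ∀ (i : ZMod 5) (m : ℕ),
      InD (σ.1 i) (g⁻¹ * (g * tau D (σ.1 i) (htw i) ^ m * g⁻¹) * g) := by
    intro i m
    have e : g⁻¹ * (g * tau D (σ.1 i) (htw i) ^ m * g⁻¹) * g = tau D (σ.1 i) (htw i) ^ m := by
      group
    rw [e]
    exact InD.pow (tau_InD _ _) m
  have hne1 : ∀ (i : ZMod 5) (m : ℕ), 0 < m → g * tau D (σ.1 i) (htw i) ^ m * g⁻¹ ≠ 1 := by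
    intro i m hm h
    have h1 : tau D (σ.1 i) (htw i) ^ m = 1 := by
      have h2 : tau D (σ.1 i) (htw i) ^ m = g⁻¹ * (g * tau D (σ.1 i) (htw i) ^ m * g⁻¹) * g := by
        group
      rw [h2, h]
      group
    exact tau_pow_ne _ _ hm h1
  refine ⟨fun i => g * tau D (σ.1 i) (htw i) ^ (2 * n) * g⁻¹, fun i => ⟨?_, ev_sq _ _ _,
    hne1 i _ (by omega), hInD i _⟩, fun i => ?_, fun i a b ha hb h => ?_⟩
  · have h1 : g * tau D (σ.1 i) (htw i) ^ (2 * n) * g⁻¹ =
        (g * tau D (σ.1 i) (htw i) ^ 2 * g⁻¹) ^ n := by rw [conj_pow', ← pow_mul]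
    show g * tau D (σ.1 i) (htw i) ^ (2 * n) * g⁻¹ ∈ H
    rw [h1]
    exact hpow _
  · have h1 : Commute (tau D (σ.1 i) (htw i) ^ (2 * n)) (tau D (σ.1 (i + 1)) (htw (i + 1)) ^ (2 * n)) :=
      (tau_comm _ _ (σ.2 i)).pow_pow _ _
    show g * tau D (σ.1 i) (htw i) ^ (2 * n) * g⁻¹ *
        (g * tau D (σ.1 (i + 1)) (htw (i + 1)) ^ (2 * n) * g⁻¹) =
      g * tau D (σ.1 (i + 1)) (htw (i + 1)) ^ (2 * n) * g⁻¹ *
        (g * tau D (σ.1 i) (htw i) ^ (2 * n) * g⁻¹)
    have h2 := h1.eq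
    generalize tau D (σ.1 i) (htw i) ^ (2 * n) = p at h2 ⊢
    generalize tau D (σ.1 (i + 1)) (htw (i + 1)) ^ (2 * n) = q at h2 ⊢
    calc g * p * g⁻¹ * (g * q * g⁻¹) = g * (p * q) * g⁻¹ := by group
      _ = g * (q * p) * g⁻¹ := by rw [h2]
      _ = _ := by group
  · simp only [hform] at h
    rcases hADJ V D tw (σ.1 i) (σ.1 (i + 2)) g g _ _ (ev_sq g _ (n * a)) (ev_sq g _ (n * b))
      (hne1 i _ (by positivity)) (hne1 (i + 2) _ (by positivity)) (hInD i _) (hInD (i + 2) _) h with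
      h1 | h1
    · exact hne2 i h1.1
    · exact hadj2 i h1.1

end Pool.Agent.H56Q
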