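import Pool.Agent.H56Q.Stm

/-!
# GRA (helper2): the defining graph of a commensurable doubled system has no triangles and no 4-cycles
-/

set_option autoImplicit false

namespace Pool.Agent.H56Q

open Pool.Agent.Helper2GI Pool.Agent.Helper2GI.RA

namespace GRA

/-- a reflection of `ℤ` -/
def rf (c : ℤ) : Equiv.Perm ℤ where
  toFun x := c - x
  invFun x := c - x
  left_inv x := by simp
  right_inv x := by simp

theorem rf_rf (c : ℤ) : rf c * rf c = 1 := by
  ext x
  simp [rf]

section
variable {V : Type} (D : SimpleGraph V)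

open Classical in
/-- the homomorphism to the infinite dihedral group -/
noncomputable def dl (v : V) : (TT D).W →* Equiv.Perm ℤ :=
  hom (fun a => if a.1.1 = v then (if a.1.2 = true then rf 1 else rf 0) else 1)
    (fun a => by
      split_ifs
      · exact rf_rf 1
      · exact rf_rf 0
      · exact one_mul 1)
    (fun a b hab => by
      by_cases ha : a.1.1 = v
      · have hb : b.1.1 ≠ v := by
          intro hb
          have h : D.Adj a.1.1 b.1.1 := hab
          rw [ha, hb] at h
          exact h.ne rfl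
        simp [hb]
      · simp [ha])

/-- the translation of a doubled vertex -/
noncomputable def tau (v : V) : (TT D).W :=
  (TT D).g ⟨(v, false), fun _ => trivial⟩ * (TT D).g ⟨(v, true), fun _ => trivial⟩

theorem dl_tau_self (v : V) (x : ℤ) : dl D v (tau D v) x = x - 1 := by
  unfold dl tau
  rw [map_mul, hom_g, hom_g]
  simp [rf]

theorem dl_tau_ne (v w : V) (h : w ≠ v) : dl D v (tau D w) = 1 := by
  unfold dl tau
  rw [map_mul, hom_g, hom_g]
  simp [h]

theorem dl_pow (v : V) (n : ℕ) (x : ℤ) : dl D v (tau D v ^ n) x = x - n := by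
  induction n generalizing x with
  | zero => simp
  | succ n ih =>
    rw [pow_succ, map_mul, Equiv.Perm.mul_apply, ih, dl_tau_self]
    push_cast
    ring

theorem dl_zpow (v : V) (n : ℕ) (z x : ℤ) : (dl D v (tau D v ^ n) ^ z) x = x - n * z := by
  induction z using Int.induction_on generalizing x with
  | zero => simp
  | succ i ih =>
    rw [zpow_add_one, Equiv.Perm.mul_apply, ih, dl_pow]
    ring
  | pred i ih =>
    have h1 : ((dl D v (tau D v ^ n))⁻¹ : Equiv.Perm ℤ) x = x + n := by
      rw [Equiv.Perm.inv_eq_iff_eq, dl_pow]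
      ring
    rw [zpow_sub_one, Equiv.Perm.mul_apply, h1, ih]
    ring

theorem tau_pow_ne (v : V) (n : ℕ) (hn : 0 < n) : tau D v ^ n ≠ 1 := by
  intro h
  have h1 := dl_pow D v n 0
  rw [h, map_one, Equiv.Perm.one_apply] at h1
  omega

theorem tau_comm {v w : V} (h : D.Adj v w) : tau D v * tau D w = tau D w * tau D v := by
  unfold tau
  have h1 : ∀ b c : Bool, Commute ((TT D).g ⟨(v, b), fun _ => trivial⟩)
      ((TT D).g ⟨(w, c), fun _ => trivial⟩) := fun b c =>
    gcomm (G := TT D) (a := ⟨(v, b), fun _ => trivial⟩) (b := ⟨(w, c), fun _ => trivial⟩) h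
  exact (((h1 false false).mul_left (h1 true false)).mul_right
    ((h1 false true).mul_left (h1 true true)))

theorem inD_tau (v : V) (n : ℕ) : InD (tw := fun _ => True) (D := D) v (tau D v ^ n) := by
  induction n with
  | zero =>
    rw [pow_zero]
    exact Par.one _
  | succ n ih =>
    rw [pow_succ]
    refine Par.mul ih (Par.mul ?_ ?_)
    · exact Par.gen rfl
    · exact Par.gen rfl

end

end GRA

open GRA in
theorem t_GRA (h1 : S_NZT) (h2 : S_NSQ) (h3 : S_ADJ) (_h4 : S_TF) : S_GRA := by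
  intro V₁ V₂ D₁ D₂ tw hT hS H₁ H₂ hi he1 he2 ⟨φ⟩
  -- powers in the subgroup
  have hp : ∀ v : V₂, ∃ n : ℕ, 0 < n ∧ tau D₂ v ^ n ∈ H₂ := by
    intro v
    obtain ⟨n, hn, _, h⟩ := Subgroup.exists_pow_mem_of_index_ne_zero hi (tau D₂ v)
    exact ⟨n, hn, h⟩
  choose n hn hmem using hp
  set X : V₂ → H₂ := fun v => ⟨tau D₂ v ^ n v, hmem v⟩ with hX
  have hXc : ∀ v w, D₂.Adj v w → X v * X w = X w * X v := by
    intro v w h
    refine Subtype.ext ?_
    exact (Commute.pow_pow (tau_comm D₂ h) _ _)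
  set Y : V₂ → H₁ := fun v => φ.symm (X v) with hY
  have hφY : ∀ v, φ (Y v) = X v := fun v => φ.apply_symm_apply _
  have hYc : ∀ v w, D₂.Adj v w → Y v * Y w = Y w * Y v := by
    intro v w h
    simp only [hY]
    rw [← map_mul, hXc v w h, map_mul]
  have hYc' : ∀ v w, D₂.Adj v w → ((Y v : H₁) : (TG D₁ tw).W) * (Y w : H₁) = (Y w : H₁) * (Y v : H₁) := by
    intro v w h
    exact congrArg Subtype.val (hYc v w h)
  have hNT : NT D₂ := by
    intro a b c hab hbc hac
    obtain ⟨p, q, r, hne, hr⟩ := h1 V₁ D₁ tw hT (Y a) (Y b) (Y c) (he1 _ (Y a).2) (he1 _ (Y b).2)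
      (he1 _ (Y c).2) (hYc' a b hab) (hYc' a c hac) (hYc' b c hbc)
    have h5 : (Y a) ^ p * (Y b) ^ q * (Y c) ^ r = 1 := by
      refine Subtype.ext ?_
      push_cast
      exact hr
    have h6 : (X a) ^ p * (X b) ^ q * (X c) ^ r = 1 := by
      have := congrArg φ h5
      rwa [map_mul, map_mul, map_zpow, map_zpow, map_zpow, hφY, hφY, hφY, map_one] at this
    have h7 : (tau D₂ a ^ n a) ^ p * (tau D₂ b ^ n b) ^ q * (tau D₂ c ^ n c) ^ r = 1 := by
      have := congrArg Subtype.val h6
      push_cast at this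
      exact this
    have hb' : ∀ v w, w ≠ v → ∀ z : ℤ, dl D₂ v ((tau D₂ w ^ n w) ^ z) = 1 := by
      intro v w h z
      rw [map_zpow, map_pow, dl_tau_ne D₂ v w h, one_pow, one_zpow]
    have key : ∀ v (z : ℤ), dl D₂ v ((tau D₂ v ^ n v) ^ z) = 1 → z = 0 := by
      intro v z h
      have h8 := dl_zpow D₂ v (n v) z 0
      rw [map_zpow] at h
      rw [h, Equiv.Perm.one_apply] at h8
      have h9 : (n v : ℤ) * z = 0 := by linarith
      rcases mul_eq_zero.1 h9 with h | h
      · have := hn v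
        omega
      · exact h
    have hp0 : p = 0 := by
      refine key a p ?_
      have := congrArg (dl D₂ a) h7
      rwa [map_mul, map_mul, hb' a b hab.ne', hb' a c hac.ne', mul_one, mul_one, map_one] at this
    have hq0 : q = 0 := by
      refine key b q ?_
      have := congrArg (dl D₂ b) h7
      rwa [map_mul, map_mul, hb' b a hab.ne, hb' b c hbc.ne', mul_one, one_mul, map_one] at this
    have hr0 : r = 0 := by
      refine key c r ?_
      have := congrArg (dl D₂ c) h7
      rwa [map_mul, map_mul, hb' c a hac.ne, hb' c b hbc.ne, one_mul, one_mul, map_one] at this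
    rcases hne with h | h | h
    · exact h hp0
    · exact h hq0
    · exact h hr0
  refine ⟨hNT, ?_⟩
  intro a b c d hac hbd hab hbc hcd hda
  have hNP : ∀ v w, v ≠ w → ¬ D₂.Adj v w →
      NoPow ((Y v : H₁) : (TG D₁ tw).W) ((Y w : H₁) : (TG D₁ tw).W) := by
    intro v w hvw hadj s t hs ht hcomm
    have h5 : (Y v) ^ s * (Y w) ^ t = (Y w) ^ t * (Y v) ^ s := by
      refine Subtype.ext ?_
      push_cast
      exact hcomm
    have h6 : (X v) ^ s * (X w) ^ t = (X w) ^ t * (X v) ^ s := by
      have := congrArg φ h5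
      rwa [map_mul, map_mul, map_pow, map_pow, hφY, hφY] at this
    have h7 : (tau D₂ v ^ n v) ^ s * (tau D₂ w ^ n w) ^ t = (tau D₂ w ^ n w) ^ t * (tau D₂ v ^ n v) ^ s := by
      have := congrArg Subtype.val h6
      push_cast at this
      exact this
    have h8 : ∀ u (k : ℕ), Ev ((tau D₂ u ^ n u) ^ k) := fun u k => he2 _ (Subgroup.pow_mem _ (hmem u) k)
    have h9 : ∀ u (k : ℕ), 0 < k → (tau D₂ u ^ n u) ^ k ≠ 1 := by
      intro u k hk
      rw [← pow_mul]
      exact tau_pow_ne D₂ u _ (Nat.mul_pos (hn u) hk)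
    have h10 : ∀ u (k : ℕ), InD (tw := fun _ => True) (D := D₂) u
        ((1 : (TT D₂).W)⁻¹ * (tau D₂ u ^ n u) ^ k * 1) := by
      intro u k
      rw [inv_one, one_mul, mul_one, ← pow_mul]
      exact inD_tau D₂ u _
    rcases h3 V₂ D₂ (fun _ => True) v w 1 1 _ _ (h8 v s) (h8 w t) (h9 v s hs) (h9 w t ht) (h10 v s)
      (h10 w t) h7 with h | h
    · exact hvw h.1
    · exact hadj h.1
  exact h2 V₁ D₁ tw hT hS (Y a) (Y b) (Y c) (Y d) (he1 _ (Y a).2) (he1 _ (Y b).2) (he1 _ (Y c).2)
    (he1 _ (Y d).2) (hYc' a b hab) (hYc' b c hbc) (hYc' c d hcd) (hYc' d a hda)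
    (hNP a c hac (hNT a b c hab hbc)) (hNP b d hbd (hNT b c d hbc hcd))

end Pool.Agent.H56Q
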