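import Pool.Agent.H56Q.Stm

/-!
# Piece HDS of project RQ
-/

set_option autoImplicit false

namespace Pool.Agent.H56Q

open Pool.Agent.Helper2GI Pool.Agent.Helper2GI.RA

theorem hds_a : ∀ i x : ZMod 5, (x = i ∨ x = i + 1 ∨ i = x + 1) →
    (x = (i + 1) ∨ x = (i + 1) + 1 ∨ i + 1 = x + 1) →
    (x = i + 3 ∨ x = i + 3 + 1 ∨ i + 3 = x + 1) → False := by decide

theorem hds_b : ∀ i x : ZMod 5, (x = i ∨ x = i + 1 ∨ i = x + 1) → x ≠ i + 1 →
    (x = i + 2 ∨ x = i + 2 + 1 ∨ i + 2 = x + 1) → False := by decide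

theorem hds_pen {p q : ZMod 5 × Bool} (h : Pen.Adj p q) :
    q.1 = p.1 ∨ q.1 = p.1 + 1 ∨ p.1 = q.1 + 1 := by
  rcases h with ⟨_, _, h⟩ | ⟨h, _⟩
  · exact Or.inr h
  · exact Or.inl h.symm

theorem t_HDS (hHEAD : S_HEAD) : S_HDS := by
  classical
  intro x
  obtain ⟨h1, h2⟩ := hHEAD (Lt cyc) GW x
  -- two descents have neighbouring columns
  have hcol : ∀ s t : Lt cyc, GW.len (x * GW.g s) < GW.len x → GW.len (x * GW.g t) < GW.len x →
      (t.1.1.1 = s.1.1.1 ∨ t.1.1.1 = s.1.1.1 + 1 ∨ s.1.1.1 = t.1.1.1 + 1) := by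
    intro s t hs ht
    rcases h1 s t hs ht with rfl | h
    · exact Or.inl rfl
    · exact hds_pen h
  -- it is enough to find a column
  have red : ∀ c : ZMod 5, (∀ s : Lt cyc, GW.len (x * GW.g s) < GW.len x →
      (s.1.1.1 = c ∨ s.1.1.1 = c + 1 ∨ c = s.1.1.1 + 1) → False) →
      ∃ c : ZMod 5, ∀ k : GW.W, InS (D := Pen) (tw := cyc) (c, false) k →
        GW.len (x * k) = GW.len x + GW.len k := by
    intro c hc
    refine ⟨c, fun k hk => h2 _ (fun s hs => ?_) k hk⟩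
    rcases len_mul_g x s with h | h
    · omega
    · exfalso
      refine hc s (by omega) ?_
      rcases hs with h3 | h3
      · exact Or.inl (by rw [h3])
      · exact hds_pen h3
  by_cases hex : ∃ s : Lt cyc, GW.len (x * GW.g s) < GW.len x
  · obtain ⟨s₀, hs₀⟩ := hex
    by_cases hex' : ∃ t : Lt cyc, GW.len (x * GW.g t) < GW.len x ∧ t.1.1.1 = s₀.1.1.1 + 1
    · obtain ⟨t, ht, ht'⟩ := hex'
      refine red (s₀.1.1.1 + 3) fun s hs h => ?_
      have h3 := hcol s₀ s hs₀ hs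
      have h4 := hcol t s ht hs
      rw [ht'] at h4
      exact hds_a _ _ h3 h4 h
    · refine red (s₀.1.1.1 + 2) fun s hs h => ?_
      exact hds_b _ _ (hcol s₀ s hs₀ hs) (fun h5 => hex' ⟨s, hs, h5⟩) h
  · exact red 0 fun s hs _ => hex ⟨s, hs⟩

end Pool.Agent.H56Q
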