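import Pool.Agent.H56Q.Stm

/-!
# Piece HEAD of project RQ
-/

set_option autoImplicit false

namespace Pool.Agent.H56Q

open Pool.Agent.Helper2GI Pool.Agent.Helper2GI.RA

section head

variable {E : Type} {G : RA E}

theorem head_desc {x : G.W} {s : E} (h : G.len (x * G.g s) < G.len x) :
    side x (x * G.g s * x⁻¹) ≠ 0 := by
  intro h0
  have h1 := (len_mul_g_iff x s).2 h0
  omega

theorem head_one (x : G.W) (s t : E) (hs : G.len (x * G.g s) < G.len x)
    (ht : G.len (x * G.g t) < G.len x) : s = t ∨ G.adj s t := by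
  classical
  by_cases hst : s = t
  · exact Or.inl hst
  · refine Or.inr ?_
    have h1 := head_desc hs
    have h2 := head_desc ht
    obtain ⟨y, f, _, hf, h3⟩ := cross_wall' x s (x * G.g t * x⁻¹) 1 (x * G.g t)
      (by rw [side_one]; exact h2.symm)
      (by
        rw [side_mul_g, if_pos (by group)]
        intro h
        have h4 : (1 : ZMod 2) = 0 := by
          have h5 := add_left_cancel (h.trans (add_zero _).symm)
          exact h5
        exact absurd h4 (by decide))
      (by
        rw [side_one, side_mul_g, if_neg, add_zero]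
        · exact h1.symm
        · intro h
          apply hst
          apply g_inj (G := G)
          rw [← h]
          group)
    have h4 : y * G.g f * y⁻¹ = G.g t := by
      rw [← h3]
      group
    have h5 := conj_eq' h4
    subst h5
    exact G.symm hf

theorem head_min (Z : E → Prop) (x₀ : G.W) (hmin : ∀ c, Par Z c → G.len x₀ ≤ G.len (x₀ * c)) :
    ∀ m : List E, (∀ a ∈ m, Z a) → G.len (x₀ * G.ev m) = G.len x₀ + G.len (G.ev m) := by
  intro m
  induction m using List.reverseRecOn with
  | nil => intro _; rw [ev_nil, mul_one, len_one, add_zero]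
  | append_singleton m s ih =>
    intro hm
    have hm' : ∀ a ∈ m, Z a := fun a ha => hm a (by simp [ha])
    have hs : Z s := hm s (by simp)
    have ih' := ih hm'
    rw [ev_append, ev_single, ← mul_assoc]
    rcases len_mul_g (G.ev m) s with h1 | h1
    · have h2 : G.len (x₀ * G.ev m * G.g s) = G.len (x₀ * G.ev m) + 1 := by
        rw [len_mul_g_iff]
        obtain ⟨T, hT⟩ : ∃ T, T = x₀ * G.ev m * G.g s * (x₀ * G.ev m)⁻¹ := ⟨_, rfl⟩
        rw [← hT, side_mul]
        have h3 : x₀⁻¹ * T * x₀ = G.ev m * G.g s * (G.ev m)⁻¹ := by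
          rw [hT]
          group
        rw [h3, (len_mul_g_iff _ _).1 h1, add_zero]
        by_contra h4
        have h5 := len_refl_mul h4
        have h6 : T * x₀ = x₀ * (G.ev m * G.g s * (G.ev m)⁻¹) := by
          rw [hT]
          group
        rw [h6] at h5
        have h7 : Par Z (G.ev m * G.g s * (G.ev m)⁻¹) :=
          ((Par.mul ⟨m, hm', rfl⟩ (Par.gen hs)).mul (Par.inv ⟨m, hm', rfl⟩))
        have h8 := hmin _ h7
        omega
      omega
    · have h2 := len_mul_le x₀ (G.ev m * G.g s)
      rw [← mul_assoc] at h2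
      rcases len_mul_g (x₀ * G.ev m) s with h3 | h3 <;> omega

theorem head_ret_ev (Z : E → Prop) [DecidablePred Z] (m : List E) :
    ret Z (G.ev m) = G.ev (m.filter fun a => Z a) := by
  induction m with
  | nil => simp
  | cons a m ih =>
    rw [ev_cons, map_mul, ih]
    by_cases h : Z a
    · rw [ret_g_pos h, List.filter_cons_of_pos (by simpa using h), ev_cons]
    · rw [ret_g_neg h, List.filter_cons_of_neg (by simpa using h), one_mul]

/-- the letters of a reduced word of an element of `Par Z` are in `Z` -/
theorem red_par {Z : E → Prop} {m : List E} (hm : G.Red m) (h : Par Z (G.ev m)) :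
    ∀ a ∈ m, Z a := by
  classical
  have h1 := ret_par h
  rw [head_ret_ev] at h1
  have h2 := len_ev_le (G := G) (m.filter fun a => Z a)
  rw [h1, len_ev m hm] at h2
  have h3 : m.filter (fun a => Z a) = m :=
    (List.filter_sublist (l := m)).eq_of_length_le h2
  intro a ha
  rw [← h3] at ha
  simpa using (List.mem_filter.1 ha).2

/-- a nontrivial element of `Par Z` has a right descent in `Z` -/
theorem par_desc {Z : E → Prop} {c : G.W} (h : Par Z c) (h1 : c ≠ 1) :
    ∃ s, Z s ∧ G.len (c * G.g s) < G.len c := by
  obtain ⟨m, hm, rfl⟩ := exists_red c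
  have hZ := red_par hm h
  rcases List.eq_nil_or_concat m with rfl | ⟨m', s, rfl⟩
  · exact absurd ev_nil h1
  · rw [List.concat_eq_append] at hm hZ ⊢
    refine ⟨s, hZ s (by simp), ?_⟩
    rw [len_ev _ hm, ev_append, ev_single, mul_assoc, gg, mul_one]
    have := len_ev_le (G := G) m'
    simp only [List.length_append, List.length_singleton]
    omega

end head

theorem t_HEAD : S_HEAD := by
  intro E G x
  refine ⟨fun s t hs ht => head_one x s t hs ht, fun Z hZ c hc => ?_⟩
  classical
  have hex : ∃ n, ∃ d, Par Z d ∧ G.len (x * d) = n := ⟨_, 1, Par.one Z, rfl⟩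
  obtain ⟨d, hd, hn⟩ := Nat.find_spec hex
  have hmin : ∀ c, Par Z c → G.len (x * d) ≤ G.len (x * d * c) := by
    intro c hc
    rw [hn]
    exact Nat.find_min' hex ⟨d * c, hd.mul hc, by rw [mul_assoc]⟩
  have key : ∀ c, Par Z c → G.len (x * d * c) = G.len (x * d) + G.len c := by
    rintro _ ⟨m, hm, rfl⟩
    exact head_min Z (x * d) hmin m hm
  have hd1 : d⁻¹ = 1 := by
    by_contra h
    obtain ⟨s, hs, h1⟩ := par_desc hd.inv h
    have h2 := key _ hd.inv
    have h3 := key _ (hd.inv.mul (Par.gen hs))
    have h4 : x * d * d⁻¹ = x := by group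
    have h5 : x * d * (d⁻¹ * G.g s) = x * G.g s := by group
    rw [h4] at h2
    rw [h5] at h3
    have h6 := hZ s hs
    omega
  have hd2 : d = 1 := inv_eq_one.1 hd1
  have h := key c hc
  rwa [hd2, mul_one] at h

end Pool.Agent.H56Q
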