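import Pool.Agent.H56Q.Stm

/-!
# Project RQ, piece HEL: five star cosets in a cyclic chain have a common point
-/

set_option autoImplicit false

namespace Pool.Agent.H56Q

open Pool.Agent.Helper2GI Pool.Agent.Helper2GI.RA

theorem t_HEL (hG : S_GATE) : S_HEL := by
  intro V D tw hNT hNS σ g hq
  choose P hP1 hP2 hP3 hP4 _hP5 using
    fun v : V => hG (Lt tw) (TG D tw) (fun a => a.1.1 = v ∨ D.Adj v a.1.1)
  choose q hq1 hq2 using hq
  -- the projection moves along letters of both stars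
  have hmove : ∀ (v w : V) (m : List (Lt tw)), (∀ a ∈ m, a.1.1 = w ∨ D.Adj w a.1.1) → ∀ x : (TG D tw).W,
      Par (fun a : Lt tw => (a.1.1 = v ∨ D.Adj v a.1.1) ∧ (a.1.1 = w ∨ D.Adj w a.1.1))
        ((P v x)⁻¹ * P v (x * (TG D tw).ev m)) := by
    intro v w m
    induction m with
    | nil =>
      intro _ x
      rw [ev_nil, mul_one, inv_mul_cancel]
      exact Par.one _
    | cons s m ih =>
      intro hm x
      have h1 := ih (fun a ha => hm a (List.mem_cons_of_mem s ha)) (x * (TG D tw).g s)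
      rw [ev_cons, ← mul_assoc]
      rcases hP4 v x s with h2 | ⟨h2, h3, _⟩
      · rw [h2] at h1
        exact h1
      · have h4 : (P v x)⁻¹ * P v (x * (TG D tw).g s * (TG D tw).ev m) =
            (TG D tw).g s * ((P v (x * (TG D tw).g s))⁻¹ * P v (x * (TG D tw).g s * (TG D tw).ev m)) := by
          rw [h3, mul_inv_rev, g_inv]
          rw [mul_assoc ((TG D tw).g s) ((P v x)⁻¹), ← mul_assoc ((TG D tw).g s) ((TG D tw).g s), gg, one_mul]
        rw [h4]
        exact Par.mul (Par.gen ⟨h2, hm s List.mem_cons_self⟩) h1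
  obtain ⟨M, hM⟩ : ∃ M : ZMod 5 → (TG D tw).W → Prop, M = fun i x => InS (σ.1 i) ((g i)⁻¹ * x) := ⟨_, rfl⟩
  obtain ⟨Q, hQ⟩ : ∃ Q : ZMod 5 → (TG D tw).W → (TG D tw).W, Q = fun i x => g i * P (σ.1 i) ((g i)⁻¹ * x) := ⟨_, rfl⟩
  have hM1 : ∀ i x, M i (Q i x) := by
    intro i x
    rw [hM, hQ]
    show Par _ ((g i)⁻¹ * (g i * P (σ.1 i) ((g i)⁻¹ * x)))
    rw [inv_mul_cancel_left]
    exact hP1 _ _
  have hfix : ∀ i x, M i x → Q i x = x := by
    intro i x hx
    rw [hM] at hx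
    rw [hQ]
    show g i * P (σ.1 i) ((g i)⁻¹ * x) = x
    have h1 := hP2 (σ.1 i) ((g i)⁻¹ * x) 1 hx
    rw [mul_one, hP3, mul_one] at h1
    rw [h1, mul_inv_cancel_left]
  have hdiff : ∀ i j x x', M j x → M j x' →
      Par (fun a : Lt tw => (a.1.1 = σ.1 i ∨ D.Adj (σ.1 i) a.1.1) ∧ (a.1.1 = σ.1 j ∨ D.Adj (σ.1 j) a.1.1))
        ((Q i x)⁻¹ * Q i x') := by
    intro i j x x' hx hx'
    rw [hM] at hx hx'
    have h1 : Par (fun a : Lt tw => a.1.1 = σ.1 j ∨ D.Adj (σ.1 j) a.1.1) (((g j)⁻¹ * x)⁻¹ * ((g j)⁻¹ * x')) :=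
      Par.mul (Par.inv hx) hx'
    obtain ⟨m, hm, hm2⟩ := h1
    have h2 : (g i)⁻¹ * x' = (g i)⁻¹ * x * (TG D tw).ev m := by
      rw [hm2]
      group
    have h3 := hmove (σ.1 i) (σ.1 j) m hm ((g i)⁻¹ * x)
    rw [← h2] at h3
    have h4 : (Q i x)⁻¹ * Q i x' = (P (σ.1 i) ((g i)⁻¹ * x))⁻¹ * P (σ.1 i) ((g i)⁻¹ * x') := by
      rw [hQ]
      group
    rw [h4]
    exact h3
  have hmul : ∀ j x y, M j x → Par (fun a : Lt tw => a.1.1 = σ.1 j ∨ D.Adj (σ.1 j) a.1.1) (x⁻¹ * y) → M j y := by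
    intro j x y hx hy
    rw [hM] at hx ⊢
    have h1 : (g j)⁻¹ * y = ((g j)⁻¹ * x) * (x⁻¹ * y) := by group
    show Par _ ((g j)⁻¹ * y)
    rw [h1]
    exact Par.mul hx hy
  have hproj : ∀ i j x, (∃ p, M i p ∧ M j p) → M j x → M j (Q i x) := by
    rintro i j x ⟨p, hp1, hp2⟩ hx
    have h1 := hdiff i j p x hp2 hx
    rw [hfix i p hp1] at h1
    exact hmul j p _ hp2 (h1.mono fun a ha => ha.2)
  have hqM1 : ∀ i, M i (q i) := by
    intro i
    rw [hM]
    exact hq1 i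
  have hqM2 : ∀ i, M (i + 1) (q i) := by
    intro i
    rw [hM]
    exact hq2 i
  -- two stars around a vertex
  have hstar : ∀ (j : ZMod 5) (u : V), (u = σ.1 (j + 4) ∨ D.Adj (σ.1 (j + 4)) u) →
      (u = σ.1 (j + 1) ∨ D.Adj (σ.1 (j + 1)) u) → (u = σ.1 j ∨ D.Adj (σ.1 j) u) := by
    intro j u h1 h2
    have a1 : D.Adj (σ.1 (j + 4)) (σ.1 j) := by
      have h := σ.2 (j + 4)
      have h3 : j + 4 + 1 = j := by
        have : (4 : ZMod 5) + 1 = 0 := by decide
        rw [add_assoc, this, add_zero]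
      rwa [h3] at h
    have a2 : D.Adj (σ.1 j) (σ.1 (j + 1)) := σ.2 j
    have a3 : D.Adj (σ.1 (j + 1)) (σ.1 (j + 2)) := by
      have h := σ.2 (j + 1)
      have h3 : j + 1 + 1 = j + 2 := by
        have : (1 : ZMod 5) + 1 = 2 := by decide
        rw [add_assoc, this]
      rwa [h3] at h
    have a4 : D.Adj (σ.1 (j + 2)) (σ.1 (j + 3)) := by
      have h := σ.2 (j + 2)
      have h3 : j + 2 + 1 = j + 3 := by
        have : (2 : ZMod 5) + 1 = 3 := by decide
        rw [add_assoc, this]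
      rwa [h3] at h
    have a5 : D.Adj (σ.1 (j + 3)) (σ.1 (j + 4)) := by
      have h := σ.2 (j + 3)
      have h3 : j + 3 + 1 = j + 4 := by
        have : (3 : ZMod 5) + 1 = 4 := by decide
        rw [add_assoc, this]
      rwa [h3] at h
    have hne : σ.1 (j + 4) ≠ σ.1 (j + 1) := by
      intro h
      rw [h] at a5
      exact hNT _ _ _ a3 a4 a5.symm
    rcases h1 with h1 | h1
    · right
      rw [h1]
      exact a1.symm
    · rcases h2 with h2 | h2
      · right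
        rw [h2]
        exact a2
      · left
        by_contra hu
        exact hNS (σ.1 (j + 4)) (σ.1 j) (σ.1 (j + 1)) u hne (fun h => hu h.symm) a1 a2 h2 h1.symm
  -- three consecutive cosets
  have hT : ∀ i, ∃ p, M i p ∧ M (i + 1) p ∧ M (i + 2) p := by
    intro i
    have e1 : i + 1 + 1 = i + 2 := by
      have : (1 : ZMod 5) + 1 = 2 := by decide
      rw [add_assoc, this]
    have e2 : i + 2 + 1 = i + 3 := by
      have : (2 : ZMod 5) + 1 = 3 := by decide
      rw [add_assoc, this]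
    have e3 : i + 3 + 1 = i + 4 := by
      have : (3 : ZMod 5) + 1 = 4 := by decide
      rw [add_assoc, this]
    have e4 : i + 4 + 1 = i := by
      have : (4 : ZMod 5) + 1 = 0 := by decide
      rw [add_assoc, this, add_zero]
    have e5 : i + 2 + 4 = i + 1 := by
      have : (2 : ZMod 5) + 4 = 1 := by decide
      rw [add_assoc, this]
    refine ⟨Q (i + 1) (q (i + 3)), ?_, hM1 _ _, ?_⟩
    · -- comparison with the projection of `q (i + 4)`
      have h1 : M i (Q (i + 1) (q (i + 4))) := by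
        apply hproj (i + 1) i
        · exact ⟨q i, hqM2 i, hqM1 i⟩
        · have := hqM2 (i + 4)
          rwa [e4] at this
      have h2 : M (i + 4) (q (i + 3)) := by
        have := hqM2 (i + 3)
        rwa [e3] at this
      have h3 := hdiff (i + 1) (i + 4) (q (i + 4)) (q (i + 3)) (hqM1 _) h2
      exact hmul i _ _ h1 (h3.mono fun a ha => hstar i a.1.1 ha.2 ha.1)
    · -- comparison with the projection of `q (i + 2)`
      have h1 : M (i + 2) (Q (i + 1) (q (i + 2))) := by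
        apply hproj (i + 1) (i + 2)
        · refine ⟨q (i + 1), hqM1 _, ?_⟩
          have := hqM2 (i + 1)
          rwa [e1] at this
        · exact hqM1 _
      have h2 : M (i + 3) (q (i + 2)) := by
        have := hqM2 (i + 2)
        rwa [e2] at this
      have h3 := hdiff (i + 1) (i + 3) (q (i + 2)) (q (i + 3)) h2 (hqM1 _)
      refine hmul (i + 2) _ _ h1 (h3.mono fun a ha => ?_)
      apply hstar (i + 2) a.1.1
      · rw [e5]
        exact ha.1
      · rw [e2]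
        exact ha.2
  have hpair : ∀ i j, ∃ p, M i p ∧ M j p := by
    have hc : ∀ i j : ZMod 5, j = i ∨ j = i + 1 ∨ j = i + 2 ∨ i = j + 2 ∨ i = j + 1 := by decide
    intro i j
    rcases hc i j with rfl | rfl | rfl | rfl | rfl
    · exact ⟨q j, hqM1 j, hqM1 j⟩
    · exact ⟨q i, hqM1 i, hqM2 i⟩
    · obtain ⟨p, h1, _, h3⟩ := hT i
      exact ⟨p, h1, h3⟩
    · obtain ⟨p, h1, _, h3⟩ := hT j
      exact ⟨p, h3, h1⟩
    · exact ⟨q j, hqM2 j, hqM1 j⟩
  -- the common point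
  refine ⟨Q 4 (Q 3 (Q 2 (Q 1 (q 0)))), ?_⟩
  have h0 : M 0 (q 0) := hqM1 0
  have h10 := hproj 1 0 _ (hpair 1 0) h0
  have h11 := hM1 1 (q 0)
  have h20 := hproj 2 0 _ (hpair 2 0) h10
  have h21 := hproj 2 1 _ (hpair 2 1) h11
  have h22 := hM1 2 (Q 1 (q 0))
  have h30 := hproj 3 0 _ (hpair 3 0) h20
  have h31 := hproj 3 1 _ (hpair 3 1) h21
  have h32 := hproj 3 2 _ (hpair 3 2) h22
  have h33 := hM1 3 (Q 2 (Q 1 (q 0)))
  have h40 := hproj 4 0 _ (hpair 4 0) h30
  have h41 := hproj 4 1 _ (hpair 4 1) h31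
  have h42 := hproj 4 2 _ (hpair 4 2) h32
  have h43 := hproj 4 3 _ (hpair 4 3) h33
  have h44 := hM1 4 (Q 3 (Q 2 (Q 1 (q 0))))
  have hall : ∀ i : ZMod 5, i = 0 ∨ i = 1 ∨ i = 2 ∨ i = 3 ∨ i = 4 := by decide
  intro i
  have hfin : M i (Q 4 (Q 3 (Q 2 (Q 1 (q 0))))) := by
    rcases hall i with rfl | rfl | rfl | rfl | rfl
    · exact h40
    · exact h41
    · exact h42
    · exact h43
    · exact h44
  rw [hM] at hfin
  exact hfin

end Pool.Agent.H56Q
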