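import Pool.Agent.H56Q.Stm

/-!
# Project RQ, piece HOM3 (helper74): number of homomorphisms to `ℤ/3`
-/

set_option autoImplicit false

namespace Pool.Agent.H56Q

open Pool.Agent.Helper2GI Pool.Agent.Helper2GI.RA

/-- antisymmetric functions -/
def Anti {X : Type} (σ : X → X) : Type := {a : X → ZMod 3 // ∀ c, a (σ c) = - a c}

theorem anti_card {X : Type} [Finite X] (σ : X → X) (h2 : ∀ c, σ (σ c) = c) (h1 : ∀ c, σ c ≠ c) :
    (Nat.card (Anti σ)) ^ 2 = 3 ^ Nat.card X := by
  classical
  obtain ⟨r, hr⟩ : ∃ r : X → ℕ, Function.Injective r := by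
    obtain ⟨n, ⟨e⟩⟩ := Finite.exists_equiv_fin X
    exact ⟨fun c => (e c : ℕ), fun a b h => e.injective (Fin.ext h)⟩
  obtain ⟨ε, hε, hε2⟩ : ∃ ε : X → ZMod 3, (∀ c, ε (σ c) = - ε c) ∧ ∀ c, ε c * ε c = 1 := by
    refine ⟨fun c => if r c < r (σ c) then 1 else -1, ?_, ?_⟩
    · intro c
      show (if r (σ c) < r (σ (σ c)) then (1 : ZMod 3) else -1) =
        - (if r c < r (σ c) then 1 else -1)
      rw [h2]
      have hne : r (σ c) ≠ r c := fun h => h1 c (hr h)
      by_cases h : r c < r (σ c)
      · rw [if_pos h, if_neg (by omega)]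
      · rw [if_neg h, if_pos (by omega), neg_neg]
    · intro c
      show (if r c < r (σ c) then (1 : ZMod 3) else -1) *
        (if r c < r (σ c) then (1 : ZMod 3) else -1) = 1
      split_ifs <;> decide
  have h3 : (3 : ZMod 3) = 0 := by decide
  let e : (X → ZMod 3) ≃ Anti σ × Anti σ :=
    { toFun := fun a => (⟨fun c => a c - a (σ c), by intro c; simp only [h2]; ring⟩,
        ⟨fun c => ε c * (a c + a (σ c)), by intro c; simp only [h2, hε]; ring⟩)
      invFun := fun p => fun c => -(p.1.1 c + ε c * p.2.1 c)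
      left_inv := by
        intro a
        funext c
        show -(a c - a (σ c) + ε c * (ε c * (a c + a (σ c)))) = a c
        linear_combination (-(a c + a (σ c))) * hε2 c - a c * h3
      right_inv := by
        rintro ⟨p, q⟩
        refine Prod.ext (Subtype.ext (funext fun c => ?_)) (Subtype.ext (funext fun c => ?_))
        · show -(p.1 c + ε c * q.1 c) - -(p.1 (σ c) + ε (σ c) * q.1 (σ c)) = p.1 c
          rw [p.2, q.2, hε]
          linear_combination (-(p.1 c)) * h3
        · show ε c * (-(p.1 c + ε c * q.1 c) + -(p.1 (σ c) + ε (σ c) * q.1 (σ c))) = q.1 c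
          rw [p.2, q.2, hε]
          linear_combination (-2 * q.1 c) * hε2 c - q.1 c * h3 }
  have h := Nat.card_congr e
  rw [Nat.card_prod, Nat.card_fun, Nat.card_zmod] at h
  rw [sq, ← h]

section
variable {E : Type} {G : RA E} (M : Subgroup G.W)

/-- the involution of a letter on the cosets -/
noncomputable def hs (s : E) (c : G.W ⧸ M) : G.W ⧸ M := G.g s • c

theorem hs_mk (s : E) (x : G.W) : hs M s (x : G.W ⧸ M) = ((G.g s * x : G.W) : G.W ⧸ M) := rfl

theorem hs_hs (s : E) (c : G.W ⧸ M) : hs M s (hs M s c) = c := by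
  induction c using QuotientGroup.induction_on with
  | H x => rw [hs_mk, hs_mk, ← mul_assoc, gg, one_mul]

theorem hs_ne (hM : ∀ x ∈ M, Ev x) (s : E) (c : G.W ⧸ M) : hs M s c ≠ c := by
  induction c using QuotientGroup.induction_on with
  | H x =>
    rw [hs_mk]
    intro h
    rw [QuotientGroup.eq] at h
    have h1 := hM _ h s
    simp only [mul_inv_rev, map_mul, map_inv] at h1
    rw [mul_comm (par s x)⁻¹, mul_assoc, inv_mul_cancel, mul_one] at h1
    exact par_self s (inv_eq_one.1 h1)

/-- functions with constant jumps along `M` -/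
def TJ : Type := {F : G.W → ZMod 3 // ∀ x, ∀ m ∈ M, F (x * m) - F x = F m - F 1}

/-- the homomorphism of a function with constant jumps -/
noncomputable def tchi (F : TJ M) : M →* Multiplicative (ZMod 3) :=
  MonoidHom.mk' (fun m => Multiplicative.ofAdd (F.1 (m : G.W) - F.1 1)) (by
    intro m m'
    rw [← ofAdd_add]
    have h := F.2 m m' m'.2
    congr 1
    rw [Subgroup.coe_mul]
    linear_combination h)

theorem tcard1 [Finite (G.W ⧸ M)] :
    Nat.card (TJ M) = Nat.card (M →* Multiplicative (ZMod 3)) * 3 ^ M.index := by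
  have hb : Function.Bijective (fun F : TJ M =>
      ((tchi M F, fun c : G.W ⧸ M => F.1 (Quotient.out c)) :
        (M →* Multiplicative (ZMod 3)) × (G.W ⧸ M → ZMod 3))) := by
    constructor
    · intro F F' h
      have h1 := congrArg Prod.fst h
      have h2 := congrArg Prod.snd h
      simp only at h1 h2
      refine Subtype.ext (funext fun x => ?_)
      obtain ⟨m, hm⟩ := QuotientGroup.mk_out_eq_mul M x
      have h3 : F.1 (x * (m : G.W)) = F'.1 (x * (m : G.W)) := by
        have := congrFun h2 (x : G.W ⧸ M)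
        rwa [hm] at this
      have h4 : F.1 (m : G.W) - F.1 1 = F'.1 (m : G.W) - F'.1 1 := by
        have := DFunLike.congr_fun h1 m
        exact Multiplicative.ofAdd.injective this
      have h5 := F.2 x m m.2
      have h6 := F'.2 x m m.2
      linear_combination h3 - h5 + h6 - h4
    · rintro ⟨χ, f⟩
      have hmem : ∀ x : G.W, (Quotient.out (x : G.W ⧸ M))⁻¹ * x ∈ M := by
        intro x
        rw [← QuotientGroup.eq]
        exact Quotient.out_eq _
      let mm : G.W → M := fun x => ⟨(Quotient.out (x : G.W ⧸ M))⁻¹ * x, hmem x⟩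
      have hmm : ∀ (x : G.W) (m : M), mm (x * m) = mm x * m := by
        intro x m
        have h1 : ((x * (m : G.W) : G.W) : G.W ⧸ M) = (x : G.W ⧸ M) :=
          QuotientGroup.mk_mul_of_mem x m.2
        refine Subtype.ext ?_
        show (Quotient.out ((x * (m : G.W) : G.W) : G.W ⧸ M))⁻¹ * (x * m) =
          (Quotient.out (x : G.W ⧸ M))⁻¹ * x * m
        rw [h1, mul_assoc]
      have hjump : ∀ (x : G.W) (m : M),
          (f ((x * (m : G.W) : G.W) : G.W ⧸ M) + Multiplicative.toAdd (χ (mm (x * m)))) -
          (f (x : G.W ⧸ M) + Multiplicative.toAdd (χ (mm x))) = Multiplicative.toAdd (χ m) := by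
        intro x m
        have h1 : ((x * (m : G.W) : G.W) : G.W ⧸ M) = (x : G.W ⧸ M) :=
          QuotientGroup.mk_mul_of_mem x m.2
        rw [h1, hmm, map_mul, toAdd_mul]
        ring
      refine ⟨⟨fun x => f (x : G.W ⧸ M) + Multiplicative.toAdd (χ (mm x)), ?_⟩, ?_⟩
      · intro x m hm
        have h1 := hjump x ⟨m, hm⟩
        have h2 := hjump 1 ⟨m, hm⟩
        rw [one_mul] at h2
        exact h1.trans h2.symm
      · refine Prod.ext ?_ ?_
        · refine MonoidHom.ext fun m => ?_
          have h2 := hjump 1 m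
          rw [one_mul] at h2
          exact congrArg Multiplicative.ofAdd h2
        · refine funext fun c => ?_
          show f ((Quotient.out c : G.W) : G.W ⧸ M) + Multiplicative.toAdd (χ (mm (Quotient.out c)))
            = f c
          have h1 : ((Quotient.out c : G.W) : G.W ⧸ M) = c := Quotient.out_eq _
          have h2 : mm (Quotient.out c) = 1 := by
            refine Subtype.ext ?_
            show (Quotient.out ((Quotient.out c : G.W) : G.W ⧸ M))⁻¹ * Quotient.out c = 1
            rw [h1, inv_mul_cancel]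
          rw [h1, h2, map_one, toAdd_one, add_zero]
  have h := Nat.card_congr (Equiv.ofBijective _ hb)
  rw [h, Nat.card_prod, Nat.card_fun, Nat.card_zmod]
  rfl

theorem tkey (F : TJ M) (s : E) (x : G.W) : F.1 (G.g s * Quotient.out (x : G.W ⧸ M)) -
    F.1 (Quotient.out (x : G.W ⧸ M)) = F.1 (G.g s * x) - F.1 x := by
  obtain ⟨m, hm⟩ := QuotientGroup.mk_out_eq_mul M x
  rw [hm, ← mul_assoc]
  have h1 := F.2 x m m.2
  have h2 := F.2 (G.g s * x) m m.2
  linear_combination h2 - h1

/-- the labels of a function with constant jumps -/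
noncomputable def tlab (F : TJ M) (s : E) : Anti (hs M s) :=
  ⟨fun c => F.1 (G.g s * Quotient.out c) - F.1 (Quotient.out c), by
    intro c
    induction c using QuotientGroup.induction_on with
    | H x =>
      have h1 := tkey M F s x
      have h2 := tkey M F s (G.g s * x)
      rw [← mul_assoc (G.g s) (G.g s) x, gg, one_mul] at h2
      show F.1 (G.g s * Quotient.out ((G.g s * x : G.W) : G.W ⧸ M)) -
        F.1 (Quotient.out ((G.g s * x : G.W) : G.W ⧸ M)) =
        -(F.1 (G.g s * Quotient.out (x : G.W ⧸ M)) - F.1 (Quotient.out (x : G.W ⧸ M)))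
      linear_combination h2 + h1⟩

theorem tcard2 (hG : ∀ a b, ¬ G.adj a b) :
    Nat.card (TJ M) = Nat.card (∀ s : E, Anti (hs M s)) * 3 := by
  have hb : Function.Bijective (fun F : TJ M =>
      ((tlab M F, F.1 1) : (∀ s : E, Anti (hs M s)) × ZMod 3)) := by
    constructor
    · intro F F' h
      have h1 := congrArg Prod.fst h
      have h2 := congrArg Prod.snd h
      simp only at h1 h2
      have h3 : ∀ (s : E) (x : G.W), F.1 (G.g s * x) - F.1 x = F'.1 (G.g s * x) - F'.1 x := by
        intro s x
        have h4 := tkey M F s x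
        have h5 := tkey M F' s x
        have h6 : F.1 (G.g s * Quotient.out (x : G.W ⧸ M)) - F.1 (Quotient.out (x : G.W ⧸ M)) =
            F'.1 (G.g s * Quotient.out (x : G.W ⧸ M)) - F'.1 (Quotient.out (x : G.W ⧸ M)) :=
          congrFun (congrArg Subtype.val (congrFun h1 s)) (x : G.W ⧸ M)
        exact h4.symm.trans (h6.trans h5)
      refine Subtype.ext (funext fun x => ?_)
      induction x using ind with
      | h1 => exact h2
      | h2 a x ih =>
        have := h3 a x
        linear_combination this + ih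
    · rintro ⟨lam, z⟩
      let p : E → Equiv.Perm (G.W × ZMod 3) := fun s =>
        Function.Involutive.toPerm (fun q => (G.g s * q.1, q.2 + (lam s).1 (q.1 : G.W ⧸ M))) (by
          rintro ⟨x, y⟩
          refine Prod.ext ?_ ?_
          · show G.g s * (G.g s * x) = x
            rw [← mul_assoc, gg, one_mul]
          · show y + (lam s).1 (x : G.W ⧸ M) + (lam s).1 ((G.g s * x : G.W) : G.W ⧸ M) = y
            have := (lam s).2 (x : G.W ⧸ M)
            rw [hs_mk] at this
            rw [this]
            ring)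
      have hp : ∀ s q, p s q = (G.g s * q.1, q.2 + (lam s).1 (q.1 : G.W ⧸ M)) := fun s q => rfl
      have hpp : ∀ s, p s * p s = 1 := by
        intro s
        ext1 q
        exact (p s).left_inv q
      let ρ : G.W →* Equiv.Perm (G.W × ZMod 3) := hom p hpp (fun a b h => absurd h (hG a b))
      have hρ : ∀ (s : E) (x : G.W) (q : G.W × ZMod 3), ρ (G.g s * x) q = p s (ρ x q) := by
        intro s x q
        rw [map_mul, Equiv.Perm.mul_apply]
        have : ρ (G.g s) = p s := hom_g _ _ _ s
        rw [this]
      have h1 : ∀ x : G.W, (ρ x (1, z)).1 = x := by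
        intro x
        induction x using ind with
        | h1 => rw [map_one, Equiv.Perm.one_apply]
        | h2 a x ih => rw [hρ, hp, ih]
      have h2 : ∀ (s : E) (x : G.W),
          (ρ (G.g s * x) (1, z)).2 = (ρ x (1, z)).2 + (lam s).1 (x : G.W ⧸ M) := by
        intro s x
        rw [hρ, hp, h1]
      have h3 : (ρ 1 (1, z)).2 = z := by rw [map_one, Equiv.Perm.one_apply]
      refine ⟨⟨fun x => (ρ x (1, z)).2, ?_⟩, ?_⟩
      · intro x m hm
        show (ρ (x * m) (1, z)).2 - (ρ x (1, z)).2 = (ρ m (1, z)).2 - (ρ 1 (1, z)).2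
        induction x using ind with
        | h1 => rw [one_mul]
        | h2 a x ih =>
          have h4 : ((x * m : G.W) : G.W ⧸ M) = (x : G.W ⧸ M) := QuotientGroup.mk_mul_of_mem x hm
          rw [mul_assoc, h2, h2, h4]
          linear_combination ih
      · refine Prod.ext (funext fun s => Subtype.ext (funext fun c => ?_)) h3
        show (ρ (G.g s * Quotient.out c) (1, z)).2 - (ρ (Quotient.out c) (1, z)).2 = (lam s).1 c
        have h4 : ((Quotient.out c : G.W) : G.W ⧸ M) = c := Quotient.out_eq _
        rw [h2, h4]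
        ring
  have h := Nat.card_congr (Equiv.ofBijective _ hb)
  rw [h, Nat.card_prod, Nat.card_zmod]

end

theorem t_HOM3 : S_HOM3 := by
  classical
  intro E hE G hG M hM hev
  have : Fintype E := Fintype.ofFinite E
  have : Finite (G.W ⧸ M) := Nat.finite_of_card_ne_zero hM
  have h1 := tcard1 M
  have h2 := tcard2 M hG
  have h3 : (Nat.card (∀ s : E, Anti (hs M s))) ^ 2 = 3 ^ (M.index * Nat.card E) := by
    rw [Nat.card_pi, ← Finset.prod_pow]
    have : ∀ s : E, (Nat.card (Anti (hs M s))) ^ 2 = 3 ^ M.index := by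
      intro s
      exact anti_card (hs M s) (hs_hs M s) (hs_ne M hev s)
    rw [Finset.prod_congr rfl (fun s _ => this s), Finset.prod_const, Finset.card_univ,
      ← Nat.card_eq_fintype_card, ← pow_mul]
  have h4 : Nat.card (M →* Multiplicative (ZMod 3)) * 3 ^ M.index =
      Nat.card (∀ s : E, Anti (hs M s)) * 3 := h1.symm.trans h2
  calc (Nat.card (M →* Multiplicative (ZMod 3))) ^ 2 * 3 ^ (2 * M.index)
      = (Nat.card (M →* Multiplicative (ZMod 3)) * 3 ^ M.index) ^ 2 := by
        rw [mul_pow, ← pow_mul, mul_comm 2]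
    _ = (Nat.card (∀ s : E, Anti (hs M s))) ^ 2 * 3 ^ 2 := by rw [h4, mul_pow]
    _ = 3 ^ (M.index * Nat.card E + 2) := by rw [h3, ← pow_add]

end Pool.Agent.H56Q
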