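import Pool.Agent.H56Q.Stm

/-!
# Project RQ, piece INT (helper74): intersection of two conjugates of parabolic subgroups
-/

set_option autoImplicit false

namespace Pool.Agent.H56Q

open Pool.Agent.Helper2GI Pool.Agent.Helper2GI.RA

theorem t_INT (hG : S_GATE) : S_INT := by
  intro E G Z Z' g g'
  obtain ⟨P, h1, h2, h3, h4, h5⟩ := hG E G Z
  have key : ∀ (m : List E), (∀ a ∈ m, Z' a) → ∀ y : G.W,
      Par (fun a => Z a ∧ Z' a) ((P y)⁻¹ * P (y * G.ev m)) := by
    intro m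
    induction m using List.reverseRecOn with
    | nil => intro _ y; simpa using Par.one _
    | append_singleton m a ih =>
      intro hm y
      have hm1 := ih (fun c hc => hm c (by simp [hc])) y
      have ha : Z' a := hm a (by simp)
      rw [ev_append, ev_single, ← mul_assoc y]
      rcases h4 (y * G.ev m) a with h | ⟨hz, h, _⟩
      · rw [h]; exact hm1
      · rw [h, ← mul_assoc]
        exact hm1.mul (Par.gen ⟨hz, ha⟩)
  refine ⟨g * P (g⁻¹ * g'), by simpa using h1 _, ?_⟩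
  intro x ha hb
  obtain ⟨m, hm, hmb⟩ := hb
  have e1 : P (g⁻¹ * x * g * (g⁻¹ * g')) = g⁻¹ * x * g * P (g⁻¹ * g') := h2 _ _ ha
  have e2 : g⁻¹ * x * g * (g⁻¹ * g') = g⁻¹ * g' * G.ev m := by rw [hmb]; group
  have h := key m hm (g⁻¹ * g')
  rw [← e2, e1] at h
  have e3 : (g * P (g⁻¹ * g'))⁻¹ * x * (g * P (g⁻¹ * g')) =
      (P (g⁻¹ * g'))⁻¹ * (g⁻¹ * x * g * P (g⁻¹ * g')) := by group
  rw [e3]
  exact h

end Pool.Agent.H56Q
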