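import Pool.Agent.H56Q.Stm

/-!
# Project RQ, piece LKP (helper41): the star group and the link group
-/

set_option autoImplicit false

namespace Pool.Agent.H56Q

open Pool.Agent.Helper2GI Pool.Agent.Helper2GI.RA

namespace LKP

variable {V : Type} {D : SimpleGraph V} {tw : V → Prop} {v : V}

open Classical in
/-- the images of the letters -/
noncomputable def pg (D : SimpleGraph V) (tw : V → Prop) (v : V) (a : Lt tw) : (LK D tw v).W :=
  if h : D.Adj v a.1.1 then (LK D tw v).g ⟨a, h⟩ else 1

lemma pg_pos {a : Lt tw} (h : D.Adj v a.1.1) : pg D tw v a = (LK D tw v).g ⟨a, h⟩ := dif_pos h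

lemma pg_neg {a : Lt tw} (h : ¬ D.Adj v a.1.1) : pg D tw v a = 1 := dif_neg h

/-- the projection -/
noncomputable def pr (hNT : NT D) (tw : V → Prop) (v : V) : (TG D tw).W →* (LK D tw v).W :=
  hom (pg D tw v)
    (fun a => by
      by_cases h : D.Adj v a.1.1
      · rw [pg_pos h]
        exact gg _
      · rw [pg_neg h, mul_one])
    (fun a b hab => by
      by_cases h : D.Adj v a.1.1
      · by_cases h' : D.Adj v b.1.1
        · exact absurd h' (hNT v a.1.1 b.1.1 h hab)
        · rw [pg_neg h', mul_one, one_mul]
      · rw [pg_neg h, mul_one, one_mul])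

lemma pr_g (hNT : NT D) (a : Lt tw) : pr hNT tw v ((TG D tw).g a) = pg D tw v a := hom_g _ _ _ a

/-- the inclusion -/
noncomputable def inc (D : SimpleGraph V) (tw : V → Prop) (v : V) :
    (LK D tw v).W →* (TG D tw).W :=
  hom (fun b => (TG D tw).g b.1) (fun b => gg b.1) (fun _ _ h => h.elim)

lemma inc_g (b : {a : Lt tw // D.Adj v a.1.1}) : inc D tw v ((LK D tw v).g b) = (TG D tw).g b.1 :=
  hom_g _ _ _ b

lemma split (hNT : NT D) : ∀ m : List (Lt tw), (∀ a ∈ m, a.1.1 = v ∨ D.Adj v a.1.1) →
    ∃ d, InD v d ∧ (TG D tw).ev m = d * inc D tw v (pr hNT tw v ((TG D tw).ev m)) := by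
  intro m
  induction m with
  | nil =>
    intro _
    exact ⟨1, Par.one _, by simp⟩
  | cons a m ih =>
    intro hm
    obtain ⟨d, hd, h1⟩ := ih fun b hb => hm b (List.mem_cons_of_mem _ hb)
    rw [ev_cons, map_mul, pr_g, map_mul]
    rcases hm a List.mem_cons_self with h | h
    · refine ⟨(TG D tw).g a * d, Par.mul (Par.gen h) hd, ?_⟩
      have h2 : ¬ D.Adj v a.1.1 := by
        rw [h]
        exact D.irrefl
      rw [pg_neg h2, map_one, one_mul, mul_assoc, ← h1]
    · refine ⟨d, hd, ?_⟩
      rw [pg_pos h, inc_g]
      have h3 : (TG D tw).g a * d = d * (TG D tw).g a := by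
        obtain ⟨l, hl, rfl⟩ := hd
        clear h1
        induction l with
        | nil => simp
        | cons c l ihl =>
          have hc : c.1.1 = v := hl c List.mem_cons_self
          have h4 : (TG D tw).adj a c := by
            show D.Adj a.1.1 c.1.1
            rw [hc]
            exact h.symm
          rw [ev_cons, ← mul_assoc, gcomm h4, mul_assoc, ihl fun b hb => hl b (List.mem_cons_of_mem _ hb),
            mul_assoc]
      rw [← mul_assoc, ← h3, mul_assoc, ← h1]

end LKP

open LKP in
theorem t_LKP : S_LKP := by
  classical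
  intro V D tw v hNT
  refine ⟨pr hNT tw v, inc D tw v, ?_, ?_, ?_, ?_, ?_⟩
  · intro y
    induction y using ind with
    | h1 => simp
    | h2 b y ih =>
      rw [map_mul, map_mul, ih, inc_g, pr_g, pg_pos b.2]
  · intro y
    induction y using ind with
    | h1 =>
      rw [map_one]
      exact Par.one _
    | h2 b y ih =>
      rw [map_mul, inc_g]
      exact Par.mul (Par.gen (Or.inr b.2)) ih
  · intro x hx
    obtain ⟨m, hm, rfl⟩ := hx
    obtain ⟨d, hd, h1⟩ := split hNT m hm
    constructor
    · intro h
      rw [h, map_one, mul_one] at h1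
      rw [h1]
      exact hd
    · rintro ⟨l, hl, h2⟩
      rw [← h2]
      clear h2
      induction l with
      | nil => simp
      | cons c l ih =>
        have hc : c.1.1 = v := hl c List.mem_cons_self
        have h3 : ¬ D.Adj v c.1.1 := by
          rw [hc]
          exact D.irrefl
        rw [ev_cons, map_mul, pr_g, pg_neg h3, one_mul]
        exact ih fun b hb => hl b (List.mem_cons_of_mem _ hb)
  · intro x hx
    exact Par.mono (fun a h => Or.inl h) hx
  · intro x hx b
    have key : ∀ x : (TG D tw).W, par b (pr hNT tw v x) = par b.1 x := by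
      intro x
      induction x using ind with
      | h1 => simp
      | h2 a x ih =>
        rw [map_mul, map_mul, map_mul, ih, pr_g]
        congr 1
        by_cases h : D.Adj v a.1.1
        · rw [pg_pos h]
          by_cases hab : (⟨a, h⟩ : {a : Lt tw // D.Adj v a.1.1}) = b
          · subst hab
            unfold par
            rw [hom_g, hom_g, if_pos rfl, if_pos rfl]
          · rw [par_ne hab, par_ne]
            intro h'
            exact hab (Subtype.ext h')
        · rw [pg_neg h, map_one, par_ne]
          rintro rfl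
          exact h b.2
    rw [key]
    exact hx b.1

end Pool.Agent.H56Q
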