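import Pool.Agent.H56Q.K46

set_option autoImplicit false

namespace Pool.Agent.H56Q

open Pool.Agent.Helper2GI Pool.Agent.Helper2GI.RA K46

theorem t_NSQ (hW : S_WON) (hI : S_INT) (hC : S_CJ) (hD : S_DC) (hG : S_GAP) : S_NSQ := by
  intro V D tw nt ns x₁ x₂ x₃ x₄ e₁ e₂ e₃ e₄ c12 c23 c34 c41 n13 n24
  have ne1 : x₁ ≠ 1 := by
    intro h
    have := n13 1 1 one_pos one_pos
    rw [h] at this
    simp at this
  have ne3 : x₃ ≠ 1 := by
    intro h
    have := n13 1 1 one_pos one_pos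
    rw [h] at this
    simp at this
  obtain ⟨g₁, v, h₁⟩ := hW V D tw nt ns x₁ x₂ x₄ e₁ e₂ e₄ ne1 c12 c41.symm n24
  obtain ⟨g₃, v', h₃⟩ := hW V D tw nt ns x₃ x₂ x₄ e₃ e₂ e₄ ne3 c23.symm c34 n24
  have star : ∀ (g x y : (TG D tw).W) (v : V), Ev x → x ≠ 1 → InD v (g⁻¹ * x * g) →
      x * y = y * x → InS v (g⁻¹ * y * g) := by
    intro g x y v ex hx hv hc
    refine hC V D tw v (g⁻¹ * x * g) (g⁻¹ * y * g) (ev_conj' ex g) ?_ hv ?_
    · intro h
      apply hx
      have h5 : x = g * (g⁻¹ * x * g) * g⁻¹ := by group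
      rw [h5, h]; group
    · have h7 : g⁻¹ * y * g * (g⁻¹ * x * g) * (g⁻¹ * y * g)⁻¹ = g⁻¹ * (y * x * y⁻¹) * g := by
        group
      rw [h7, ← hc, mul_inv_cancel_right]
      exact hv
  have s12 := star g₁ x₁ x₂ v e₁ ne1 h₁ c12
  have s14 := star g₁ x₁ x₄ v e₁ ne1 h₁ c41.symm
  have s32 := star g₃ x₃ x₂ v' e₃ ne3 h₃ c23.symm
  have s34 := star g₃ x₃ x₄ v' e₃ ne3 h₃ c34
  have unconj : ∀ q x y : (TG D tw).W, (q⁻¹ * x * q) * (q⁻¹ * y * q) =
      (q⁻¹ * y * q) * (q⁻¹ * x * q) → x * y = y * x := by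
    intro q x y h
    have h1 : x * y = q * ((q⁻¹ * x * q) * (q⁻¹ * y * q)) * q⁻¹ := by group
    have h2 : y * x = q * ((q⁻¹ * y * q) * (q⁻¹ * x * q)) * q⁻¹ := by group
    rw [h1, h2, h]
  have fin24 : ∀ q : (TG D tw).W, (q⁻¹ * x₂ * q) * (q⁻¹ * x₄ * q) =
      (q⁻¹ * x₄ * q) * (q⁻¹ * x₂ * q) → False := by
    intro q h
    have := n24 1 1 one_pos one_pos
    rw [pow_one, pow_one] at this
    exact this (unconj q _ _ h)
  by_cases hvv : v = v'
  · subst hvv
    by_cases hs : InS v (g₁⁻¹ * g₃)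
    · have h4 : InD v (g₁⁻¹ * x₃ * g₁) := by
        have := normD hs h₃
        have h7 : g₁⁻¹ * g₃ * (g₃⁻¹ * x₃ * g₃) * (g₁⁻¹ * g₃)⁻¹ = g₁⁻¹ * x₃ * g₁ := by group
        rwa [h7] at this
      have h5 := (hD V D tw v _ _ (ev_conj' e₁ g₁) (ev_conj' e₃ g₁) h₁ h4).1
      have := n13 1 1 one_pos one_pos
      rw [pow_one, pow_one] at this
      exact this (unconj g₁ _ _ h5)
    · obtain ⟨q, w, hq⟩ := hG V D tw ns v g₁ g₃ hs
      exact fin24 q (hD V D tw w _ _ (ev_conj' e₂ q) (ev_conj' e₄ q) (hq x₂ s12 s32)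
        (hq x₄ s14 s34)).1
  · obtain ⟨q, _, hq⟩ := hI _ (TG D tw) (fun a => a.1.1 = v ∨ D.Adj v a.1.1)
      (fun a => a.1.1 = v' ∨ D.Adj v' a.1.1) g₁ g₃
    have p2 := hq x₂ s12 s32
    have p4 := hq x₄ s14 s34
    by_cases hadj : D.Adj v v'
    · have hC' : ∀ a : Lt tw, ((a.1.1 = v ∨ D.Adj v a.1.1) ∧ (a.1.1 = v' ∨ D.Adj v' a.1.1)) →
          (a.1.1 = v ∨ a.1.1 = v') := by
        rintro a ⟨ha | ha, hb | hb⟩
        · exact Or.inl ha
        · exact Or.inl ha
        · exact Or.inr hb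
        · exact absurd ha (nt _ _ _ hadj hb)
      have hvv' : ∀ a b : Lt tw, a.1.1 = v → b.1.1 = v' → (TG D tw).adj a b := by
        intro a b ha hb
        show D.Adj a.1.1 b.1.1
        rw [ha, hb]; exact hadj
      have split : ∀ x : (TG D tw).W, Ev x →
          Par (fun a : Lt tw => (a.1.1 = v ∨ D.Adj v a.1.1) ∧ (a.1.1 = v' ∨ D.Adj v' a.1.1)) x →
          ∃ y z, InD v y ∧ InD v' z ∧ x = y * z ∧ Ev y ∧ Ev z := by
        intro x ex px
        obtain ⟨y, z, hy, hz, he⟩ := par_split (Z := fun a : Lt tw => a.1.1 = v)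
          (Z' := fun a : Lt tw => a.1.1 = v') hvv' (Par.mono hC' px)
        have hev : ∀ a : Lt tw, par a y = 1 ∧ par a z = 1 := by
          intro a
          have h1 := ex a
          rw [he, map_mul] at h1
          by_cases ha : a.1.1 = v
          · have h2 : par a z = 1 := par_one_of (Z := fun a : Lt tw => a.1.1 = v')
              (fun h => hvv (ha.symm.trans h)) hz
            rw [h2, mul_one] at h1
            exact ⟨h1, h2⟩
          · have h2 : par a y = 1 := par_one_of (Z := fun a : Lt tw => a.1.1 = v) ha hy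
            rw [h2, one_mul] at h1
            exact ⟨h2, h1⟩
        exact ⟨y, z, hy, hz, he, fun a => (hev a).1, fun a => (hev a).2⟩
      obtain ⟨y, z, hy, hz, he, ey, ez⟩ := split _ (ev_conj' e₂ q) p2
      obtain ⟨y', z', hy', hz', he', ey', ez'⟩ := split _ (ev_conj' e₄ q) p4
      apply fin24 q
      rw [he, he']
      have a1 := (hD V D tw v y y' ey ey' hy hy').1
      have a2 := (hD V D tw v' z z' ez ez' hz hz').1
      have a3 : y' * z = z * y' := par_commute hvv' hy' hz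
      have a4 : y * z' = z' * y := par_commute hvv' hy hz'
      calc y * z * (y' * z') = y * (z * y') * z' := by group
        _ = y * (y' * z) * z' := by rw [a3]
        _ = (y * y') * (z * z') := by group
        _ = (y' * y) * (z' * z) := by rw [a1, a2]
        _ = y' * (y * z') * z := by group
        _ = y' * (z' * y) * z := by rw [a4]
        _ = y' * z' * (y * z) := by group
    · have hnv : ∀ a : Lt tw,
          ((a.1.1 = v ∨ D.Adj v a.1.1) ∧ (a.1.1 = v' ∨ D.Adj v' a.1.1)) →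
          D.Adj v a.1.1 ∧ D.Adj v' a.1.1 := by
        rintro a ⟨ha | ha, hb | hb⟩
        · exact absurd (ha.symm.trans hb) hvv
        · rw [ha] at hb; exact absurd hb.symm hadj
        · rw [hb] at ha; exact absurd ha hadj
        · exact ⟨ha, hb⟩
      obtain ⟨w, hw⟩ : ∃ w : V, ∀ a : Lt tw,
          ((a.1.1 = v ∨ D.Adj v a.1.1) ∧ (a.1.1 = v' ∨ D.Adj v' a.1.1)) → a.1.1 = w := by
        by_cases hex : ∃ b : Lt tw,
            ((b.1.1 = v ∨ D.Adj v b.1.1) ∧ (b.1.1 = v' ∨ D.Adj v' b.1.1))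
        · obtain ⟨b, hb⟩ := hex
          refine ⟨b.1.1, fun a ha => ?_⟩
          by_contra hne
          exact ns v b.1.1 v' a.1.1 hvv (Ne.symm hne) (hnv b hb).1 (hnv b hb).2.symm
            (hnv a ha).2 (hnv a ha).1.symm
        · exact ⟨v, fun a ha => absurd ⟨a, ha⟩ hex⟩
      exact fin24 q (hD V D tw w _ _ (ev_conj' e₂ q) (ev_conj' e₄ q) (Par.mono hw p2)
        (Par.mono hw p4)).1

end Pool.Agent.H56Q
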