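import Pool.Agent.H56Q.Stm

/-!
# Project RQ, piece NZT: no three independent commuting elements when there are no triangles
-/

set_option autoImplicit false
set_option linter.all false

namespace Pool.Agent.H56Q

open Pool.Agent.Helper2GI Pool.Agent.Helper2GI.RA

namespace NZTx

variable {E : Type} {G : RA E}

theorem ev_conj {x : G.W} (hx : Ev x) (h : G.W) : Ev (h⁻¹ * x * h) := by
  intro a
  have h1 := hx a
  rw [map_mul, map_mul, map_inv, h1, mul_one, inv_mul_cancel]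

theorem ev_mul {x y : G.W} (hx : Ev x) (hy : Ev y) : Ev (x * y) := by
  intro a
  rw [map_mul, hx a, hy a, mul_one]

theorem ev_pow {x : G.W} (hx : Ev x) (n : ℕ) : Ev (x ^ n) := fun a => by
  rw [map_pow, hx a, one_pow]

theorem ev_zpow {x : G.W} (hx : Ev x) (n : ℤ) : Ev (x ^ n) := fun a => by
  rw [map_zpow, hx a, one_zpow]

theorem exists_wall {x : G.W} (hx : x ≠ 1) :
    ∃ (g : G.W) (s : E), side x (g * G.g s * g⁻¹) ≠ 0 := by
  obtain ⟨m, hm, rfl⟩ := exists_red x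
  rcases List.eq_nil_or_concat m with rfl | ⟨m', a, rfl⟩
  · exact absurd ev_nil hx
  · refine ⟨G.ev (m'.concat a), a, fun h0 => ?_⟩
    have h1 := (len_mul_g_iff _ a).2 h0
    rw [List.concat_eq_append] at hm h1
    have h2 := len_ev _ hm
    have h3 : G.ev (m' ++ [a]) * G.g a = G.ev m' := by
      rw [ev_append, ev_single, mul_assoc, gg, mul_one]
    rw [h3, h2] at h1
    have h4 := len_ev_le (G := G) m'
    rw [List.length_append, List.length_singleton] at h1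
    omega

theorem conj_zp (h w : G.W) (n : ℤ) : (h⁻¹ * w * h) ^ n = h⁻¹ * w ^ n * h := by
  have h1 := conj_zpow (a := h⁻¹) (b := w) (i := n)
  rwa [inv_inv] at h1

theorem conj_comm (h : G.W) {x y : G.W} (hxy : x * y = y * x) :
    (h⁻¹ * x * h) * (h⁻¹ * y * h) = (h⁻¹ * y * h) * (h⁻¹ * x * h) := by
  calc (h⁻¹ * x * h) * (h⁻¹ * y * h) = h⁻¹ * (x * y) * h := by group
    _ = h⁻¹ * (y * x) * h := by rw [hxy]
    _ = _ := by group

theorem par_pow {Z : E → Prop} {x : G.W} (hx : Par Z x) (n : ℕ) : Par Z (x ^ n) := by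
  induction n with
  | zero => rw [pow_zero]; exact Par.one _
  | succ n ih => rw [pow_succ]; exact ih.mul hx

theorem par_zpow {Z : E → Prop} {x : G.W} (hx : Par Z x) (n : ℤ) : Par Z (x ^ n) := by
  cases n with
  | ofNat n =>
    rw [Int.ofNat_eq_natCast, zpow_natCast]
    exact par_pow hx n
  | negSucc n =>
    rw [zpow_negSucc]
    exact (par_pow hx _).inv

theorem conj_eq_one {h w : G.W} (h1 : h⁻¹ * w * h = 1) : w = 1 := by
  calc w = h * (h⁻¹ * w * h) * h⁻¹ := by group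
    _ = 1 := by rw [h1]; group

theorem rel_conj (h : G.W) {x y z : G.W}
    (H : ∃ a b c : ℤ, (a ≠ 0 ∨ b ≠ 0 ∨ c ≠ 0) ∧
      (h⁻¹ * x * h) ^ a * (h⁻¹ * y * h) ^ b * (h⁻¹ * z * h) ^ c = 1) :
    ∃ a b c : ℤ, (a ≠ 0 ∨ b ≠ 0 ∨ c ≠ 0) ∧ x ^ a * y ^ b * z ^ c = 1 := by
  obtain ⟨a, b, c, h1, h2⟩ := H
  refine ⟨a, b, c, h1, ?_⟩
  apply conj_eq_one (h := h)
  rw [conj_zp, conj_zp, conj_zp] at h2
  rw [← h2]
  group

/-- the case of a straight `x` -/
theorem main (hINT : S_INT) (hCEN : S_CEN) (hSTR : S_STR) (hTR : S_TR) (hTY : S_TY)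
    {V : Type} {D : SimpleGraph V} {tw : V → Prop} (hNT : NT D) (x y z : (TG D tw).W)
    (hs : ∀ n : ℕ, (TG D tw).len (x ^ n) = n * (TG D tw).len x) (hx1 : x ≠ 1)
    (hx : Ev x) (hy : Ev y) (hz : Ev z) (hxy : x * y = y * x) (hxz : x * z = z * x)
    (hyz : y * z = z * y) :
    ∃ a b c : ℤ, (a ≠ 0 ∨ b ≠ 0 ∨ c ≠ 0) ∧ x ^ a * y ^ b * z ^ c = 1 := by
  have cxy : Commute x y := hxy
  have cxz : Commute x z := hxz
  have cyz : Commute y z := hyz
  obtain ⟨g1, s1, ht⟩ := exists_wall hx1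
  obtain ⟨a, b, ha, hab⟩ := hTR _ _ x y _ hs ht hxy
  obtain ⟨a', b', ha', hab'⟩ := hTR _ _ x z _ hs ht hxz
  have hy1 : Ev (y ^ a * x ^ b) := ev_mul (ev_pow hy a) (ev_zpow hx b)
  have hz1 : Ev (z ^ a' * x ^ b') := ev_mul (ev_pow hz a') (ev_zpow hx b')
  have py := (hCEN _ _ g1 (y ^ a * x ^ b) s1 hy1 hab).1
  have pz := (hCEN _ _ g1 (z ^ a' * x ^ b') s1 hz1 hab').1
  by_cases h1 : y ^ a * x ^ b = 1
  · refine ⟨b, (a : ℤ), 0, Or.inr (Or.inl (by exact_mod_cast ha.ne')), ?_⟩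
    rw [zpow_zero, mul_one, zpow_natCast, ← h1]
    exact ((cxy.zpow_left b).pow_right a).eq
  · obtain ⟨h, hY⟩ := hSTR _ _ _ hy1
    set y1 := y ^ a * x ^ b with hy1d
    set z1 := z ^ a' * x ^ b' with hz1d
    have cyz1 : Commute z1 y1 := by
      rw [hy1d, hz1d]
      refine Commute.mul_right ?_ ?_
      · refine Commute.mul_left ?_ ?_
        · exact (cyz.symm.pow_left a').pow_right a
        · exact (cxy.zpow_left b').pow_right a
      · refine Commute.mul_left ?_ ?_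
        · exact (cxz.symm.pow_left a').zpow_right b
        · exact ((Commute.refl x).zpow_left b').zpow_right b
    have hYne : h⁻¹ * y1 * h ≠ 1 := fun h0 => h1 (conj_eq_one h0)
    obtain ⟨g2, s2, ht'⟩ := exists_wall hYne
    have hYe : Ev (h⁻¹ * y1 * h) := ev_conj hy1 h
    have hZe : Ev (h⁻¹ * z1 * h) := ev_conj hz1 h
    obtain ⟨c, d, hc, hcd⟩ := hTR _ _ (h⁻¹ * y1 * h) (h⁻¹ * z1 * h) _ hY ht'
      (conj_comm h cyz1.eq.symm)
    set u := (h⁻¹ * z1 * h) ^ c * (h⁻¹ * y1 * h) ^ d with hu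
    have hue : Ev u := ev_mul (ev_pow hZe c) (ev_zpow hYe d)
    have pu := (hCEN _ _ g2 u s2 hue hcd).1
    -- conjugates into the parabolic subgroup of the neighbours of `s1`
    have hk : ∀ w : (TG D tw).W, (h⁻¹ * g1)⁻¹ * (h⁻¹ * w * h) * (h⁻¹ * g1) = g1⁻¹ * w * g1 := by
      intro w
      group
    have pY : Par (fun e => (TG D tw).adj e s1) ((h⁻¹ * g1)⁻¹ * (h⁻¹ * y1 * h) * (h⁻¹ * g1)) := by
      rw [hk]
      exact py
    have pZ : Par (fun e => (TG D tw).adj e s1) ((h⁻¹ * g1)⁻¹ * (h⁻¹ * z1 * h) * (h⁻¹ * g1)) := by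
      rw [hk]
      exact pz
    have pU : Par (fun e => (TG D tw).adj e s1) ((h⁻¹ * g1)⁻¹ * u * (h⁻¹ * g1)) := by
      have h2 : (h⁻¹ * g1)⁻¹ * u * (h⁻¹ * g1) =
          ((h⁻¹ * g1)⁻¹ * (h⁻¹ * z1 * h) * (h⁻¹ * g1)) ^ c *
          ((h⁻¹ * g1)⁻¹ * (h⁻¹ * y1 * h) * (h⁻¹ * g1)) ^ d := by
        have h3 := conj_zp (h⁻¹ * g1) (h⁻¹ * z1 * h) (c : ℤ)
        rw [zpow_natCast, zpow_natCast] at h3
        rw [conj_zp, h3, hu]
        group
      rw [h2]
      exact (par_pow pZ c).mul (par_zpow pY d)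
    have hs2 : (TG D tw).adj s2 s1 :=
      hTY _ _ (h⁻¹ * y1 * h) _ (h⁻¹ * y1 * h) g2 (h⁻¹ * g1) s2 1
        (fun e => (TG D tw).adj e s1) hY hYe ht' rfl hYe rfl one_ne_zero
        (by rw [zpow_one, zpow_neg, zpow_one]) pY
    obtain ⟨q, _, hq⟩ := hINT _ _ (fun e => (TG D tw).adj e s1) (fun e => (TG D tw).adj e s2)
      (h⁻¹ * g1) g2
    have hqu := hq u pU pu
    have hu1 : u = 1 := by
      obtain ⟨m, hm, hmu⟩ := hqu
      cases m with
      | nil =>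
        rw [ev_nil] at hmu
        exact conj_eq_one hmu.symm
      | cons e m =>
        exfalso
        obtain ⟨h3, h4⟩ := hm e List.mem_cons_self
        have h3' : D.Adj e.1.1 s1.1.1 := h3
        have h4' : D.Adj e.1.1 s2.1.1 := h4
        have h5' : D.Adj s2.1.1 s1.1.1 := hs2
        exact hNT _ _ _ h4' h5' h3'
    have h6 : z1 ^ c * y1 ^ d = 1 := by
      apply conj_eq_one (h := h)
      rw [← hu1, hu]
      have h3 := conj_zp h z1 (c : ℤ)
      rw [zpow_natCast, zpow_natCast] at h3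
      rw [conj_zp, h3]
      group
    refine ⟨b' * c + b * d, a * d, a' * c, Or.inr (Or.inr ?_), ?_⟩
    · have : 0 < a' * c := Nat.mul_pos ha' hc
      exact_mod_cast this.ne'
    · have e1 : z1 ^ c = z ^ ((a' : ℤ) * c) * x ^ (b' * c) := by
        rw [hz1d, ← zpow_natCast (z ^ a' * x ^ b') c, Commute.mul_zpow
          ((cxz.symm.pow_left a').zpow_right b'), ← zpow_natCast z a', ← zpow_mul, ← zpow_mul]
      have e2 : y1 ^ d = y ^ ((a : ℤ) * d) * x ^ (b * d) := by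
        rw [hy1d, Commute.mul_zpow ((cxy.symm.pow_left a).zpow_right b), ← zpow_natCast y a,
          ← zpow_mul, ← zpow_mul]
      rw [e1, e2] at h6
      rw [← h6, zpow_add]
      have k1 : Commute (x ^ (b' * c)) (z ^ ((a' : ℤ) * c)) := (cxz.zpow_left _).zpow_right _
      have k2 : Commute (x ^ (b * d)) (z ^ ((a' : ℤ) * c)) := (cxz.zpow_left _).zpow_right _
      have k3 : Commute (y ^ ((a : ℤ) * d)) (z ^ ((a' : ℤ) * c)) := (cyz.zpow_left _).zpow_right _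
      have k4 : Commute (x ^ (b * d)) (y ^ ((a : ℤ) * d)) := (cxy.zpow_left _).zpow_right _
      calc x ^ (b' * c) * x ^ (b * d) * y ^ ((a : ℤ) * d) * z ^ ((a' : ℤ) * c)
          = (x ^ (b' * c) * x ^ (b * d) * y ^ ((a : ℤ) * d)) * z ^ ((a' : ℤ) * c) := rfl
        _ = z ^ ((a' : ℤ) * c) * (x ^ (b' * c) * x ^ (b * d) * y ^ ((a : ℤ) * d)) :=
          (Commute.mul_left (k1.mul_left k2) k3).eq
        _ = z ^ ((a' : ℤ) * c) * (x ^ (b' * c) * (x ^ (b * d) * y ^ ((a : ℤ) * d))) := by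
          rw [mul_assoc (x ^ (b' * c))]
        _ = z ^ ((a' : ℤ) * c) * x ^ (b' * c) * (y ^ ((a : ℤ) * d) * x ^ (b * d)) := by
          rw [k4.eq, mul_assoc]

end NZTx

open NZTx

theorem t_NZT (hINT : S_INT) (hCEN : S_CEN) (hSTR : S_STR) (hTR : S_TR) (hTY : S_TY) : S_NZT := by
  intro V D tw hNT x y z hx hy hz hxy hxz hyz
  by_cases hx1 : x = 1
  · refine ⟨1, 0, 0, Or.inl one_ne_zero, ?_⟩
    rw [hx1]
    simp
  · obtain ⟨h, hs⟩ := hSTR _ _ x hx
    refine rel_conj h (main hINT hCEN hSTR hTR hTY hNT _ _ _ hs (fun h0 => hx1 (conj_eq_one h0))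
      (ev_conj hx h) (ev_conj hy h) (ev_conj hz h) (conj_comm h hxy) (conj_comm h hxz)
      (conj_comm h hyz))

end Pool.Agent.H56Q
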