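import Pool.Agent.H56Q.Stm

/-! # Project RQ (helper56): piece PEN (helper32) -/

set_option autoImplicit false

namespace Pool.Agent.H56Q

open Pool.Agent.Helper2GI Pool.Agent.Helper2GI.RA

namespace PENp

variable {V : Type} {D : SimpleGraph V} {tw : V → Prop}

/-- the star group normalizes the vertex group -/
theorem norm {v : V} {k : (TG D tw).W} (hk : InS v k) :
    ∀ c : (TG D tw).W, InD v c → InD v (k * c * k⁻¹) := by
  obtain ⟨l, hl, rfl⟩ := hk
  induction l with
  | nil => intro c hc; simpa using hc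
  | cons a l ih =>
    intro c hc
    have h1 := ih (fun b hb => hl b (List.mem_cons_of_mem a hb)) c hc
    rw [ev_cons, mul_inv_rev, g_inv]
    rw [show (TG D tw).g a * (TG D tw).ev l * c * (((TG D tw).ev l)⁻¹ * (TG D tw).g a) =
      (TG D tw).g a * ((TG D tw).ev l * c * ((TG D tw).ev l)⁻¹) * (TG D tw).g a by group]
    rcases hl a List.mem_cons_self with h | h
    · have hg : Par (G := TG D tw) (fun a => a.1.1 = v) ((TG D tw).g a) := Par.gen h
      exact (hg.mul h1).mul hg
    · have hcomm : ∀ d : (TG D tw).W, InD v d → (TG D tw).g a * d = d * (TG D tw).g a := by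
        rintro _ ⟨m, hm, rfl⟩
        induction m with
        | nil => simp
        | cons b m ih2 =>
          have hb : (TG D tw).adj a b := by
            show D.Adj a.1.1 b.1.1
            rw [hm b List.mem_cons_self]
            exact h.symm
          rw [ev_cons, ← mul_assoc, gcomm hb, mul_assoc,
            ih2 (fun c hc => hm c (List.mem_cons_of_mem b hc)), mul_assoc]
      rw [hcomm _ h1, mul_assoc, gg, mul_one]
      exact h1

theorem ev_conj {E : Type} {G : RA E} {x : G.W} (hx : Ev x) (g : G.W) : Ev (g⁻¹ * x * g) := by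
  intro a
  rw [map_mul, map_mul, map_inv, hx a, mul_one, inv_mul_cancel]

end PENp

open PENp in
theorem t_PEN (hW : S_WON) (hA : S_ADJ) (hHel : S_HEL) (hDC : S_DC) : S_PEN := by
  classical
  intro V D tw hNT hNS x hev hcomm hno
  have h5 : ∀ i : ZMod 5, i + 4 + 2 = i + 1 := by decide
  have h5' : ∀ i : ZMod 5, i + 4 + 1 = i := by decide
  have hne : ∀ i, x i ≠ 1 := by
    intro i h
    refine hno i 1 1 one_pos one_pos ?_
    rw [h]
    simp
  have hex : ∀ i, ∃ (g : (TG D tw).W) (v : V), InD v (g⁻¹ * x i * g) := by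
    intro i
    have h1 := hcomm (i + 4)
    rw [h5'] at h1
    have h2 := hno (i + 4)
    rw [h5] at h2
    exact hW V D tw hNT hNS (x i) (x (i + 4)) (x (i + 1)) (hev _) (hev _) (hev _) (hne i) h1.symm
      (hcomm i) h2
  choose g v hgv using hex
  have hadj : ∀ i, D.Adj (v i) (v (i + 1)) ∧
      ∃ q, InS (v i) ((g i)⁻¹ * q) ∧ InS (v (i + 1)) ((g (i + 1))⁻¹ * q) := by
    intro i
    rcases hA V D tw (v i) (v (i + 1)) (g i) (g (i + 1)) (x i) (x (i + 1)) (hev _) (hev _) (hne _)
      (hne _) (hgv i) (hgv (i + 1)) (hcomm i) with ⟨h1, h2⟩ | h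
    · exfalso
      have h3 := hgv (i + 1)
      rw [← h1] at h3
      have h4 := norm h2 _ h3
      have h5 : (g i)⁻¹ * g (i + 1) * ((g (i + 1))⁻¹ * x (i + 1) * g (i + 1)) *
          ((g i)⁻¹ * g (i + 1))⁻¹ = (g i)⁻¹ * x (i + 1) * g i := by group
      rw [h5] at h4
      have hn1 : ∀ j, (g i)⁻¹ * x j * g i ≠ 1 := by
        intro j h
        apply hne j
        have : x j = g i * ((g i)⁻¹ * x j * g i) * (g i)⁻¹ := by group
        rw [this, h]
        group
      obtain ⟨p, q, hp, hq, hpq⟩ := (hDC V D tw (v i) _ _ (ev_conj (hev i) (g i))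
        (ev_conj (hev (i + 1)) (g i)) (hgv i) h4).2 (hn1 i) (hn1 (i + 1))
      have hcz : ∀ (y : (TG D tw).W) (p : ℤ), ((g i)⁻¹ * y * g i) ^ p = (g i)⁻¹ * y ^ p * g i := by
        intro y p
        have := conj_zpow (a := (g i)⁻¹) (b := y) (i := p)
        rw [inv_inv] at this
        exact this
      rw [hcz, hcz] at hpq
      have hpq' : x i ^ p = x (i + 1) ^ q := mul_left_cancel (mul_right_cancel hpq)
      have hc1 : Commute (x (i + 1)) (x (i + 2)) := by
        have := hcomm (i + 1)
        rw [show i + 1 + 1 = i + 2 by ring] at this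
        exact this
      have hc2 : Commute (x i ^ p) (x (i + 2)) := by
        rw [hpq']
        exact hc1.zpow_left q
      have hc3 : Commute (x i ^ p.natAbs) (x (i + 2)) := by
        rcases Int.natAbs_eq p with h | h
        · rw [h, zpow_natCast] at hc2
          exact hc2
        · rw [h, zpow_neg, zpow_natCast] at hc2
          exact (Commute.inv_left_iff).1 hc2
      refine hno i p.natAbs 1 (Int.natAbs_pos.2 hp) one_pos ?_
      rw [pow_one]
      exact hc3
    · exact h
  obtain ⟨q, hq⟩ := hHel V D tw hNT hNS ⟨v, fun i => (hadj i).1⟩ g (fun i => (hadj i).2)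
  refine ⟨q, ⟨v, fun i => (hadj i).1⟩, fun i => ?_⟩
  have h1 := norm (hq i).inv _ (hgv i)
  rwa [show ((g i)⁻¹ * q)⁻¹ * ((g i)⁻¹ * x i * g i) * (((g i)⁻¹ * q)⁻¹)⁻¹ = q⁻¹ * x i * q by group] at h1

end Pool.Agent.H56Q
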