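import Pool.Agent.H56Q.Stm

/-!
# Project RQ, piece PGR: the pentagon with pendant vertices
-/

set_option autoImplicit false

namespace Pool.Agent.H56Q

open Pool.Agent.Helper2GI Pool.Agent.Helper2GI.RA

namespace PGR

instance : DecidableRel Pen.Adj := fun p q => by
  unfold Pen
  infer_instance

theorem nt : NT Pen := by
  unfold NT
  decide +kernel

theorem ns : NS Pen := by
  unfold NS
  decide +kernel

/-- the steps -/
def f (s : Bool) : ZMod 5 := cond s (-1) 1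

theorem dec : ∀ s0 s1 s2 s3 s4 : Bool, f s0 + f s1 + f s2 + f s3 + f s4 = 0 →
    s1 = s0 ∧ s2 = s0 ∧ s3 = s0 ∧ s4 = s0 := by
  decide

theorem cyc_all (σ : Wk Pen) (i : ZMod 5) : cyc (σ.1 i) := by
  show (σ.1 i).2 = false
  by_contra h
  have ht : (σ.1 i).2 = true := by simpa using h
  have h1 : σ.1 (i + 1) = ((σ.1 i).1, false) := by
    rcases σ.2 i with ⟨h2, _⟩ | ⟨h2, h3⟩
    · rw [ht] at h2; cases h2
    · rw [ht] at h3
      refine Prod.ext h2.symm ?_
      show (σ.1 (i + 1)).2 = false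
      simpa using h3.symm
  have h5 : i + 4 + 1 = i := by
    have : (5 : ZMod 5) = 0 := by decide
    linear_combination this
  have h6 : σ.1 (i + 4) = ((σ.1 i).1, false) := by
    have h7 := σ.2 (i + 4)
    rw [h5] at h7
    rcases h7 with ⟨_, h2, _⟩ | ⟨h2, h3⟩
    · rw [ht] at h2; cases h2
    · rw [ht] at h3
      refine Prod.ext h2 ?_
      show (σ.1 (i + 4)).2 = false
      simpa using h3
  have h7 := σ.2 (i + 1)
  have h8 := σ.2 (i + 1 + 1)
  have h9 := σ.2 (i + 1 + 1 + 1)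
  have h10 : i + 1 + 1 + 1 + 1 = i + 4 := by ring
  rw [h10, h6, ← h1] at h9
  exact nt _ _ _ h7 h8 h9.symm

theorem form (σ : Wk Pen) : ∃ e : ZMod 5, (e = 1 ∨ e = -1) ∧
    ∀ i, σ.1 i = ((σ.1 0).1 + e * i, false) := by
  have hs : ∀ i, (σ.1 (i + 1)).1 = (σ.1 i).1 + 1 ∨ (σ.1 i).1 = (σ.1 (i + 1)).1 + 1 := by
    intro i
    rcases σ.2 i with ⟨_, _, h⟩ | ⟨_, h⟩
    · exact h
    · exact absurd ((cyc_all σ i).trans (cyc_all σ (i + 1)).symm) h
  have h0 := hs 0
  have h1 := hs 1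
  have h2 := hs 2
  have h3 := hs 3
  have h4 := hs 4
  have e0 : (0 : ZMod 5) + 1 = 1 := by decide
  have e1 : (1 : ZMod 5) + 1 = 2 := by decide
  have e2 : (2 : ZMod 5) + 1 = 3 := by decide
  have e3 : (3 : ZMod 5) + 1 = 4 := by decide
  have e4 : (4 : ZMod 5) + 1 = 0 := by decide
  rw [e0] at h0
  rw [e1] at h1
  rw [e2] at h2
  rw [e3] at h3
  rw [e4] at h4
  have hall : ∀ e : ZMod 5, (σ.1 1).1 = (σ.1 0).1 + e * 1 → (σ.1 2).1 = (σ.1 0).1 + e * 2 →
      (σ.1 3).1 = (σ.1 0).1 + e * 3 → (σ.1 4).1 = (σ.1 0).1 + e * 4 →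
      ∀ i, σ.1 i = ((σ.1 0).1 + e * i, false) := by
    intro e a1 a2 a3 a4 i
    refine Prod.ext ?_ (cyc_all σ i)
    show (σ.1 i).1 = (σ.1 0).1 + e * i
    have hi : i = 0 ∨ i = 1 ∨ i = 2 ∨ i = 3 ∨ i = 4 := by
      revert i
      decide
    rcases hi with rfl | rfl | rfl | rfl | rfl
    · rw [mul_zero, add_zero]
    · exact a1
    · exact a2
    · exact a3
    · exact a4
  have hf : ∀ x y : ZMod 5, (y = x + 1 ∨ x = y + 1) → ∃ s, y = x + f s := by
    rintro x y (h | h)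
    · exact ⟨false, h⟩
    · refine ⟨true, ?_⟩
      show y = x + -1
      rw [h]
      ring
  obtain ⟨s0, b0⟩ := hf _ _ h0
  obtain ⟨s1, b1⟩ := hf _ _ h1
  obtain ⟨s2, b2⟩ := hf _ _ h2
  obtain ⟨s3, b3⟩ := hf _ _ h3
  obtain ⟨s4, b4⟩ := hf _ _ h4
  have hsum : f s0 + f s1 + f s2 + f s3 + f s4 = 0 := by
    linear_combination -b0 - b1 - b2 - b3 - b4
  obtain ⟨q1, q2, q3, q4⟩ := dec _ _ _ _ _ hsum
  rw [q1] at b1
  rw [q2] at b2
  rw [q3] at b3
  refine ⟨f s0, ?_, hall _ ?_ ?_ ?_ ?_⟩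
  · cases s0
    · exact Or.inl rfl
    · exact Or.inr rfl
  · linear_combination b0
  · linear_combination b0 + b1
  · linear_combination b0 + b1 + b2
  · linear_combination b0 + b1 + b2 + b3

end PGR

theorem t_PGR : S_PGR := by
  refine ⟨PGR.nt, PGR.ns, PGR.cyc_all, fun σ c => ?_, fun σ σ' h => ?_,
    ⟨⟨fun i => (i, false), fun i => Or.inl ⟨rfl, rfl, Or.inl rfl⟩⟩⟩⟩
  · obtain ⟨e, he, h⟩ := PGR.form σ
    refine ⟨e * (c - (σ.1 0).1), ?_⟩
    rw [h]
    have h1 : e * e = 1 := by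
      rcases he with rfl | rfl
      · exact mul_one 1
      · ring
    refine Prod.ext ?_ rfl
    show (σ.1 0).1 + e * (e * (c - (σ.1 0).1)) = c
    linear_combination (c - (σ.1 0).1) * h1
  · obtain ⟨e, he, h1⟩ := PGR.form σ
    obtain ⟨e', he', h2⟩ := PGR.form σ'
    by_cases hee : e' = e
    · left
      refine Subtype.ext (funext fun i => ?_)
      rw [h1, h2, h, hee]
    · right
      have h3 : e' = -e := by
        rcases he with rfl | rfl <;> rcases he' with rfl | rfl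
        · exact absurd rfl hee
        · rfl
        · ring
        · exact absurd rfl hee
      refine Subtype.ext (funext fun i => ?_)
      show σ'.1 i = σ.1 (-i)
      rw [h1, h2, h, h3]
      refine Prod.ext ?_ rfl
      show (σ'.1 0).1 + -e * i = (σ'.1 0).1 + e * -i
      ring

end Pool.Agent.H56Q
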