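import Pool.Agent.H56Q.Stm

/-!
# Project RQ (helper56), piece PRE (helper3)
-/

set_option autoImplicit false

namespace Pool.Agent.H56Q

open Pool.Agent.Helper2GI Pool.Agent.Helper2GI.RA

theorem t_PRE : S_PRE := by
  intro n Γ G h
  obtain ⟨f, hf⟩ : ∃ f : RCF Γ →* G.W, ∀ a, f (PresentedGroup.of a) = G.g a := by
    refine ⟨PresentedGroup.toGroup (f := fun a => G.g a) ?_, fun a => ?_⟩
    · rintro r (⟨a, rfl⟩ | ⟨a, b, hab, rfl⟩)
      · rw [map_mul, FreeGroup.lift_apply_of, gg]
      · have h1 : G.g a * G.g b = G.g b * G.g a := gcomm ((h a b).2 hab)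
        rw [map_pow, map_mul, FreeGroup.lift_apply_of, FreeGroup.lift_apply_of, pow_two]
        calc G.g a * G.g b * (G.g a * G.g b) = G.g a * G.g b * (G.g b * G.g a) := by rw [← h1]
          _ = G.g a * (G.g b * G.g b) * G.g a := by group
          _ = 1 := by rw [gg, mul_one, gg]
    · exact PresentedGroup.toGroup.of _
  have hsq : ∀ a, (PresentedGroup.of a : RCF Γ) * PresentedGroup.of a = 1 := by
    intro a
    have h1 := PresentedGroup.one_of_mem (rels := {r : FreeGroup (Fin n) |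
      (∃ a, r = FreeGroup.of a * FreeGroup.of a) ∨
      ∃ a b, Γ.Adj a b ∧ r = (FreeGroup.of a * FreeGroup.of b) ^ 2})
      (x := FreeGroup.of a * FreeGroup.of a) (Or.inl ⟨a, rfl⟩)
    rw [map_mul] at h1
    exact h1
  have hcm : ∀ a b, Γ.Adj a b → (PresentedGroup.of a : RCF Γ) * PresentedGroup.of b =
      PresentedGroup.of b * PresentedGroup.of a := by
    intro a b hab
    have h1 := PresentedGroup.one_of_mem (rels := {r : FreeGroup (Fin n) |
      (∃ a, r = FreeGroup.of a * FreeGroup.of a) ∨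
      ∃ a b, Γ.Adj a b ∧ r = (FreeGroup.of a * FreeGroup.of b) ^ 2})
      (x := (FreeGroup.of a * FreeGroup.of b) ^ 2) (Or.inr ⟨a, b, hab, rfl⟩)
    rw [map_pow, map_mul, pow_two] at h1
    have h2 : (PresentedGroup.of a : RCF Γ) * PresentedGroup.of b *
        (PresentedGroup.of a * PresentedGroup.of b) = 1 := h1
    have h3 := eq_inv_of_mul_eq_one_left h2
    rw [mul_inv_rev, ← eq_inv_of_mul_eq_one_left (hsq a), ← eq_inv_of_mul_eq_one_left (hsq b)] at h3
    exact h3
  obtain ⟨f', hf'⟩ : ∃ f' : G.W →* RCF Γ, ∀ a, f' (G.g a) = PresentedGroup.of a :=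
    ⟨RA.hom (fun a => PresentedGroup.of a) hsq (fun a b hab => hcm a b ((h a b).1 hab)),
      fun a => hom_g _ _ _ a⟩
  have h1 : f'.comp f = MonoidHom.id _ := by
    apply PresentedGroup.ext
    intro a
    rw [MonoidHom.comp_apply, hf, hf', MonoidHom.id_apply]
  have h2 : ∀ x, f (f' x) = x := fun x => RA.ind (P := fun x => f (f' x) = x)
    (by rw [map_one, map_one])
    (fun a x hx => by rw [map_mul, map_mul, hf', hf, hx]) x
  exact ⟨⟨⟨f, f', fun x => DFunLike.congr_fun h1 x, h2⟩, f.map_mul⟩, hf⟩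

end Pool.Agent.H56Q
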