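import Pool.Agent.H56Q.Stm

/-!
# Project RQ, piece QIA: a bijection between the doubled Coxeter group and the Artin group
-/

set_option autoImplicit false

namespace Pool.Agent.H56Q

open Pool.Agent.Helper2GI Pool.Agent.Helper2GI.RA

namespace QIA

variable {m : ℕ} (Λ : SimpleGraph (Fin m))

/-- the state -/
abbrev St (m : ℕ) : Type := Fin m → Bool

/-- change the state at `v` -/
def fl (v : Fin m) (η : St m) : St m := Function.update η v (!η v)

theorem fl_same (v : Fin m) (η : St m) : fl v η v = !η v := Function.update_self _ _ _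

theorem fl_ne {v w : Fin m} (h : w ≠ v) (η : St m) : fl v η w = η w :=
  Function.update_of_ne h _ _

theorem fl_fl (v : Fin m) (η : St m) : fl v (fl v η) = η := by
  funext w
  by_cases h : w = v
  · subst h; rw [fl_same, fl_same, Bool.not_not]
  · rw [fl_ne h, fl_ne h]

theorem fl_comm {v w : Fin m} (h : v ≠ w) (η : St m) : fl v (fl w η) = fl w (fl v η) := by
  funext u
  by_cases h1 : u = v
  · subst h1
    rw [fl_same, fl_ne h, fl_ne h, fl_same]
  · by_cases h2 : u = w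
    · subst h2
      rw [fl_ne h1, fl_same, fl_same, fl_ne h1]
    · rw [fl_ne h1, fl_ne h2, fl_ne h2, fl_ne h1]

/-- the generators and their inverses -/
noncomputable def tb (v : Fin m) (b : Bool) : RAF Λ :=
  cond b (PresentedGroup.of v)⁻¹ (PresentedGroup.of v)

theorem tb_mul (v : Fin m) (b : Bool) : tb Λ v b * tb Λ v (!b) = 1 := by
  cases b
  · exact mul_inv_cancel _
  · exact inv_mul_cancel _

theorem of_comm {v w : Fin m} (h : Λ.Adj v w) :
    Commute (PresentedGroup.of v : RAF Λ) (PresentedGroup.of w) := by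
  have h1 : (PresentedGroup.of v : RAF Λ) * PresentedGroup.of w * (PresentedGroup.of v)⁻¹ *
      (PresentedGroup.of w)⁻¹ = 1 :=
    PresentedGroup.one_of_mem (x := FreeGroup.of v * FreeGroup.of w * (FreeGroup.of v)⁻¹ *
      (FreeGroup.of w)⁻¹) ⟨v, w, h, rfl⟩
  rw [mul_inv_eq_one, mul_inv_eq_iff_eq_mul] at h1
  exact h1

theorem tb_comm {v w : Fin m} (h : Λ.Adj v w) (b c : Bool) :
    Commute (tb Λ v b) (tb Λ w c) := by
  have h1 := of_comm Λ h
  cases b <;> cases c
  · exact h1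
  · exact h1.inv_right
  · exact h1.inv_left
  · exact h1.inv_inv

/-- letters -/
def mk (v : Fin m) (b : Bool) : Lt (fun _ : Fin m => True) := ⟨(v, b), fun _ => trivial⟩

theorem mk_eta (s : Lt (fun _ : Fin m => True)) : mk s.1.1 s.1.2 = s := rfl

/-- the action of a letter on the Artin side -/
noncomputable def sK (s : Lt (fun _ : Fin m => True)) : Equiv.Perm (RAF Λ × St m) :=
  Function.Involutive.toPerm
    (fun p => (p.1 * tb Λ s.1.1 (xor s.1.2 (p.2 s.1.1)), fl s.1.1 p.2)) (by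
      intro p
      refine Prod.ext ?_ (fl_fl _ _)
      show p.1 * tb Λ s.1.1 (xor s.1.2 (p.2 s.1.1)) *
        tb Λ s.1.1 (xor s.1.2 (fl s.1.1 p.2 s.1.1)) = p.1
      rw [fl_same, Bool.xor_not, mul_assoc, tb_mul, mul_one])

theorem sK_apply (s : Lt (fun _ : Fin m => True)) (p : RAF Λ × St m) :
    sK Λ s p = (p.1 * tb Λ s.1.1 (xor s.1.2 (p.2 s.1.1)), fl s.1.1 p.2) := rfl

/-- the right action of the Coxeter group -/
noncomputable def aK : (TT Λ).W →* (Equiv.Perm (RAF Λ × St m))ᵐᵒᵖ :=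
  RA.hom (fun s => MulOpposite.op (sK Λ s)) (fun s => by
    rw [← MulOpposite.op_mul]
    refine congrArg _ (Equiv.ext fun p => ?_)
    exact Function.Involutive.toPerm_involutive _ p) (fun s t h => by
    rw [← MulOpposite.op_mul, ← MulOpposite.op_mul]
    refine congrArg _ (Equiv.ext fun p => ?_)
    have h1 : Λ.Adj s.1.1 t.1.1 := h
    have hne : s.1.1 ≠ t.1.1 := h1.ne
    rw [Equiv.Perm.mul_apply, Equiv.Perm.mul_apply, sK_apply, sK_apply, sK_apply, sK_apply]
    refine Prod.ext ?_ (fl_comm hne.symm _)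
    simp only
    rw [fl_ne hne.symm, fl_ne hne, mul_assoc, mul_assoc, (tb_comm Λ h1 _ _).eq])

/-- the value of the action -/
noncomputable def fK (x : (TT Λ).W) (p : RAF Λ × St m) : RAF Λ × St m := (aK Λ x).unop p

theorem fK_one (p : RAF Λ × St m) : fK Λ 1 p = p := by
  unfold fK
  rw [map_one]; rfl

theorem fK_mul (x : (TT Λ).W) (s : Lt (fun _ : Fin m => True)) (p : RAF Λ × St m) :
    fK Λ (x * (TT Λ).g s) p = sK Λ s (fK Λ x p) := by
  unfold fK
  rw [map_mul]
  have h : aK Λ ((TT Λ).g s) = MulOpposite.op (sK Λ s) := hom_g _ _ _ _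
  rw [h]
  rfl

/-- the action of a generator on the Coxeter side -/
noncomputable def sA (v : Fin m) : Equiv.Perm ((TT Λ).W × St m) where
  toFun p := (p.1 * (TT Λ).g (mk v (p.2 v)), fl v p.2)
  invFun p := (p.1 * (TT Λ).g (mk v (!p.2 v)), fl v p.2)
  left_inv p := by
    refine Prod.ext ?_ (fl_fl _ _)
    show p.1 * (TT Λ).g (mk v (p.2 v)) * (TT Λ).g (mk v (!fl v p.2 v)) = p.1
    rw [fl_same, Bool.not_not, mul_assoc, gg, mul_one]
  right_inv p := by
    refine Prod.ext ?_ (fl_fl _ _)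
    show p.1 * (TT Λ).g (mk v (!p.2 v)) * (TT Λ).g (mk v (fl v p.2 v)) = p.1
    rw [fl_same, mul_assoc, gg, mul_one]

theorem sA_apply (v : Fin m) (p : (TT Λ).W × St m) :
    sA Λ v p = (p.1 * (TT Λ).g (mk v (p.2 v)), fl v p.2) := rfl

theorem sA_inv (v : Fin m) (p : (TT Λ).W × St m) :
    (sA Λ v)⁻¹ p = (p.1 * (TT Λ).g (mk v (!p.2 v)), fl v p.2) := rfl

theorem sA_comm {v w : Fin m} (h : Λ.Adj v w) : sA Λ v * sA Λ w = sA Λ w * sA Λ v := by
  refine Equiv.ext fun p => ?_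
  rw [Equiv.Perm.mul_apply, Equiv.Perm.mul_apply, sA_apply, sA_apply, sA_apply, sA_apply]
  refine Prod.ext ?_ (fl_comm h.ne _)
  simp only
  have hc : ∀ b c, (TT Λ).g (mk v b) * (TT Λ).g (mk w c) = (TT Λ).g (mk w c) * (TT Λ).g (mk v b) :=
    fun b c => gcomm (G := TT Λ) (show Λ.Adj v w from h)
  rw [fl_ne h.ne, fl_ne h.ne.symm, mul_assoc, mul_assoc, hc]

/-- the right action of the Artin group -/
noncomputable def aA : RAF Λ →* (Equiv.Perm ((TT Λ).W × St m))ᵐᵒᵖ :=
  PresentedGroup.toGroup (f := fun v => MulOpposite.op (sA Λ v)) (by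
    rintro r ⟨v, w, h, rfl⟩
    simp only [map_mul, map_inv, FreeGroup.lift_apply_of]
    rw [mul_inv_eq_one, mul_inv_eq_iff_eq_mul, ← MulOpposite.op_mul, ← MulOpposite.op_mul,
      sA_comm Λ h])

/-- the value of the action -/
noncomputable def fA (a : RAF Λ) (p : (TT Λ).W × St m) : (TT Λ).W × St m := (aA Λ a).unop p

theorem fA_one (p : (TT Λ).W × St m) : fA Λ 1 p = p := by
  unfold fA
  rw [map_one]; rfl

theorem fA_mul (a : RAF Λ) (v : Fin m) (b : Bool) (p : (TT Λ).W × St m) :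
    fA Λ (a * tb Λ v b) p =
      ((fA Λ a p).1 * (TT Λ).g (mk v (xor b ((fA Λ a p).2 v))), fl v (fA Λ a p).2) := by
  unfold fA
  rw [map_mul]
  have h : aA Λ (PresentedGroup.of v) = MulOpposite.op (sA Λ v) := PresentedGroup.toGroup.of _
  cases b
  · show (aA Λ a * aA Λ (PresentedGroup.of v)).unop p = _
    rw [h, Bool.false_xor]
    rfl
  · show (aA Λ a * aA Λ (PresentedGroup.of v)⁻¹).unop p = _
    rw [map_inv, h, Bool.true_xor]
    rfl

/-- right induction -/
theorem indR {Q : (TT Λ).W → Prop} (h1 : Q 1) (h2 : ∀ x s, Q x → Q (x * (TT Λ).g s))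
    (x : (TT Λ).W) : Q x := by
  have h : ∀ y, Q y → Q (y * x) := by
    refine ind (P := fun x => ∀ y, Q y → Q (y * x)) ?_ ?_ x
    · intro y hy
      rwa [mul_one]
    · intro a x hx y hy
      rw [← mul_assoc]
      exact hx _ (h2 _ _ hy)
  have h3 := h 1 h1
  rwa [one_mul] at h3

/-- the base point -/
def z0 : St m := fun _ => false

/-- the map -/
noncomputable def io (x : (TT Λ).W) : RAF Λ := (fK Λ x (1, z0)).1

theorem io_mul (x : (TT Λ).W) (s : Lt (fun _ : Fin m => True)) :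
    io Λ (x * (TT Λ).g s) = io Λ x * tb Λ s.1.1 (xor s.1.2 ((fK Λ x (1, z0)).2 s.1.1)) := by
  unfold io
  rw [fK_mul, sK_apply]

theorem key (x : (TT Λ).W) : fA Λ (io Λ x) (1, z0) = (x, (fK Λ x (1, z0)).2) := by
  refine indR Λ (Q := fun x => fA Λ (io Λ x) (1, z0) = (x, (fK Λ x (1, z0)).2)) ?_ ?_ x
  · show fA Λ (io Λ 1) (1, z0) = (1, (fK Λ 1 (1, z0)).2)
    unfold io
    rw [fK_one, fA_one]
  · intro x s hx
    show fA Λ (io Λ (x * (TT Λ).g s)) (1, z0) = (x * (TT Λ).g s, (fK Λ (x * (TT Λ).g s) (1, z0)).2)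
    rw [io_mul, fA_mul, hx, fK_mul, sK_apply]
    simp only
    have h1 : xor (xor s.1.2 ((fK Λ x (1, z0)).2 s.1.1)) ((fK Λ x (1, z0)).2 s.1.1) = s.1.2 := by
      rw [Bool.xor_assoc, Bool.xor_self, Bool.xor_false]
    rw [h1, mk_eta]

theorem io_inj : Function.Injective (io Λ) := by
  intro x y h
  have h1 := key Λ x
  rw [h, key Λ y] at h1
  exact (Prod.ext_iff.1 h1).1.symm

theorem io_surj : Function.Surjective (io Λ) := by
  intro a
  have step : ∀ (a : RAF Λ) (v : Fin m) (b : Bool), (∃ x, io Λ x = a) →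
      ∃ x, io Λ x = a * tb Λ v b := by
    rintro a v b ⟨x, rfl⟩
    refine ⟨x * (TT Λ).g (mk v (xor b ((fK Λ x (1, z0)).2 v))), ?_⟩
    rw [io_mul]
    show io Λ x * tb Λ v (xor (xor b ((fK Λ x (1, z0)).2 v)) ((fK Λ x (1, z0)).2 v)) = _
    rw [Bool.xor_assoc, Bool.xor_self, Bool.xor_false]
  have ha : a ∈ Subgroup.closure (Set.range (PresentedGroup.of (rels := {r : FreeGroup (Fin m) |
      ∃ a b, Λ.Adj a b ∧
        r = FreeGroup.of a * FreeGroup.of b * (FreeGroup.of a)⁻¹ * (FreeGroup.of b)⁻¹}))) := by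
    rw [PresentedGroup.closure_range_of]
    trivial
  refine Subgroup.closure_induction_right (p := fun a _ => ∃ x, io Λ x = a) ?_ ?_ ?_ ha
  · refine ⟨1, ?_⟩
    unfold io
    rw [fK_one]
  · rintro x hx _ ⟨v, rfl⟩ h
    exact step x v false h
  · rintro x hx _ ⟨v, rfl⟩ h
    exact step x v true h

end QIA

theorem t_QIA : S_QIA := by
  intro m Λ
  refine ⟨Equiv.ofBijective (QIA.io Λ) ⟨QIA.io_inj Λ, QIA.io_surj Λ⟩, fun x s => ?_, fun x v => ?_⟩
  · show QIA.io Λ (x * (TT Λ).g s) = QIA.io Λ x * _ ∨ QIA.io Λ (x * (TT Λ).g s) = QIA.io Λ x * _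
    rw [QIA.io_mul]
    cases xor s.1.2 ((QIA.fK Λ x (1, QIA.z0)).2 s.1.1)
    · exact Or.inl rfl
    · exact Or.inr rfl
  · have h : ∀ b : Bool, ∃ s, QIA.io Λ (x * (TT Λ).g s) = QIA.io Λ x * QIA.tb Λ v b := by
      intro b
      refine ⟨QIA.mk v (xor b ((QIA.fK Λ x (1, QIA.z0)).2 v)), ?_⟩
      rw [QIA.io_mul]
      show QIA.io Λ x * QIA.tb Λ v (xor (xor b ((QIA.fK Λ x (1, QIA.z0)).2 v))
        ((QIA.fK Λ x (1, QIA.z0)).2 v)) = _
      rw [Bool.xor_assoc, Bool.xor_self, Bool.xor_false]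
    exact ⟨h false, h true⟩

end Pool.Agent.H56Q
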