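import Pool.Agent.H56Q.Stm

/-!
# Project RQ, piece QIW (helper41): the quasi-isometry
-/

set_option autoImplicit false

namespace Pool.Agent.H56Q

open Pool.Agent.Helper2GI Pool.Agent.Helper2GI.RA

namespace QIW

/-- relabelling of the generators of a free product of groups of order two -/
noncomputable def rel {Y Y' : Type} (e : Y → Y') : (FR Y).W →* (FR Y').W :=
  hom (fun y => (FR Y').g (e y)) (fun y => gg (e y)) (fun _ _ h => h.elim)

lemma rel_g {Y Y' : Type} (e : Y → Y') (y : Y) : rel e ((FR Y).g y) = (FR Y').g (e y) :=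
  hom_g _ _ _ y

lemma rel_rel {Y Y' : Type} (e : Y ≃ Y') (x : (FR Y).W) : rel e.symm (rel e x) = x := by
  induction x using ind with
  | h1 => simp
  | h2 a x ih =>
    rw [map_mul, map_mul, ih, rel_g, rel_g, Equiv.symm_apply_apply]

/-- the relabelling as a bijection -/
noncomputable def relE {Y Y' : Type} (e : Y ≃ Y') : (FR Y).W ≃ (FR Y').W where
  toFun := rel e
  invFun := rel e.symm
  left_inv := rel_rel e
  right_inv := fun x => by
    have := rel_rel e.symm x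
    simpa using this

lemma comm_D {j : ZMod 5} {a : ZMod 5 × Bool} (ha : a.1 = j + 1 ∨ j = a.1 + 1) {d : KR.W}
    (hd : d ∈ DK j) : KR.g a * d = d * KR.g a := by
  unfold DK at hd
  induction hd using Subgroup.closure_induction with
  | mem x hx =>
    have hadj : ∀ b : Bool, KR.adj a (j, b) := fun b => by
      show j = a.1 + 1 ∨ a.1 = j + 1
      exact ha.symm
    simp only [Set.mem_insert_iff, Set.mem_singleton_iff] at hx
    rcases hx with rfl | rfl
    · exact gcomm (hadj false)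
    · exact gcomm (hadj true)
  | one => simp
  | mul x y _ _ hx hy => rw [← mul_assoc, hx, mul_assoc, hy, mul_assoc]
  | inv x _ hx =>
    have h1 : x⁻¹ * (KR.g a * x) * x⁻¹ = x⁻¹ * (x * KR.g a) * x⁻¹ := by rw [hx]
    rw [show x⁻¹ * (KR.g a * x) * x⁻¹ = x⁻¹ * KR.g a by group,
      show x⁻¹ * (x * KR.g a) * x⁻¹ = KR.g a * x⁻¹ by group] at h1
    exact h1.symm

end QIW

open QIW in
theorem t_QIW (hB : S_BET) (hS : S_SEM) : S_QIW := by
  choose β hβ using hB
  obtain ⟨Ψ₁, a1, a2⟩ := hS Unit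
  obtain ⟨Ψ₂, b1, b2⟩ := hS Bool
  let e1 : YY Unit ≃ YY Bool :=
    { toFun := fun p => (⟨p.1.1, (β p.1.1 p.1.2).1⟩, (β p.1.1 p.1.2).2)
      invFun := fun p => (⟨p.1.1, (β p.1.1).symm (p.1.2, p.2)⟩, ())
      left_inv := by
        rintro ⟨⟨j, q⟩, u⟩
        simp
      right_inv := by
        rintro ⟨⟨j, q⟩, u⟩
        simp }
  have he1 : ∀ (j : ZMod 5) (q : KR.W ⧸ DK j), e1 (⟨j, q⟩, ()) = (⟨j, (β j q).1⟩, (β j q).2) :=
    fun j q => rfl
  let F : (PG Unit).W ≃ (PG Bool).W :=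
    Ψ₁.symm.trans ((Equiv.prodCongr (relE e1) (Equiv.refl _)).trans Ψ₂)
  have hF : ∀ n k, F (Ψ₁ (n, k)) = Ψ₂ (rel e1 n, k) := by
    intro n k
    show Ψ₂ (Equiv.prodCongr (relE e1) (Equiv.refl _) (Ψ₁.symm (Ψ₁ (n, k)))) = _
    rw [Equiv.symm_apply_apply]
    rfl
  have key : ∀ (n : (FR (YY Unit)).W) (k : KR.W) (j : ZMod 5) (e : KR.W)
      (a : ZMod 5 × Bool) (_ : e = KR.g a), Ψ₁ (n, k) * (PG Unit).ev [Sum.inl a, Sum.inr (j, ()), Sum.inl a] =
        Ψ₁ (n * (FR (YY Unit)).g (⟨j, ((k * e : KR.W) : KR.W ⧸ DK j)⟩, ()), k) := by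
    rintro n k j e a rfl
    rw [ev_cons, ev_cons, ev_single, ← mul_assoc, a1, ← mul_assoc, a2, a1, mul_assoc k, gg, mul_one]
  have key2 : ∀ (n : (FR (YY Bool)).W) (k : KR.W) (j : ZMod 5) (c : Bool) (e : KR.W)
      (a : ZMod 5 × Bool) (_ : e = KR.g a), Ψ₂ (n, k) * (PG Bool).ev [Sum.inl a, Sum.inr (j, c), Sum.inl a] =
        Ψ₂ (n * (FR (YY Bool)).g (⟨j, ((k * e : KR.W) : KR.W ⧸ DK j)⟩, c), k) := by
    rintro n k j c e a rfl
    rw [ev_cons, ev_cons, ev_single, ← mul_assoc, b1, ← mul_assoc, b2, b1, mul_assoc k, gg, mul_one]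
  refine ⟨F, ?_, ?_⟩
  · intro x s
    obtain ⟨⟨n, k⟩, rfl⟩ := Ψ₁.surjective x
    rcases s with a | ⟨j, u⟩
    · refine ⟨[Sum.inl a], by simp, ?_⟩
      rw [a1, hF, hF, ev_single, b1]
    · obtain ⟨e, he, h1⟩ := hβ j k
      have h2 : F (Ψ₁ (n, k) * (PG Unit).g (Sum.inr (j, u))) =
          Ψ₂ (rel e1 n * (FR (YY Bool)).g (⟨j, ((k * e : KR.W) : KR.W ⧸ DK j)⟩, (β j k).2), k) := by
        rw [a2, hF, map_mul, rel_g, he1, h1]
      rcases he with rfl | ⟨a, -, ha⟩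
      · refine ⟨[Sum.inr (j, (β j k).2)], by simp, ?_⟩
        rw [h2, hF, ev_single, b2, mul_one]
      · refine ⟨[Sum.inl a, Sum.inr (j, (β j k).2), Sum.inl a], by simp, ?_⟩
        rw [h2, hF, key2 _ _ _ _ _ _ ha]
  · intro x s
    obtain ⟨⟨n, k⟩, rfl⟩ := Ψ₁.surjective x
    rcases s with a | ⟨j, c⟩
    · refine ⟨[Sum.inl a], by simp, ?_⟩
      rw [ev_single, a1, hF, hF, b1]
    · obtain ⟨k', hk'⟩ := QuotientGroup.mk_surjective ((β j).symm ((k : KR.W ⧸ DK j), c))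
      have h3 : β j (k' : KR.W ⧸ DK j) = ((k : KR.W ⧸ DK j), c) := by
        rw [hk', Equiv.apply_symm_apply]
      obtain ⟨e, he, h1⟩ := hβ j k'
      rw [h3] at h1
      -- `k e D = k' D`
      have h4 : ((k * e : KR.W) : KR.W ⧸ DK j) = (k' : KR.W ⧸ DK j) := by
        have h5 : k⁻¹ * (k' * e) ∈ DK j := QuotientGroup.eq.1 h1
        apply QuotientGroup.eq.2
        rcases he with rfl | ⟨a, ha, rfl⟩
        · simpa using h5
        · have h6 := comm_D ha h5
          have h7 : (k * KR.g a)⁻¹ * k' = k⁻¹ * (k' * KR.g a) := by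
            rw [mul_inv_rev, g_inv]
            calc KR.g a * k⁻¹ * k' = (KR.g a * (k⁻¹ * (k' * KR.g a))) * KR.g a := by
                  rw [show KR.g a * (k⁻¹ * (k' * KR.g a)) * KR.g a =
                    KR.g a * k⁻¹ * k' * (KR.g a * KR.g a) by group, gg, mul_one]
              _ = (k⁻¹ * (k' * KR.g a)) * (KR.g a * KR.g a) := by rw [h6, mul_assoc]
              _ = _ := by rw [gg, mul_one]
          rw [h7]
          exact h5
      have h8 : ∀ (n : (FR (YY Unit)).W), F (Ψ₁ (n * (FR (YY Unit)).g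
          (⟨j, ((k * e : KR.W) : KR.W ⧸ DK j)⟩, ()), k)) = F (Ψ₁ (n, k)) * (PG Bool).g (Sum.inr (j, c)) := by
        intro n
        rw [hF, hF, map_mul, rel_g, he1, h4, h3, b2]
      rcases he with rfl | ⟨a, -, ha⟩
      · refine ⟨[Sum.inr (j, ())], by simp, ?_⟩
        rw [ev_single, a2, ← h8, mul_one]
      · refine ⟨[Sum.inl a, Sum.inr (j, ()), Sum.inl a], by simp, ?_⟩
        rw [key _ _ _ _ _ ha, h8]

end Pool.Agent.H56Q
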