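import Pool.Agent.H56Q.Stm

/-!
# Project RQ (helper56), piece REL (helper3)
-/

set_option autoImplicit false

namespace Pool.Agent.H56Q

open Pool.Agent.Helper2GI Pool.Agent.Helper2GI.RA

theorem t_REL : S_REL := by
  intro E E' G G' e h
  obtain ⟨f, hf⟩ : ∃ f : G.W →* G'.W, ∀ a, f (G.g a) = G'.g (e a) :=
    ⟨RA.hom (fun a => G'.g (e a)) (fun a => gg _) (fun a b hab => gcomm ((h a b).1 hab)),
      fun a => hom_g _ _ _ a⟩
  obtain ⟨f', hf'⟩ : ∃ f' : G'.W →* G.W, ∀ a, f' (G'.g a) = G.g (e.symm a) :=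
    ⟨RA.hom (fun a => G.g (e.symm a)) (fun a => gg _)
      (fun a b hab => gcomm ((h _ _).2 (by rw [e.apply_symm_apply, e.apply_symm_apply]; exact hab))),
      fun a => hom_g _ _ _ a⟩
  have h1 : ∀ x, f' (f x) = x := fun x => RA.ind (P := fun x => f' (f x) = x)
    (by rw [map_one, map_one])
    (fun a x hx => by rw [map_mul, map_mul, hf, hf', hx, e.symm_apply_apply]) x
  have h2 : ∀ x, f (f' x) = x := fun x => RA.ind (P := fun x => f (f' x) = x)
    (by rw [map_one, map_one])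
    (fun a x hx => by rw [map_mul, map_mul, hf', hf, hx, e.apply_symm_apply]) x
  exact ⟨⟨⟨f, f', h1, h2⟩, f.map_mul⟩, hf⟩

end Pool.Agent.H56Q
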