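import Pool.Agent.H56Q.Stm

/-! Project RQ, piece SEM. -/

set_option autoImplicit false

namespace Pool.Agent.H56Q

open Pool.Agent.Helper2GI Pool.Agent.Helper2GI.RA

namespace SEM

theorem hom_eq {E : Type} {G : RA E} {H : Type} [Group H] (f f' : G.W →* H)
    (h : ∀ a, f (G.g a) = f' (G.g a)) : f = f' := by
  refine MonoidHom.ext fun x => ?_
  induction x using ind with
  | h1 => rw [map_one, map_one]
  | h2 a x ih => rw [map_mul, map_mul, h a, ih]

/-- relabelling -/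
noncomputable def rel {Y : Type} (σ : Equiv.Perm Y) : (FR Y).W →* (FR Y).W :=
  hom (fun y => (FR Y).g (σ y)) (fun _ => gg _) (fun _ _ h => h.elim)

theorem rel_g {Y : Type} (σ : Equiv.Perm Y) (y : Y) : rel σ ((FR Y).g y) = (FR Y).g (σ y) := by
  unfold rel
  rw [hom_g]

theorem rel_mul {Y : Type} (σ τ : Equiv.Perm Y) : rel (σ * τ) = (rel σ).comp (rel τ) := by
  apply hom_eq
  intro a
  rw [MonoidHom.comp_apply, rel_g, rel_g, rel_g, Equiv.Perm.mul_apply]

theorem rel_one {Y : Type} : rel (1 : Equiv.Perm Y) = MonoidHom.id _ := by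
  apply hom_eq
  intro a
  rw [rel_g]
  rfl

/-- relabelling as an automorphism -/
noncomputable def relE {Y : Type} (σ : Equiv.Perm Y) : MulAut (FR Y).W :=
  MonoidHom.toMulEquiv (rel σ) (rel σ⁻¹) (by rw [← rel_mul, inv_mul_cancel, rel_one])
    (by rw [← rel_mul, mul_inv_cancel, rel_one])

theorem relE_apply {Y : Type} (σ : Equiv.Perm Y) (x : (FR Y).W) : relE σ x = rel σ x := rfl

/-- the action on the free product -/
noncomputable def act {K : Type} [Group K] {Y : Type} (ρ : K →* Equiv.Perm Y) :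
    K →* MulAut (FR Y).W where
  toFun k := relE (ρ k)
  map_one' := by
    ext x
    rw [relE_apply, map_one, rel_one]
    rfl
  map_mul' k k' := by
    ext x
    rw [relE_apply, map_mul, rel_mul]
    rfl

/-- the action on the index set -/
noncomputable def mv (Q : Type) (k : KR.W) (y : YY Q) : YY Q := (⟨y.1.1, k • y.1.2⟩, y.2)

theorem mv_one (Q : Type) (y : YY Q) : mv Q 1 y = y := by
  obtain ⟨⟨j, x⟩, c⟩ := y
  unfold mv
  simp

theorem mv_mul (Q : Type) (k k' : KR.W) (y : YY Q) : mv Q (k * k') y = mv Q k (mv Q k' y) := by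
  obtain ⟨⟨j, x⟩, c⟩ := y
  unfold mv
  simp only [mul_smul]

/-- the action on the index set, as a homomorphism -/
noncomputable def rho (Q : Type) : KR.W →* Equiv.Perm (YY Q) where
  toFun k :=
    { toFun := mv Q k
      invFun := mv Q k⁻¹
      left_inv := fun y => by rw [← mv_mul, inv_mul_cancel, mv_one]
      right_inv := fun y => by rw [← mv_mul, mul_inv_cancel, mv_one] }
  map_one' := by
    ext1 y
    exact mv_one Q y
  map_mul' k k' := by
    ext1 y
    exact mv_mul Q k k' y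

theorem rho_apply (Q : Type) (k : KR.W) (y : YY Q) : rho Q k y = mv Q k y := rfl

abbrev S (Q : Type) : Type := (FR (YY Q)).W ⋊[act (rho Q)] KR.W

/-- the inclusion of the retract -/
noncomputable def f₂ (Q : Type) : KR.W →* (PG Q).W :=
  hom (fun a => (PG Q).g (Sum.inl a)) (fun _ => gg _) (fun _ _ h => gcomm h)

theorem f₂_g (Q : Type) (a : ZMod 5 × Bool) : f₂ Q (KR.g a) = (PG Q).g (Sum.inl a) := by
  unfold f₂
  rw [hom_g]

theorem f₂_DK (Q : Type) (j : ZMod 5) (c : Q) {d : KR.W} (hd : d ∈ DK j) :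
    f₂ Q d * (PG Q).g (Sum.inr (j, c)) = (PG Q).g (Sum.inr (j, c)) * f₂ Q d := by
  have h1 : DK j ≤ (Subgroup.centralizer {(PG Q).g (Sum.inr (j, c))}).comap (f₂ Q) := by
    unfold DK
    rw [Subgroup.closure_le]
    rintro x hx
    rw [SetLike.mem_coe, Subgroup.mem_comap, Subgroup.mem_centralizer_iff]
    rintro _ rfl
    rcases hx with rfl | rfl
    · rw [f₂_g]
      exact (gcomm (show (PG Q).adj (Sum.inl (j, false)) (Sum.inr (j, c)) from rfl)).symm
    · rw [f₂_g]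
      exact (gcomm (show (PG Q).adj (Sum.inl (j, true)) (Sum.inr (j, c)) from rfl)).symm
  have h2 := h1 hd
  rw [Subgroup.mem_comap, Subgroup.mem_centralizer_iff] at h2
  exact (h2 _ rfl).symm

/-- conjugates of pendant letters -/
noncomputable def cj (Q : Type) (j : ZMod 5) (c : Q) : KR.W ⧸ DK j → (PG Q).W := fun x =>
  Quotient.liftOn' x (fun k => f₂ Q k * (PG Q).g (Sum.inr (j, c)) * (f₂ Q k)⁻¹) (by
    intro k k' h
    rw [QuotientGroup.leftRel_apply] at h
    have h1 := f₂_DK Q j c h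
    have h2 : f₂ Q k' = f₂ Q k * f₂ Q (k⁻¹ * k') := by rw [← map_mul, mul_inv_cancel_left]
    change f₂ Q k * (PG Q).g (Sum.inr (j, c)) * (f₂ Q k)⁻¹ =
      f₂ Q k' * (PG Q).g (Sum.inr (j, c)) * (f₂ Q k')⁻¹
    rw [h2]
    calc f₂ Q k * (PG Q).g (Sum.inr (j, c)) * (f₂ Q k)⁻¹
        = f₂ Q k * ((PG Q).g (Sum.inr (j, c)) * f₂ Q (k⁻¹ * k')) * (f₂ Q (k⁻¹ * k'))⁻¹ *
            (f₂ Q k)⁻¹ := by group
      _ = f₂ Q k * (f₂ Q (k⁻¹ * k') * (PG Q).g (Sum.inr (j, c))) * (f₂ Q (k⁻¹ * k'))⁻¹ *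
            (f₂ Q k)⁻¹ := by rw [h1]
      _ = _ := by group)

theorem cj_mk (Q : Type) (j : ZMod 5) (c : Q) (k : KR.W) :
    cj Q j c (k : KR.W ⧸ DK j) = f₂ Q k * (PG Q).g (Sum.inr (j, c)) * (f₂ Q k)⁻¹ := rfl

/-- the free product in the kernel -/
noncomputable def f₁ (Q : Type) : (FR (YY Q)).W →* (PG Q).W :=
  hom (fun y => cj Q y.1.1 y.2 y.1.2) (by
    rintro ⟨⟨j, x⟩, c⟩
    obtain ⟨k, rfl⟩ := QuotientGroup.mk_surjective x
    change cj Q j c (k : KR.W ⧸ DK j) * cj Q j c (k : KR.W ⧸ DK j) = 1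
    rw [cj_mk]
    calc f₂ Q k * (PG Q).g (Sum.inr (j, c)) * (f₂ Q k)⁻¹ *
          (f₂ Q k * (PG Q).g (Sum.inr (j, c)) * (f₂ Q k)⁻¹)
        = f₂ Q k * ((PG Q).g (Sum.inr (j, c)) * (PG Q).g (Sum.inr (j, c))) * (f₂ Q k)⁻¹ := by group
      _ = 1 := by rw [gg]; group) (fun _ _ h => h.elim)

theorem f₁_g (Q : Type) (j : ZMod 5) (k : KR.W) (c : Q) :
    f₁ Q ((FR (YY Q)).g (⟨j, (k : KR.W ⧸ DK j)⟩, c)) =
      f₂ Q k * (PG Q).g (Sum.inr (j, c)) * (f₂ Q k)⁻¹ := by
  unfold f₁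
  rw [hom_g]
  exact cj_mk Q j c k

theorem compat (Q : Type) (k : KR.W) : (f₁ Q).comp (act (rho Q) k).toMonoidHom =
    (MulAut.conj (f₂ Q k)).toMonoidHom.comp (f₁ Q) := by
  apply hom_eq
  rintro ⟨⟨j, x⟩, c⟩
  obtain ⟨l, rfl⟩ := QuotientGroup.mk_surjective x
  change f₁ Q (rel (rho Q k) ((FR (YY Q)).g (⟨j, (l : KR.W ⧸ DK j)⟩, c))) =
    f₂ Q k * f₁ Q ((FR (YY Q)).g (⟨j, (l : KR.W ⧸ DK j)⟩, c)) * (f₂ Q k)⁻¹
  rw [rel_g, rho_apply]
  change f₁ Q ((FR (YY Q)).g (⟨j, ((k * l : KR.W) : KR.W ⧸ DK j)⟩, c)) = _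
  rw [f₁_g, f₁_g, map_mul]
  group

/-- from the semidirect product -/
noncomputable def hS (Q : Type) : S Q →* (PG Q).W :=
  SemidirectProduct.lift (f₁ Q) (f₂ Q) (compat Q)

/-- pendant generators in the free product -/
noncomputable def y₀ (Q : Type) (p : ZMod 5 × Q) : YY Q := (⟨p.1, ((1 : KR.W) : KR.W ⧸ DK p.1)⟩, p.2)

theorem act_g (Q : Type) (k : KR.W) (y : YY Q) :
    act (rho Q) k ((FR (YY Q)).g y) = (FR (YY Q)).g (mv Q k y) := by
  change rel (rho Q k) ((FR (YY Q)).g y) = _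
  rw [rel_g, rho_apply]

theorem mv_y₀ (Q : Type) (a : ZMod 5 × Bool) (p : ZMod 5 × Q) (h : a.1 = p.1) :
    mv Q (KR.g a) (y₀ Q p) = y₀ Q p := by
  have h1 : KR.g a ∈ DK p.1 := by
    unfold DK
    apply Subgroup.subset_closure
    obtain ⟨i, b⟩ := a
    change i = p.1 at h
    subst h
    cases b
    · exact Or.inl rfl
    · exact Or.inr rfl
  unfold mv y₀
  have h2 : (KR.g a) • ((1 : KR.W) : KR.W ⧸ DK p.1) = ((1 : KR.W) : KR.W ⧸ DK p.1) := by
    rw [MulAction.Quotient.smul_coe, smul_eq_mul, mul_one]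
    rw [QuotientGroup.eq]
    rw [mul_one]
    exact (DK p.1).inv_mem h1
  rw [h2]

theorem comm_inl_inr (Q : Type) (a : ZMod 5 × Bool) (p : ZMod 5 × Q) (h : a.1 = p.1) :
    (SemidirectProduct.inr (KR.g a) : S Q) * SemidirectProduct.inl ((FR (YY Q)).g (y₀ Q p)) =
      SemidirectProduct.inl ((FR (YY Q)).g (y₀ Q p)) * SemidirectProduct.inr (KR.g a) := by
  have h1 : (SemidirectProduct.inl (act (rho Q) (KR.g a) ((FR (YY Q)).g (y₀ Q p))) : S Q) =
      SemidirectProduct.inr (KR.g a) * SemidirectProduct.inl ((FR (YY Q)).g (y₀ Q p)) *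
        SemidirectProduct.inr (KR.g a)⁻¹ := SemidirectProduct.inl_aut _ _
  rw [act_g, mv_y₀ Q a p h] at h1
  conv_rhs => rw [h1, mul_assoc, ← map_mul, inv_mul_cancel, map_one, mul_one]

/-- to the semidirect product -/
noncomputable def f (Q : Type) : (PG Q).W →* S Q :=
  hom (fun s => match s with
    | Sum.inl a => SemidirectProduct.inr (KR.g a)
    | Sum.inr p => SemidirectProduct.inl ((FR (YY Q)).g (y₀ Q p)))
    (by
      rintro (a | p)
      · change (SemidirectProduct.inr (KR.g a) : S Q) * SemidirectProduct.inr (KR.g a) = 1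
        rw [← map_mul, gg, map_one]
      · change (SemidirectProduct.inl ((FR (YY Q)).g (y₀ Q p)) : S Q) *
          SemidirectProduct.inl ((FR (YY Q)).g (y₀ Q p)) = 1
        rw [← map_mul, gg, map_one])
    (by
      rintro (a | p) (a' | p') h
      · change (SemidirectProduct.inr (KR.g a) : S Q) * SemidirectProduct.inr (KR.g a') =
          SemidirectProduct.inr (KR.g a') * SemidirectProduct.inr (KR.g a)
        rw [← map_mul, ← map_mul, gcomm (show KR.adj a a' from h)]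
      · exact comm_inl_inr Q a p' h
      · exact (comm_inl_inr Q a' p (Eq.symm h)).symm
      · exact h.elim)

theorem f_inl (Q : Type) (a : ZMod 5 × Bool) :
    f Q ((PG Q).g (Sum.inl a)) = SemidirectProduct.inr (KR.g a) := by
  unfold f
  rw [hom_g]

theorem f_inr (Q : Type) (p : ZMod 5 × Q) :
    f Q ((PG Q).g (Sum.inr p)) = SemidirectProduct.inl ((FR (YY Q)).g (y₀ Q p)) := by
  unfold f
  rw [hom_g]

theorem hf (Q : Type) (x : (PG Q).W) : hS Q (f Q x) = x := by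
  have : (hS Q).comp (f Q) = MonoidHom.id _ := by
    apply hom_eq
    rintro (a | p)
    · rw [MonoidHom.comp_apply, f_inl]
      unfold hS
      rw [SemidirectProduct.lift_inr, f₂_g]
      rfl
    · rw [MonoidHom.comp_apply, f_inr]
      unfold hS
      rw [SemidirectProduct.lift_inl]
      unfold y₀
      rw [f₁_g, map_one]
      simp
  exact DFunLike.congr_fun this x

theorem ff₂ (Q : Type) (k : KR.W) : f Q (f₂ Q k) = SemidirectProduct.inr k := by
  have : (f Q).comp (f₂ Q) = SemidirectProduct.inr := by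
    apply hom_eq
    intro a
    rw [MonoidHom.comp_apply, f₂_g, f_inl]
  exact DFunLike.congr_fun this k

theorem ff₁ (Q : Type) (n : (FR (YY Q)).W) : f Q (f₁ Q n) = SemidirectProduct.inl n := by
  have : (f Q).comp (f₁ Q) = SemidirectProduct.inl := by
    apply hom_eq
    rintro ⟨⟨j, x⟩, c⟩
    obtain ⟨k, rfl⟩ := QuotientGroup.mk_surjective x
    rw [MonoidHom.comp_apply]
    change f Q (f₁ Q ((FR (YY Q)).g (⟨j, (k : KR.W ⧸ DK j)⟩, c))) =
      SemidirectProduct.inl ((FR (YY Q)).g (⟨j, (k : KR.W ⧸ DK j)⟩, c))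
    rw [f₁_g, map_mul, map_mul, map_inv, ff₂, f_inr, ← map_inv, ← SemidirectProduct.inl_aut, act_g]
    unfold mv y₀
    simp only [MulAction.Quotient.smul_coe, smul_eq_mul, mul_one]
  exact DFunLike.congr_fun this n

end SEM

open SEM in
theorem t_SEM : S_SEM := by
  intro Q
  let Ψ : ((FR (YY Q)).W × KR.W) ≃ (PG Q).W :=
    { toFun := fun p => f₁ Q p.1 * f₂ Q p.2
      invFun := fun x => ((f Q x).left, (f Q x).right)
      left_inv := by
        rintro ⟨n, k⟩
        change ((f Q (f₁ Q n * f₂ Q k)).left, (f Q (f₁ Q n * f₂ Q k)).right) = (n, k)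
        rw [map_mul, ff₁, ff₂]
        simp
      right_inv := by
        intro x
        exact hf Q x }
  refine ⟨Ψ, ?_, ?_⟩
  · intro n k a
    change f₁ Q n * f₂ Q k * (PG Q).g (Sum.inl a) = f₁ Q n * f₂ Q (k * KR.g a)
    rw [map_mul, f₂_g, mul_assoc]
  · intro n k j c
    change f₁ Q n * f₂ Q k * (PG Q).g (Sum.inr (j, c)) =
      f₁ Q (n * (FR (YY Q)).g (⟨j, (k : KR.W ⧸ DK j)⟩, c)) * f₂ Q k
    rw [map_mul, f₁_g]
    group

end Pool.Agent.H56Q
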