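import Pool.Agent.H56Q.Stm

/-! # Project RQ (helper56): piece STR (helper32) -/

set_option autoImplicit false

namespace Pool.Agent.H56Q

open Pool.Agent.Helper2GI Pool.Agent.Helper2GI.RA

namespace STRp

variable {E : Type} {G : RA E}

theorem comm_par {s : E} {y : G.W} (h : Par (fun a => G.adj a s) y) : G.g s * y = y * G.g s := by
  obtain ⟨l, hl, rfl⟩ := h
  induction l with
  | nil => simp
  | cons b l ih =>
    rw [ev_cons, ← mul_assoc, ← gcomm (hl b List.mem_cons_self), mul_assoc,
      ih (fun c hc => hl c (List.mem_cons_of_mem b hc)), mul_assoc]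

theorem par_par {s : E} {y : G.W} (h : Par (fun a => G.adj a s) y) : par s y = 1 := by
  obtain ⟨l, hl, rfl⟩ := h
  induction l with
  | nil => simp
  | cons b l ih =>
    rw [ev_cons, map_mul, ih (fun c hc => hl c (List.mem_cons_of_mem b hc)), mul_one, par_ne]
    rintro rfl
    exact G.irr _ (hl _ List.mem_cons_self)

theorem rd_iff (x : G.W) (s : E) :
    G.len (x * G.g s) < G.len x ↔ side x (x * G.g s * x⁻¹) ≠ 0 := by
  rw [Ne, ← len_mul_g_iff]
  rcases len_mul_g x s with h | h
  · omega
  · omega

theorem rd_comm (x : G.W) {s a : E} (h : G.adj s a) :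
    G.len (x * G.g a * G.g s) < G.len (x * G.g a) ↔ G.len (x * G.g s) < G.len x := by
  classical
  rw [rd_iff, rd_iff]
  have h1 : x * G.g a * G.g s * (x * G.g a)⁻¹ = x * G.g s * x⁻¹ := by
    rw [mul_inv_rev, mul_assoc x, ← gcomm h]
    group
  have h2 : ¬ (x⁻¹ * (x * G.g s * x⁻¹) * x = G.g a) := by
    intro h3
    have h4 : x⁻¹ * (x * G.g s * x⁻¹) * x = G.g s := by group
    rw [h4] at h3
    have := g_inj h3
    subst this
    exact G.irr _ h
  rw [h1, side_mul_g, if_neg h2, add_zero]

theorem d2 (hH : S_HEAD) (m : List E) : G.Red m → ∀ u : G.W,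
    G.len (u * G.ev m) < G.len u + m.length →
    ∃ s, G.len (u * G.g s) < G.len u ∧ G.len (G.g s * G.ev m) < m.length := by
  induction m with
  | nil => intro _ u h; simp at h
  | cons a m ih =>
    intro hr u h
    have hm := len_ev m hr.tail
    have ham := len_ev _ hr
    rw [List.length_cons, ev_cons] at ham
    rw [List.length_cons]
    by_cases ha : G.len (u * G.g a) < G.len u
    · refine ⟨a, ha, ?_⟩
      rw [ev_cons, ← mul_assoc, gg, one_mul, hm]
      omega
    · have ha' : G.len (u * G.g a) = G.len u + 1 := by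
        rcases len_mul_g u a with h | h
        · exact h
        · omega
      rw [List.length_cons, ev_cons, ← mul_assoc] at h
      obtain ⟨s, h1, h2⟩ := ih hr.tail (u * G.g a) (by omega)
      have h3 : G.len (u * G.g a * G.g a) < G.len (u * G.g a) := by
        rw [mul_assoc, gg, mul_one, ha']
        omega
      rcases (hH E G (u * G.g a)).1 s a h1 h3 with rfl | hsa
      · omega
      · refine ⟨s, (rd_comm u hsa).1 h1, ?_⟩
        rw [ev_cons, ← mul_assoc, gcomm hsa, mul_assoc]
        rcases len_g_mul a (G.g s * G.ev m) with h | h <;> omega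

theorem d1 (hH : S_HEAD) (m : List E) (s : E) (u : G.W) : G.Red m →
    G.len (u * G.ev m) = G.len u + m.length → G.len (u * G.ev m * G.g s) < G.len (u * G.ev m) →
    ¬ G.len (G.ev m * G.g s) < G.len (G.ev m) →
    Par (fun a => G.adj a s) (G.ev m) ∧ G.len (u * G.g s) < G.len u := by
  induction m using List.reverseRecOn with
  | nil =>
    intro _ _ h _
    rw [ev_nil, mul_one] at h
    exact ⟨Par.one _, h⟩
  | append_singleton m a ih =>
    intro hr h1 h2 h3
    have hl := len_ev _ hr
    rw [List.length_append, List.length_singleton] at h1 hl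
    rw [ev_append, ev_single] at h1 h2 h3 hl ⊢
    rw [← mul_assoc] at h1 h2
    have e1 := len_ev_le (G := G) m
    have e2 : G.len (G.ev m) = m.length := by
      rcases len_mul_g (G.ev m) a with h | h <;> omega
    have e3 := len_mul_le u (G.ev m)
    have e4 : G.len (u * G.ev m) = G.len u + m.length := by
      rcases len_mul_g (u * G.ev m) a with h | h <;> omega
    have e5 : G.len (u * G.ev m * G.g a * G.g a) < G.len (u * G.ev m * G.g a) := by
      rw [mul_assoc _ (G.g a), gg, mul_one]
      omega
    have hsa : G.adj s a := by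
      rcases (hH E G (u * G.ev m * G.g a)).1 s a h2 e5 with rfl | h
      · exfalso
        apply h3
        rw [mul_assoc _ (G.g s), gg, mul_one]
        omega
      · exact h
    obtain ⟨p1, p2⟩ := ih (red_of_len _ e2) e4 ((rd_comm _ hsa).1 h2)
      (fun h => h3 ((rd_comm _ hsa).2 h))
    exact ⟨p1.mul (Par.gen (G.symm hsa)), p2⟩

end STRp

open STRp in
theorem t_STR (hH : S_HEAD) : S_STR := by
  classical
  intro E G x hx
  obtain ⟨h, hmin⟩ : ∃ h : G.W, ∀ k : G.W, G.len (h⁻¹ * x * h) ≤ G.len (k⁻¹ * x * k) := by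
    have hex : ∃ n, ∃ h : G.W, G.len (h⁻¹ * x * h) = n := ⟨_, 1, rfl⟩
    obtain ⟨h, hh⟩ := Nat.find_spec hex
    refine ⟨h, fun k => ?_⟩
    rw [hh]
    exact Nat.find_min' hex ⟨k, rfl⟩
  refine ⟨h, ?_⟩
  set y := h⁻¹ * x * h with hy
  have hev : Ev y := by
    intro a
    rw [hy, map_mul, map_mul, map_inv, hx a, mul_one, inv_mul_cancel]
  have hconj : ∀ s, G.len y ≤ G.len (G.g s * y * G.g s) := by
    intro s
    have := hmin (h * G.g s)
    rw [show (h * G.g s)⁻¹ * x * (h * G.g s) = G.g s * y * G.g s by
      rw [hy, mul_inv_rev, g_inv]; group] at this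
    exact this
  -- no letter is a right and a left descent
  have c1 : ∀ s, G.len (G.g s * y) < G.len y → ¬ G.len (y * G.g s) < G.len y := by
    intro s h1 h2
    obtain ⟨m, hm, hmz⟩ := exists_red (G.g s * y)
    have hlm := len_ev m hm
    rw [hmz] at hlm
    have e0 : G.g s * (G.g s * y) = y := by rw [← mul_assoc, gg, one_mul]
    have e1 : G.len (G.g s * y) + 1 = G.len y := by
      rcases len_g_mul s y with h | h <;> omega
    have e2 := hconj s
    have hs1 : G.len (G.g s) = 1 := by
      have := len_g_mul s (1 : G.W)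
      rw [mul_one, len_one] at this
      omega
    have h3 := d1 hH m s (G.g s) hm (by rw [hmz, e0, hs1, ← hlm]; omega) (by rw [hmz, e0]; exact h2)
      (by rw [hmz]; omega)
    have h4 := hev s
    rw [← e0, map_mul, ← hmz, par_par h3.1, mul_one] at h4
    exact par_self s h4
  intro n
  induction n using Nat.strong_induction_on with
  | _ n IH =>
    rcases n with _ | _ | n
    · simp [len_one]
    · simp
    · have i1 := IH (n + 1) (by omega)
      have i2 := IH n (by omega)
      by_contra hne
      obtain ⟨m, hm, hmy⟩ := exists_red y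
      have hlm := len_ev m hm
      rw [hmy] at hlm
      have e1 := len_mul_le (y ^ (n + 1)) y
      rw [← pow_succ, i1] at e1
      have e2 : G.len (y ^ (n + 1 + 1)) < (n + 1) * G.len y + G.len y := by
        refine lt_of_le_of_ne e1 ?_
        intro h
        apply hne
        rw [h]
        ring
      obtain ⟨s, h1, h2⟩ := d2 hH m hm (y ^ (n + 1)) (by rw [hmy, ← pow_succ, i1, ← hlm]; exact e2)
      rw [hmy, ← hlm] at h2
      have h3 := c1 s h2
      have h4 := d1 hH m s (y ^ n) hm
        (by rw [hmy, ← pow_succ, i1, i2, ← hlm]; ring)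
        (by rw [hmy, ← pow_succ]; exact h1) (by rw [hmy]; exact h3)
      rw [hmy] at h4
      apply h3
      rw [← comm_par h4.1]
      exact h2

end Pool.Agent.H56Q
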