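import Pool.Agent.H56Q.Stm

/-!
# Piece TF of project RQ
-/

set_option autoImplicit false

namespace Pool.Agent.H56Q

open Pool.Agent.Helper2GI Pool.Agent.Helper2GI.RA

theorem tf_len_zero {E : Type} {G : RA E} {y : G.W} (h : G.len y = 0) : y = 1 := by
  obtain ⟨m, hm, rfl⟩ := exists_red y
  rw [len_ev m hm] at h
  rw [List.length_eq_zero_iff.1 h, ev_nil]

theorem t_TF (hSTR : S_STR) : S_TF := by
  intro E G x n hx hn h1
  obtain ⟨h, hh⟩ := hSTR E G x hx
  have h2 := hh n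
  have h3 : (h⁻¹ * x * h) ^ n = 1 := by
    have h4 : h⁻¹ * x * h = h⁻¹ * x * (h⁻¹)⁻¹ := by rw [inv_inv]
    rw [h4, conj_pow, h1]
    group
  rw [h3, len_one] at h2
  have h4 : G.len (h⁻¹ * x * h) = 0 := by
    rcases Nat.mul_eq_zero.1 h2.symm with h5 | h5
    · omega
    · exact h5
  have h5 := tf_len_zero h4
  have h6 : x = h * (h⁻¹ * x * h) * h⁻¹ := by group
  rw [h6, h5]
  group

end Pool.Agent.H56Q
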