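import Pool.Agent.H56Q.Stm

/-!
# Project RQ (helper56), piece TR (helper72): an element commuting with a straight element
-/

set_option autoImplicit false

namespace Pool.Agent.H56Q

open Pool.Agent.Helper2GI Pool.Agent.Helper2GI.RA

namespace TR

variable {E : Type} {G : RA E}

theorem fin_walls (y : G.W) : {r : G.W | side y r ≠ 0}.Finite := by
  classical
  induction y using ind with
  | h1 =>
    have : {r : G.W | side (1 : G.W) r ≠ 0} = ∅ := by
      ext r
      simp [side_one]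
    rw [this]
    exact Set.finite_empty
  | h2 a x ih =>
    have hinj : Function.Injective (fun r : G.W => (G.g a)⁻¹ * r * G.g a) := by
      intro r r' h
      simpa using h
    refine Set.Finite.subset ((Set.finite_singleton (G.g a)).union
      (ih.preimage (f := fun r : G.W => (G.g a)⁻¹ * r * G.g a) hinj.injOn)) ?_
    intro r hr
    simp only [Set.mem_setOf_eq] at hr
    rw [side_mul, side_g] at hr
    by_cases h : r = G.g a
    · left; exact h
    · right
      rw [if_neg h, zero_add] at hr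
      exact hr

/-- the wall `r` is crossed by the axis of `x` at `k` -/
def At (x r : G.W) (k : ℤ) : Prop := side x (x ^ (-k) * r * x ^ k) ≠ 0

theorem z2 {a b : ZMod 2} (ha : a ≠ 0) (hb : b ≠ 0) : a + b = 0 := by
  revert a b; decide

theorem F1 {x r : G.W} (hg : ∀ n : ℕ, G.len (x ^ n) = n * G.len x) (h : side x r ≠ 0) (j : ℕ)
    (hj : 1 ≤ j) : side x (x ^ (-(j : ℤ)) * r * x ^ (j : ℤ)) = 0 := by
  have hc : ∀ i : ℕ, side (x * x ^ i) r ≠ 0 := fun i => by
    refine cross_once ?_ h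
    rw [← pow_succ', hg, hg]
    ring
  obtain ⟨i, rfl⟩ : ∃ i, j = i + 1 := ⟨j - 1, by omega⟩
  have h1 := hc i
  have h2 := hc (i + 1)
  rw [← pow_succ'] at h1 h2
  rw [pow_succ x (i + 1), side_mul] at h2
  have h3 : (x ^ (i + 1))⁻¹ * r * x ^ (i + 1) = x ^ (-((i + 1 : ℕ) : ℤ)) * r * x ^ ((i + 1 : ℕ) : ℤ) := by
    rw [zpow_neg, zpow_natCast]
  rw [h3] at h2
  by_contra h4
  exact h2 (z2 h1 h4)

theorem F1Z {x r : G.W} (hg : ∀ n : ℕ, G.len (x ^ n) = n * G.len x) {k l : ℤ} (hk : At x r k)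
    (hl : At x r l) : k = l := by
  have key : ∀ k l : ℤ, At x r k → At x r l → ¬ k < l := by
    intro k l hk hl hlt
    have h := F1 hg hk (l - k).toNat (by omega)
    apply hl
    rw [← h]
    congr 1
    have h1 : ((l - k).toNat : ℤ) = l - k := Int.toNat_of_nonneg (by omega)
    rw [h1]
    have e1 : x ^ (-(l - k)) * (x ^ (-k) * r * x ^ k) * x ^ (l - k) =
      (x ^ (-(l - k)) * x ^ (-k)) * r * (x ^ k * x ^ (l - k)) := by group
    rw [e1, ← zpow_add, ← zpow_add]
    congr 2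
    · congr 1; ring
    · congr 1; ring
  rcases lt_trichotomy k l with h | h | h
  · exact absurd h (key k l hk hl)
  · exact h
  · exact absurd h (key l k hl hk)

theorem step (x r : G.W) (k : ℤ) :
    side (x ^ (k + 1)) r = side (x ^ k) r + side x (x ^ (-k) * r * x ^ k) := by
  rw [zpow_add_one, side_mul, zpow_neg]

theorem F2 {x r : G.W} (h : ¬ ∃ k, At x r k) (k : ℤ) : side (x ^ k) r = 0 := by
  have h0 : ∀ k : ℤ, side x (x ^ (-k) * r * x ^ k) = 0 := fun k => by
    by_contra hk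
    exact h ⟨k, hk⟩
  induction k using Int.induction_on with
  | zero => rw [zpow_zero, side_one]
  | succ i ih => rw [step, ih, h0, add_zero]
  | pred i ih =>
    have h1 := step x r (-(i : ℤ) - 1)
    rw [sub_add_cancel, ih, h0, add_zero] at h1
    exact h1.symm

theorem F3 {x r : G.W} (hg : ∀ n : ℕ, G.len (x ^ n) = n * G.len x) {k₀ : ℤ} (hk : At x r k₀)
    (m : ℤ) (hm : |k₀| < m) : side (x ^ m) r ≠ side (x ^ (-m)) r := by
  have h0 : ∀ k : ℤ, k ≠ k₀ → side x (x ^ (-k) * r * x ^ k) = 0 := fun k hne => by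
    by_contra hk'
    exact hne (F1Z hg hk' hk)
  have hm1 := abs_lt.1 hm
  have hup : ∀ l : ℤ, k₀ + 1 ≤ l → side (x ^ l) r = side (x ^ (k₀ + 1)) r := by
    intro l hl
    induction l, hl using Int.le_induction with
    | base => rfl
    | succ l hl ih => rw [step, ih, h0 l (by omega), add_zero]
  have hdn : ∀ l : ℤ, l ≤ k₀ → side (x ^ l) r = side (x ^ k₀) r := by
    intro l hl
    induction l, hl using Int.le_induction_down with
    | base => rfl
    | pred l hl ih =>
      have h1 := step x r (l - 1)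
      rw [sub_add_cancel, ih, h0 (l - 1) (by omega), add_zero] at h1
      exact h1.symm
  rw [hup m (by omega), hdn (-m) (by omega), step]
  intro h
  exact hk (by simpa using h)

theorem comm_zpow {x y : G.W} (h : x * y = y * x) (k : ℤ) : y * x ^ k = x ^ k * y :=
  (Commute.zpow_right (show Commute y x from h.symm) k)

theorem cr_conj {x y r : G.W} (hg : ∀ n : ℕ, G.len (x ^ n) = n * G.len x) (hxy : x * y = y * x)
    (hr : ∃ k, At x r k) : ∃ k, At x (y * r * y⁻¹) k := by
  by_contra hn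
  have h0 := F2 hn
  obtain ⟨k₀, hk₀⟩ := hr
  have rel : ∀ k : ℤ, side y (y * r * y⁻¹) + side (x ^ k) r =
      side y (x ^ (-k) * (y * r * y⁻¹) * x ^ k) := by
    intro k
    rw [← side_conj, comm_zpow hxy, side_mul, h0, zero_add, zpow_neg]
  have hinj : Function.Injective (fun k : ℤ => x ^ (-k) * (y * r * y⁻¹) * x ^ k) := by
    intro k l h
    simp only at h
    have e1 : ∀ k : ℤ, x ^ (-k) * (y * r * y⁻¹) * x ^ k = y * (x ^ (-k) * r * x ^ k) * y⁻¹ := by
      intro k
      have h1 := comm_zpow hxy (-k)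
      have h2 : y⁻¹ * x ^ k = x ^ k * y⁻¹ := by
        have h3 := comm_zpow hxy k
        calc y⁻¹ * x ^ k = y⁻¹ * (x ^ k * y) * y⁻¹ := by group
          _ = y⁻¹ * (y * x ^ k) * y⁻¹ := by rw [h3]
          _ = x ^ k * y⁻¹ := by group
      calc x ^ (-k) * (y * r * y⁻¹) * x ^ k = (x ^ (-k) * y) * r * (y⁻¹ * x ^ k) := by group
        _ = (y * x ^ (-k)) * r * (x ^ k * y⁻¹) := by rw [h1, h2]
        _ = _ := by group
    rw [e1, e1] at h
    have h2 : x ^ (-k) * r * x ^ k = x ^ (-l) * r * x ^ l := by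
      simpa using h
    have h3 : x ^ (-k₀) * r * x ^ k₀ =
        x ^ (-(k₀ + (l - k))) * r * x ^ (k₀ + (l - k)) := by
      have h4 : r = x ^ k * (x ^ (-k) * r * x ^ k) * x ^ (-k) := by group
      have h5 : r = x ^ k * (x ^ (-l) * r * x ^ l) * x ^ (-k) := by rw [← h2]; exact h4
      calc x ^ (-k₀) * r * x ^ k₀
          = x ^ (-k₀) * (x ^ k * (x ^ (-l) * r * x ^ l) * x ^ (-k)) * x ^ k₀ := by rw [← h5]
        _ = _ := by group
    have h6 : At x r (k₀ + (l - k)) := by
      unfold At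
      rw [← h3]
      exact hk₀
    have := F1Z hg hk₀ h6
    omega
  have hfin : {k : ℤ | side y (x ^ (-k) * (y * r * y⁻¹) * x ^ k) ≠ 0}.Finite :=
    (fin_walls y).preimage (f := fun k : ℤ => x ^ (-k) * (y * r * y⁻¹) * x ^ k) hinj.injOn
  obtain ⟨M, hM⟩ := (hfin.image Int.natAbs).bddAbove
  have hz : ∀ k : ℤ, M < k.natAbs → side y (x ^ (-k) * (y * r * y⁻¹) * x ^ k) = 0 := by
    intro k hk
    by_contra h
    have := hM ⟨k, h, rfl⟩
    omega
  set m : ℤ := (M : ℤ) + |k₀| + 1 with hm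
  have habs := abs_nonneg k₀
  have h1 := hz m (by omega)
  have h2 := hz (-m) (by omega)
  have h3 := rel m
  have h4 := rel (-m)
  rw [h1] at h3
  rw [h2] at h4
  apply F3 hg hk₀ m (by omega)
  exact add_left_cancel (h3.trans h4.symm)

end TR

theorem t_TR : S_TR := by
  classical
  intro E G x y t hg ht hxy
  have hall : ∀ i : ℕ, ∃ k : ℤ, TR.At x (y ^ i * t * (y ^ i)⁻¹) k := by
    intro i
    induction i with
    | zero =>
      refine ⟨0, ?_⟩
      unfold TR.At
      simpa using ht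
    | succ i ih =>
      have h := TR.cr_conj hg hxy ih
      have e1 : y * (y ^ i * t * (y ^ i)⁻¹) * y⁻¹ = y ^ (i + 1) * t * (y ^ (i + 1))⁻¹ := by
        rw [pow_succ']
        group
      rw [e1] at h
      exact h
  choose k hk using hall
  have hfin := TR.fin_walls x
  obtain ⟨i, -, j, -, hij, heq⟩ := Set.infinite_univ.exists_ne_map_eq_of_mapsTo
    (s := (Set.univ : Set ℕ))
    (f := fun i : ℕ => x ^ (-(k i)) * (y ^ i * t * (y ^ i)⁻¹) * x ^ (k i))
    (fun i _ => hk i) hfin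
  have key : ∀ i j : ℕ, i < j →
      x ^ (-(k i)) * (y ^ i * t * (y ^ i)⁻¹) * x ^ (k i) =
        x ^ (-(k j)) * (y ^ j * t * (y ^ j)⁻¹) * x ^ (k j) →
      ∃ (a : ℕ) (b : ℤ), 0 < a ∧ (y ^ a * x ^ b) * t = t * (y ^ a * x ^ b) := by
    intro i j hlt h
    refine ⟨j - i, k i - k j, by omega, ?_⟩
    obtain ⟨d, rfl⟩ : ∃ d, j = i + d := ⟨j - i, by omega⟩
    have hd : i + d - i = d := by omega
    rw [hd]
    have hc : Commute y x := hxy.symm
    have c1 : ∀ (n : ℕ) (l : ℤ), y ^ n * x ^ l = x ^ l * y ^ n := fun n l =>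
      ((hc.pow_left n).zpow_right l)
    have h1 : t = (y ^ d * x ^ (k i - k (i + d))) * t * (y ^ d * x ^ (k i - k (i + d)))⁻¹ := by
      have h2 : t = (y ^ i)⁻¹ * x ^ (k i) *
          (x ^ (-(k i)) * (y ^ i * t * (y ^ i)⁻¹) * x ^ (k i)) * x ^ (-(k i)) * y ^ i := by group
      rw [h] at h2
      have h3 : (y ^ i)⁻¹ * x ^ (k i) * x ^ (-(k (i + d))) * y ^ (i + d) =
          y ^ d * x ^ (k i - k (i + d)) := by
        rw [sub_eq_add_neg, zpow_add, pow_add]
        calc (y ^ i)⁻¹ * x ^ (k i) * x ^ (-(k (i + d))) * (y ^ i * y ^ d)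
            = (y ^ i)⁻¹ * (x ^ (k i) * (x ^ (-(k (i + d))) * y ^ i)) * y ^ d := by group
          _ = (y ^ i)⁻¹ * (y ^ i * (x ^ (k i) * x ^ (-(k (i + d))))) * y ^ d := by
              rw [← c1 i, ← mul_assoc (x ^ k i), ← c1 i, mul_assoc (y ^ i)]
          _ = (x ^ (k i) * x ^ (-(k (i + d)))) * y ^ d := by group
          _ = y ^ d * (x ^ (k i) * x ^ (-(k (i + d)))) := by
              rw [mul_assoc, ← c1 d, ← mul_assoc, ← c1 d, mul_assoc]
      calc t = ((y ^ i)⁻¹ * x ^ (k i) * x ^ (-(k (i + d))) * y ^ (i + d)) * t *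
            ((y ^ i)⁻¹ * x ^ (k i) * x ^ (-(k (i + d))) * y ^ (i + d))⁻¹ := by
              nth_rw 1 [h2]
              group
        _ = _ := by rw [h3]
    nth_rw 2 [h1]
    group
  rcases lt_or_gt_of_ne hij with h | h
  · exact key i j h heq
  · exact key j i h heq.symm

end Pool.Agent.H56Q
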