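import Pool.Agent.H56Q.Stm

/-!
# Piece TY of project RQ
-/

set_option autoImplicit false

namespace Pool.Agent.H56Q

open Pool.Agent.Helper2GI Pool.Agent.Helper2GI.RA

namespace TY

variable {E : Type} {G : RA E}

theorem side_par {Z : E → Prop} {s : E} (hs : ¬ Z s) {T g1 : G.W}
    (hT : T = g1 * G.g s * g1⁻¹) (h y : G.W) (hy : Par Z y) : side (h * y) T = side h T := by
  classical
  obtain ⟨m, hm, rfl⟩ := hy
  induction m using List.reverseRecOn with
  | nil => rw [ev_nil, mul_one]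
  | append_singleton m a ih =>
    rw [ev_append, ev_single, ← mul_assoc, side_mul_g, ih (fun c hc => hm c (by simp [hc]))]
    rw [if_neg, add_zero]
    intro hcon
    have h1 : ((h * G.ev m)⁻¹ * g1) * G.g s * ((h * G.ev m)⁻¹ * g1)⁻¹ = G.g a := by
      rw [← hcon, hT]; group
    have h2 := conj_eq' h1
    exact hs (h2 ▸ hm a (by simp))

theorem par_pow {Z : E → Prop} {y : G.W} (hy : Par Z y) (n : ℕ) : Par Z (y ^ n) := by
  induction n with
  | zero => rw [pow_zero]; exact Par.one _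
  | succ n ih => rw [pow_succ]; exact ih.mul hy

theorem fin_side (h : G.W) : {T : G.W | side h T ≠ 0}.Finite := by
  classical
  induction h using ind with
  | h1 =>
    have h0 : {T : G.W | side (1 : G.W) T ≠ 0} = ∅ := by
      ext T
      simp [side_one]
    rw [h0]
    exact Set.finite_empty
  | h2 a x ih =>
    refine ((Set.finite_singleton (G.g a)).union
      (ih.image (fun T => G.g a * T * (G.g a)⁻¹))).subset ?_
    intro T hT
    rw [Set.mem_ofPred_eq, side_mul, side_g] at hT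
    by_cases hTa : T = G.g a
    · exact Or.inl hTa
    · rw [if_neg hTa, zero_add] at hT
      exact Or.inr ⟨_, hT, by group⟩

theorem z2 {a b : ZMod 2} (ha : a ≠ 0) (hb : b ≠ 0) : a + b = 0 := by
  revert a b
  decide

/-- the length of powers of a straight element -/
theorem len_add {x : G.W} (hx : ∀ n : ℕ, G.len (x ^ n) = n * G.len x) (a b : ℕ) :
    G.len (x ^ a * x ^ b) = G.len (x ^ a) + G.len (x ^ b) := by
  rw [← pow_add, hx, hx, hx]
  ring

/-- crossing of `x ^ k t x ^ (-k)` -/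
theorem cross {x t : G.W} (hx : ∀ n : ℕ, G.len (x ^ n) = n * G.len x) (ht : side x t ≠ 0)
    (k n : ℕ) (hkn : k < n) : side (x ^ n) (x ^ k * t * (x ^ k)⁻¹) ≠ 0 := by
  have h1 : side (x ^ k * x) (x ^ k * t * (x ^ k)⁻¹) =
      side (x ^ k) (x ^ k * t * (x ^ k)⁻¹) + side x t := side_conj _ _ _
  have h2 : side (x ^ k) (x ^ k * t * (x ^ k)⁻¹) = 0 := by
    by_contra hne
    have h3 := len_add hx k 1
    rw [pow_one] at h3
    have h4 := cross_once h3 hne
    rw [h1] at h4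
    exact h4 (z2 hne ht)
  have h5 : side (x ^ k * x) (x ^ k * t * (x ^ k)⁻¹) ≠ 0 := by
    rw [h1, h2, zero_add]; exact ht
  obtain ⟨m, rfl⟩ : ∃ m, n = (k + 1) + m := ⟨n - (k + 1), by omega⟩
  have h6 := len_add hx (k + 1) m
  rw [← pow_succ] at h5
  have h7 := cross_once h6 h5
  rwa [← pow_add] at h7

/-- no power of `x` commutes with `t` -/
theorem nocomm {x t : G.W} (hx : ∀ n : ℕ, G.len (x ^ n) = n * G.len x) (ht : side x t ≠ 0)
    (m : ℕ) (hm : 0 < m) : x ^ m * t * (x ^ m)⁻¹ ≠ t := by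
  intro h
  have h1 := cross hx ht 0 m hm
  rw [pow_zero, inv_one, one_mul, mul_one] at h1
  have h2 := len_add hx m 1
  rw [pow_one] at h2
  have h3 := cross_once h2 h1
  have h4 := side_conj (x ^ m) x t
  rw [h] at h4
  rw [h4] at h3
  exact h3 (z2 h1 ht)

theorem core (hCEN : S_CEN) (x t κ g₀ h : G.W) (s : E) (e : ℕ) (Z : E → Prop)
    (hx : ∀ n : ℕ, G.len (x ^ n) = n * G.len x) (hev : Ev x) (ht : side x t ≠ 0)
    (hts : t = g₀ * G.g s * g₀⁻¹) (hκ : Ev κ) (hc : x * κ = κ * x) (he : 0 < e)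
    (hκt : κ * t * κ⁻¹ = x ^ e * t * (x ^ e)⁻¹) (hpar : Par Z (h⁻¹ * κ * h)) : Z s := by
  by_contra hs
  let T : ℤ → G.W := fun i => x ^ ((e : ℤ) * i) * t * (x ^ ((e : ℤ) * i))⁻¹
  have hTi : ∀ i, T i = (x ^ ((e : ℤ) * i) * g₀) * G.g s * (x ^ ((e : ℤ) * i) * g₀)⁻¹ := by
    intro i
    simp only [T]
    rw [hts]; group
  let ψ : G.W := (x ^ e)⁻¹ * κ
  have hcxκ : Commute x κ := hc
  have hcψx : Commute ψ x :=
    Commute.mul_left ((Commute.refl x).pow_left e).inv_left hcxκ.symm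
  have hψt : Commute ψ t := by
    have h1 : ψ * t * ψ⁻¹ = t := by
      have h2 : ψ * t * ψ⁻¹ = (x ^ e)⁻¹ * (κ * t * κ⁻¹) * (x ^ e) := by
        simp only [ψ]; group
      rw [h2, hκt]; group
    have h3 : ψ * t = t * ψ := by
      conv_rhs => rw [← h1]
      group
    exact h3
  have hψT : ∀ (n : ℕ) (i : ℤ), Commute (ψ ^ n) (T i) := by
    intro n i
    have h1 : Commute ψ (x ^ ((e : ℤ) * i)) := hcψx.zpow_right _
    exact ((h1.mul_right hψt).mul_right h1.inv_right).pow_left n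
  have hψev : ∀ n : ℕ, Ev (ψ ^ n) := by
    intro n a
    simp only [ψ]
    rw [map_pow, map_mul, map_inv, map_pow, hev a, hκ a]
    simp
  have hψside : ∀ (n : ℕ) (i : ℤ) (p : G.W), side (ψ ^ n * p) (T i) = side p (T i) := by
    intro n i p
    have h1 := (hCEN E G (x ^ ((e : ℤ) * i) * g₀) (ψ ^ n) s (hψev n) (by
      rw [← hTi]; exact hψT n i)).2 p
    rwa [← hTi] at h1
  have hTinj : Function.Injective T := by
    have key : ∀ i j : ℤ, i < j → T i ≠ T j := by
      intro i j hij hT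
      obtain ⟨m, hm⟩ : ∃ m : ℕ, j = i + m := ⟨(j - i).toNat, by omega⟩
      have hm0 : 0 < m := by omega
      refine nocomm hx ht (e * m) (Nat.mul_pos he hm0) ?_
      have h1 : x ^ ((e : ℤ) * j) = x ^ ((e : ℤ) * i) * x ^ (e * m) := by
        rw [← zpow_natCast, ← zpow_add, hm]
        congr 1
        push_cast
        ring
      simp only [T] at hT
      rw [h1] at hT
      have h2 : x ^ (e * m) * t * (x ^ (e * m))⁻¹ = (x ^ ((e : ℤ) * i))⁻¹ *
          (x ^ ((e : ℤ) * i) * x ^ (e * m) * t * (x ^ ((e : ℤ) * i) * x ^ (e * m))⁻¹) *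
            x ^ ((e : ℤ) * i) := by group
      rw [h2, ← hT]; group
    intro i j hT
    rcases lt_trichotomy i j with h1 | h1 | h1
    · exact absurd hT (key i j h1)
    · exact h1
    · exact absurd hT.symm (key j i h1)
  have hfin : {i : ℤ | side h (T i) ≠ 0}.Finite :=
    Set.Finite.preimage (hTinj.injOn) (fin_side h)
  obtain ⟨N, hN⟩ : ∃ N : ℕ, ∀ i : ℤ, side h (T i) ≠ 0 → |i| ≤ N := by
    obtain ⟨b, hb⟩ := (hfin.image (fun i => |i|)).bddAbove
    refine ⟨b.toNat, fun i hi => ?_⟩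
    have h1 : |i| ≤ b := hb ⟨i, hi, rfl⟩
    omega
  have h0 : ∀ i : ℤ, (N : ℤ) < |i| → side h (T i) = 0 := by
    intro i hi
    by_contra hne
    have := hN i hne
    omega
  -- the choice of `n` and `i`
  set n : ℕ := 2 * N + 3 with hn
  have hκn : κ ^ n = x ^ (e * n) * ψ ^ n := by
    have h1 : κ = x ^ e * ψ := by simp only [ψ]; group
    conv_lhs => rw [h1]
    rw [(hcψx.symm.pow_left e).mul_pow, ← pow_mul]
  have hA : side (κ ^ n * h) (T (N + 1)) = side h (T (N + 1)) := by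
    have h1 : κ ^ n * h = h * (h⁻¹ * κ * h) ^ n := by
      have h2 : (h⁻¹ * κ * h) ^ n = h⁻¹ * κ ^ n * h := by
        have := conj_pow (a := h⁻¹) (b := κ) (i := n)
        rw [inv_inv] at this
        exact this
      rw [h2]; group
    rw [h1]
    exact side_par hs (hTi _) h _ (par_pow hpar n)
  have hB : side (κ ^ n * h) (T (N + 1)) =
      side (x ^ (e * n)) (T (N + 1)) + side h (T (N + 1 - n)) := by
    rw [hκn, mul_assoc, side_mul]
    congr 1
    have h1 : (x ^ (e * n))⁻¹ * T (N + 1) * x ^ (e * n) = T (N + 1 - n) := by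
      have h2 : x ^ ((e : ℤ) * (N + 1)) = x ^ (e * n) * x ^ ((e : ℤ) * (N + 1 - n)) := by
        rw [← zpow_natCast, ← zpow_add]
        congr 1
        push_cast
        ring
      simp only [T]
      rw [h2]; group
    rw [h1, hψside]
  have hC : side (x ^ (e * n)) (T (N + 1)) ≠ 0 := by
    have h1 := cross hx ht (e * (N + 1)) (e * n) (Nat.mul_lt_mul_of_pos_left (by omega) he)
    have h2 : T (N + 1) = x ^ (e * (N + 1)) * t * (x ^ (e * (N + 1)))⁻¹ := by
      have h3 : x ^ ((e : ℤ) * (N + 1)) = x ^ (e * (N + 1)) := by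
        rw [← zpow_natCast]
        congr 1
      simp only [T]
      rw [h3]
    rwa [h2]
  rw [hA, h0 (N + 1) (by rw [abs_of_nonneg (by positivity)]; omega),
    h0 (N + 1 - n) (by rw [abs_of_neg (by omega)]; omega), add_zero] at hB
  exact hC hB.symm

end TY

theorem t_TY (hCEN : S_CEN) : S_TY := by
  intro E G x t κ g₀ h s e Z hx hev ht hts hκ hc he hκt hpar
  rcases lt_or_gt_of_ne he with h1 | h1
  · obtain ⟨m, hm⟩ : ∃ m : ℕ, e = -(m : ℤ) := ⟨(-e).toNat, by omega⟩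
    refine TY.core hCEN x t κ⁻¹ g₀ h s m Z hx hev ht hts (fun a => by
      rw [map_inv, hκ a, inv_one]) (by
        have h2 : Commute x κ := hc
        exact h2.inv_right) (by omega) ?_ (by
        have h3 := hpar.inv
        rwa [show (h⁻¹ * κ * h)⁻¹ = h⁻¹ * κ⁻¹ * h by group] at h3)
    have hcx : Commute (x ^ m) κ := (show Commute x κ from hc).pow_left m
    rw [hm, zpow_neg, neg_neg, zpow_natCast] at hκt
    have h4 : t = κ⁻¹ * ((x ^ m)⁻¹ * t * x ^ m) * κ := by rw [← hκt]; group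
    have h5 : κ⁻¹ * ((x ^ m)⁻¹ * t * x ^ m) * κ = (x ^ m)⁻¹ * (κ⁻¹ * t * κ) * x ^ m := by
      have h6 : κ⁻¹ * (x ^ m)⁻¹ = (x ^ m)⁻¹ * κ⁻¹ := (hcx.inv_inv).symm
      have h7 : x ^ m * κ = κ * x ^ m := hcx
      calc κ⁻¹ * ((x ^ m)⁻¹ * t * x ^ m) * κ = (κ⁻¹ * (x ^ m)⁻¹) * t * (x ^ m * κ) := by group
        _ = ((x ^ m)⁻¹ * κ⁻¹) * t * (κ * x ^ m) := by rw [h6, h7]
        _ = _ := by group
    rw [h5] at h4
    rw [inv_inv]
    conv_rhs => rw [h4]
    group
  · obtain ⟨m, hm⟩ : ∃ m : ℕ, e = (m : ℤ) := ⟨e.toNat, by omega⟩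
    refine TY.core hCEN x t κ g₀ h s m Z hx hev ht hts hκ hc (by omega) ?_ hpar
    rw [hκt, hm, zpow_neg, zpow_natCast]

end Pool.Agent.H56Q
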