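import Pool.Agent.H56Q.Stm

/-!
# Project RQ, piece WON (helper70): the centralizer theorem
-/

set_option autoImplicit false

namespace Pool.Agent.H56Q

open Pool.Agent.Helper2GI Pool.Agent.Helper2GI.RA

namespace WONP

section grp

variable {Q : Type} [Group Q]

theorem mul_rearr {Y Z p r : Q} (h2 : p * Z = Z * p) (_h5 : p * r = r * p) :
    (Y * p) * (Z * r) = (Y * Z) * (p * r) := by
  calc (Y * p) * (Z * r) = Y * (p * Z) * r := by group
    _ = Y * (Z * p) * r := by rw [h2]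
    _ = (Y * Z) * (p * r) := by group

theorem c_eq {Y Z p r : Q} (h2 : p * Z = Z * p) (h3 : r * Y = Y * r) (h5 : p * r = r * p) :
    (Y * p) * (Z * r) * ((Z * r) * (Y * p))⁻¹ = (Y * Z) * (Z * Y)⁻¹ := by
  rw [mul_rearr h2 h5, mul_rearr h3 h5.symm, ← h5]
  group

theorem comm_of {Y Z p r : Q} (h2 : p * Z = Z * p) (h3 : r * Y = Y * r) (h5 : p * r = r * p)
    (h : (Y * p) * (Z * r) = (Z * r) * (Y * p)) : Y * Z = Z * Y := by
  rw [mul_rearr h2 h5, mul_rearr h3 h5.symm, ← h5] at h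
  exact mul_right_cancel h

theorem c_comm {P R t : Q} (hP : P * t = t * P) (hR : R * t = t * R) :
    (P * R * (R * P)⁻¹) * t = t * (P * R * (R * P)⁻¹) := by
  have h1 : Commute P t := hP
  have h2 : Commute R t := hR
  exact (h1.mul_left h2).mul_left (h2.mul_left h1).inv_left

end grp

section gen

variable {E : Type} {G : RA E}

theorem evn_conj {x : G.W} (h : Ev x) (g : G.W) : Ev (g⁻¹ * x * g) := by
  intro a
  rw [map_mul, map_mul, map_inv, h a, mul_one, inv_mul_cancel]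

theorem evn_mul {x y : G.W} (hx : Ev x) (hy : Ev y) : Ev (x * y) := by
  intro a
  rw [map_mul, hx a, hy a, one_mul]

theorem evn_inv {x : G.W} (hx : Ev x) : Ev x⁻¹ := by
  intro a
  rw [map_inv, hx a, inv_one]

theorem evn_pow {x : G.W} (hx : Ev x) (n : ℕ) : Ev (x ^ n) := by
  intro a
  rw [map_pow, hx a, one_pow]

theorem evn_zpow {x : G.W} (hx : Ev x) (n : ℤ) : Ev (x ^ n) := by
  intro a
  rw [map_zpow, hx a, one_zpow]

theorem par_empty {Z : E → Prop} (hZ : ∀ a, ¬ Z a) {x : G.W} (h : Par Z x) : x = 1 := by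
  obtain ⟨m, hm, rfl⟩ := h
  cases m with
  | nil => exact ev_nil
  | cons a m => exact absurd (hm a List.mem_cons_self) (hZ a)

theorem wall_of_letter {m : List E} (hm : G.Red m) {a : E} (ha : a ∈ m) :
    ∃ y : G.W, side (G.ev m) (y * G.g a * y⁻¹) ≠ 0 := by
  classical
  obtain ⟨m₁, m₂, rfl⟩ := List.append_of_mem ha
  have h1 := (red_iff _).1 hm
  have h2 : G.ev (m₁ ++ a :: m₂) = (G.ev m₁ * G.g a) * G.ev m₂ := by
    rw [ev_append, ev_cons, mul_assoc]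
  rw [h2] at h1
  have h3 := len_ev_le (G := G) m₁
  have h4 := len_ev_le (G := G) m₂
  have h5 := len_mul_le (G.ev m₁ * G.g a) (G.ev m₂)
  have h6 := len_mul_g (G.ev m₁) a
  have h7 : (m₁ ++ a :: m₂).length = m₁.length + 1 + m₂.length := by
    rw [List.length_append, List.length_cons]
    ring
  rw [h7] at h1
  have h8 : G.len (G.ev m₁ * G.g a) = G.len (G.ev m₁) + 1 := by omega
  have h9 := (len_mul_g_iff _ _).1 h8
  refine ⟨G.ev m₁, ?_⟩
  rw [h2]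
  apply cross_once (by omega)
  rw [side_mul_g, h9, if_pos (by group), zero_add]
  decide

/-- walls of two commuting directions -/
theorem tr2 (hTR : S_TR) {x y t t' : G.W} (hs : ∀ n : ℕ, G.len (x ^ n) = n * G.len x)
    (ht : side x t ≠ 0) (ht' : side x t' ≠ 0) (hc : x * y = y * x) :
    ∃ (a : ℕ) (b b' : ℤ), 0 < a ∧ (y ^ a * x ^ b) * t = t * (y ^ a * x ^ b) ∧
      (y ^ a * x ^ b') * t' = t' * (y ^ a * x ^ b') := by
  obtain ⟨a, b, ha, h1⟩ := hTR E G x y t hs ht hc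
  obtain ⟨a', b', ha', h1'⟩ := hTR E G x y t' hs ht' hc
  have hc' : Commute y x := hc.symm
  refine ⟨a * a', b * a', b' * a, Nat.mul_pos ha ha', ?_, ?_⟩
  · have h2 : y ^ (a * a') * x ^ (b * (a' : ℤ)) = (y ^ a * x ^ b) ^ a' := by
      rw [((hc'.pow_left a).zpow_right b).mul_pow, ← pow_mul, ← zpow_natCast (x ^ b), ← zpow_mul]
    rw [h2]
    have h3 : Commute (y ^ a * x ^ b) t := h1
    exact (h3.pow_left a').eq
  · have h2 : y ^ (a * a') * x ^ (b' * (a : ℤ)) = (y ^ a' * x ^ b') ^ a := by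
      rw [((hc'.pow_left a').zpow_right b').mul_pow, ← pow_mul, ← zpow_natCast (x ^ b'), ← zpow_mul,
        mul_comm a a']
    rw [h2]
    have h3 : Commute (y ^ a' * x ^ b') t' := h1'
    exact (h3.pow_left a).eq

/-- in the non-adjacent case the same element commutes with both walls -/
theorem same (hTY : S_TY) {x t' κ w g₁ g₂ : G.W} {s₁ s₂ : E} {a : ℕ} {b b' : ℤ} {y : G.W}
    (hs : ∀ n : ℕ, G.len (x ^ n) = n * G.len x) (hx : Ev x) (ht' : side x t' ≠ 0)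
    (e2 : t' = g₂ * G.g s₂ * g₂⁻¹) (hy : Ev y) (hc : x * y = y * x)
    (hκ : κ = y ^ a * x ^ b) (hw : w = y ^ a * x ^ b') (hwt : w * t' = t' * w)
    (hP : Par (fun c => G.adj c s₁) (g₁⁻¹ * κ * g₁)) (hn : ¬ G.adj s₂ s₁) :
    b = b' := by
  by_contra hb
  have hc' : Commute x y := hc
  have hxk : Commute x κ := by
    rw [hκ]
    exact (hc'.pow_right a).mul_right ((Commute.refl x).zpow_right b)
  have h1 : κ = x ^ (b - b') * w := by
    rw [hκ, hw, ← mul_assoc, ((hc'.zpow_left (b - b')).pow_right a).eq, mul_assoc, ← zpow_add]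
    congr 2
    ring
  have h2 : w * t' * w⁻¹ = t' := by
    rw [hwt]
    group
  have h3 : κ * t' * κ⁻¹ = x ^ (b - b') * t' * x ^ (-(b - b')) := by
    calc κ * t' * κ⁻¹ = x ^ (b - b') * (w * t' * w⁻¹) * (x ^ (b - b'))⁻¹ := by
          rw [h1]
          group
      _ = _ := by rw [h2, zpow_neg]
  have h4 : Ev κ := by
    rw [hκ]
    exact evn_mul (evn_pow hy a) (evn_zpow hx b)
  exact hn (hTY E G x t' κ g₂ g₁ s₂ (b - b') (fun c => G.adj c s₁) hs hx ht' e2 h4 hxk.eq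
    (sub_ne_zero.2 hb) h3 hP)

end gen

theorem core (hINT : S_INT) (hCEN : S_CEN) (hTR : S_TR) (hTY : S_TY) (hDC : S_DC)
    {V : Type} {D : SimpleGraph V} {tw : V → Prop} (hNT : NT D) (hNS : NS D)
    {x y z : (TG D tw).W} (hs : ∀ n : ℕ, (TG D tw).len (x ^ n) = n * (TG D tw).len x)
    (hx : Ev x) (hy : Ev y) (hz : Ev z) (hx1 : x ≠ 1) (hxy : x * y = y * x) (hxz : x * z = z * x)
    (hno : NoPow y z) : ∃ (g : (TG D tw).W) (v : V), InD v (g⁻¹ * x * g) := by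
  obtain ⟨m, hm, hmx⟩ := exists_red x
  rcases m with _ | ⟨a₀, m'⟩
  · exact absurd (by rw [← hmx]; exact ev_nil) hx1
  by_cases hall : ∀ c ∈ a₀ :: m', c.1.1 = a₀.1.1
  · refine ⟨1, a₀.1.1, a₀ :: m', hall, ?_⟩
    rw [hmx]
    group
  exfalso
  have sy : ∀ u v : V, D.Adj u v → D.Adj v u := fun _ _ h => h.symm
  push Not at hall
  obtain ⟨s₂, hs2, hne⟩ := hall
  obtain ⟨g₁, ht⟩ := wall_of_letter hm (List.mem_cons_self (a := a₀) (l := m'))
  obtain ⟨g₂, ht'⟩ := wall_of_letter hm hs2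
  rw [hmx] at ht ht'
  obtain ⟨a, b, b', ha, hy1, hy2⟩ := tr2 hTR hs ht ht' hxy
  obtain ⟨d, e, e', hd, hz1, hz2⟩ := tr2 hTR hs ht ht' hxz
  have cy : Commute x y := hxy
  have cz : Commute x z := hxz
  have k1 : ∀ (i : ℤ) (n : ℕ), x ^ i * y ^ n = y ^ n * x ^ i := fun i n =>
    ((cy.zpow_left i).pow_right n).eq
  have k2 : ∀ (i : ℤ) (n : ℕ), x ^ i * z ^ n = z ^ n * x ^ i := fun i n =>
    ((cz.zpow_left i).pow_right n).eq
  have k3 : ∀ i j : ℤ, x ^ i * x ^ j = x ^ j * x ^ i := fun i j => by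
    rw [← zpow_add, ← zpow_add, add_comm]
  obtain ⟨q, -, hq⟩ := hINT _ (TG D tw) (fun c => (TG D tw).adj c a₀)
    (fun c => (TG D tw).adj c s₂) g₁ g₂
  by_cases hadj : D.Adj a₀.1.1 s₂.1.1
  · -- adjacent
    obtain ⟨c, hcd⟩ : ∃ c, c = (y ^ a * z ^ d) * (z ^ d * y ^ a)⁻¹ := ⟨_, rfl⟩
    have hc1 : c * (g₁ * (TG D tw).g a₀ * g₁⁻¹) = (g₁ * (TG D tw).g a₀ * g₁⁻¹) * c := by
      rw [hcd, ← c_eq (k2 b d) (k1 e a) (k3 b e)]
      exact c_comm hy1 hz1
    have hc2 : c * (g₂ * (TG D tw).g s₂ * g₂⁻¹) = (g₂ * (TG D tw).g s₂ * g₂⁻¹) * c := by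
      rw [hcd, ← c_eq (k2 b' d) (k1 e' a) (k3 b' e')]
      exact c_comm hy2 hz2
    have hce : Ev c := by
      rw [hcd]
      exact evn_mul (evn_mul (evn_pow hy a) (evn_pow hz d))
        (evn_inv (evn_mul (evn_pow hz d) (evn_pow hy a)))
    have h1 := hq c (hCEN _ _ g₁ c a₀ hce hc1).1 (hCEN _ _ g₂ c s₂ hce hc2).1
    have h2 := par_empty (fun l hl => hNT l.1.1 a₀.1.1 s₂.1.1 hl.1 hadj hl.2) h1
    have h3 : c = 1 := by
      calc c = q * (q⁻¹ * c * q) * q⁻¹ := by group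
        _ = 1 := by rw [h2]; group
    rw [hcd] at h3
    exact hno a d ha hd (mul_inv_eq_one.1 h3)
  · -- not adjacent
    have hadj' : ¬ (TG D tw).adj s₂ a₀ := fun h => hadj (sy _ _ h)
    have ey : Ev (y ^ a * x ^ b) := evn_mul (evn_pow hy a) (evn_zpow hx b)
    have ez : Ev (z ^ d * x ^ e) := evn_mul (evn_pow hz d) (evn_zpow hx e)
    have py := (hCEN _ _ g₁ _ a₀ ey hy1).1
    have pz := (hCEN _ _ g₁ _ a₀ ez hz1).1
    have eb : b = b' := same hTY hs hx ht' rfl hy hxy rfl rfl hy2 py hadj'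
    have ee : e = e' := same hTY hs hx ht' rfl hz hxz rfl rfl hz2 pz hadj'
    rw [← eb] at hy2
    rw [← ee] at hz2
    have h1 := hq _ py (hCEN _ _ g₂ _ s₂ ey hy2).1
    have h2 := hq _ pz (hCEN _ _ g₂ _ s₂ ez hz2).1
    obtain ⟨w, hw⟩ : ∃ w : V, ∀ l : Lt tw, (TG D tw).adj l a₀ ∧ (TG D tw).adj l s₂ →
        l.1.1 = w := by
      by_cases hex : ∃ l : Lt tw, (TG D tw).adj l a₀ ∧ (TG D tw).adj l s₂
      · obtain ⟨l, hl⟩ := hex
        refine ⟨l.1.1, fun l' hl' => ?_⟩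
        by_contra hll
        exact hNS l'.1.1 a₀.1.1 l.1.1 s₂.1.1 hll (Ne.symm hne) hl'.1 (sy _ _ hl.1) hl.2
          (sy _ _ hl'.2)
      · exact ⟨a₀.1.1, fun l hl => absurd ⟨l, hl⟩ hex⟩
    have h3 := (hDC V D tw w _ _ (evn_conj ey q) (evn_conj ez q) (h1.mono hw) (h2.mono hw)).1
    have h4 : (y ^ a * x ^ b) * (z ^ d * x ^ e) = (z ^ d * x ^ e) * (y ^ a * x ^ b) := by
      calc (y ^ a * x ^ b) * (z ^ d * x ^ e) =
            q * ((q⁻¹ * (y ^ a * x ^ b) * q) * (q⁻¹ * (z ^ d * x ^ e) * q)) * q⁻¹ := by group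
        _ = q * ((q⁻¹ * (z ^ d * x ^ e) * q) * (q⁻¹ * (y ^ a * x ^ b) * q)) * q⁻¹ := by rw [h3]
        _ = _ := by group
    exact hno a d ha hd (comm_of (k2 b d) (k1 e a) (k3 b e) h4)

end WONP

open WONP in
theorem t_WON (hINT : S_INT) (hCEN : S_CEN) (hSTR : S_STR) (hTR : S_TR) (hTY : S_TY)
    (hDC : S_DC) : S_WON := by
  intro V D tw hNT hNS x y z hx hy hz hx1 hxy hxz hno
  obtain ⟨h, hs⟩ := hSTR _ (TG D tw) x hx
  have hx1' : h⁻¹ * x * h ≠ 1 := by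
    intro h1
    apply hx1
    calc x = h * (h⁻¹ * x * h) * h⁻¹ := by group
      _ = 1 := by rw [h1]; group
  have hc : ∀ u : (TG D tw).W, x * u = u * x →
      (h⁻¹ * x * h) * (h⁻¹ * u * h) = (h⁻¹ * u * h) * (h⁻¹ * x * h) := by
    intro u hu
    calc (h⁻¹ * x * h) * (h⁻¹ * u * h) = h⁻¹ * (x * u) * h := by group
      _ = h⁻¹ * (u * x) * h := by rw [hu]
      _ = _ := by group
  have hno' : NoPow (h⁻¹ * y * h) (h⁻¹ * z * h) := by
    intro a b ha hb he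
    apply hno a b ha hb
    have e1 : ∀ (u : (TG D tw).W) (n : ℕ), (h⁻¹ * u * h) ^ n = h⁻¹ * u ^ n * h := by
      intro u n
      have := conj_pow (i := n) (a := h⁻¹) (b := u)
      rwa [inv_inv] at this
    rw [e1, e1] at he
    calc y ^ a * z ^ b = h * ((h⁻¹ * y ^ a * h) * (h⁻¹ * z ^ b * h)) * h⁻¹ := by group
      _ = h * ((h⁻¹ * z ^ b * h) * (h⁻¹ * y ^ a * h)) * h⁻¹ := by rw [he]
      _ = _ := by group
  obtain ⟨g, v, hg⟩ := core hINT hCEN hTR hTY hDC hNT hNS hs (evn_conj hx h) (evn_conj hy h)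
    (evn_conj hz h) hx1' (hc y hxy) (hc z hxz) hno'
  refine ⟨h * g, v, ?_⟩
  have e2 : (h * g)⁻¹ * x * (h * g) = g⁻¹ * (h⁻¹ * x * h) * g := by group
  rw [e2]
  exact hg

end Pool.Agent.H56Q
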