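import Pool.Agent.H56Q.Asm
import Pool.Agent.H56Q.HEAD
import Pool.Agent.H56Q.GATE
import Pool.Agent.H56Q.INT
import Pool.Agent.H56Q.CEN
import Pool.Agent.H56Q.STR
import Pool.Agent.H56Q.TR
import Pool.Agent.H56Q.TY
import Pool.Agent.H56Q.TF
import Pool.Agent.H56Q.DC
import Pool.Agent.H56Q.CJ
import Pool.Agent.H56Q.GAP
import Pool.Agent.H56Q.ADJ
import Pool.Agent.H56Q.WON
import Pool.Agent.H56Q.NZT
import Pool.Agent.H56Q.NSQ
import Pool.Agent.H56Q.HEL
import Pool.Agent.H56Q.PEN
import Pool.Agent.H56Q.GTH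
import Pool.Agent.H56Q.GON
import Pool.Agent.H56Q.GRA
import Pool.Agent.H56Q.BIJ
import Pool.Agent.H56Q.PGR
import Pool.Agent.H56Q.HDS
import Pool.Agent.H56Q.EXT
import Pool.Agent.H56Q.LKP
import Pool.Agent.H56Q.FB
import Pool.Agent.H56Q.HOM3
import Pool.Agent.H56Q.FIN
import Pool.Agent.H56Q.QIA
import Pool.Agent.H56Q.COM
import Pool.Agent.H56Q.BET
import Pool.Agent.H56Q.SEM
import Pool.Agent.H56Q.QIW
import Pool.Agent.H56Q.REL
import Pool.Agent.H56Q.PRE

/-! All pieces together. -/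

set_option autoImplicit false

namespace Pool.Agent.H56Q

theorem head : S_HEAD := t_HEAD
theorem gate : S_GATE := t_GATE head
theorem int : S_INT := t_INT gate
theorem cen : S_CEN := t_CEN
theorem str : S_STR := t_STR head
theorem tr : S_TR := t_TR
theorem ty : S_TY := t_TY cen
theorem tf : S_TF := t_TF str
theorem dc : S_DC := t_DC tf
theorem cj : S_CJ := t_CJ head gate
theorem gap : S_GAP := t_GAP head gate
theorem adj : S_ADJ := t_ADJ int cj
theorem won : S_WON := t_WON int cen str tr ty dc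
theorem nzt : S_NZT := t_NZT int cen str tr ty
theorem nsq : S_NSQ := t_NSQ won int cj dc gap
theorem hel : S_HEL := t_HEL gate
theorem pen : S_PEN := t_PEN won adj hel dc
theorem gth : S_GTH := t_GTH int cj dc tf
theorem gon : S_GON := t_GON adj tf
theorem gra : S_GRA := t_GRA nzt nsq adj tf
theorem bij : S_BIJ := t_BIJ pen gth gon
theorem pgr : S_PGR := t_PGR
theorem hds : S_HDS := t_HDS head
theorem ext : S_EXT := t_EXT pgr hds
theorem lkp : S_LKP := t_LKP
theorem fb : S_FB := t_FB pgr lkp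
theorem hom3 : S_HOM3 := t_HOM3
theorem fin : S_FIN := t_FIN gra bij pgr ext fb hom3
theorem qia : S_QIA := t_QIA
theorem com : S_COM := t_COM
theorem bet : S_BET := t_BET
theorem sem : S_SEM := t_SEM
theorem qiw : S_QIW := t_QIW bet sem
theorem rel : S_REL := t_REL
theorem pre : S_PRE := t_PRE

end Pool.Agent.H56Q
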