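import Pool.Agent.H56Q.Main

/-! Assembly, part 2. -/

set_option autoImplicit false

namespace Pool.Agent.H56Q

open Pool.Agent.Helper2GI Pool.Agent.Helper2GI.RA

theorem QS.rel {E E' : Type} {G : RA E} {G' : RA E'} (e : E ≃ E') (f : G.W ≃* G'.W)
    (h : ∀ a, f (G.g a) = G'.g (e a)) : QS (GG G) (GG G') 1 f.toEquiv := by
  apply QS.ofIso
  · rintro s ⟨a, rfl⟩
    exact ⟨e a, h a⟩
  · rintro t ⟨b, rfl⟩
    refine ⟨G.g (e.symm b), ⟨_, rfl⟩, ?_⟩
    rw [h, Equiv.apply_symm_apply]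

theorem QS.mono {A B : Type} [Group A] [Group B] {SA : Set A} {SB : Set B} {c d : ℕ} {f : A ≃ B}
    (h : QS SA SB c f) (hcd : c ≤ d) : QS SA SB d f := by
  constructor
  · intro x s hs
    obtain ⟨b, hb, h1⟩ := h.fwd x s hs
    exact ⟨b, hb.mono hcd, h1⟩
  · intro x t ht
    obtain ⟨a, ha, h1⟩ := h.bwd x t ht
    exact ⟨a, ha.mono hcd, h1⟩

theorem qs_main (hQIA : S_QIA) (hQIW : S_QIW) (hREL : S_REL) (hPRE : S_PRE) :
    ∃ (f : RCF Gam ≃ RAF Lam) (K : ℕ), QS (GI _) (GI _) K f := by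
  obtain ⟨f1, h1⟩ := hPRE _ Gam GF (fun a b => Iff.rfl)
  obtain ⟨f2, h2⟩ := hREL _ _ GF (PG Unit) e15.symm (fun a b => Iff.rfl)
  obtain ⟨F, hF1, hF2⟩ := hQIW
  obtain ⟨f4, h4⟩ := hREL _ _ (PG Bool) (TT Lam) lB lB_adj
  obtain ⟨ι, hι1, hι2⟩ := hQIA _ Lam
  have q1 : QS (GI _) (GG GF) 1 f1.toEquiv := by
    apply QS.ofIso
    · rintro s ⟨a, rfl | rfl⟩
      · exact ⟨a, h1 a⟩
      · exact ⟨a, by rw [map_inv, h1 a, g_inv]⟩
    · rintro t ⟨b, rfl⟩
      exact ⟨PresentedGroup.of b, ⟨b, Or.inl rfl⟩, h1 b⟩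
  have q2 := QS.rel e15.symm f2 h2
  have q3 : QS (GG (PG Unit)) (GG (PG Bool)) 3 F := by
    constructor
    · rintro x s ⟨a, rfl⟩
      obtain ⟨l, hl, h⟩ := hF1 x a
      exact ⟨_, LS_ev l hl, h⟩
    · rintro x t ⟨a, rfl⟩
      obtain ⟨l, hl, h⟩ := hF2 x a
      exact ⟨_, LS_ev l hl, h⟩
  have q4 := QS.rel lB f4 h4
  have q5 : QS (GG (TT Lam)) (GI _) 1 ι := by
    constructor
    · rintro x s ⟨a, rfl⟩
      rcases hι1 x a with h | h
      · exact ⟨_, LS.mem ⟨_, Or.inl rfl⟩, h⟩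
      · exact ⟨_, LS.mem ⟨_, Or.inr rfl⟩, h⟩
    · rintro x t ⟨v, rfl | rfl⟩
      · obtain ⟨s, hs⟩ := (hι2 x v).1
        exact ⟨_, LS.mem ⟨s, rfl⟩, hs⟩
      · obtain ⟨s, hs⟩ := (hι2 x v).2
        exact ⟨_, LS.mem ⟨s, rfl⟩, hs⟩
  exact ⟨_, _, (((q1.comp q2).comp q3).comp q4).comp q5⟩

/-- the quasi-isometry in the form of the frozen statement -/
theorem qi_frozen {n m : ℕ} {r₁ : Set (FreeGroup (Fin n))} {r₂ : Set (FreeGroup (Fin m))}
    (f : PresentedGroup r₁ ≃ PresentedGroup r₂) (K : ℕ) (h : QS (GI r₁) (GI r₂) K f) :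
    (∀ x y (N : ℕ), (∃ w : FreeGroup (Fin n), PresentedGroup.mk r₁ w = x⁻¹ * y ∧
      w.toWord.length ≤ N) → ∃ w : FreeGroup (Fin m), PresentedGroup.mk r₂ w = (f x)⁻¹ * f y ∧
      w.toWord.length ≤ K * N + 0) ∧
    (∀ x y (N : ℕ), (∃ w : FreeGroup (Fin m), PresentedGroup.mk r₂ w = (f x)⁻¹ * f y ∧
      w.toWord.length ≤ N) → ∃ w : FreeGroup (Fin n), PresentedGroup.mk r₁ w = x⁻¹ * y ∧
      w.toWord.length ≤ K * N + 0) ∧
    (∀ z, ∃ x, ∃ w : FreeGroup (Fin m), PresentedGroup.mk r₂ w = (f x)⁻¹ * z ∧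
      w.toWord.length ≤ 0) := by
  refine ⟨?_, ?_, ?_⟩
  · rintro x y N ⟨w, hw, hN⟩
    have h1 := LS_of_word (rels := r₁) w hN
    rw [hw] at h1
    obtain ⟨b, hb, h2⟩ := h.fwdn (x := x) h1
    rw [mul_inv_cancel_left] at h2
    obtain ⟨w', hw', hl⟩ := word_of_LS hb
    refine ⟨w', ?_, by omega⟩
    rw [hw', h2, inv_mul_cancel_left]
  · rintro x y N ⟨w, hw, hN⟩
    have h1 := LS_of_word (rels := r₂) w hN
    rw [hw] at h1
    obtain ⟨a, ha, h2⟩ := h.bwdn (x := x) h1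
    rw [mul_inv_cancel_left] at h2
    have h3 := f.injective h2
    obtain ⟨w', hw', hl⟩ := word_of_LS ha
    refine ⟨w', ?_, by omega⟩
    rw [hw', ← h3, inv_mul_cancel_left]
  · intro z
    refine ⟨f.symm z, 1, ?_, by simp⟩
    rw [Equiv.apply_symm_apply, map_one, inv_mul_cancel]

/-- non-commensurability in the form of the frozen statement -/
theorem nc_frozen (hFIN : S_FIN) (hCOM : S_COM) (hREL : S_REL) (hPRE : S_PRE) (m : ℕ)
    (Λ : SimpleGraph (Fin m)) (H₁ : Subgroup (RCF Gam)) (H₂ : Subgroup (RAF Λ))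
    (h1 : H₁.index ≠ 0) (h2 : H₂.index ≠ 0) (ψ : H₁ ≃* H₂) : False := by
  obtain ⟨H', hH', f, hf, hfi⟩ := hCOM m Λ H₂ h2
  obtain ⟨f1, _⟩ := hPRE _ Gam GF (fun a b => Iff.rfl)
  obtain ⟨f2, _⟩ := hREL _ _ GF (PG Unit) e15.symm (fun a b => Iff.rfl)
  obtain ⟨f3, _⟩ := hREL _ _ (PG Unit) GW lU lU_adj
  let θ : RCF Gam ≃* GW.W := (f1.trans f2).trans f3
  -- the subgroup of `H₁`
  let R : Subgroup H₁ := f.range.comap ψ.toMonoidHom
  have hR : R.index ≠ 0 := by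
    have : R.index = f.range.index := Subgroup.index_comap_of_surjective _ ψ.surjective
    rw [this]; exact hfi
  let R1 : Subgroup (RCF Gam) := R.map H₁.subtype
  have hR1 : R1.index ≠ 0 := by
    have h3 : R1.index = R.index * H₁.index := by
      have := Subgroup.index_map_subtype (H := H₁) R
      exact this
    rw [h3]; exact mul_ne_zero hR h1
  let R2 : Subgroup GW.W := R1.map θ.toMonoidHom
  have hR2 : R2.index ≠ 0 := by
    have h4 : R2.index = R1.index := Subgroup.index_map_equiv R1 θ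
    rw [h4]; exact hR1
  refine hFIN (Fin m) inferInstance Λ R2 H' hR2 hH' ?_
  -- the isomorphisms
  have e1 : H' ≃* f.range := MonoidHom.ofInjective hf
  have e2 : R ≃* f.range := by
    refine MulEquiv.ofBijective ((ψ.toMonoidHom.comp R.subtype).codRestrict f.range (fun x => x.2)) ?_
    constructor
    · intro a b hab
      have : ψ a.1 = ψ b.1 := congrArg Subtype.val hab
      exact Subtype.ext (ψ.injective this)
    · rintro ⟨y, hy⟩
      refine ⟨⟨ψ.symm y, ?_⟩, ?_⟩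
      · show ψ (ψ.symm y) ∈ f.range
        rw [MulEquiv.apply_symm_apply]; exact hy
      · exact Subtype.ext (MulEquiv.apply_symm_apply ψ y)
  have e3 : R ≃* R1 := R.equivMapOfInjective H₁.subtype (Subgroup.subtype_injective H₁)
  have e4 : R1 ≃* R2 := R1.equivMapOfInjective θ.toMonoidHom θ.injective
  exact ⟨(((e4.symm.trans e3.symm).trans e2).trans e1.symm)⟩

/-- the frozen statement from the pieces -/
theorem frozen (hFIN : S_FIN) (hCOM : S_COM) (hQIA : S_QIA) (hQIW : S_QIW) (hREL : S_REL)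
    (hPRE : S_PRE) : ∃ (n : ℕ) (Γ : SimpleGraph (Fin n)),
      (∀ (m : ℕ) (Λ : SimpleGraph (Fin m)),
        ¬ ∃ (H₁ : Subgroup (PresentedGroup {r : FreeGroup (Fin n) |
              (∃ a, r = FreeGroup.of a * FreeGroup.of a) ∨
              ∃ a b, Γ.Adj a b ∧ r = (FreeGroup.of a * FreeGroup.of b) ^ 2}))
            (H₂ : Subgroup (PresentedGroup {r : FreeGroup (Fin m) |
              ∃ a b, Λ.Adj a b ∧
                r = FreeGroup.of a * FreeGroup.of b * (FreeGroup.of a)⁻¹ * (FreeGroup.of b)⁻¹})),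
          H₁.index ≠ 0 ∧ H₂.index ≠ 0 ∧ Nonempty (H₁ ≃* H₂)) ∧
      ∃ (m : ℕ) (Λ : SimpleGraph (Fin m))
        (f : PresentedGroup {r : FreeGroup (Fin n) |
              (∃ a, r = FreeGroup.of a * FreeGroup.of a) ∨
              ∃ a b, Γ.Adj a b ∧ r = (FreeGroup.of a * FreeGroup.of b) ^ 2} →
            PresentedGroup {r : FreeGroup (Fin m) |
              ∃ a b, Λ.Adj a b ∧
                r = FreeGroup.of a * FreeGroup.of b * (FreeGroup.of a)⁻¹ * (FreeGroup.of b)⁻¹})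
        (K C : ℕ),
        (∀ x y (N : ℕ),
          (∃ w : FreeGroup (Fin n), PresentedGroup.mk {r : FreeGroup (Fin n) |
              (∃ a, r = FreeGroup.of a * FreeGroup.of a) ∨
              ∃ a b, Γ.Adj a b ∧ r = (FreeGroup.of a * FreeGroup.of b) ^ 2} w = x⁻¹ * y ∧
            w.toWord.length ≤ N) →
          ∃ w : FreeGroup (Fin m), PresentedGroup.mk {r : FreeGroup (Fin m) |
              ∃ a b, Λ.Adj a b ∧
                r = FreeGroup.of a * FreeGroup.of b * (FreeGroup.of a)⁻¹ * (FreeGroup.of b)⁻¹} w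
              = (f x)⁻¹ * f y ∧ w.toWord.length ≤ K * N + C) ∧
        (∀ x y (N : ℕ),
          (∃ w : FreeGroup (Fin m), PresentedGroup.mk {r : FreeGroup (Fin m) |
              ∃ a b, Λ.Adj a b ∧
                r = FreeGroup.of a * FreeGroup.of b * (FreeGroup.of a)⁻¹ * (FreeGroup.of b)⁻¹} w
              = (f x)⁻¹ * f y ∧ w.toWord.length ≤ N) →
          ∃ w : FreeGroup (Fin n), PresentedGroup.mk {r : FreeGroup (Fin n) |
              (∃ a, r = FreeGroup.of a * FreeGroup.of a) ∨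
              ∃ a b, Γ.Adj a b ∧ r = (FreeGroup.of a * FreeGroup.of b) ^ 2} w = x⁻¹ * y ∧
            w.toWord.length ≤ K * N + C) ∧
        (∀ z, ∃ x, ∃ w : FreeGroup (Fin m), PresentedGroup.mk {r : FreeGroup (Fin m) |
              ∃ a b, Λ.Adj a b ∧
                r = FreeGroup.of a * FreeGroup.of b * (FreeGroup.of a)⁻¹ * (FreeGroup.of b)⁻¹} w
              = (f x)⁻¹ * z ∧ w.toWord.length ≤ C) := by
  refine ⟨_, Gam, ?_, ?_⟩
  · rintro m Λ ⟨H₁, H₂, h1, h2, ⟨ψ⟩⟩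
    exact nc_frozen hFIN hCOM hREL hPRE m Λ H₁ H₂ h1 h2 ψ
  · obtain ⟨f, K, hf⟩ := qs_main hQIA hQIW hREL hPRE
    obtain ⟨a1, a2, a3⟩ := qi_frozen f K hf
    exact ⟨_, Lam, f, K, 0, a1, a2, a3⟩

end Pool.Agent.H56Q
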