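import Pool.Agent.Helper2GI.Par

/-!
# Definitions for project RQ (helper56): a right-angled Coxeter group which is quasi-isometric to a
right-angled Artin group and not commensurable to any right-angled Artin group (frozen S03025).

All groups are right-angled Coxeter groups of `Pool.Agent.Helper2GI` (structure `RA E`, group `G.W`,
generators `G.g a`, word evaluation `G.ev`, length `G.len`, parities `par a`, walls = reflections `t`
with `side x t` = number modulo 2 of crossings of the wall of `t` by a path from `1` to `x`, parabolic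
subgroups `Par Z`).
-/

set_option autoImplicit false

namespace Pool.Agent.H56Q

open Pool.Agent.Helper2GI Pool.Agent.Helper2GI.RA

/-- letters of the blown-up graph: a twin vertex `v` has the two letters `(v,false)`, `(v,true)`,
a single vertex only the letter `(v,false)` -/
abbrev Lt {V : Type} (tw : V → Prop) : Type := {p : V × Bool // p.2 = true → tw p.1}

/-- the right-angled Coxeter system of a graph `D` in which the vertices with `tw` are doubled
(vertex group infinite dihedral) and the others are not (vertex group of order two) -/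
def TG {V : Type} (D : SimpleGraph V) (tw : V → Prop) : RA (Lt tw) where
  adj p q := D.Adj p.1.1 q.1.1
  symm := fun h => h.symm
  irr := fun _ => D.irrefl

/-- even elements: every generator occurs an even number of times -/
def Ev {E : Type} {G : RA E} (x : G.W) : Prop := ∀ a : E, par a x = 1

/-- no positive powers commute -/
def NoPow {Q : Type} [Group Q] (x y : Q) : Prop :=
  ∀ a b : ℕ, 0 < a → 0 < b → x ^ a * y ^ b ≠ y ^ b * x ^ a

/-- no triangles -/
def NT {V : Type} (D : SimpleGraph V) : Prop := ∀ a b c, D.Adj a b → D.Adj b c → ¬ D.Adj a c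

/-- no cycles of length four -/
def NS {V : Type} (D : SimpleGraph V) : Prop :=
  ∀ a b c d, a ≠ c → b ≠ d → D.Adj a b → D.Adj b c → D.Adj c d → ¬ D.Adj d a

section
variable {V : Type} {D : SimpleGraph V} {tw : V → Prop}

/-- vertex group of `v` -/
def InD (v : V) (x : (TG D tw).W) : Prop := Par (fun a => a.1.1 = v) x

/-- star group of `v` -/
def InS (v : V) (x : (TG D tw).W) : Prop := Par (fun a => a.1.1 = v ∨ D.Adj v a.1.1) x

end

/-- closed walks of length five -/
def Wk {V : Type} (D : SimpleGraph V) : Type := {σ : ZMod 5 → V // ∀ i, D.Adj (σ i) (σ (i + 1))}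

/-- the reversed walk -/
def Wk.neg {V : Type} {D : SimpleGraph V} (σ : Wk D) : Wk D :=
  ⟨fun i => σ.1 (-i), fun i => by
    have h := (σ.2 (-i - 1)).symm
    have h1 : -i - 1 + 1 = -i := by ring
    have h2 : -i - 1 = -(i + 1) := by ring
    rw [h1, h2] at h
    exact h⟩

/-- the shifted walk -/
def Wk.shift {V : Type} {D : SimpleGraph V} (σ : Wk D) : Wk D :=
  ⟨fun i => σ.1 (i + 1), fun i => σ.2 (i + 1)⟩

/-- the pentagon `(i,false)` with a pendant vertex `(i,true)` at each vertex -/
def Pen : SimpleGraph (ZMod 5 × Bool) where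
  Adj p q := (p.2 = false ∧ q.2 = false ∧ (q.1 = p.1 + 1 ∨ p.1 = q.1 + 1)) ∨
    (p.1 = q.1 ∧ p.2 ≠ q.2)
  symm := ⟨by
    rintro ⟨i, a⟩ ⟨j, b⟩ h
    rcases h with ⟨h1, h2, h3⟩ | ⟨h1, h2⟩
    · exact Or.inl ⟨h2, h1, h3.symm⟩
    · exact Or.inr ⟨h1.symm, h2.symm⟩⟩
  loopless := ⟨by
    rintro ⟨i, a⟩ h
    rcases h with ⟨_, _, h3⟩ | ⟨_, h2⟩
    · have h10 : (1 : ZMod 5) ≠ 0 := by decide
      rcases h3 with h3 | h3 <;> exact h10 (by simpa using h3)
    · exact h2 rfl⟩

/-- the vertices of the pentagon -/
def cyc (p : ZMod 5 × Bool) : Prop := p.2 = false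

/-- the system of the example: the vertices of the pentagon are doubled, the pendant ones not -/
abbrev GW : RA (Lt cyc) := TG Pen cyc

/-- everything doubled -/
abbrev TT {V : Type} (D : SimpleGraph V) : RA (Lt (fun _ : V => True)) := TG D (fun _ => True)

/-- the right-angled Artin group as in the frozen statement -/
abbrev RAF {m : ℕ} (Λ : SimpleGraph (Fin m)) : Type := PresentedGroup {r : FreeGroup (Fin m) |
  ∃ a b, Λ.Adj a b ∧
    r = FreeGroup.of a * FreeGroup.of b * (FreeGroup.of a)⁻¹ * (FreeGroup.of b)⁻¹}

/-- the right-angled Coxeter group as in the frozen statement -/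
abbrev RCF {n : ℕ} (Γ : SimpleGraph (Fin n)) : Type := PresentedGroup {r : FreeGroup (Fin n) |
  (∃ a, r = FreeGroup.of a * FreeGroup.of a) ∨
  ∃ a b, Γ.Adj a b ∧ r = (FreeGroup.of a * FreeGroup.of b) ^ 2}

end Pool.Agent.H56Q
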