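import Pool.Agent.H56Q.K46

set_option autoImplicit false

namespace Pool.Agent.H56Q

open Pool.Agent.Helper2GI Pool.Agent.Helper2GI.RA K46

theorem t_GTH (hI : S_INT) (hC : S_CJ) (hD : S_DC) (hT : S_TF) : S_GTH := by
  intro V D tw nt
  have powne : ∀ (x : (TG D tw).W) (p : ℤ), Ev x → x ≠ 1 → p ≠ 0 → x ^ p ≠ 1 := by
    intro x p hx h1 hp h2
    apply h1
    refine hT _ (TG D tw) x p.natAbs hx (Int.natAbs_pos.2 hp) ?_
    rcases Int.natAbs_eq p with h | h
    · rw [h] at h2
      rwa [zpow_natCast] at h2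
    · rw [h, zpow_neg, zpow_natCast, inv_eq_one] at h2
      exact h2
  refine ⟨?_, ?_⟩
  · intro v w g g' x y ex ey x1 y1 hx hy
    constructor
    · rintro ⟨p, q, hp, hq, hpq⟩
      have c1 : x ^ p ≠ 1 := powne x p ex x1 hp
      have cx : ∀ (u : (TG D tw).W) (n : ℤ) (k : (TG D tw).W),
          k⁻¹ * u ^ n * k = (k⁻¹ * u * k) ^ n := by
        intro u n k
        have := conj_zpow (a := k⁻¹) (b := u) (i := n)
        rw [inv_inv] at this
        exact this.symm
      have powD : ∀ (v : V) (u : (TG D tw).W) (n : ℤ), InD v u → InD v (u ^ n) := by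
        intro v u n hu
        have hnat : ∀ m : ℕ, InD v (u ^ m) := by
          intro m
          induction m with
          | zero => rw [pow_zero]; exact Par.one _
          | succ m ih => rw [pow_succ]; exact Par.mul ih hu
        rcases Int.natAbs_eq n with h | h
        · rw [h, zpow_natCast]; exact hnat _
        · rw [h, zpow_neg, zpow_natCast]; exact Par.inv (hnat _)
      have cv : InD v (g⁻¹ * x ^ p * g) := by rw [cx]; exact powD v _ p hx
      have cw : InD w (g'⁻¹ * x ^ p * g') := by rw [hpq, cx]; exact powD w _ q hy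
      obtain ⟨k, _, hk2⟩ := hI _ (TG D tw) (fun a => a.1.1 = v) (fun a => a.1.1 = w) g g'
      have h3 := hk2 (x ^ p) cv cw
      have hvw : v = w := by
        by_contra hne
        have h4 := par_empty (fun a ha => hne (ha.1.symm.trans ha.2)) h3
        apply c1
        have h5 : x ^ p = k * (k⁻¹ * x ^ p * k) * k⁻¹ := by group
        rw [h5, h4]; group
      subst hvw
      refine ⟨rfl, ?_⟩
      have h6 : InS v (g'⁻¹ * g) := by
        refine hC V D tw v (g⁻¹ * x ^ p * g) (g'⁻¹ * g) (ev_conj' (ev_zpow ex p) g) ?_ cv ?_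
        · intro h
          apply c1
          have h5 : x ^ p = g * (g⁻¹ * x ^ p * g) * g⁻¹ := by group
          rw [h5, h]; group
        · have h7 : g'⁻¹ * g * (g⁻¹ * x ^ p * g) * (g'⁻¹ * g)⁻¹ = g'⁻¹ * x ^ p * g' := by group
          rw [h7]; exact cw
      have h8 := Par.inv h6
      rw [mul_inv_rev, inv_inv] at h8
      exact h8
    · rintro ⟨rfl, hs⟩
      have h1 : InD v (g⁻¹ * y * g) := by
        have := normD hs hy
        have h7 : g⁻¹ * g' * (g'⁻¹ * y * g') * (g⁻¹ * g')⁻¹ = g⁻¹ * y * g := by group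
        rwa [h7] at this
      have hne : ∀ u : (TG D tw).W, u ≠ 1 → g⁻¹ * u * g ≠ 1 := by
        intro u hu h
        apply hu
        have h5 : u = g * (g⁻¹ * u * g) * g⁻¹ := by group
        rw [h5, h]; group
      obtain ⟨p, q, hp, hq, hpq⟩ := (hD V D tw v _ _ (ev_conj' ex g) (ev_conj' ey g) hx h1).2
        (hne x x1) (hne y y1)
      refine ⟨p, q, hp, hq, ?_⟩
      have cx : ∀ (u : (TG D tw).W) (n : ℤ), (g⁻¹ * u * g) ^ n = g⁻¹ * u ^ n * g := by
        intro u n
        have := conj_zpow (a := g⁻¹) (b := u) (i := n)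
        rwa [inv_inv] at this
      rw [cx, cx] at hpq
      have := congrArg (fun t => g * t * g⁻¹) hpq
      simpa [mul_assoc] using this
  · intro σ k hk
    have h01 := Par.inter (hk 0) (hk 1)
    have h012 := Par.inter h01 (hk 2)
    have h0123 := Par.inter h012 (hk 3)
    have hall := Par.inter h0123 (hk 4)
    refine par_empty ?_ hall
    rintro a ⟨⟨⟨⟨k0, k1⟩, k2⟩, k3⟩, k4⟩
    have hA : ∀ i : ZMod 5, a.1.1 = σ.1 i ∨ D.Adj (σ.1 i) a.1.1 := by
      intro i
      fin_cases i
      · exact k0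
      · exact k1
      · exact k2
      · exact k3
      · exact k4
    have adj : ∀ i, D.Adj (σ.1 i) (σ.1 (i + 1)) := σ.2
    have n2 : ∀ i, ¬ D.Adj (σ.1 i) (σ.1 (i + 2)) := by
      intro i
      have h1 := adj (i + 1)
      have h2 : i + 1 + 1 = i + 2 := by ring
      rw [h2] at h1
      exact nt _ _ _ (adj i) h1
    have ne2 : ∀ i, σ.1 i ≠ σ.1 (i + 2) := by
      intro i h
      have h1 := n2 (i + 2)
      have h2 : i + 2 + 2 = i + 4 := by ring
      rw [h2, ← h] at h1
      apply h1
      have h3 := (adj (i + 4)).symm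
      have h4 : i + 4 + 1 = i := by
        have : (4 : ZMod 5) + 1 = 0 := by decide
        rw [add_assoc, this, add_zero]
      rwa [h4] at h3
    have hno : ∀ i, a.1.1 ≠ σ.1 i := by
      intro i hi
      rcases hA (i + 2) with h | h
      · exact ne2 i (hi.symm.trans h)
      · rw [hi] at h
        exact n2 i h.symm
    have b0 := (hA 0).resolve_left (hno 0)
    have b1 := (hA (0 + 1)).resolve_left (hno (0 + 1))
    exact nt _ _ _ (adj 0) b1 b0

end Pool.Agent.H56Q
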