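import Pool.Agent.H56Q.Stm

/-!
Auxiliary lemmas for the pieces GTH and NSQ.
-/

set_option autoImplicit false

namespace Pool.Agent.H56Q.K46

open Pool.Agent.Helper2GI Pool.Agent.Helper2GI.RA Pool.Agent.H56Q

section gen
variable {E : Type} {G : RA E}

theorem ev_conj {x : G.W} (h : Ev x) (k : G.W) : Ev (k * x * k⁻¹) := by
  intro a
  rw [map_mul, map_mul, h a, mul_one, map_inv, mul_inv_cancel]

theorem ev_conj' {x : G.W} (h : Ev x) (k : G.W) : Ev (k⁻¹ * x * k) := by
  have := ev_conj h k⁻¹
  rwa [inv_inv] at this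

theorem ev_zpow {x : G.W} (h : Ev x) (n : ℤ) : Ev (x ^ n) := by
  intro a
  rw [map_zpow, h a, one_zpow]

theorem par_commute {Z Z' : E → Prop} (h : ∀ a b, Z a → Z' b → G.adj a b) {x y : G.W}
    (hx : Par Z x) (hy : Par Z' y) : x * y = y * x := by
  obtain ⟨m, hm, rfl⟩ := hx
  have key : ∀ a, Z a → G.g a * y = y * G.g a := by
    intro a ha
    obtain ⟨m', hm', rfl⟩ := hy
    clear hm
    induction m' with
    | nil => simp
    | cons b m' ih =>
      have h1 := ih (fun c hc => hm' c (List.mem_cons_of_mem b hc))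
      have h2 : G.g a * G.g b = G.g b * G.g a := gcomm (h a b ha (hm' b List.mem_cons_self))
      rw [ev_cons, ← mul_assoc, h2, mul_assoc, h1, mul_assoc]
  induction m with
  | nil => simp
  | cons a m ih =>
    have h1 := ih (fun c hc => hm c (List.mem_cons_of_mem a hc))
    have h2 := key a (hm a List.mem_cons_self)
    rw [ev_cons, mul_assoc, h1, ← mul_assoc, h2, mul_assoc]

theorem par_empty {Z : E → Prop} (h : ∀ a, ¬ Z a) {x : G.W} (hx : Par Z x) : x = 1 := by
  obtain ⟨m, hm, rfl⟩ := hx
  cases m with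
  | nil => rfl
  | cons a m => exact absurd (hm a List.mem_cons_self) (h a)

theorem par_one_of {Z : E → Prop} {a : E} (h : ¬ Z a) {x : G.W} (hx : Par Z x) :
    par a x = 1 := by
  obtain ⟨m, hm, rfl⟩ := hx
  induction m with
  | nil => simp
  | cons b m ih =>
    rw [ev_cons, map_mul, ih (fun c hc => hm c (List.mem_cons_of_mem b hc)), mul_one]
    refine par_ne ?_
    intro hb
    exact h (hb ▸ hm b List.mem_cons_self)

/-- splitting of a product of two commuting parabolic subgroups -/
theorem par_split {Z Z' : E → Prop} (h : ∀ a b, Z a → Z' b → G.adj a b) {x : G.W}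
    (hx : Par (fun a => Z a ∨ Z' a) x) : ∃ y z, Par Z y ∧ Par Z' z ∧ x = y * z := by
  obtain ⟨m, hm, rfl⟩ := hx
  induction m with
  | nil => exact ⟨1, 1, Par.one _, Par.one _, by simp⟩
  | cons a m ih =>
    obtain ⟨y, z, hy, hz, he⟩ := ih (fun c hc => hm c (List.mem_cons_of_mem a hc))
    rcases hm a List.mem_cons_self with ha | ha
    · exact ⟨G.g a * y, z, (Par.gen ha).mul hy, hz, by rw [ev_cons, he, mul_assoc]⟩
    · refine ⟨y, G.g a * z, hy, (Par.gen ha).mul hz, ?_⟩
      have h2 : y * G.g a = G.g a * y := par_commute h hy (Par.gen ha)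
      rw [ev_cons, he, ← mul_assoc, ← mul_assoc, h2]

end gen

section gr
variable {V : Type} {D : SimpleGraph V} {tw : V → Prop}

theorem inS_of_inD {v : V} {x : (TG D tw).W} (h : InD v x) : InS v x :=
  Par.mono (fun _ ha => Or.inl ha) h

/-- the star group normalizes the vertex group -/
theorem normD {v : V} {s x : (TG D tw).W} (hs : InS v s) (hx : InD v x) :
    InD v (s * x * s⁻¹) := by
  obtain ⟨m, hm, rfl⟩ := hs
  induction m with
  | nil => simpa using hx
  | cons a m ih =>
    have h1 := ih (fun c hc => hm c (List.mem_cons_of_mem a hc))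
    have e1 : (TG D tw).ev (a :: m) * x * ((TG D tw).ev (a :: m))⁻¹ =
        (TG D tw).g a * ((TG D tw).ev m * x * ((TG D tw).ev m)⁻¹) * ((TG D tw).g a)⁻¹ := by
      rw [ev_cons]; group
    rw [e1]
    rcases hm a List.mem_cons_self with ha | ha
    · have h2 : InD v ((TG D tw).g a) := Par.gen (Z := fun a : Lt tw => a.1.1 = v) ha
      exact (Par.mul (Par.mul h2 h1) (Par.inv h2))
    · have h3 : (TG D tw).g a * ((TG D tw).ev m * x * ((TG D tw).ev m)⁻¹) =
          ((TG D tw).ev m * x * ((TG D tw).ev m)⁻¹) * (TG D tw).g a := by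
        refine par_commute (Z := fun b : Lt tw => b.1.1 = a.1.1) (Z' := fun b : Lt tw => b.1.1 = v)
          ?_ (Par.gen rfl) h1
        intro b c hb hc
        show D.Adj b.1.1 c.1.1
        rw [hb, hc]; exact ha.symm
      rw [h3, mul_assoc, mul_inv_cancel, mul_one]
      exact h1

end gr

end Pool.Agent.H56Q.K46
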