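import Pool.Agent.H56Q.Qs

/-! Assembly: the frozen statement from the pieces. -/

set_option autoImplicit false

namespace Pool.Agent.H56Q

open Pool.Agent.Helper2GI Pool.Agent.Helper2GI.RA

/-- generators and inverses in a presented group -/
def GI {n : ℕ} (rels : Set (FreeGroup (Fin n))) : Set (PresentedGroup rels) :=
  {y | ∃ a, y = PresentedGroup.of a ∨ y = (PresentedGroup.of a)⁻¹}

/-- generators of a Coxeter group -/
def GG {E : Type} (G : RA E) : Set G.W := {y | ∃ a, y = G.g a}

theorem LS_ev {E : Type} {G : RA E} (l : List E) {n : ℕ} (h : l.length ≤ n) :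
    LS (GG G) n (G.ev l) := by
  refine LS.mono ?_ h
  induction l with
  | nil => exact LS.one _ _
  | cons a l ih =>
    have h1 : l.length ≤ n := by rw [List.length_cons] at h; omega
    rw [ev_cons, List.length_cons, Nat.add_comm]
    exact LS.mul (LS.mem ⟨a, rfl⟩) (ih h1)

/-- the letters of the example as a set of 15 elements -/
abbrev E15 : Type := (ZMod 5 × Bool) ⊕ (ZMod 5 × Unit)

noncomputable def e15 : E15 ≃ Fin (Fintype.card E15) := Fintype.equivFin E15

noncomputable def e10 : (ZMod 5 × Bool) ≃ Fin (Fintype.card (ZMod 5 × Bool)) :=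
  Fintype.equivFin (ZMod 5 × Bool)

/-- the graph of the example -/
def Gam : SimpleGraph (Fin (Fintype.card E15)) where
  Adj a b := (PG Unit).adj (e15.symm a) (e15.symm b)
  symm := ⟨fun _ _ h => (PG Unit).symm h⟩
  loopless := ⟨fun a h => (PG Unit).irr _ h⟩

/-- the Coxeter system of the example on `Fin` -/
def GF : RA (Fin (Fintype.card E15)) where
  adj a b := (PG Unit).adj (e15.symm a) (e15.symm b)
  symm := fun h => (PG Unit).symm h
  irr := fun a h => (PG Unit).irr _ h

/-- the graph of the Artin group -/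
def Lam : SimpleGraph (Fin (Fintype.card (ZMod 5 × Bool))) where
  Adj a b := Pen.Adj (e10.symm a) (e10.symm b)
  symm := ⟨fun _ _ h => h.symm⟩
  loopless := ⟨fun a h => Pen.irrefl h⟩

/-- the letters of `PG Unit` and `GW` -/
def lU : E15 ≃ Lt cyc where
  toFun p := match p with
    | Sum.inl a => ⟨((a.1, false), a.2), fun _ => rfl⟩
    | Sum.inr a => ⟨((a.1, true), false), fun h => by cases h⟩
  invFun p := if p.1.1.2 then Sum.inr (p.1.1.1, ()) else Sum.inl (p.1.1.1, p.1.2)
  left_inv := by
    rintro (⟨a, b⟩ | ⟨a, b⟩)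
    · rfl
    · rfl
  right_inv := by
    rintro ⟨⟨⟨a, b⟩, c⟩, h⟩
    cases b with
    | false => rfl
    | true =>
      cases c with
      | false => rfl
      | true => exact absurd (h rfl) (by unfold cyc; simp)

theorem lU_adj (a b : E15) : (PG Unit).adj a b ↔ GW.adj (lU a) (lU b) := by
  rcases a with ⟨a, c⟩ | ⟨a, c⟩ <;> rcases b with ⟨b, d⟩ | ⟨b, d⟩
  · constructor
    · intro h; exact Or.inl ⟨rfl, rfl, h⟩
    · rintro (⟨_, _, h⟩ | ⟨_, h⟩)
      · exact h
      · exact absurd rfl h
  · constructor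
    · intro h; exact Or.inr ⟨h, by simp [lU]⟩
    · rintro (⟨_, h, _⟩ | ⟨h, _⟩)
      · exact absurd h (by simp [lU])
      · exact h
  · constructor
    · intro h; exact Or.inr ⟨h, by simp [lU]⟩
    · rintro (⟨h, _, _⟩ | ⟨h, _⟩)
      · exact absurd h (by simp [lU])
      · exact h
  · constructor
    · intro h; exact h.elim
    · rintro (⟨h, _, _⟩ | ⟨_, h⟩)
      · exact absurd h (by simp [lU])
      · exact absurd rfl h

/-- the letters of `PG Bool` and the doubled graph on `Fin` -/
noncomputable def lB : ((ZMod 5 × Bool) ⊕ (ZMod 5 × Bool)) ≃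
    Lt (fun _ : Fin (Fintype.card (ZMod 5 × Bool)) => True) where
  toFun p := match p with
    | Sum.inl a => ⟨(e10 (a.1, false), a.2), fun _ => trivial⟩
    | Sum.inr a => ⟨(e10 (a.1, true), a.2), fun _ => trivial⟩
  invFun p := if (e10.symm p.1.1).2 then Sum.inr ((e10.symm p.1.1).1, p.1.2)
    else Sum.inl ((e10.symm p.1.1).1, p.1.2)
  left_inv := by
    rintro (⟨a, b⟩ | ⟨a, b⟩)
    · simp
    · simp
  right_inv := by
    rintro ⟨⟨a, c⟩, h⟩
    obtain ⟨⟨x, b⟩, rfl⟩ := e10.surjective a
    cases b with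
    | false => simp
    | true => simp

theorem lB_adj (a b : (ZMod 5 × Bool) ⊕ (ZMod 5 × Bool)) :
    (PG Bool).adj a b ↔ (TT Lam).adj (lB a) (lB b) := by
  have key : ∀ p q : ZMod 5 × Bool, Lam.Adj (e10 p) (e10 q) ↔ Pen.Adj p q := by
    intro p q
    show Pen.Adj (e10.symm (e10 p)) (e10.symm (e10 q)) ↔ _
    rw [Equiv.symm_apply_apply, Equiv.symm_apply_apply]
  rcases a with ⟨a, c⟩ | ⟨a, c⟩ <;> rcases b with ⟨b, d⟩ | ⟨b, d⟩
  · refine Iff.trans ?_ (key (a, false) (b, false)).symm
    constructor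
    · intro h; exact Or.inl ⟨rfl, rfl, h⟩
    · rintro (⟨_, _, h⟩ | ⟨_, h⟩)
      · exact h
      · exact absurd rfl h
  · refine Iff.trans ?_ (key (a, false) (b, true)).symm
    constructor
    · intro h; exact Or.inr ⟨h, by simp⟩
    · rintro (⟨_, h, _⟩ | ⟨h, _⟩)
      · exact absurd h (by simp)
      · exact h
  · refine Iff.trans ?_ (key (a, true) (b, false)).symm
    constructor
    · intro h; exact Or.inr ⟨h, by simp⟩
    · rintro (⟨h, _, _⟩ | ⟨h, _⟩)
      · exact absurd h (by simp)
      · exact h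
  · refine Iff.trans ?_ (key (a, true) (b, true)).symm
    constructor
    · intro h; exact h.elim
    · rintro (⟨h, _, _⟩ | ⟨_, h⟩)
      · exact absurd h (by simp)
      · exact absurd rfl h

end Pool.Agent.H56Q
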