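import Pool.Agent.H56Q.Stm

/-! Step maps between groups with generating sets, and word lengths in presented groups. -/

set_option autoImplicit false

namespace Pool.Agent.H56Q

open Pool.Agent.Helper2GI Pool.Agent.Helper2GI.RA

/-- products of at most `n` elements of `S` -/
def LS {A : Type} [Group A] (S : Set A) (n : ℕ) (x : A) : Prop :=
  ∃ l : List A, (∀ a ∈ l, a ∈ S) ∧ l.length ≤ n ∧ l.prod = x

theorem LS.one {A : Type} [Group A] (S : Set A) (n : ℕ) : LS S n 1 := ⟨[], by simp, by simp, rfl⟩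

theorem LS.mem {A : Type} [Group A] {S : Set A} {x : A} (h : x ∈ S) : LS S 1 x :=
  ⟨[x], by simpa using h, by simp, by simp⟩

theorem LS.mul {A : Type} [Group A] {S : Set A} {m n : ℕ} {x y : A} (hx : LS S m x)
    (hy : LS S n y) : LS S (m + n) (x * y) := by
  obtain ⟨l, h1, h2, rfl⟩ := hx
  obtain ⟨k, h3, h4, rfl⟩ := hy
  refine ⟨l ++ k, ?_, ?_, by simp⟩
  · intro a ha
    rcases List.mem_append.1 ha with h | h
    · exact h1 a h
    · exact h3 a h
  · rw [List.length_append]; omega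

theorem LS.mono {A : Type} [Group A] {S : Set A} {m n : ℕ} {x : A} (hx : LS S m x) (h : m ≤ n) :
    LS S n x := by
  obtain ⟨l, h1, h2, h3⟩ := hx
  exact ⟨l, h1, h2.trans h, h3⟩

/-- step maps -/
structure QS {A B : Type} [Group A] [Group B] (SA : Set A) (SB : Set B) (c : ℕ) (f : A ≃ B) :
    Prop where
  fwd : ∀ x, ∀ s ∈ SA, ∃ b, LS SB c b ∧ f (x * s) = f x * b
  bwd : ∀ x, ∀ t ∈ SB, ∃ a, LS SA c a ∧ f (x * a) = f x * t

theorem QS.fwdl {A B : Type} [Group A] [Group B] {SA : Set A} {SB : Set B} {c : ℕ} {f : A ≃ B}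
    (h : QS SA SB c f) : ∀ (l : List A) (x : A), (∀ a ∈ l, a ∈ SA) →
      ∃ b, LS SB (c * l.length) b ∧ f (x * l.prod) = f x * b := by
  intro l
  induction l with
  | nil => intro x _; exact ⟨1, LS.one _ _, by simp⟩
  | cons a l ih =>
    intro x hl
    obtain ⟨b, hb, h1⟩ := h.fwd x a (hl a (List.mem_cons_self))
    obtain ⟨b', hb', h2⟩ := ih (x * a) (fun y hy => hl y (List.mem_cons_of_mem a hy))
    refine ⟨b * b', ?_, ?_⟩
    · rw [List.length_cons]
      exact (hb.mul hb').mono (by ring_nf; omega)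
    · rw [List.prod_cons, ← mul_assoc, h2, h1, mul_assoc]

theorem QS.bwdl {A B : Type} [Group A] [Group B] {SA : Set A} {SB : Set B} {c : ℕ} {f : A ≃ B}
    (h : QS SA SB c f) : ∀ (l : List B) (x : A), (∀ a ∈ l, a ∈ SB) →
      ∃ a, LS SA (c * l.length) a ∧ f (x * a) = f x * l.prod := by
  intro l
  induction l with
  | nil => intro x _; exact ⟨1, LS.one _ _, by simp⟩
  | cons b l ih =>
    intro x hl
    obtain ⟨a, ha, h1⟩ := h.bwd x b (hl b (List.mem_cons_self))
    obtain ⟨a', ha', h2⟩ := ih (x * a) (fun y hy => hl y (List.mem_cons_of_mem b hy))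
    refine ⟨a * a', ?_, ?_⟩
    · rw [List.length_cons]
      exact (ha.mul ha').mono (by ring_nf; omega)
    · rw [List.prod_cons, ← mul_assoc, h2, h1, mul_assoc]

theorem QS.fwdn {A B : Type} [Group A] [Group B] {SA : Set A} {SB : Set B} {c : ℕ} {f : A ≃ B}
    (h : QS SA SB c f) {n : ℕ} {x a : A} (ha : LS SA n a) :
      ∃ b, LS SB (c * n) b ∧ f (x * a) = f x * b := by
  obtain ⟨l, h1, h2, rfl⟩ := ha
  obtain ⟨b, hb, h3⟩ := h.fwdl l x h1
  exact ⟨b, hb.mono (Nat.mul_le_mul_left c h2), h3⟩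

theorem QS.bwdn {A B : Type} [Group A] [Group B] {SA : Set A} {SB : Set B} {c : ℕ} {f : A ≃ B}
    (h : QS SA SB c f) {n : ℕ} {x : A} {b : B} (hb : LS SB n b) :
      ∃ a, LS SA (c * n) a ∧ f (x * a) = f x * b := by
  obtain ⟨l, h1, h2, rfl⟩ := hb
  obtain ⟨a, ha, h3⟩ := h.bwdl l x h1
  exact ⟨a, ha.mono (Nat.mul_le_mul_left c h2), h3⟩

theorem QS.comp {A B C : Type} [Group A] [Group B] [Group C] {SA : Set A} {SB : Set B}
    {SC : Set C} {c d : ℕ} {f : A ≃ B} {g : B ≃ C} (h : QS SA SB c f) (h' : QS SB SC d g) :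
    QS SA SC (d * c + c * d) (f.trans g) := by
  constructor
  · intro x s hs
    obtain ⟨b, hb, h1⟩ := h.fwd x s hs
    obtain ⟨e, he, h2⟩ := h'.fwdn (x := f x) hb
    refine ⟨e, he.mono (by omega), ?_⟩
    rw [Equiv.trans_apply, Equiv.trans_apply, h1, h2]
  · intro x t ht
    obtain ⟨b, hb, h1⟩ := h'.bwd (f x) t ht
    obtain ⟨a, ha, h2⟩ := h.bwdn (x := x) hb
    refine ⟨a, ha.mono (by omega), ?_⟩
    rw [Equiv.trans_apply, Equiv.trans_apply, h2, h1]

/-- isomorphisms matching the generating sets -/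
theorem QS.ofIso {A B : Type} [Group A] [Group B] {SA : Set A} {SB : Set B} (f : A ≃* B)
    (h1 : ∀ s ∈ SA, f s ∈ SB) (h2 : ∀ t ∈ SB, ∃ s ∈ SA, f s = t) : QS SA SB 1 f.toEquiv := by
  constructor
  · intro x s hs
    exact ⟨f s, LS.mem (h1 s hs), map_mul f x s⟩
  · intro x t ht
    obtain ⟨s, hs, rfl⟩ := h2 t ht
    exact ⟨s, LS.mem hs, map_mul f x s⟩

/-- from products of generators to words -/
theorem word_of_LS {α : Type} [DecidableEq α] {rels : Set (FreeGroup α)} {n : ℕ}
    {x : PresentedGroup rels}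
    (h : LS {y : PresentedGroup rels | ∃ a, y = PresentedGroup.of a ∨ y = (PresentedGroup.of a)⁻¹} n x) :
    ∃ w : FreeGroup α, PresentedGroup.mk rels w = x ∧ w.toWord.length ≤ n := by
  obtain ⟨l, h1, h2, rfl⟩ := h
  induction l generalizing n with
  | nil => exact ⟨1, by simp, by simp⟩
  | cons a l ih =>
    rw [List.length_cons] at h2
    obtain ⟨w, hw, hl⟩ := ih (n := n - 1) (fun b hb => h1 b (List.mem_cons_of_mem a hb)) (by omega)
    obtain ⟨i, hi⟩ := h1 a (List.mem_cons_self)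
    rcases hi with hi | hi
    · refine ⟨FreeGroup.of i * w, ?_, ?_⟩
      · rw [map_mul, hw, List.prod_cons, hi]; rfl
      · have h3 := FreeGroup.norm_mul_le (FreeGroup.of i) w
        rw [FreeGroup.norm_of] at h3
        have h4 : (FreeGroup.of i * w).norm = (FreeGroup.of i * w).toWord.length := rfl
        have h5 : w.norm = w.toWord.length := rfl
        omega
    · refine ⟨(FreeGroup.of i)⁻¹ * w, ?_, ?_⟩
      · rw [map_mul, hw, List.prod_cons, hi, map_inv]; rfl
      · have h3 := FreeGroup.norm_mul_le ((FreeGroup.of i)⁻¹) w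
        rw [FreeGroup.norm_inv_eq, FreeGroup.norm_of] at h3
        have h4 : ((FreeGroup.of i)⁻¹ * w).norm = ((FreeGroup.of i)⁻¹ * w).toWord.length := rfl
        have h5 : w.norm = w.toWord.length := rfl
        omega

/-- from words to products of generators -/
theorem LS_of_word {α : Type} [DecidableEq α] {rels : Set (FreeGroup α)} {n : ℕ}
    (w : FreeGroup α) (h : w.toWord.length ≤ n) :
    LS {y : PresentedGroup rels | ∃ a, y = PresentedGroup.of a ∨ y = (PresentedGroup.of a)⁻¹} n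
      (PresentedGroup.mk rels w) := by
  have key : ∀ L : List (α × Bool), LS {y : PresentedGroup rels | ∃ a, y = PresentedGroup.of a ∨
      y = (PresentedGroup.of a)⁻¹} L.length (PresentedGroup.mk rels (FreeGroup.mk L)) := by
    intro L
    induction L with
    | nil =>
      have : (FreeGroup.mk ([] : List (α × Bool))) = 1 := rfl
      rw [this, map_one]; exact LS.one _ _
    | cons a L ih =>
      have h1 : FreeGroup.mk (a :: L) = FreeGroup.mk [a] * FreeGroup.mk L := by
        rw [FreeGroup.mul_mk]; rfl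
      rw [h1, map_mul, List.length_cons, Nat.add_comm]
      refine LS.mul (LS.mem ?_) ih
      obtain ⟨i, b⟩ := a
      cases b with
      | true => exact ⟨i, Or.inl rfl⟩
      | false =>
        refine ⟨i, Or.inr ?_⟩
        have : (FreeGroup.mk [(i, false)] : FreeGroup α) = (FreeGroup.of i)⁻¹ := by
          rw [FreeGroup.of, FreeGroup.inv_mk]; rfl
        rw [this, map_inv]; rfl
  have h2 := key w.toWord
  rw [FreeGroup.mk_toWord] at h2
  exact h2.mono h

end Pool.Agent.H56Q
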