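import Pool.Agent.H56Q.Defs

/-!
# Project RQ (helper56): statements of the pieces

Theorem (frozen S03025, full answer of MP_c91b70_al).  Let `W` be the right-angled Coxeter group of the
pentagon with one pendant vertex at each vertex, where the five vertices `v_i` of the pentagon are
doubled (`GW.W`, 15 generators).  Then `W` is quasi-isometric to the right-angled Artin group of the
same graph, but no finite index subgroup of `W` is isomorphic to a finite index subgroup of a
right-angled Artin group.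

Every piece: file `Pool/Agent/H56Q/NAME.lean`, `import Pool.Agent.H56Q.Stm`, namespace
`Pool.Agent.H56Q`, theorem `t_NAME`.  If the docstring says `uses S_X, S_Y` these are HYPOTHESES of
the theorem: `theorem t_NAME (hX : S_X) (hY : S_Y) : S_NAME`.  All pieces are independent.

Notation in the docstrings: `V_v` = star group (`InS v`), `D_v` = vertex group (`InD v`),
`V_v = D_v x Par(link)`.  A wall is a reflection `t = x * g s * x⁻¹`, its type is `s` (unique by
`conj_eq`).  `side x t ≠ 0` : the wall separates `1` from `x`.  `p, q` are separated by `t` iff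
`side p t ≠ side q t`; equivariance `side (x*p) (x*t*x⁻¹) = side x (x*t*x⁻¹) + side p t` (`side_conj`).
-/

set_option autoImplicit false

namespace Pool.Agent.H56Q

open Pool.Agent.Helper2GI Pool.Agent.Helper2GI.RA

/-! ## Part A: general right-angled Coxeter groups -/

/-- HEAD (80 lines).
(1) Two different right descents of `x` are adjacent: apply `cross_wall'` with `x`, `e = s`,
`b = x * g t * x⁻¹`, `p = 1`, `q = x * g t`: `side 1 b = 0`, `side x b ≠ 0` (`len_mul_g_iff`),
`side (x*g t) b = side x b + 1`, `side 1 (x g s x⁻¹) = 0`, `side (x*g t) (x g s x⁻¹) = side x (x g s x⁻¹) ≠ 0`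
(as `g s ≠ g t`); get `g t = y g f y⁻¹`, `f` adjacent to `s`, `t = f` by `conj_eq'`.
(2) If no letter of `Z` is a right descent of `x` then `len (x*c) = len x + len c` for `c` in `Par Z`.
First for `x` of minimal length in its coset `x Par Z`: induct on a reduced word of `c` with letters in `Z`
(take a word of minimal length with letters in `Z`; it is reduced, as `del` deletes letters, or induct on
arbitrary words: prove `len (x*c) = len x + len c` by induction on the length of the `Z`-word), last letter `s`: if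
`len (x c' s) < len (x c')` then the wall `T = x c' s c'⁻¹ x⁻¹` has `side (x c') T ≠ 0`
(`len_mul_g_iff`); `side (x c') T = side x T + side c' (c' s c'⁻¹)`; if `side c' (c' s c'⁻¹) ≠ 0` then
`len (c' s) < len c'`; otherwise `side x T ≠ 0` and `T * x = x * (c' s c'⁻¹)` is shorter
(`len_refl_mul`), contradiction to minimality.  In general write `x = x₀ d` with `x₀` minimal in
`x Par Z`, `d ∈ Par Z`; `len x = len x₀ + len d`; if `d ≠ 1` its last letter is a descent of `x`. -/
def S_HEAD : Prop := ∀ (E : Type) (G : RA E) (x : G.W),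
  (∀ s t : E, G.len (x * G.g s) < G.len x → G.len (x * G.g t) < G.len x → s = t ∨ G.adj s t) ∧
  (∀ Z : E → Prop, (∀ s, Z s → G.len x < G.len (x * G.g s)) →
    ∀ c : G.W, Par Z c → G.len (x * c) = G.len x + G.len c)

/-- GATE (120 lines), uses S_HEAD.  Gate projection onto a parabolic subgroup.
For `x` choose `P x ∈ Par Z` such that `b = (P x)⁻¹ x` has minimal length in `Par Z * x`.  By S_HEAD
applied to `b⁻¹` (lengths of inverses: `len_inv`) `len (a b) = len a + len b` for `a ∈ Par Z`; hence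
`b` is the unique element of minimal length of `(Par Z) x`, so `P (a x) = a P x`, `P 1 = 1`.
`P (x s)`: put `x = a b`.  If `b s` has no left descent in `Z` (i.e. `len (t b s) > len (b s)` for all
`t ∈ Z`) then `b s` is minimal in its coset and `P (x s) = a`.  Otherwise `len (t b s) < len (b s)`,
`t ∈ Z`, while `len (t b) = len b + 1`; then `len (b s) = len b + 1` (else `len (t b s) ≤ len b - 2`
and `len (t b) ≤ len b - 1`) and `t b s = b`: the wall `t` has `side (b s) (g t) ≠ 0`, `side b (g t) = 0`,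
so by `side_mul_g` `b⁻¹ (g t) b = g s`; `conj_eq'` gives `t = s`, so `s ∈ Z`, `s b = b s`, and
`P (x s) = P (a s b) = a s`. -/
def S_GATE : Prop := ∀ (E : Type) (G : RA E) (Z : E → Prop), ∃ P : G.W → G.W,
  (∀ x, Par Z (P x)) ∧ (∀ a x, Par Z a → P (a * x) = a * P x) ∧ P 1 = 1 ∧
  (∀ x s, P (x * G.g s) = P x ∨
    (Z s ∧ P (x * G.g s) = P x * G.g s ∧ G.g s * ((P x)⁻¹ * x) = ((P x)⁻¹ * x) * G.g s)) ∧
  (∀ x a, Par Z a → G.len (a * ((P x)⁻¹ * x)) = G.len a + G.len ((P x)⁻¹ * x))

/-- INT (50 lines), uses S_GATE.  Intersection of two conjugates of parabolic subgroups.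
Put `q = g * P (g⁻¹ g')` with the gate projection `P` onto `Par Z`.  Let `x = g a g⁻¹ = g' b g'⁻¹`,
`a ∈ Par Z`, `b ∈ Par Z'`.  Then `a * P (g⁻¹ g') = P (a g⁻¹ g') = P (g⁻¹ x g') = P (g⁻¹ g' b)`, so
`q⁻¹ x q = (P (g⁻¹ g'))⁻¹ * P (g⁻¹ g' b)`, and moving along the letters of `b` (in `Z'`) the projection
is multiplied only by letters of `Z` and `Z'`: so it is in `Par (Z ∧ Z')`. -/
def S_INT : Prop := ∀ (E : Type) (G : RA E) (Z Z' : E → Prop) (g g' : G.W), ∃ q : G.W,
  Par Z (g⁻¹ * q) ∧ ∀ x : G.W, Par Z (g⁻¹ * x * g) → Par Z' (g'⁻¹ * x * g') →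
    Par (fun a => Z a ∧ Z' a) (q⁻¹ * x * q)

/-- CEN (40 lines).  An even element commuting with the reflection `g s g⁻¹` lies in
`g Par (adjacent to s) g⁻¹`: `centralizer s` and `centralizer_split` for `g⁻¹ x g`, and the parity of
`s` excludes the case `y * g s` (the parity of `s` on `y ∈ Par (adj · s)` is trivial: `par_ne`, `G.irr`;
parities are invariant under conjugation).  Moreover such an `x` does not exchange the sides of the wall:
by `side_conj` style computation `side (x p) t = side p t` for all `p`: reduce to `t = g s`,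
`x = y ∈ Par (adj · s)`: `side (y p) (g s) = side y (g s) + side p (g s)` (as `y` commutes with `g s`),
and `side y (g s) = 0` as the letters of `y` are all different from `s` (`del`/`side_mul_g`:
induction: `y = y' a`, `y'⁻¹ (g s) y' = g s ≠ g a`). -/
def S_CEN : Prop := ∀ (E : Type) (G : RA E) (g x : G.W) (s : E), Ev x →
  x * (g * G.g s * g⁻¹) = (g * G.g s * g⁻¹) * x →
  Par (fun a => G.adj a s) (g⁻¹ * x * g) ∧
    ∀ p, side (x * p) (g * G.g s * g⁻¹) = side p (g * G.g s * g⁻¹)

/-- STR (120 lines), uses S_HEAD.  Even elements are conjugate to straight elements.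
(D1) If `len (u v) = len u + len v` and `s` is a right descent of `u v` and not of `v` then
`v ∈ Par (adj · s)` and `s` is a right descent of `u`.  Induction on `len v`: `v = v' a` reduced; `s` and `a` are
right descents of `u v`, `s ≠ a`, so adjacent (S_HEAD (1)); then `s` is a right descent of `u v'`
(`u v a s = u v s a`, if `len (u v' s) > len (u v')`, then ... : the wall of `s` at `u v` is the wall of `s` at `u v'`
as `a` and `s` commute, `len_mul_g_iff`, `side_mul_g`) and not of `v'`.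
(D2) If `len (u v) < len u + len v` there is a letter `s` which is a right descent of `u` and a left
descent of `v`.  Induction on `len v`, `v = v' a` reduced: if `len (u v') < len u + len v'` use the induction;
otherwise `a` is a right descent of `u v'` and not of `v'`, so by (D1) `v' ∈ Par (adj · a)`, `a` commutes with
`v'`, it is a right descent of `u` and a left descent of `v = a v'`.
Choose `h` such that `y = h⁻¹ x h` has minimal length among the conjugates.  `y` is even (parities are conjugation invariant).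
Claim: no letter is both a right and a left descent of `y`.  Let `s` be both, `y = s z`, `len z = len y - 1`.
If `s` is a right descent of `z`, `s y s = z s` has length `len y - 2`, contradiction.  Otherwise
`s z s = z` (exchange: the wall of `s` at `y = s z` from the right is crossed by the first letter only) :
`z` commutes with `s`; by (D1) with `u = g s`, `v = z`: `z ∈ Par (adj · s)`, the parity of `s` in `y = s z` is odd,
contradiction.
Claim: `len (y^n) = n len y`.  Suppose it holds for `n ≥ 1` and `len (y^n y) < len (y^n) + len y`.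
(D2): `s` right descent of `y^n`, left descent of `y`; so `s` is not a right descent of `y`; so `n ≥ 2` and by (D1)
for `y^n = y^{n-1} y`: `y ∈ Par (adj · s)`; but `s` is a left descent of `y`, so it is a letter of every
... : `side y (g s) ≠ 0` whereas the walls crossed by elements of `Par Z` have types in `Z`,
contradiction (`s` is not adjacent to `s`). -/
def S_STR : Prop := ∀ (E : Type) (G : RA E) (x : G.W), Ev x →
  ∃ h : G.W, ∀ n : ℕ, G.len ((h⁻¹ * x * h) ^ n) = n * G.len (h⁻¹ * x * h)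

/-- TR (150 lines).  `x` straight (`len (x^n) = n len x`), `t` a wall crossed by `x`, `y` commuting with
`x`: some `y^a x^b`, `a > 0`, commutes with `t`.
For straight `x` the bi-infinite path `... x⁻¹, 1, x, x², ...` is a geodesic.  Let `Sk` be the set of
walls `t'` such that `side (x^{-m}) t' ≠ side (x^m) t'` for some `m : ℕ`.
(a) `t' ∈ Sk` iff `x^{-k} t' x^k` is crossed by `x` for some `k : ℤ` (`side_mul`, the first `k` where
the side changes), and then `side (x^{-m}) t' ≠ side (x^m) t'` for all large `m` (`cross_once`,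
geodesic: only one change), and the change is at a unique `k`; hence `x^k t' x^{-k} ≠ t'` for `k ≠ 0`.
(b) `Sk` is invariant under conjugation by `y`: let `t ∈ Sk`, `t' = y t y⁻¹`.  For large `m`
`side (y x^{-m}) t' ≠ side (y x^m) t'` and `y x^{±m} = x^{±m} y`.  If `t' ∉ Sk` then for each large `m`
one of `side (x^m) t' ≠ side (x^m y) t'`, `side (x^{-m}) t' ≠ side (x^{-m} y) t'` holds, i.e.
`x^{-m} t' x^m` or `x^m t' x^{-m}` is one of the finitely many walls crossed by `y`.  Pigeonhole:
`x^k t' x^{-k} = t'` for some `k ≠ 0`; as `y` commutes with `x`, `x^k t x^{-k} = t`, contradiction.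
(c) The walls crossed by `x` are finitely many.  For `i ∈ ℕ` there is `k_i` with
`x^{k_i} y^i t y^{-i} x^{-k_i}` crossed by `x`; pigeonhole: `i < j` with the same wall; so
`x^{k_i - k_j} y^{i-j}` commutes with `t`; take the inverse.
(Finiteness of the set of walls crossed by `y`: from a word `m` of `y`: they are among the reflections of
the positions of `m`, by induction with `side_mul_g`.) -/
def S_TR : Prop := ∀ (E : Type) (G : RA E) (x y t : G.W),
  (∀ n : ℕ, G.len (x ^ n) = n * G.len x) → side x t ≠ 0 → x * y = y * x →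
  ∃ (a : ℕ) (b : ℤ), 0 < a ∧ (y ^ a * x ^ b) * t = t * (y ^ a * x ^ b)

/-- TY (120 lines), uses S_CEN.  `x` straight and even, `t` a wall crossed by `x` of type `s`; `κ` even,
commuting with `x`, with `κ t κ⁻¹ = x^e t x^{-e}`, `e ≠ 0`, and `κ` conjugate to an element of `Par Z`.
Then `s ∈ Z`.
Replace `κ` by `κ⁻¹` to get `e > 0` (`κ⁻¹ t κ = x^{-e} t x^e` as `κ`, `x` commute).  Put
`t_i = x^{e i} t x^{-e i} = κ^i t κ^{-i}` (`i : ℤ`), all of type `s`, and suppose `s ∉ Z`.
(1) For every `n`: `side h t_i = side (κ^n h) t_i` for all `i`: the path from `h` to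
`κ^n h = h (h⁻¹ κ^n h)` has letters in `Z`, and a step `p → p a` crosses only the wall `p a p⁻¹` of type `a`.
(2) `ψ = x^{-e} κ` is even and commutes with `t`, hence with all `t_i` (it commutes with `x`); by S_CEN
`side (ψ^n p) t_i = side p t_i` for all `p, n, i`.
(3) `κ^n = x^{en} ψ^n` so `side (κ^n h) t_i = side (x^{en} ψ^n h) t_i = side (x^{en}) t_i +
side (ψ^n h) t_{i-n} = side (x^{en}) t_i + side h t_{i-n}`.
(4) `x` straight: `side (x^{en}) t_i = 1` for `0 ≤ i < n` and `0` for the other `i` (`t` is crossed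
between `1` and `x`, so `t_i` between `x^{ei}` and `x^{ei+1}`, and only there).
(5) `side h t_i ≠ 0` for finitely many `i` only (the `t_i` are different).  So for large `n` there is
`i` with `0 ≤ i < n`, `side h t_i = 0 = side h t_{i-n}`; then (1), (3), (4) give `0 = 1 + 0`. -/
def S_TY : Prop := ∀ (E : Type) (G : RA E) (x t κ g₀ h : G.W) (s : E) (e : ℤ) (Z : E → Prop),
  (∀ n : ℕ, G.len (x ^ n) = n * G.len x) → Ev x → side x t ≠ 0 → t = g₀ * G.g s * g₀⁻¹ →
  Ev κ → x * κ = κ * x → e ≠ 0 → κ * t * κ⁻¹ = x ^ e * t * x ^ (-e) →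
  Par Z (h⁻¹ * κ * h) → Z s

/-- TF (30 lines), uses S_STR.  Even elements have infinite order: conjugate to a straight `y`, `y^n = 1`
gives `n len y = 0`, so `len y = 0`, `y = 1` (`exists_red`). -/
def S_TF : Prop := ∀ (E : Type) (G : RA E) (x : G.W) (n : ℕ), Ev x → 0 < n → x ^ n = 1 → x = 1

/-! ## Part B: graphs without triangles and 4-cycles -/

/-- DC (80 lines), uses S_TF.  The even elements of the vertex group of `v` (generated by at most two
involutions `a = (v,false)`, `b = (v,true)`) are the powers of `a b` (if `v` is single: only `1`): an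
element of `Par (· = v)` is `(ab)^k` or `(ab)^k a`; the parity of `a` and `b`: `(ab)^k` has parities
`k, k`.  So the even ones are `(ab)^{2k}`; they commute, and two nontrivial ones have common nontrivial
powers. -/
def S_DC : Prop := ∀ (V : Type) (D : SimpleGraph V) (tw : V → Prop) (v : V) (x y : (TG D tw).W),
  Ev x → Ev y → InD v x → InD v y → x * y = y * x ∧
    (x ≠ 1 → y ≠ 1 → ∃ p q : ℤ, p ≠ 0 ∧ q ≠ 0 ∧ x ^ p = y ^ q)

/-- CJ (120 lines), uses S_HEAD, S_GATE.  If `x ≠ 1` is even, `x` and `k x k⁻¹` are in the vertex group of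
`w` then `k` is in the star group of `w`.
`k = a b c` with `a, c ∈ V_w` and `b` without left and right descents in the star (first the gate:
`k = a k'`, then the gate of `k'⁻¹`; or: `b` of minimal length in `V_w k V_w`).  `V_w` normalizes `D_w`
(letters adjacent to `w` commute with `D_w`), so `x' = c x c⁻¹ ∈ D_w`, `x'' = a⁻¹ k x k⁻¹ a ∈ D_w` and
`b x' = x'' b`, `x' ≠ 1`.  Lengths: `len (x'' b) = len x'' + len b`, `len (b x') = len b + len x'` (S_HEAD
(2)).  Let `s` be a left descent of `x''` (`x'' ≠ 1`), `s` a letter of `w`.  `s` is a left descent of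
`b x'`.  Walls: `side (b x') (g s) ≠ 0`, `side b (g s) = 0`; so `side x' (b⁻¹ s b) ≠ 0`: the
wall `b⁻¹ (g s) b` is crossed by `x' ∈ D_w`, so it is `d (g s') d⁻¹` with `d ∈ D_w`, `s' ∈ w` (walls
crossed by words in `Z` are of this form), `s' = s` by `conj_eq`; `b d` commutes with `g s`, `b d ∈
Par (s or adjacent to s)` by `centralizer`, contained in `V_w`; so `b ∈ V_w`, and `b = 1` or anyway
`k = a b c ∈ V_w`.  (So the minimality of `b` is not even needed beyond the two length statements.) -/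
def S_CJ : Prop := ∀ (V : Type) (D : SimpleGraph V) (tw : V → Prop) (w : V) (x k : (TG D tw).W),
  Ev x → x ≠ 1 → InD w x → InD w (k * x * k⁻¹) → InS w k

/-- GAP (150 lines), uses S_HEAD, S_GATE.  No triangles, no 4-cycles; `g V_v ≠ g' V_v`.  Then the
elements of `g V_v g⁻¹ ∩ g' V_v g'⁻¹` are contained in one conjugate `q D_w q⁻¹`.
Let `b` be an element of minimal length in the double coset `V_v (g⁻¹ g') V_v`; `g⁻¹ g' = a b c`.  `b ≠ 1`;
no letter of the star of `v` is a left or right descent of `b`.  Put `q = g a`.  Let `x` be in the intersection: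
`y = q⁻¹ x q ∈ V_v` and `b⁻¹ y b = (c g'⁻¹) x (c g'⁻¹)⁻¹ ∈ V_v`.  So `y b = b z`, `y, z ∈ V_v`,
`len y = len z` by additivity (S_HEAD (2)).  Claim: every letter of (a reduced word of) `y` commutes with `b`,
precisely `y ∈ Par C`, `C = {s in the star of v, g s * b = b * g s}`: induct on `len y`: if `y ≠ 1` let `s` be a
left descent of `y`, a letter of the star (letters of a reduced word of an element of `Par Z` are in `Z`);
`side (b z) (g s) ≠ 0`, `side b (g s) = 0`, so `b⁻¹ (g s) b` is crossed by `z`, hence it is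
`d (g s') d⁻¹`, `d ∈ V_v`, `s' = s`; `r := d (g s) d⁻¹ ∈ V_v` and `b r = (g s) b`, `len (b r) = len b + len r`,
`len (g s * b) = 1 + len b`, so `len r = 1`, `r = g s'' `, `s'' = s`: `s ∈ C`; now
`y = s y'`, `z = s z'` with `y' b = b z'`.
`b ≠ 1` has a left descent `u`, not in the star of `v`.  For `s ∈ C` `centralizer s` gives
`b ∈ Par (s or adjacent to s)`, so `u = s` or `u` adjacent to `s`; `u ≠ s` as `u` is not in the star.  So
the vertex of `s` is adjacent to the vertex of `u` and equal or adjacent to `v`; it is not `v` (else `u` in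
the star); so it is a common neighbour of the different vertices `v` and `u.1.1`; by `NS` there is at most one
such vertex `w`; if there is none then `C` is empty, `y = 1`, take `w = v`. -/
def S_GAP : Prop := ∀ (V : Type) (D : SimpleGraph V) (tw : V → Prop), NS D →
  ∀ (v : V) (g g' : (TG D tw).W), ¬ InS v (g⁻¹ * g') → ∃ (q : (TG D tw).W) (w : V),
    ∀ x : (TG D tw).W, InS v (g⁻¹ * x * g) → InS v (g'⁻¹ * x * g') → InD w (q⁻¹ * x * q)

/-- ADJ (80 lines), uses S_INT, S_CJ.  `x ∈ g D_v g⁻¹`, `y ∈ g' D_w g'⁻¹` nontrivial, even, commuting.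
`g⁻¹ y g ∈ V_v` by S_CJ (`k = g⁻¹ y g` fixes `g⁻¹ x g`).  S_INT with `Z` = star of `v`, `Z'` = letters of
`w`: `q ∈ g V_v` with `q⁻¹ y q ∈ Par (star of v and of w)`; as `y ≠ 1` the vertex `w` is `v` or adjacent to
`v` (a word with letters in the empty set is `1`).  `q⁻¹ y q ∈ D_w` and `g'⁻¹ y g' ∈ D_w`, so by S_CJ
`g'⁻¹ q ∈ V_w`.  If `w = v`: `g⁻¹ g' = (g⁻¹ q)(g'⁻¹ q)⁻¹ ∈ V_v`. -/
def S_ADJ : Prop := ∀ (V : Type) (D : SimpleGraph V) (tw : V → Prop) (v w : V)
  (g g' x y : (TG D tw).W), Ev x → Ev y → x ≠ 1 → y ≠ 1 → InD v (g⁻¹ * x * g) →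
  InD w (g'⁻¹ * y * g') → x * y = y * x →
  (v = w ∧ InS v (g⁻¹ * g')) ∨ (D.Adj v w ∧ ∃ q, InS v (g⁻¹ * q) ∧ InS w (g'⁻¹ * q))

/-- WON (150 lines), uses S_INT, S_CEN, S_STR, S_TR, S_TY, S_TF, S_DC.  The centralizer theorem.
`x ≠ 1`, `y`, `z` even, `y` and `z` commute with `x`, no positive powers of `y` and `z` commute: then `x` is
conjugate into a vertex group.
Conjugate everything so that `x` is straight (S_STR; conjugates of even elements are even).
Case 1: all walls crossed by `x` have types of one vertex `v`.  Then `x ∈ D_v` (a reduced word of `x`: the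
letter at each position is the type of a crossed wall: for a reduced word the walls of the positions are crossed, by
`cross_once`, `len_mul_g_iff`).  Done.
Case 2: `t = g₁ s₁ g₁⁻¹`, `t' = g₂ s₂ g₂⁻¹` crossed by `x`, of vertices `v ≠ v'`.  By S_TR and
taking powers (a common multiple of the exponents) there are `a > 0`, `b, b'` with `y^a x^b` commuting with
`t`, `y^a x^{b'}` commuting with `t'`; the same for `z`: `a₁ > 0`, `b₁, b₁'`.
2a: `v, v'` adjacent.  `c = [y^a, z^{a₁}]` is also `[y^a x^b, z^{a₁} x^{b₁}]`, commutes with `t`, and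
`[y^a x^{b'}, z^{a₁} x^{b₁'}]`, commutes with `t'`.  By S_CEN `c ∈ g₁ Par(adj s₁) g₁⁻¹ ∩
g₂ Par(adj s₂) g₂⁻¹`, by S_INT a conjugate of `c` is in `Par` of the letters whose vertex is adjacent to
both `v` and `v'`: no letter as there are no triangles.  So `c = 1`, contradiction to NoPow.
2b: `v, v'` not adjacent.  `y₁ = y^a x^b`.  `y₁ t' y₁⁻¹ = x^{b-b'} t' x^{b'-b}`.  If `b ≠ b'` S_TY (wall `t'`,
`κ = y₁`, `Z` = adjacent to `s₁`, `h = g₁`) gives that `v'` is adjacent to `v`, contradiction.  So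
`y₁` commutes with `t` and `t'`; the same for `z₁ = z^{a₁} x^{b₁}`.  By S_CEN and S_INT both `y₁` and `z₁`
are in `q Par(C) q⁻¹` (same `q`), `C` = letters whose vertex is adjacent to both `v ≠ v'`; by NS
this is at most one vertex `w`; so by S_DC (conjugated) `y₁ z₁ = z₁ y₁`, hence `y^a`, `z^{a₁}` commute (`x`
commutes with everything), contradiction. -/
def S_WON : Prop := ∀ (V : Type) (D : SimpleGraph V) (tw : V → Prop), NT D → NS D →
  ∀ x y z : (TG D tw).W, Ev x → Ev y → Ev z → x ≠ 1 → x * y = y * x → x * z = z * x →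
  NoPow y z → ∃ (g : (TG D tw).W) (v : V), InD v (g⁻¹ * x * g)

/-- NZT (120 lines), uses S_INT, S_CEN, S_STR, S_TR, S_TY.  No `ℤ³` when there are no triangles.
`x, y, z` even and pairwise commuting.  If `x = 1` take `(1,0,0)`.  Conjugate so that `x` is straight (S_STR),
`t = g₁ s₁ g₁⁻¹` a wall crossed by `x` (exists as `x ≠ 1`), `y₁ = y^a x^b`, `z₁ = z^{a'} x^{b'}`
commuting with `t` (S_TR).  By S_CEN both are in `g₁ Par(B) g₁⁻¹`, `B` = letters adjacent to `s₁`; no two
letters of `B` are adjacent (no triangles).  If `y₁ = 1`: relation `(b, a, 0)`, done.  Otherwise conjugate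
(everything) so that `y₁` is straight, `t'` crossed by `y₁`, `t' = g₂ s₂ g₂⁻¹`; S_TR: `u = z₁^c y₁^d`
commutes with `t'`, `c > 0`; S_CEN: `u ∈ g₂ Par(adjacent to s₂) g₂⁻¹`; also `u` is in the
conjugate of `Par B`.  `s₂ ∈ B` by S_TY (`x := y₁`, `κ := y₁`, `e = 1`).  S_INT: `u` is conjugate into
`Par (B ∧ adjacent to s₂)` and no letter is there; `u = 1`: `z^{a'c} x^{..} y^{a d} = 1`, `a' c ≠ 0`. -/
def S_NZT : Prop := ∀ (V : Type) (D : SimpleGraph V) (tw : V → Prop), NT D →
  ∀ x y z : (TG D tw).W, Ev x → Ev y → Ev z → x * y = y * x → x * z = z * x → y * z = z * y →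
  ∃ a b c : ℤ, (a ≠ 0 ∨ b ≠ 0 ∨ c ≠ 0) ∧ x ^ a * y ^ b * z ^ c = 1

/-- NSQ (80 lines), uses S_WON, S_INT, S_CJ, S_DC, S_GAP.  No `F₂ × F₂`.
By S_WON (the elements are `≠ 1` by NoPow) `x₁ ∈ g₁ D_v g₁⁻¹`, `x₃ ∈ g₃ D_{v'} g₃⁻¹`.  `x₂`, `x₄` commute
with `x₁` and `x₃`, so by S_CJ they are in `g₁ V_v g₁⁻¹ ∩ g₃ V_{v'} g₃⁻¹`.  If `v = v'` and
`g₁⁻¹ g₃ ∈ V_v`: `V_v` normalizes `D_v`, so `x₁, x₃` are in the same conjugate of `D_v`, they commute (S_DC),
contradiction.  If `v = v'` and `g₁⁻¹ g₃ ∉ V_v`: S_GAP: `x₂, x₄ ∈ q D_w q⁻¹` commute, contradiction.  If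
`v ≠ v'`: by S_INT `x₂, x₄ ∈ q Par(C) q⁻¹`, `C` = letters in both stars; if `v, v'` are adjacent
`C` = letters of `v` and `v'` (no triangles), the even elements of `Par C` (= `D_v × D_{v'}`)
commute; if not adjacent `C` is contained in one vertex `w` (NS). -/
def S_NSQ : Prop := ∀ (V : Type) (D : SimpleGraph V) (tw : V → Prop), NT D → NS D →
  ∀ x₁ x₂ x₃ x₄ : (TG D tw).W, Ev x₁ → Ev x₂ → Ev x₃ → Ev x₄ → x₁ * x₂ = x₂ * x₁ →
  x₂ * x₃ = x₃ * x₂ → x₃ * x₄ = x₄ * x₃ → x₄ * x₁ = x₁ * x₄ → NoPow x₁ x₃ → ¬ NoPow x₂ x₄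

/-- HEL (120 lines), uses S_GATE.  Five star cosets `L_i = g_i V_{σ i}` in a cyclic chain have a common
point.  `σ` is a closed walk of length 5 without triangles, so the `σ i` are different and `σ i`,
`σ (i+2)` are not adjacent.  For a coset `L = g V_v` let `P_L x = g * P (g⁻¹ x)` (gate of the star of `v`).
Facts: (P1) `P_L x ∈ L`.  (P2) if `p ∈ L ∩ L'`, `L' = g' V_w`, then `P_L` maps `L'` into `L ∩ L'`: `p = g a`,
`P_L p = g P(a) = g a P(1) = p`; a point of `L'` is `p c` with `c` a word in the star of `w`, and moving along the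
word the projection is multiplied by letters of both stars, so `P_L (p c) ∈ p Par(both)`.
(P3) in general for `x, x' ∈ L'`: `(P_L x)⁻¹ P_L x' ∈ Par (both stars)`.
Let `q_i ∈ L_i ∩ L_{i+1}`.  Claim `L_0 ∩ L_1 ∩ L_2 ≠ ∅` (and all its rotations): `P_{L1}` of `L_3`:
contains the point `P_{L1}(q_2) ∈ L_1 ∩ L_2` (P2, `q_2 ∈ L_2`, `L_1 ∩ L_2 ∋ q_1`), and all other points
differ from it by elements of `Par (star σ1 ∧ star σ3)` = letters of the vertex `σ 2` only (NS, and `σ 1`,
`σ 3` not adjacent), which are letters of the star of `σ 2`: so `P_{L1}(L_3) ⊆ L_1 ∩ L_2`.  Similarly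
`P_{L1}(L_4) ⊆ L_0 ∩ L_1`.  So `P_{L1}(q_3) ∈ L_0 ∩ L_1 ∩ L_2`.  Hence all pairwise intersections
are nonempty.  Take `p ∈ L_4 ∩ L_0 ∩ L_1`; `p' = P_{L2} p ∈ L_2 ∩ L_4 ∩ L_0 ∩ L_1` by (P2) and
`P_{L3} p'` is in all five. -/
def S_HEL : Prop := ∀ (V : Type) (D : SimpleGraph V) (tw : V → Prop), NT D → NS D →
  ∀ (σ : Wk D) (g : ZMod 5 → (TG D tw).W),
  (∀ i, ∃ q, InS (σ.1 i) ((g i)⁻¹ * q) ∧ InS (σ.1 (i + 1)) ((g (i + 1))⁻¹ * q)) →
  ∃ q, ∀ i, InS (σ.1 i) ((g i)⁻¹ * q)

/-- PEN (60 lines), uses S_WON, S_ADJ, S_HEL, S_DC.  Algebraic pentagons.  `x (i+1)`, `x (i-1) = x (i+4)` commute with `x i` and no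
powers of them commute (`NoPow (x (i+4)) (x (i+6))`, `i + 6 = i + 1`), `x i ≠ 1`; S_WON gives `g_i`, `σ i`
with `InD (σ i) (g_i⁻¹ x_i g_i)`.  S_ADJ for `x i`, `x (i+1)`: the first case (`σ i = σ (i+1)`,
`g_i⁻¹ g_{i+1} ∈ V`) is impossible: then `x i` and `x (i+1)` are in the same conjugate of `D_{σ i}` (`V`
normalizes `D`) so they have common nontrivial powers (S_DC), so a power of `x i` is a power of `x (i+1)`, which
commutes with `x (i+2)`, contradiction to NoPow (x i) (x (i+2)) (care with negative exponents).  So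
`σ` is a closed walk and S_HEL gives `q` with `g_i⁻¹ q ∈ V_{σ i}`; `D` is normalized by `V`. -/
def S_PEN : Prop := ∀ (V : Type) (D : SimpleGraph V) (tw : V → Prop), NT D → NS D →
  ∀ x : ZMod 5 → (TG D tw).W, (∀ i, Ev (x i)) → (∀ i, x i * x (i + 1) = x (i + 1) * x i) →
  (∀ i, NoPow (x i) (x (i + 2))) →
  ∃ (g : (TG D tw).W) (σ : Wk D), ∀ i, InD (σ.1 i) (g⁻¹ * x i * g)

/-- GTH (80 lines), uses S_INT, S_CJ, S_DC, S_TF.  `x, y ≠ 1` even, in `g D_v g⁻¹`, `g' D_w g'⁻¹`.
(1) they have a common nontrivial power iff `v = w` and `g⁻¹ g' ∈ V_v`.  (→) `c = x^p = y^q ≠ 1` (S_TF) is in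
both; S_INT: a conjugate of `c` is in `Par (· = v ∧ · = w)`, so `v = w`; S_CJ with `k = g'⁻¹ g` and
`g⁻¹ c g`: `g'⁻¹ g ∈ V_v`.  (←) `V_v` normalizes `D_v`, so both are in `g D_v g⁻¹`; S_DC.
(2) If `σ` is a closed walk of length 5 (no triangles) and `k ∈ V_{σ i}` for all `i` then `k = 1`:
`Par.inter` (conclusion: `k ∈ Par` of the letters in all five stars); no vertex `u` is equal or
adjacent to all `σ i`: if `u = σ i` then `u` is not `σ (i+2)` and not adjacent to it (no triangles in a
closed walk of length 5 : `σ i, σ(i+1), σ(i+2)` and if `σ i = σ (i+2)` then `σ(i+2), σ(i+3), σ(i+4)` is a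
triangle); if `u` is none of them `u, σ 0, σ 1` is a triangle. -/
def S_GTH : Prop := ∀ (V : Type) (D : SimpleGraph V) (tw : V → Prop), NT D →
  (∀ (v w : V) (g g' x y : (TG D tw).W), Ev x → Ev y → x ≠ 1 → y ≠ 1 →
    InD v (g⁻¹ * x * g) → InD w (g'⁻¹ * y * g') →
    ((∃ p q : ℤ, p ≠ 0 ∧ q ≠ 0 ∧ x ^ p = y ^ q) ↔ (v = w ∧ InS v (g⁻¹ * g')))) ∧
  (∀ (σ : Wk D) (k : (TG D tw).W), (∀ i, InS (σ.1 i) k) → k = 1)

/-- GON (80 lines), uses S_ADJ, S_TF.  Existence of algebraic pentagons in a finite index subgroup `H`: let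
`n > 0` with `k^n ∈ H` for all `k` (e.g. `n = H.index !`, or `Subgroup.exists_pow_mem_of_index_ne_zero`
style; common exponent), `τ_v = (v,false)(v,true)` for a twin vertex.  `x i = g τ_{σ i}^{2n} g⁻¹`.  It is even,
`≠ 1`: (`τ_v^{2n} ≠ 1`: by the homomorphism killing the other letters, or `S_TF` once `τ_v^2 ≠ 1`, or
map `(v,false), (v,true)` to two involutions generating an infinite dihedral group such as reflections of `ℤ`
in `Equiv.Perm ℤ`, all other letters to `1`).
Consecutive ones commute.  NoPow (x i) (x (i+2)): if powers commute, S_ADJ: `σ i = σ (i+2)` or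
adjacent; both impossible in a closed walk of length 5 without triangles. -/
def S_GON : Prop := ∀ (V : Type) (D : SimpleGraph V) (tw : V → Prop), NT D →
  ∀ (H : Subgroup (TG D tw).W), H.index ≠ 0 → ∀ (g : (TG D tw).W) (σ : Wk D),
  (∀ i, tw (σ.1 i)) → ∃ x : ZMod 5 → (TG D tw).W, (∀ i, x i ∈ H ∧ Ev (x i) ∧ x i ≠ 1 ∧
    InD (σ.1 i) (g⁻¹ * x i * g)) ∧ (∀ i, x i * x (i + 1) = x (i + 1) * x i) ∧
    (∀ i, NoPow (x i) (x (i + 2)))

/-- GRA (120 lines), uses S_NZT, S_NSQ, S_ADJ, S_TF.  If `H₁` (in a group of a graph without triangles and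
4-cycles) and `H₂ ≤ (TT D₂).W` are isomorphic finite index subgroups consisting of even elements then `D₂`
has no triangles and no 4-cycles.  Let `n > 0` with `k^n ∈ H₂` for all `k ∈ (TT D₂).W` and `τ_v^{2n} ∈ H₂` as
in S_GON (`τ_v^m ≠ 1` for `m ≠ 0`, by the homomorphism to the infinite dihedral group which kills the
other letters).  Triangle `a b c` in `D₂`: `τ_a^{2n}, τ_b^{2n}, τ_c^{2n} ∈ H₂` commute pairwise; S_NZT
for their images in `H₁` gives a relation, hence `τ_a^{2np} τ_b^{2nq} τ_c^{2nr} = 1`; killing all letters but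
those of `a` gives `p = 0`, etc.  4-cycle `a b c d`, `a ≠ c`, `b ≠ d`: `a, c` are not adjacent as `D₂` has no
triangles, so `NoPow τ_a^{2n} τ_c^{2n}` by S_ADJ; the same for `b, d`; NoPow is transported by the isomorphism;
contradiction to S_NSQ. -/
def S_GRA : Prop := ∀ (V₁ V₂ : Type) (D₁ : SimpleGraph V₁) (D₂ : SimpleGraph V₂) (tw : V₁ → Prop),
  NT D₁ → NS D₁ → ∀ (H₁ : Subgroup (TG D₁ tw).W) (H₂ : Subgroup (TT D₂).W), H₂.index ≠ 0 →
  (∀ x ∈ H₁, Ev x) → (∀ x ∈ H₂, Ev x) → Nonempty (H₁ ≃* H₂) → NT D₂ ∧ NS D₂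

/-! ## Part C: the comparison -/

/-- the properties of the bijection between the pentagons -/
structure PB {V₁ V₂ : Type} (D₁ : SimpleGraph V₁) (D₂ : SimpleGraph V₂) (tw₁ : V₁ → Prop)
    (tw₂ : V₂ → Prop) (H₁ : Subgroup (TG D₁ tw₁).W) (H₂ : Subgroup (TG D₂ tw₂).W)
    (φ : H₁ ≃* H₂) where
  F : ((TG D₁ tw₁).W × Wk D₁) ≃ ((TG D₂ tw₂).W × Wk D₂)
  equi : ∀ (h : H₁) (a : (TG D₁ tw₁).W × Wk D₁),
    F (h.1 * a.1, a.2) = ((φ h).1 * (F a).1, (F a).2)
  neg : ∀ a : (TG D₁ tw₁).W × Wk D₁, F (a.1, a.2.neg) = ((F a).1, (F a).2.neg)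
  shift : ∀ a : (TG D₁ tw₁).W × Wk D₁, F (a.1, a.2.shift) = ((F a).1, (F a).2.shift)
  line : ∀ (a b : (TG D₁ tw₁).W × Wk D₁) (i j : ZMod 5),
    (a.2.1 i = b.2.1 j ∧ InS (a.2.1 i) (a.1⁻¹ * b.1)) ↔
    ((F a).2.1 i = (F b).2.1 j ∧ InS ((F a).2.1 i) ((F a).1⁻¹ * (F b).1))

/-- BIJ (200 lines), uses S_PEN, S_GTH, S_GON.  The correspondence of the pentagons.
For `(g, σ)` S_GON gives an algebraic pentagon `x` in `H₁` with `x i ∈ g D_{σ i} g⁻¹`; the images `φ (x i)`
form an algebraic pentagon (commutation, NoPow, even, `≠ 1`); S_PEN gives `(w, u)` with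
`φ (x i) ∈ w D_{u i} w⁻¹`.  Define `Rel (g,σ) (w,u)` := there is `x : ZMod 5 → H₁` with all `x i ≠ 1`,
`x i ∈ g D_{σ i} g⁻¹`, `φ (x i) ∈ w D_{u i} w⁻¹` (all `i`).  Every `(g,σ)` is related to some `(w,u)`, and
symmetrically (apply S_GON to `H₂` and `φ⁻¹`).  Line property of related pairs: if `Rel (g,σ) (w,u)` and
`Rel (g',σ') (w',u')` with `x`, `x'`, then for `i, j`: (`σ i = σ' j` and `g⁻¹ g' ∈ V_{σ i}`) iff `x i` and
`x' j` have a common nontrivial power (S_GTH (1)) iff `φ (x i)` and `φ (x' j)` have one iff (`u i = u' j` and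
`w⁻¹ w' ∈ V_{u i}`).  Uniqueness: if `(g,σ) = (g',σ')` the line property with `i = j` gives `u = u'` and
`w⁻¹ w' ∈ V_{u i}` for all `i`, so `w = w'` by S_GTH (2); symmetrically.  So `Rel` is the graph of a bijection.
Equivariance: conjugate `x` by `h ∈ H₁`; `neg`, `shift`: reindex `x`. -/
def S_BIJ : Prop := ∀ (V₁ V₂ : Type) (D₁ : SimpleGraph V₁) (D₂ : SimpleGraph V₂)
  (tw₁ : V₁ → Prop) (tw₂ : V₂ → Prop), NT D₁ → NS D₁ → NT D₂ → NS D₂ →
  (∀ (σ : Wk D₁) i, tw₁ (σ.1 i)) → (∀ (σ : Wk D₂) i, tw₂ (σ.1 i)) →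
  ∀ (H₁ : Subgroup (TG D₁ tw₁).W) (H₂ : Subgroup (TG D₂ tw₂).W) (φ : H₁ ≃* H₂),
  H₁.index ≠ 0 → H₂.index ≠ 0 → (∀ x ∈ H₁, Ev x) → (∀ x ∈ H₂, Ev x) →
  Nonempty (PB D₁ D₂ tw₁ tw₂ H₁ H₂ φ)

/-- PGR (80 lines).  The graph `Pen`: no triangles, no 4-cycles; a closed walk of length 5 stays in the pentagon
and goes once around it.  Let `σ` be a closed walk.  If `(σ i).2 = true` (pendant) then its two neighbours in
the walk are both `((σ i).1, false)`, so `σ (i-1) = σ (i+1)` and `σ (i+1), σ (i+2), σ (i+3)` is a triangle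
(`σ (i+3)` is adjacent to `σ (i+4) = σ (i-1) = σ (i+1)`), contradiction.  So `(σ i).1` changes by `±1` in each
step and `σ (i+2) ≠ σ i`, so the sign is constant. -/
def S_PGR : Prop := NT Pen ∧ NS Pen ∧ (∀ (σ : Wk Pen) i, cyc (σ.1 i)) ∧
  (∀ (σ : Wk Pen) (c : ZMod 5), ∃ i, σ.1 i = (c, false)) ∧
  (∀ σ σ' : Wk Pen, σ.1 0 = σ'.1 0 → σ' = σ ∨ σ' = σ.neg) ∧
  Nonempty (Wk Pen)

/-- HDS (60 lines), uses S_HEAD.  For every `x` in the group of the example there is a vertex `c` of the
pentagon such that `len (x k) = len x + len k` for all `k ∈ V_{(c,false)}`.  By S_HEAD (1) the right descents of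
`x` are pairwise equal or adjacent.  If there is no descent take any `c`.  Otherwise let `(i, ·)` be
the vertex of some descent; by S_HEAD (1) the vertices of all descents lie either in `{(j,false), (j+1,false)}` for some
`j` or in `{(j,false), (j,true)}`, so all have first coordinate in `{j, j+1}` for some `j` (three
pairwise adjacent vertices do not exist, but it is enough: all descents are equal or adjacent to a fixed one
...); take `c = j + 3`: the star of `(c,false)` consists of the letters of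
`(c,false), (c±1,false), (c,true)`, whose first coordinates are `j+2, j+3, j+4`.  Then S_HEAD (2). -/
def S_HDS : Prop := ∀ x : GW.W, ∃ c : ZMod 5, ∀ k : GW.W, InS (D := Pen) (tw := cyc) (c, false) k →
  GW.len (x * k) = GW.len x + GW.len k

/-- EXT (100 lines), uses S_PGR, S_HDS.  The extremal vertex.  `V₂` finite.  Let
`S = {g | ∃ σ, (F (g,σ)).1 = 1}`.  It is finite (`Wk D₂` is finite and `F` is a bijection) and nonempty
(take `(1,σ)` and `(w,u) = F (1,σ)`; then `F⁻¹ (1,u)`).  Choose `(g,σ)` with `(F (g,σ)).1 = 1` and `len g`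
maximal.  S_HDS gives `c` for `x = g`; by S_PGR there is `i` with `σ i = (c,false)`; shift `σ` `i` times so that
`σ 0 = (c,false)` (`(F ·).1` does not change under shifts).  Put `a = (g,σ)`, `F a = (1,u)`.  Let `u'` be a
closed walk with `u' 0 = u 0`, `b = F⁻¹ (1,u')`.  The line property for `a, b`, `i = j = 0` (right hand side true,
`InS _ 1`) gives `(c,false) = b.2 0` and `g⁻¹ b.1 ∈ V_{(c,false)}`, so `len b.1 = len g + len (g⁻¹ b.1)`;
`b.1 ∈ S`, so by maximality `b.1 = g`; `b.2 0 = a.2 0` gives `b.2 = a.2` or `a.2.neg` (S_PGR), and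
applying `F` (`neg`): `u' = u` or `u.neg`. -/
def S_EXT : Prop := ∀ (V₂ : Type) (_ : Finite V₂) (D₂ : SimpleGraph V₂)
  (H₁ : Subgroup GW.W) (H₂ : Subgroup (TT D₂).W) (φ : H₁ ≃* H₂)
  (B : PB Pen D₂ cyc (fun _ => True) H₁ H₂ φ),
  ∃ a : GW.W × Wk Pen, ∀ u' : Wk D₂, u'.1 0 = (B.F a).2.1 0 →
    u' = (B.F a).2 ∨ u' = (B.F a).2.neg

/-- the system of the link of a vertex, without commutation relations -/
def LK {V : Type} (D : SimpleGraph V) (tw : V → Prop) (v : V) :
    RA {a : Lt tw // D.Adj v a.1.1} where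
  adj _ _ := False
  symm := fun h => h
  irr := fun _ h => h

/-- LKP (80 lines).  The star group is `D_v × link group` and the link group is the free product `(LK D tw v).W`.
Let `D` have no triangles, then `TG D tw` restricted to the letters of the link has no relations.  There is a
homomorphism `π : (TG D tw).W →* (LK D tw v).W` which maps the letters of the link to themselves and kills the
other letters (`RA.hom`; two adjacent letters are not both in the link: no triangles).  It has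
a right inverse `ι` (inclusion of letters) with image `Par (adjacent to v)`.  On the star group the kernel is
`D_v`: an element of `Par (v or link)` is a product `d * y` with `d ∈ D_v`, `y ∈ Par link` (letters commute).
`π` preserves evenness (the parity of a link letter of `π x` equals that of `x`). -/
def S_LKP : Prop := ∀ (V : Type) (D : SimpleGraph V) (tw : V → Prop) (v : V), NT D →
  ∃ (π : (TG D tw).W →* (LK D tw v).W) (ι : (LK D tw v).W →* (TG D tw).W),
    (∀ y, π (ι y) = y) ∧ (∀ y, InS v (ι y)) ∧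
    (∀ x : (TG D tw).W, InS v x → (π x = 1 ↔ InD v x)) ∧
    (∀ x : (TG D tw).W, InD v x → InS v x) ∧ (∀ x : (TG D tw).W, Ev x → Ev (π x))

/-- FB (200 lines), uses S_PGR, S_LKP.  Comparison of the links.  Let `a = (g,σ)` as in S_EXT,
`F a = (w,u)`, `v = σ 0`, `v₂ = u 0`.  For `k ∈ V_v` put `F (g k, σ) = (w', u')`: by the line property (i = j = 0)
`u' 0 = v₂`, `w⁻¹ w' ∈ V_{v₂}`, so `u' ∈ {u, u.neg}`.  Define `f k = w⁻¹ w' ∈ V_{v₂}`.
(1) `f` is injective (if `f k = f k'` then `F (gk,σ), F (gk',σ) ∈ {(w',u), (w',u.neg)}`, and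
`F (gk, σ.neg)` is the other one, so `gk = gk'`) and surjective onto `V_{v₂}` (for `b ∈ V_{v₂}` let
`(g',σ') = F⁻¹ (w b, u)`; the line property gives `σ' 0 = v`, `g⁻¹ g' ∈ V_v`, `σ' ∈ {σ, σ.neg}` by S_PGR).
(2) `f (m k) = m' f k` for `m = g⁻¹ h g`, `h ∈ H₁`, `m ∈ V_v`, `m' = w⁻¹ φ(h) w`; `f 1 = 1`, so
`m' = f m ∈ V_{v₂}`; conversely, if `m' ∈ V_{v₂}` then `m ∈ V_v` (line property).
(3) for `k, k' ∈ V_v`: `k⁻¹ k' ∈ D_v` iff `f(k)⁻¹ f(k') ∈ D_{v₂}`.  `→`: `g k` and `g k'` are in the same
cosets of `V_{σ 1}` and of `V_{σ (-1)}` (`D_v` is contained in both); with `F (gk,σ) = (w₁,u₁)`,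
`F (gk',σ) = (w₂,u₂)`, `u₁, u₂ ∈ {u, u.neg}`, the line property with `i = j = 1` and `i = j = -1` gives `u₁ 1 = u₂ 1`,
`w₁⁻¹ w₂ ∈ V_{u₁ 1}` and `∈ V_{u₁ (-1)}`, and `∈ V_{v₂}`; the intersection of the three star groups of
`u₁(-1), u₁ 0, u₁ 1` is `D_{v₂}` (no triangles/4-cycles: a vertex in all three stars is `u₁ 0`).  `←`: the
same in the other direction; here `u₁ = u₂` must be shown first or use: `f(k)⁻¹ f(k') ∈ D_{v₂}` so
`w₁, w₂` are in the same cosets of `V_{u 1}`, `V_{u (-1)}`; the line property with `(i,j)` such that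
`u₁ i = u₂ j = u 1`, `i, j ∈ {1,-1}`, gives `σ i = σ j`, so `i = j`, `u₁ = u₂`, and then `(gk)⁻¹ gk'` in the
stars of `σ 1`, `σ (-1)`.
Now let `M₁ = π (V_v ∩ g⁻¹ H₁ g)`, `M₂ = π₂ (V_{v₂} ∩ w⁻¹ H₂ w)` in the link groups (S_LKP).  By (2), (3) `φ`
induces an isomorphism `M₁ ≃ M₂` (the kernels are the intersections with `D`), `f` induces a bijection of
`V_v / D_v = (LK ..).W` with `V_{v₂} / D_{v₂}` which is equivariant, so the indices (numbers of
orbits of `M` on the group; `Nat.card (Quotient (QuotientGroup.rightRel M))`) are equal; they are finite as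
`H₁` has finite index. -/
def S_FB : Prop := ∀ (V₂ : Type) (D₂ : SimpleGraph V₂), NT D₂ → NS D₂ →
  ∀ (H₁ : Subgroup GW.W) (H₂ : Subgroup (TT D₂).W) (φ : H₁ ≃* H₂), H₁.index ≠ 0 → H₂.index ≠ 0 →
  (∀ x ∈ H₁, Ev x) → (∀ x ∈ H₂, Ev x) → ∀ (B : PB Pen D₂ cyc (fun _ => True) H₁ H₂ φ)
  (a : GW.W × Wk Pen), (∀ u' : Wk D₂, u'.1 0 = (B.F a).2.1 0 → u' = (B.F a).2 ∨ u' = (B.F a).2.neg) →
  ∃ (M₁ : Subgroup (LK Pen cyc (a.2.1 0)).W)
    (M₂ : Subgroup (LK D₂ (fun _ : V₂ => True) ((B.F a).2.1 0)).W),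
    Nonempty (M₁ ≃* M₂) ∧ M₁.index = M₂.index ∧ M₁.index ≠ 0 ∧ (∀ x ∈ M₁, Ev x) ∧ (∀ x ∈ M₂, Ev x)

/-- HOM3 (150 lines).  Counting homomorphisms to `ℤ/3` (Euler characteristic).  `G` a free product of `a`
groups of order two (no adjacency, `E` finite with `a` elements), `M` a subgroup of index `k`, all elements
even.  Then `|Hom(M, ℤ/3)|² = 3^(k a + 2) / 3^(2k)`.
Let `X` be the set of right cosets `M \ G` (`k` elements), `G` acts on the right.  `c s ≠ c` for
`c = M x`, `s` a letter: otherwise `x s x⁻¹ ∈ M` is not even.  Let `L` be the set of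
functions `λ : X × E → ℤ/3` with `λ (c s, s) = - λ (c, s)`: the involution `(c,s) ↦ (c s, s)` on the `k a` pairs has
no fixed points so `k a` is even and `|L| = 3^{k a / 2}` (`|L|² = 3^{k a}`: e.g. the map
`λ ↦` (restriction) or: all functions `X × E → ℤ/3` (number `3^{ka}`) = symmetric × antisymmetric (2 is invertible),
and for symmetric functions the same count... alternatively choose a set of representatives).
For `λ ∈ L` the group `G` acts on `X × ℤ/3` on the right by `(c, z) s = (c s, z + λ(c,s))` (involutions, no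
other relations: `RA.hom` into a permutation group), so `hol λ (m)` for `m ∈ M`: `(c₀, 0) m = (c₀, hol λ m)`,
`c₀ = M`; it is a homomorphism `M → ℤ/3`, additive in `λ`.  It is surjective `L → Hom(M, ℤ/3)`: choose
representatives `r_c`, `r_{c₀} = 1`; for `χ : M → ℤ/3` put `λ(c,s) = χ(r_c s r_{cs}⁻¹)`; then
`(c₀,0) y = (c₀ y, χ(y r_{c₀ y}⁻¹))`.  Kernel: `hol λ = 0` iff `λ(c,s) = f(cs) - f(c)` for a function
`f : X → ℤ/3` (if `hol λ = 0` then `f(c) :=` the second coordinate of `(c₀,0) y`, `c₀ y = c`, is well defined); `f` is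
unique up to constants as `G` is transitive on `X`: the kernel has `3^{k-1}` elements.
So `|Hom| 3^{k-1} = |L|`, `|Hom|² 3^{2k} = 3^{ka} 9`. -/
def S_HOM3 : Prop := ∀ (E : Type) (_ : Finite E) (G : RA E), (∀ a b, ¬ G.adj a b) →
  ∀ M : Subgroup G.W, M.index ≠ 0 → (∀ x ∈ M, Ev x) →
  (Nat.card (M →* Multiplicative (ZMod 3))) ^ 2 * 3 ^ (2 * M.index) =
    3 ^ (M.index * Nat.card E + 2)

/-- FIN (100 lines), uses S_GRA, S_BIJ, S_PGR, S_EXT, S_FB, S_HOM3.  The group `GW.W` is not commensurable to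
`(TT D₂).W`, `V₂` finite.  Given finite index subgroups `H₁, H₂` and an isomorphism, replace them by
finite index subgroups consisting of even elements: `H₁' = {x ∈ H₁ : x even, φ x even}` (evenness is the
kernel of a homomorphism to a finite group `E → ℤ/2`, so it has finite index; index of intersections and of
preimages).  S_GRA: `D₂` has no triangles, 4-cycles.  S_BIJ gives `B`, S_EXT `a`, S_FB `M₁, M₂` of the
same index `k ≠ 0`, isomorphic.  S_HOM3 twice: `3^(5k+2) = 3^(k n₂ + 2)`, where `5 = card` of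
the letters adjacent to `(c,false)` in `Pen` (`a.2.1 0 = (c,false)` by S_PGR; letters
`((c±1,false),·)`: 4, `((c,true),false)`: 1) and `n₂` = number of letters of the
link of `v₂` in `TT D₂` = 2 deg, even.  So `5 = n₂`, contradiction. -/
def S_FIN : Prop := ∀ (V₂ : Type) (_ : Finite V₂) (D₂ : SimpleGraph V₂) (H₁ : Subgroup GW.W)
  (H₂ : Subgroup (TT D₂).W), H₁.index ≠ 0 → H₂.index ≠ 0 → ¬ Nonempty (H₁ ≃* H₂)

/-! ## Part D: from Artin groups to doubled Coxeter groups -/

/-- QIA (100 lines).  A bijection between the doubled Coxeter group and the Artin group.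
Let `A = RAF Λ`, `K = (TT Λ).W`, `P = (Fin m → ℤ/2)` (multiplicative), acting on `A` by
`ρ_v : t_v ↦ t_v⁻¹`, `t_w ↦ t_w` (automorphism: the relations are preserved), `E = A ⋊ P`.  In `E` the elements
`t_v ρ_v`, `ρ_v t_v = t_v⁻¹ ρ_v` are involutions, and `t_v^{±1} ρ_v`, `t_w^{±1} ρ_w` commute if `v, w` are
adjacent.  So `(v,false) ↦ t_v ρ_v`, `(v,true) ↦ ρ_v t_v` defines `K →* E` (`RA.hom`).  Every element of `E` is
uniquely `a ρ`, `a ∈ A`, `ρ ∈ P`; let `ι x = ` the `A`-component of the image of `x`.  Then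
`ι (x s) = ι x * t_v^{±1}` (the sign depends on the `P`-component of `x` and on `s`; and both signs occur for the two
letters `s` of `v`).  Bijective: similarly `P` acts on `K` by `ρ_v` exchanging `(v,false)` and `(v,true)`,
`t_v ↦ (v,false) ρ_v` defines `A →* K ⋊ P`; the `K`-component of the image of `a` is the inverse map.  (Or:
injective and surjective directly: surjective by induction over words with the sign property; injective: the
composition of `K → E → K ⋊ P`, where `E = A ⋊ P → K ⋊ P` extends by the identity on `P`, is the inclusion: check on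
generators; if `ι x = ι y` then the images of `x, y` in `E` differ by an element of `P`, so `x⁻¹ y ∈ P ∩ K = 1`
in `K ⋊ P`.) -/
def S_QIA : Prop := ∀ (m : ℕ) (Λ : SimpleGraph (Fin m)), ∃ ι : (TT Λ).W ≃ RAF Λ,
  (∀ x s, ι (x * (TT Λ).g s) = ι x * PresentedGroup.of s.1.1 ∨
    ι (x * (TT Λ).g s) = ι x * (PresentedGroup.of s.1.1)⁻¹) ∧
  (∀ x (v : Fin m), (∃ s, ι (x * (TT Λ).g s) = ι x * PresentedGroup.of v) ∧
    (∃ s, ι (x * (TT Λ).g s) = ι x * (PresentedGroup.of v)⁻¹))

/-- COM (100 lines).  `A = RAF Λ` and `K = (TT Λ).W` are commensurable.  `E = A ⋊ P ≅ K ⋊ P` as in S_QIA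
(`P = Fin m → ℤ/2`): homomorphisms `K →* A ⋊ P` (injective, see S_QIA) whose image together with the finite group
`P` gives everything: every element of `E` is (image of `K`) times (element of `P`), so the image has finite index.
For `H ≤ A` of finite index, `H` (as a subgroup of `A ⋊ P`, `A` has finite index) has finite index in `E`;
`H' = ` preimage of `H` in `K` (elements of `K` whose image is in `inl H`) has finite index in `K`, and its image in
`H` is `H ∩ image of K`, of finite index in `H`. -/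
def S_COM : Prop := ∀ (m : ℕ) (Λ : SimpleGraph (Fin m)) (H : Subgroup (RAF Λ)), H.index ≠ 0 →
  ∃ H' : Subgroup (TT Λ).W, H'.index ≠ 0 ∧ ∃ f : H' →* H, Function.Injective f ∧
    f.range.index ≠ 0

/-! ## Part E: the quasi-isometry -/

/-- the doubled pentagon (letters `(i, b)`) -/
def KR : RA (ZMod 5 × Bool) where
  adj p q := q.1 = p.1 + 1 ∨ p.1 = q.1 + 1
  symm := fun h => h.symm
  irr := fun a h => by
    have h10 : (1 : ZMod 5) ≠ 0 := by decide
    rcases h with h | h <;> exact h10 (by simpa using h)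

/-- the vertex groups of the doubled pentagon -/
noncomputable def DK (j : ZMod 5) : Subgroup KR.W := Subgroup.closure {KR.g (j, false), KR.g (j, true)}

/-- the doubled pentagon with pendant letters `(j,c)`, `c : Q`, attached to the letters `(j,false)`,
`(j,true)` -/
def PG (Q : Type) : RA ((ZMod 5 × Bool) ⊕ (ZMod 5 × Q)) where
  adj p q := match p, q with
    | Sum.inl a, Sum.inl b => b.1 = a.1 + 1 ∨ a.1 = b.1 + 1
    | Sum.inl a, Sum.inr b => a.1 = b.1
    | Sum.inr a, Sum.inl b => a.1 = b.1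
    | Sum.inr _, Sum.inr _ => False
  symm := by
    rintro (a | a) (b | b) h
    · exact h.symm
    · exact h.symm
    · exact h.symm
    · exact h
  irr := by
    rintro (a | a) h
    · have h10 : (1 : ZMod 5) ≠ 0 := by decide
      rcases h with h | h <;> exact h10 (by simpa using h)
    · exact h

/-- BET (120 lines).  Let `D = D_j`.  A bijection `K/D → K/D × {0,1}` which moves every coset `k D` to a coset
`k e D`, `e = 1` or `e` one of the four letters `(j±1, ·)` (which commute with `D`).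
Right multiplication `k D ↦ k e D` by letters `e ∈ {(j±1,·)}` is well defined.  By
`Function.Embedding.schroeder_bernstein_of_rel` (or a direct argument) it is enough to have injections
`K/D → K/D × Bool` (`kD ↦ (kD, false)`) and `K/D × Bool → K/D` of displacement at most one letter.  For the second:
for `k` let `l_k` be the minimal length of the elements of `k D`.  Among the four letters `e ∈ {(j±1,·)}` at least three
satisfy `l_{k e} = l_k + 1`, the others `l_{ke} = l_k - 1` (choose `k` minimal in `k D`; `e` commutes with `D`; the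
descents of `k` among the four letters: two descents are equal or adjacent, `(j+1,·)` and `(j-1,·)` are not
adjacent, so at most one descent; and `k e` is again minimal in `k e D`).  Fix an order of the four letters and let
`e_0(kD)`, `e_1(kD)` be the first two increasing ones; `(kD, i) ↦ k e_i D` is injective: from `k' D` there is at
most one letter `e` (of the four) with `l_{k' e} < l_{k'}`, so `kD = k' e D` is determined and then `i`.
(The relation for `schroeder_bernstein_of_rel`: `R (kD) (k'D, i)` iff `k'D = k e D` for some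
`e ∈ {1, (j±1,·)}`; symmetric as the letters are involutions and commute with `D`.)
You may use any other proof, e.g. with displacement given by the relation below. -/
def S_BET : Prop := ∀ j : ZMod 5, ∃ β : (KR.W ⧸ DK j) ≃ (KR.W ⧸ DK j) × Bool,
  ∀ k : KR.W, ∃ e : KR.W, (e = 1 ∨ ∃ a : ZMod 5 × Bool, (a.1 = j + 1 ∨ j = a.1 + 1) ∧ e = KR.g a) ∧
    (β (k : KR.W ⧸ DK j)).1 = ((k * e : KR.W) : KR.W ⧸ DK j)

/-- the free product of groups of order two indexed by `Y` -/
def FR (Y : Type) : RA Y where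
  adj _ _ := False
  symm := fun h => h
  irr := fun _ h => h

/-- the index set of the free generators of the kernel of the retraction `PG Q → K` -/
abbrev YY (Q : Type) : Type := (Σ j : ZMod 5, KR.W ⧸ DK j) × Q

/-- SEM (150 lines).  `(PG Q).W` is the semidirect product `(free product of ℤ/2 over YY Q) ⋊ K`: there is a
bijection `Ψ` from pairs `(n, k)` with `n ∈ (FR (YY Q)).W`, `k ∈ K` such that right multiplication by letters is
`(n,k) (i,b) = (n, k (i,b))`, `(n,k) p_{j,c} = (n [(j, k D_j), c], k)`.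
`K` acts on `YY Q` by left multiplication on cosets, hence on `(FR (YY Q)).W` by permuting the generators
(`RA.hom`); form `S = (FR (YY Q)).W ⋊ K`.  Homomorphism `(PG Q).W → S`: `(i,b) ↦ (1, g (i,b))`,
`p_{j,c} ↦ ([(j, D_j), c], 1)`; relations: `(i,b)` and `p_{i,c}` commute as `(i,b) ∈ D_i`.  Homomorphism
`S → (PG Q).W` (`SemidirectProduct.lift`): `K → (PG Q).W` by letters; `[(j, k D_j), c] ↦ k p_{j,c} k⁻¹`
(well defined as `D_j` commutes with `p_{j,c}`; `RA.hom`).  They are inverse to each other (check on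
generators).  `Ψ (n,k) =` image of `(n,k) ∈ S`. -/
def S_SEM : Prop := ∀ Q : Type, ∃ Ψ : ((FR (YY Q)).W × KR.W) ≃ (PG Q).W,
  (∀ n k (a : ZMod 5 × Bool), Ψ (n, k) * (PG Q).g (Sum.inl a) = Ψ (n, k * KR.g a)) ∧
  (∀ n k (j : ZMod 5) (c : Q), Ψ (n, k) * (PG Q).g (Sum.inr (j, c)) =
    Ψ (n * (FR (YY Q)).g (⟨j, (k : KR.W ⧸ DK j)⟩, c), k))

/-- QIW (100 lines), uses S_BET, S_SEM.  The quasi-isometry.  `β_j` from S_BET give a bijection
`β : YY Unit ≃ YY Bool`, `(j, kD_j) ↦ (j, β_j (kD_j))`, hence an isomorphism (relabelling of the generators, `RA.hom` both ways)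
`θ : (FR (YY Unit)).W ≃ (FR (YY Bool)).W`.  Put `F (Ψ (n,k)) = Ψ' (θ n, k)`, a bijection.  `F (x a) = F x a` for
letters `a` of `K`.  For `x = Ψ (n,k)` and `p_j`: `x p_j = Ψ (n [kD_j], k)`,
`F (x p_j) = Ψ' (θ n [ (k e D_j, c) ], k)`, where `β_j (kD_j) = (k e D_j, c)`; and
`Ψ' (θ n, k) e p_{j,c} e⁻¹ = Ψ' (θ n, k e) p_{j,c} e⁻¹ = Ψ' (θ n [(k e D_j, c)], k e) e⁻¹
= Ψ' (θ n [(k e D_j,c)], k)`.  So `F (x p_j) = F x * e p_{j,c} e⁻¹`, at most 3 letters.
Conversely for `p_{j,c}`: let `β_j⁻¹ (kD_j, c) = k' D_j`, `k' e D_j = k D_j` with `e` a letter (an involution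
commuting with `D_j`) or `1`, so `k' D_j = k e D_j`, and `F (x e p_j e⁻¹) = F x p_{j,c}` by the same computation. -/
def S_QIW : Prop := ∃ F : (PG Unit).W ≃ (PG Bool).W,
  (∀ x s, ∃ l : List ((ZMod 5 × Bool) ⊕ (ZMod 5 × Bool)), l.length ≤ 3 ∧
    F (x * (PG Unit).g s) = F x * (PG Bool).ev l) ∧
  (∀ x s, ∃ l : List ((ZMod 5 × Bool) ⊕ (ZMod 5 × Unit)), l.length ≤ 3 ∧
    F (x * (PG Unit).ev l) = F x * (PG Bool).g s)

/-- REL (60 lines).  Relabelling: a bijection of letters preserving adjacency induces an isomorphism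
(`RA.hom` both ways). -/
def S_REL : Prop := ∀ (E E' : Type) (G : RA E) (G' : RA E') (e : E ≃ E'),
  (∀ a b, G.adj a b ↔ G'.adj (e a) (e b)) → ∃ f : G.W ≃* G'.W, ∀ a, f (G.g a) = G'.g (e a)

/-- PRE (60 lines).  The presented group of the frozen statement is the group of `Helper2GI`
(`PresentedGroup.toGroup` one way, `RA.hom` the other way). -/
def S_PRE : Prop := ∀ (n : ℕ) (Γ : SimpleGraph (Fin n)) (G : RA (Fin n)),
  (∀ a b, G.adj a b ↔ Γ.Adj a b) → ∃ f : RCF Γ ≃* G.W, ∀ a, f (PresentedGroup.of a) = G.g a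

end Pool.Agent.H56Q
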